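import Pool.Agent.MP_b1d3ea_lc.Internal

/-!
# The internal statement: a unique Q-point, which is not Ramsey

All notions are the usual set-theoretic ones, relativised to a structure `(M, E)` for the language of set
theory (to be used in models of ZFC).  `IsOmega`, `IsFun`, `IsFinite`, `PairMem` (the set of natural
numbers, functions, finite sets, `(a, b) ∈ R`) are those of `Pool.Agent.MP_b1d3ea_lc.Internal`.
-/

set_option autoImplicit false

namespace Pool.Agent.QPt

open Pool.Agent.StarHur

variable {M : Type*} (E : M → M → Prop)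

/-- `u` is a nonprincipal ultrafilter on `w`: a family of subsets of `w`, closed under supersets and
intersections, containing `a` or its complement for every `a ⊆ w`, with no finite member. -/
def IsUltra (w u : M) : Prop :=
  (∀ a, E a u → ∀ k, E k a → E k w) ∧
  (∀ a b, E a u → (∀ k, E k b → E k w) → (∀ k, E k a → E k b) → E b u) ∧
  (∀ a b c, E a u → E b u → (∀ k, E k c ↔ E k a ∧ E k b) → E c u) ∧
  (∀ a b, (∀ k, E k a → E k w) → (∀ k, E k b ↔ E k w ∧ ¬ E k a) → E a u ∨ E b u) ∧
  ∀ a, E a u → ¬ IsFinite E w a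

/-- `P` is a partition of `w` (a set of nonempty subsets of `w` such that each element of `w` is in exactly
one of them). -/
def IsPartition (w P : M) : Prop :=
  (∀ p, E p P → (∃ k, E k p) ∧ ∀ k, E k p → E k w) ∧
  ∀ k, E k w → ∃ p, (E p P ∧ E k p) ∧ ∀ q, E q P → E k q → q = p

/-- `X` meets every piece of `P` in at most one point. -/
def IsSelector (P X : M) : Prop := ∀ p, E p P → ∀ i j, E i X → E j X → E i p → E j p → i = j

/-- `u` is a Q-point on `w`. -/
def IsQPoint (w u : M) : Prop :=
  IsUltra E w u ∧ ∀ P, IsPartition E w P → (∀ p, E p P → IsFinite E w p) →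
    ∃ X, E X u ∧ IsSelector E P X

/-- `u` is a Ramsey ultrafilter on `w`. -/
def IsRamsey (w u : M) : Prop :=
  IsUltra E w u ∧ ∀ P, IsPartition E w P → (∀ p, E p P → ¬ E p u) → ∃ X, E X u ∧ IsSelector E P X

/-- `f` is a bijection from `w` to `w`. -/
def IsBij (w f : M) : Prop :=
  IsFun E f w w ∧ (∀ i j k, PairMem E i k f → PairMem E j k f → i = j) ∧
    ∀ k, E k w → ∃ i, E i w ∧ PairMem E i k f

/-- the ultrafilters `u` and `v` on `w` are isomorphic: `v = {f[X] : X ∈ u}` for some bijection `f` of
`w` -/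
def IsIso (w u v : M) : Prop :=
  ∃ f, IsBij E w f ∧ ∀ Y, E Y v ↔ ∃ X, E X u ∧ ∀ k, E k Y ↔ ∃ i, E i X ∧ PairMem E i k f

/-- In `(M, E)` there is, up to isomorphism, exactly one Q-point, and it is not Ramsey. -/
def HasUniqueNonRamseyQPoint : Prop :=
  ∃ w u : M, IsOmega E w ∧ IsQPoint E w u ∧ ¬ IsRamsey E w u ∧ ∀ v, IsQPoint E w v → IsIso E w u v

end Pool.Agent.QPt
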