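import Pool.Agent.QPt.Defs

/-!
# The Boolean-algebra core
-/

set_option autoImplicit false

namespace Pool.Agent.QPt

/-- Boolean biconditional -/
def bi {𝔹 : Type} [CompleteBooleanAlgebra 𝔹] (a b : 𝔹) : 𝔹 := (a ⇨ b) ⊓ (b ⇨ a)

/-- below `b`, the Boolean-valued family `V` is a nonprincipal ultrafilter and, for every infinite `Y`, some
member of `V` has an element of `Y` between any two of its elements. -/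
structure IsQV {𝔹 : Type} [CompleteBooleanAlgebra 𝔹] (V : (ℕ → 𝔹) → 𝔹) (b : 𝔹) : Prop where
  up : ∀ A B : ℕ → 𝔹, b ⊓ ((⨅ m, (A m ⇨ B m)) ⊓ V A) ≤ V B
  inter : ∀ A B : ℕ → 𝔹, b ⊓ (V A ⊓ V B) ≤ V (fun m => A m ⊓ B m)
  ultra : ∀ A : ℕ → 𝔹, b ≤ V A ⊔ V (fun m => (A m)ᶜ)
  inf : ∀ (A : ℕ → 𝔹) (n : ℕ), b ⊓ V A ≤ ⨆ k, ⨆ _ : n ≤ k, A k
  Q : ∀ Y : ℕ → 𝔹, b ⊓ (⨅ n : ℕ, ⨆ k, ⨆ _ : n ≤ k, Y k) ≤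
    ⨆ A : ℕ → 𝔹, V A ⊓ ⨅ m, ⨅ m', ⨅ _ : m < m', (A m ⊓ A m') ⇨ ⨆ y, ⨆ _ : m < y ∧ y ≤ m', Y y

/-- the Boolean value of: `g` is a bijection and `V` is the image of `U` under `g` -/
def isoVal {𝔹 : Type} [CompleteBooleanAlgebra 𝔹] (U V : (ℕ → 𝔹) → 𝔹) (g : ℕ → ℕ → 𝔹) : 𝔹 :=
  (((⨅ i, ⨆ j, g i j) ⊓ (⨅ j, ⨆ i, g i j)) ⊓
    ((⨅ i, ⨅ j, ⨅ k, ⨅ _ : j ≠ k, (g i j ⊓ g i k)ᶜ) ⊓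
      (⨅ i, ⨅ j, ⨅ k, ⨅ _ : i ≠ j, (g i k ⊓ g j k)ᶜ))) ⊓
  ⨅ A : ℕ → 𝔹, bi (U A) (V (fun j => ⨆ i, g i j ⊓ A i))

/-- The properties of the Boolean value `U A` of `A ∈ U` needed for the model. -/
structure QCore (𝔹 : Type) [CompleteBooleanAlgebra 𝔹] (U : (ℕ → 𝔹) → 𝔹) : Prop where
  up : ∀ A B : ℕ → 𝔹, (⨅ m, (A m ⇨ B m)) ⊓ U A ≤ U B
  inter : ∀ A B : ℕ → 𝔹, U A ⊓ U B ≤ U (fun m => A m ⊓ B m)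
  ultra : ∀ A : ℕ → 𝔹, U A ⊔ U (fun m => (A m)ᶜ) = ⊤
  inf : ∀ (A : ℕ → 𝔹) (n : ℕ), U A ≤ ⨆ k, ⨆ _ : n ≤ k, A k
  Q : ∀ ρ : ℕ → ℕ → 𝔹, (⨅ i, ⨆ N : ℕ, ⨅ j, ⨅ _ : N ≤ j, (ρ i j)ᶜ) ≤
    ⨆ A : ℕ → 𝔹, U A ⊓ ⨅ i, ⨅ j, ⨅ _ : i < j, (A i ⊓ A j ⊓ ρ i j)ᶜ
  col : ∀ n, U (fun m => if lam m = n then ⊤ else ⊥) = ⊥
  two : ∀ A : ℕ → 𝔹, U A ≤ ⨆ i, ⨆ j, ⨆ _ : i < j ∧ lam i = lam j, A i ⊓ A j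
  uniq : ∀ (V : (ℕ → 𝔹) → 𝔹) (b : 𝔹), IsQV V b → b ≤ ⨆ g : ℕ → ℕ → 𝔹, isoVal U V g

end Pool.Agent.QPt
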