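import Pool.Agent.MP_b1d3ea_lc.Names
import Pool.Agent.QPt.Internal
import Pool.Agent.QPt.QCoreDefs

/-!
# Boolean values of the internal notions
-/

set_option autoImplicit false

namespace Pool.Agent.QPt

open Pool.Agent.BVM Pool.Agent.StarHur

variable {𝔹 : Type} [CompleteBooleanAlgebra 𝔹]

def bUltra (w u : BSet 𝔹) : 𝔹 :=
  (⨅ a, bmem a u ⇨ ⨅ k, bmem k a ⇨ bmem k w) ⊓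
  ((⨅ a, ⨅ b, bmem a u ⇨ (⨅ k, bmem k b ⇨ bmem k w) ⇨ (⨅ k, bmem k a ⇨ bmem k b) ⇨ bmem b u) ⊓
  ((⨅ a, ⨅ b, ⨅ c, bmem a u ⇨ bmem b u ⇨ (⨅ k, biff (bmem k c) (bmem k a ⊓ bmem k b)) ⇨ bmem c u) ⊓
  ((⨅ a, ⨅ b, (⨅ k, bmem k a ⇨ bmem k w) ⇨ (⨅ k, biff (bmem k b) (bmem k w ⊓ (bmem k a)ᶜ)) ⇨
    bmem a u ⊔ bmem b u) ⊓
  ⨅ a, bmem a u ⇨ (bFinite w a)ᶜ)))

def bPartition (w P : BSet 𝔹) : 𝔹 :=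
  (⨅ p, bmem p P ⇨ (⨆ k, bmem k p) ⊓ ⨅ k, bmem k p ⇨ bmem k w) ⊓
  ⨅ k, bmem k w ⇨ ⨆ p, (bmem p P ⊓ bmem k p) ⊓ ⨅ q, bmem q P ⇨ bmem k q ⇨ beq q p

def bSelector (P X : BSet 𝔹) : 𝔹 :=
  ⨅ p, bmem p P ⇨ ⨅ i, ⨅ j, bmem i X ⇨ bmem j X ⇨ bmem i p ⇨ bmem j p ⇨ beq i j

def bQPoint (w u : BSet 𝔹) : 𝔹 :=
  bUltra w u ⊓ ⨅ P, bPartition w P ⇨ (⨅ p, bmem p P ⇨ bFinite w p) ⇨ ⨆ X, bmem X u ⊓ bSelector P X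

def bRamsey (w u : BSet 𝔹) : 𝔹 :=
  bUltra w u ⊓ ⨅ P, bPartition w P ⇨ (⨅ p, bmem p P ⇨ (bmem p u)ᶜ) ⇨ ⨆ X, bmem X u ⊓ bSelector P X

def bBij (w f : BSet 𝔹) : 𝔹 :=
  bFun f w w ⊓ ((⨅ i, ⨅ j, ⨅ k, bPM i k f ⇨ bPM j k f ⇨ beq i j) ⊓
    ⨅ k, bmem k w ⇨ ⨆ i, bmem i w ⊓ bPM i k f)

def bIso (w u v : BSet 𝔹) : 𝔹 :=
  ⨆ f, bBij w f ⊓ ⨅ Y, biff (bmem Y v) (⨆ X, bmem X u ⊓ ⨅ k, biff (bmem k Y) (⨆ i, bmem i X ⊓ bPM i k f))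

/-- the name of a set of natural numbers -/
def subN (A : ℕ → 𝔹) : BSet 𝔹 := ⟨ℕ, num, A⟩

/-- the name of the ultrafilter -/
def ultraN (U : (ℕ → 𝔹) → 𝔹) : BSet 𝔹 := ⟨ℕ → 𝔹, subN, U⟩

/-- the Boolean value of membership in the set `v` of a set of natural numbers -/
def memV (v : BSet 𝔹) (A : ℕ → 𝔹) : 𝔹 := bmem (subN A) v

end Pool.Agent.QPt
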