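import Pool.Agent.QPt.Defs

/-!
# Bodies of conditions are closed
-/

set_option autoImplicit false
set_option linter.unusedSectionVars false

namespace Pool.Agent.QPt

open Set

variable {I : Type} [LinearOrder I] [WellFoundedLT I]

theorem Cond.body_closed (p : Cond I) (x : Pt I)
    (h : ∀ F : Finset I, (F : Set I) ⊆ p.w → ∀ n, ∃ y ∈ p.body, Agree (F : Set I) n x y) :
    x ∈ p.body := by
  classical
  have key : ∀ β, β ∈ p.w → x β ∈ Fib (p.s β x) (p.y β x) := by
    intro β
    induction β using (wellFounded_lt (α := I)).induction with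
    | _ β ih =>
      intro hβ
      have hx : x ∈ p.dom (Iio β) := fun γ hγ hγβ => ih γ hγβ hγ
      obtain ⟨F0, hF0, n0, h0⟩ := p.hs β hβ x hx
      have hy := fun k => p.hy β hβ k x hx
      choose G hG m hm using hy
      have happ : ∀ N M, ∃ y ∈ p.body, (∀ i < N, x β i = y β i) ∧ p.s β y = p.s β x ∧
          ∀ k < M, p.y β y k = p.y β x k := by
        intro N M
        have hF : ((insert β (F0 ∪ (Finset.range M).biUnion G) : Finset I) : Set I) ⊆ p.w := by
          intro γ hγ
          simp only [Finset.coe_insert, Finset.coe_union, Finset.coe_biUnion, Set.mem_insert_iff,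
            Set.mem_union, Set.mem_iUnion] at hγ
          rcases hγ with rfl | hγ | ⟨k, _, hγ⟩
          · exact hβ
          · exact (hF0 hγ).1
          · exact (hG k hγ).1
        obtain ⟨y, hy, hA⟩ := h _ hF (N + n0 + (Finset.range M).sup m)
        have hyd : y ∈ p.dom (Iio β) := fun γ hγ _ => hy γ hγ trivial
        refine ⟨y, hy, ?_, ?_, ?_⟩
        · intro i hi
          exact hA β (by simp) i (by omega)
        · refine h0 y hyd ?_
          intro γ hγ i hi
          exact hA γ (by simp [Finset.mem_coe.1 hγ]) i (by omega)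
        · intro k hk
          refine hm k y hyd ?_
          intro γ hγ i hi
          have h2 : m k ≤ (Finset.range M).sup m := Finset.le_sup (f := m) (Finset.mem_range.2 hk)
          refine hA γ ?_ i (by omega)
          simp only [Finset.coe_insert, Finset.coe_union, Finset.coe_biUnion, Set.mem_insert_iff,
            Set.mem_union, Set.mem_iUnion]
          exact Or.inr (Or.inr ⟨k, by simpa using hk, hγ⟩)
      refine ⟨⟨?_, ?_⟩, ?_, ?_⟩
      · intro i j hij
        obtain ⟨y, hy, h3, -, -⟩ := happ (j + 1) 0
        rw [h3 i (by omega), h3 j (by omega)]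
        exact (hy β hβ trivial).1.1 hij
      · intro i
        obtain ⟨y, hy, h3, -, -⟩ := happ (i + 1) 0
        rw [h3 i (by omega)]
        exact (hy β hβ trivial).1.2 i
      · obtain ⟨y, hy, h3, h4, -⟩ := happ (p.s β x).length 0
        have h5 := (hy β hβ trivial).2.1
        rw [h4] at h5
        refine Eq.trans ?_ h5
        unfold pre
        refine List.map_congr_left ?_
        intro i hi
        exact h3 i (List.mem_range.1 hi)
      · intro i hi
        obtain ⟨y, hy, h3, h4, h5⟩ := happ (i + 1) (x β i + 1)
        have h6 := (hy β hβ trivial).2.2 i (by rw [h4]; exact hi)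
        obtain ⟨k, hk⟩ := h6
        have hyd : y ∈ p.dom (Iio β) := fun γ hγ _ => hy γ hγ trivial
        have h7 : k ≤ p.y β y k := (p.hK β hβ y hyd).1.le_apply
        refine ⟨k, ?_⟩
        rw [← h5 k (by rw [h3 i (by omega)]; omega), hk, h3 i (by omega)]
  exact fun β hβ _ => key β hβ

end Pool.Agent.QPt
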