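import Pool.Agent.QPt.Defs

/-!
# Branches (module BR of MP_04bc06_lc)
-/

set_option autoImplicit false
set_option linter.unusedSectionVars false
set_option linter.unusedVariables false

namespace Pool.Agent.QPt

open Set

theorem id_mem_K : (fun n : ℕ => n) ∈ K := ⟨strictMono_id, fun _ => rfl⟩

theorem K_le {z : ℕ → ℕ} (hz : z ∈ K) (k : ℕ) : k ≤ z k := hz.1.le_apply

/-- every column is infinite -/
theorem exists_lam (n N : ℕ) : ∃ k, N ≤ k ∧ lam k = n :=
  ⟨Nat.pair n N, Nat.right_le_pair n N, by simp [lam]⟩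

theorem fat_univ : Fat univ := by
  intro n N
  obtain ⟨k, hk, hk'⟩ := exists_lam n N
  exact ⟨k, mem_univ _, hk, hk'⟩

theorem fat_range {y : ℕ → ℕ} (hy : y ∈ K) : Fat (range y) := by
  intro n N
  obtain ⟨k, hk, hk'⟩ := exists_lam n N
  exact ⟨y k, ⟨k, rfl⟩, hk.trans (K_le hy k), by rw [hy.2 k, hk']⟩

theorem Fat.mono {A B : Set ℕ} (hA : Fat A) (h : A ⊆ B) : Fat B := by
  intro n N
  obtain ⟨a, ha, h1, h2⟩ := hA n N
  exact ⟨a, h ha, h1, h2⟩

theorem Fat.tail {A : Set ℕ} (hA : Fat A) (N : ℕ) : Fat {a | a ∈ A ∧ N ≤ a} := by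
  intro n M
  obtain ⟨a, ha, h1, h2⟩ := hA n (max N M)
  exact ⟨a, ⟨ha, (le_max_left _ _).trans h1⟩, (le_max_right _ _).trans h1, h2⟩

theorem Fat.infinite {A : Set ℕ} (hA : Fat A) : A.Infinite := by
  refine Set.infinite_of_forall_exists_gt fun a => ?_
  obtain ⟨b, hb, h1, _⟩ := hA 0 (a + 1)
  exact ⟨b, hb, h1⟩

theorem length_pre (z : ℕ → ℕ) (m : ℕ) : (pre z m).length = m := by
  simp [pre]

theorem pre_eq_iff (z y : ℕ → ℕ) (m : ℕ) : pre z m = pre y m ↔ ∀ i < m, z i = y i := by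
  unfold pre
  rw [List.map_inj_left]
  simp

theorem pre_getD (z : ℕ → ℕ) (m i : ℕ) (h : i < m) : (pre z m).getD i 0 = z i := by
  unfold pre
  rw [List.getD_eq_getElem?_getD]
  simp [h]

theorem pre_succ (z : ℕ → ℕ) (m : ℕ) : pre z (m + 1) = pre z m ++ [z m] := by
  simp [pre, List.range_succ]

theorem mem_pre {z : ℕ → ℕ} {m a : ℕ} : a ∈ pre z m ↔ ∃ i < m, z i = a := by
  simp [pre]

theorem Fib_nil_id : Fib [] (fun n : ℕ => n) = K := by
  ext z
  constructor
  · exact fun h => h.1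
  · intro h
    exact ⟨h, rfl, fun i _ => ⟨z i, rfl⟩⟩

theorem isStem_nil : IsStem [] := ⟨fun n => n, id_mem_K, rfl⟩

theorem isStem_pre {z : ℕ → ℕ} (hz : z ∈ K) (m : ℕ) : IsStem (pre z m) :=
  ⟨z, hz, by rw [length_pre]⟩

theorem nxt_spec {A : Set ℕ} (hA : Fat A) (L n : ℕ) :
    nxt A L n ∈ A ∧ L ≤ nxt A L n ∧ lam (nxt A L n) = n := by
  have hne : {a | a ∈ A ∧ L ≤ a ∧ lam a = n}.Nonempty := by
    obtain ⟨a, h1, h2, h3⟩ := hA n L
    exact ⟨a, h1, h2, h3⟩
  exact Nat.sInf_mem hne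

theorem nxt_le {A : Set ℕ} {L n a : ℕ} (h : a ∈ A) (hL : L ≤ a) (hn : lam a = n) :
    nxt A L n ≤ a := Nat.sInf_le ⟨h, hL, hn⟩

theorem nxt_local {A B : Set ℕ} (hA : Fat A) (L n : ℕ)
    (h : ∀ m < nxt A L n + 1, (m ∈ B ↔ m ∈ A)) : nxt B L n = nxt A L n := by
  obtain ⟨h1, h2, h3⟩ := nxt_spec hA L n
  have hB : nxt A L n ∈ B := (h _ (Nat.lt_succ_self _)).2 h1
  have hle : nxt B L n ≤ nxt A L n := nxt_le hB h2 h3
  have hne : {a | a ∈ B ∧ L ≤ a ∧ lam a = n}.Nonempty := ⟨nxt A L n, hB, h2, h3⟩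
  have hmem : nxt B L n ∈ {a | a ∈ B ∧ L ≤ a ∧ lam a = n} := Nat.sInf_mem hne
  have hA' : nxt B L n ∈ A := (h _ (Nat.lt_succ_of_le hle)).1 hmem.1
  exact le_antisymm hle (nxt_le hA' hmem.2.1 hmem.2.2)

namespace Branch

/-- combinatorial description of stems -/
def Good (s : List ℕ) : Prop :=
  (∀ i < s.length, lam (s.getD i 0) = lam i) ∧ ∀ i, i + 1 < s.length → s.getD i 0 < s.getD (i + 1) 0

theorem good_of_isStem {s : List ℕ} (hs : IsStem s) : Good s := by
  obtain ⟨z, hz, hzs⟩ := hs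
  constructor
  · intro i hi
    rw [← hzs, pre_getD _ _ _ hi]
    exact hz.2 i
  · intro i hi
    have h1 : s.getD i 0 = z i := by rw [← hzs, pre_getD _ _ _ (by omega)]
    have h2 : s.getD (i + 1) 0 = z (i + 1) := by rw [← hzs, pre_getD _ _ _ hi]
    rw [h1, h2]
    exact hz.1 (Nat.lt_succ_self i)

theorem zm_of_lt (s : List ℕ) (A : Set ℕ) {i : ℕ} (h : i < s.length) : zm s A i = s.getD i 0 := by
  cases i with
  | zero => rw [zm, if_pos h]
  | succ i => rw [zm, if_pos h]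

theorem zm_zero (s : List ℕ) (A : Set ℕ) (h : ¬ 0 < s.length) : zm s A 0 = nxt A 0 (lam 0) := by
  rw [zm, if_neg h]

theorem zm_succ (s : List ℕ) (A : Set ℕ) {i : ℕ} (h : ¬ i + 1 < s.length) :
    zm s A (i + 1) = nxt A (zm s A i + 1) (lam (i + 1)) := by
  rw [zm, if_neg h]

theorem zm_mem_K' {s : List ℕ} {A : Set ℕ} (hs : Good s) (hA : Fat A) : zm s A ∈ K := by
  constructor
  · refine strictMono_nat_of_lt_succ fun i => ?_
    by_cases h : i + 1 < s.length
    · rw [zm_of_lt s A h, zm_of_lt s A (by omega : i < s.length)]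
      exact hs.2 i h
    · rw [zm_succ s A h]
      exact (nxt_spec hA _ _).2.1
  · intro i
    by_cases h : i < s.length
    · rw [zm_of_lt s A h]
      exact hs.1 i h
    · cases i with
      | zero => rw [zm_zero s A h]; exact (nxt_spec hA _ _).2.2
      | succ i => rw [zm_succ s A h]; exact (nxt_spec hA _ _).2.2

theorem zm_pre' (s : List ℕ) (A : Set ℕ) : pre (zm s A) s.length = s := by
  refine List.ext_getElem (length_pre _ _) fun i h1 h2 => ?_
  have h3 : (pre (zm s A) s.length).getD i 0 = s.getD i 0 := by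
    rw [pre_getD _ _ _ h2, zm_of_lt s A h2]
  rwa [List.getD_eq_getElem _ _ h1, List.getD_eq_getElem _ _ h2] at h3

theorem isStem_of_good {s : List ℕ} (hs : Good s) : IsStem s :=
  ⟨zm s univ, zm_mem_K' hs fat_univ, zm_pre' s univ⟩

end Branch

theorem isStem_append {s : List ℕ} {e : ℕ} (hs : IsStem s) (he : lam e = lam s.length)
    (h : ∀ a ∈ s, a < e) : IsStem (s ++ [e]) := by
  have hg := Branch.good_of_isStem hs
  have hlen : (s ++ [e]).length = s.length + 1 := by simp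
  have h1 : ∀ i < s.length, (s ++ [e]).getD i 0 = s.getD i 0 := fun i hi =>
    List.getD_append _ _ _ _ hi
  have h2 : (s ++ [e]).getD s.length 0 = e := by
    rw [List.getD_append_right _ _ _ _ le_rfl]
    simp
  refine Branch.isStem_of_good ⟨fun i hi => ?_, fun i hi => ?_⟩
  · rw [hlen] at hi
    rcases Nat.lt_succ_iff_lt_or_eq.1 hi with h' | h'
    · rw [h1 i h']
      exact hg.1 i h'
    · subst h'
      rw [h2, he]
  · rw [hlen] at hi
    have hi' : i < s.length := by omega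
    rw [h1 i hi']
    rcases Nat.lt_succ_iff_lt_or_eq.1 hi with h' | h'
    · rw [h1 _ h']
      exact hg.2 i h'
    · rw [h', h2]
      refine h _ ?_
      rw [List.getD_eq_getElem _ _ hi']
      exact List.getElem_mem _

namespace Branch

theorem pre_take (z : ℕ → ℕ) {m n : ℕ} (h : m ≤ n) : (pre z n).take m = pre z m := by
  unfold pre
  rw [← List.map_take, List.take_range, min_eq_left h]

theorem pre_prefix (z : ℕ → ℕ) {m n : ℕ} (h : m ≤ n) : pre z m <+: pre z n := by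
  rw [← pre_take z h]
  exact List.take_prefix _ _

theorem pre_of_pre_append {z : ℕ → ℕ} {s t : List ℕ} (h : pre z (s ++ t).length = s ++ t) :
    pre z s.length = s := by
  rw [← pre_take z (show s.length ≤ (s ++ t).length by simp), h]
  simp

end Branch

theorem isStem_of_append {s t : List ℕ} (hs : IsStem (s ++ t)) : IsStem s := by
  obtain ⟨z, hz, hzs⟩ := hs
  exact ⟨z, hz, Branch.pre_of_pre_append hzs⟩

/-- the least branch -/
theorem zm_mem_K {s : List ℕ} {A : Set ℕ} (hs : IsStem s) (hA : Fat A) : zm s A ∈ K :=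
  Branch.zm_mem_K' (Branch.good_of_isStem hs) hA

theorem zm_pre {s : List ℕ} {A : Set ℕ} (hs : IsStem s) (hA : Fat A) :
    pre (zm s A) s.length = s := Branch.zm_pre' s A

theorem zm_mem {s : List ℕ} {A : Set ℕ} (hs : IsStem s) (hA : Fat A) (i : ℕ) (hi : s.length ≤ i) :
    zm s A i ∈ A := by
  cases i with
  | zero => rw [Branch.zm_zero s A (by omega)]; exact (nxt_spec hA _ _).1
  | succ i => rw [Branch.zm_succ s A (by omega)]; exact (nxt_spec hA _ _).1

/-- the values of `zm` depend on finitely many memberships -/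
theorem zm_local {s : List ℕ} {A : Set ℕ} (hs : IsStem s) (hA : Fat A) (i : ℕ) :
    ∃ N, ∀ B : Set ℕ, (∀ m < N, (m ∈ B ↔ m ∈ A)) → zm s B i = zm s A i := by
  induction i with
  | zero =>
    refine ⟨nxt A 0 (lam 0) + 1, fun B hB => ?_⟩
    by_cases h : 0 < s.length
    · rw [Branch.zm_of_lt s B h, Branch.zm_of_lt s A h]
    · rw [Branch.zm_zero s B h, Branch.zm_zero s A h]
      exact nxt_local hA _ _ hB
  | succ i ih =>
    obtain ⟨N, hN⟩ := ih
    refine ⟨max N (nxt A (zm s A i + 1) (lam (i + 1)) + 1), fun B hB => ?_⟩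
    by_cases h : i + 1 < s.length
    · rw [Branch.zm_of_lt s B h, Branch.zm_of_lt s A h]
    · rw [Branch.zm_succ s B h, Branch.zm_succ s A h,
        hN B fun m hm => hB m (hm.trans_le (le_max_left _ _))]
      exact nxt_local hA _ _ fun m hm => hB m (hm.trans_le (le_max_right _ _))

theorem zm_mem_Fib {s : List ℕ} {y : ℕ → ℕ} (hs : IsStem s) (hy : y ∈ K) :
    zm s (range y) ∈ Fib s y :=
  ⟨zm_mem_K hs (fat_range hy), zm_pre hs (fat_range hy), fun i hi => zm_mem hs (fat_range hy) i hi⟩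

/-- a branch with all values in `A`, starting with the stem `s` if `s` has values in `A` -/
theorem range_zm_nil {A : Set ℕ} (hA : Fat A) : range (zm [] A) ⊆ A := by
  rintro _ ⟨i, rfl⟩
  exact zm_mem isStem_nil hA i (Nat.zero_le _)

theorem Fib_subset {s : List ℕ} {y y' z : ℕ → ℕ} (hz : z ∈ Fib s y) {m : ℕ} (hm : s.length ≤ m)
    (hy' : range y' ⊆ range y) : Fib (pre z m) y' ⊆ Fib s y := by
  rintro z' ⟨h1, h2, h3⟩
  rw [length_pre] at h2 h3
  rw [pre_eq_iff] at h2
  refine ⟨h1, ?_, fun i hi => ?_⟩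
  · have h4 := hz.2.1
    conv_rhs => rw [← h4]
    rw [pre_eq_iff]
    exact fun i hi => h2 i (hi.trans_le hm)
  · by_cases hi' : i < m
    · rw [h2 i hi']
      exact hz.2.2 i hi
    · exact hy' (h3 i (not_lt.1 hi'))

theorem Fib_mono_right {s : List ℕ} {y y' : ℕ → ℕ} (hy' : range y' ⊆ range y) :
    Fib s y' ⊆ Fib s y := fun _ hz => ⟨hz.1, hz.2.1, fun i hi => hy' (hz.2.2 i hi)⟩

theorem mem_Fib_pre {s : List ℕ} {y z : ℕ → ℕ} (hz : z ∈ Fib s y) {m : ℕ} (hm : s.length ≤ m)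
    (z' : ℕ → ℕ) : z' ∈ Fib (pre z m) y ↔ z' ∈ Fib s y ∧ ∀ i < m, z' i = z i := by
  constructor
  · intro h
    refine ⟨Fib_subset hz hm Subset.rfl h, ?_⟩
    have h2 := h.2.1
    rw [length_pre, pre_eq_iff] at h2
    exact h2
  · rintro ⟨h, h'⟩
    refine ⟨h.1, ?_, fun i hi => ?_⟩
    · rw [length_pre, pre_eq_iff]
      exact h'
    · rw [length_pre] at hi
      exact h.2.2 i (hm.trans hi)

theorem mem_Fib_append {s t : List ℕ} {y z : ℕ → ℕ} (hz : z ∈ Fib (s ++ t) y)
    (ht : ∀ a ∈ t, a ∈ range y) : z ∈ Fib s y := by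
  refine ⟨hz.1, Branch.pre_of_pre_append hz.2.1, fun i hi => ?_⟩
  by_cases h : i < (s ++ t).length
  · have h1 : z i = (s ++ t).getD i 0 := by
      rw [← pre_getD z _ i h, hz.2.1]
    rw [h1, List.getD_append_right _ _ _ _ hi]
    rw [List.length_append] at h
    rw [List.getD_eq_getElem _ _ (by omega)]
    exact ht _ (List.getElem_mem _)
  · exact hz.2.2 i (not_lt.1 h)

namespace Branch

/-- every value beyond the greedy branch is reached -/
theorem reach {s : List ℕ} {y : ℕ → ℕ} (hs : IsStem s) (hy : y ∈ K) {i m : ℕ} (hi : s.length ≤ i)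
    (hm : m ∈ range y) (hl : lam m = lam i) (hle : zm s (range y) i ≤ m) :
    ∃ z ∈ Fib s y, z i = m ∧ ∀ j < i, z j = zm s (range y) j := by
  have hz0 := zm_mem_Fib hs hy
  set z0 := zm s (range y) with hz0d
  have hst : IsStem (pre z0 i ++ [m]) := by
    refine isStem_append (isStem_pre hz0.1 i) (by rw [length_pre, hl]) fun a ha => ?_
    obtain ⟨j, hj, rfl⟩ := mem_pre.1 ha
    exact (hz0.1.1 hj).trans_le hle
  have h1 : zm (pre z0 i ++ [m]) (range y) ∈ Fib (pre z0 i ++ [m]) y := zm_mem_Fib hst hy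
  have h2 : zm (pre z0 i ++ [m]) (range y) ∈ Fib (pre z0 i) y :=
    mem_Fib_append h1 fun a ha => by rw [List.mem_singleton] at ha; rw [ha]; exact hm
  have h3 := (mem_Fib_pre hz0 hi _).1 h2
  refine ⟨_, h3.1, ?_, h3.2⟩
  have h4 : i < (pre z0 i ++ [m]).length := by
    rw [List.length_append, length_pre]
    simp
  rw [zm_of_lt _ _ h4, List.getD_append_right _ _ _ _ (by rw [length_pre]), length_pre]
  simp

end Branch

/-- a smaller set of branches has a longer stem -/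
theorem prefix_of_Fib_subset {s s' : List ℕ} {y y' : ℕ → ℕ} (hs' : IsStem s') (hy' : y' ∈ K)
    (h : Fib s' y' ⊆ Fib s y) : s <+: s' := by
  have hz0 := zm_mem_Fib hs' hy'
  set z0 := zm s' (range y') with hz0d
  have h1 := (h hz0).2.1
  by_cases hlen : s.length ≤ s'.length
  · have h2 := Branch.pre_prefix z0 hlen
    rwa [h1, hz0.2.1] at h2
  · exfalso
    push Not at hlen
    obtain ⟨e, he1, he2, he3⟩ := fat_range hy' (lam s'.length) (z0 s'.length + 1)
    obtain ⟨z, hz, hze, _⟩ := Branch.reach hs' hy' le_rfl he1 he3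
      (show z0 s'.length ≤ e by omega)
    have h3 := (h hz).2.1
    have h4 : pre z s.length = pre z0 s.length := by rw [h3, h1]
    rw [pre_eq_iff] at h4
    have h5 := h4 s'.length hlen
    omega

/-- in every column all but finitely many elements of `range y` are values of branches in `Fib s y` -/
theorem unreach_finite {s : List ℕ} {y : ℕ → ℕ} (hs : IsStem s) (hy : y ∈ K) (n : ℕ) :
    {m | m ∈ range y ∧ lam m = n ∧ ∀ z ∈ Fib s y, ∀ i, s.length ≤ i → z i ≠ m}.Finite := by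
  obtain ⟨i, hi, hin⟩ := exists_lam n s.length
  refine (Set.finite_lt_nat (zm s (range y) i)).subset ?_
  rintro m ⟨h1, h2, h3⟩
  by_contra hlt
  simp only [Set.mem_ofPred_eq, not_lt] at hlt
  obtain ⟨z, hz, hzi, _⟩ := Branch.reach hs hy hi h1 (by rw [h2, hin]) hlt
  exact h3 z hz i hi hzi

theorem fat_reach {s : List ℕ} {y : ℕ → ℕ} (hs : IsStem s) (hy : y ∈ K) {A : Set ℕ}
    (h : ∀ z ∈ Fib s y, ∀ i, s.length ≤ i → z i ∈ A) : Fat (range y ∩ A) := by
  intro n N
  obtain ⟨i, hi, hin⟩ := exists_lam n s.length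
  obtain ⟨m, h1, h2, h3⟩ := fat_range hy n (max N (zm s (range y) i))
  obtain ⟨z, hz, hzi, _⟩ := Branch.reach hs hy hi h1 (by rw [h3, hin]) ((le_max_right _ _).trans h2)
  exact ⟨m, ⟨h1, hzi ▸ h z hz i hi⟩, (le_max_left _ _).trans h2, h3⟩

/-- a limit principle: membership in `Fib` can be checked on initial segments -/
theorem mem_Fib_of_approx {s : List ℕ} {y z : ℕ → ℕ}
    (h : ∀ N, ∃ z' ∈ Fib s y, ∀ i < N, z' i = z i) : z ∈ Fib s y := by
  refine ⟨⟨?_, fun i => ?_⟩, ?_, fun i hi => ?_⟩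
  · refine strictMono_nat_of_lt_succ fun i => ?_
    obtain ⟨z', hz', h'⟩ := h (i + 2)
    rw [← h' i (by omega), ← h' (i + 1) (by omega)]
    exact hz'.1.1 (Nat.lt_succ_self i)
  · obtain ⟨z', hz', h'⟩ := h (i + 1)
    rw [← h' i (by omega)]
    exact hz'.1.2 i
  · obtain ⟨z', hz', h'⟩ := h s.length
    conv_rhs => rw [← hz'.2.1]
    rw [pre_eq_iff]
    exact fun i hi => (h' i hi).symm
  · obtain ⟨z', hz', h'⟩ := h (i + 1)
    rw [← h' i (by omega)]
    exact hz'.2.2 i hi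

end Pool.Agent.QPt
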