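import Pool.Agent.QPt.Nbhd

/-!
# Reading dense sets, index functions (module RD)
-/

set_option autoImplicit false
set_option linter.unusedSectionVars false

namespace Pool.Agent.QPt

open Set

variable {I : Type} [LinearOrder I] [WellFoundedLT I]

/-- reading is inherited by stronger conditions -/
theorem Reads.mono {J : Set I} {D : Set (Cond I)} (hD : OpenIn J D) {q q' : Cond I}
    (h : Reads q D) (hq : q' ≤ q) (hJ : q'.w ⊆ J) : Reads q' D := by
  intro x hx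
  obtain ⟨r, hr, hrq⟩ := h x (hq.2 hx)
  obtain ⟨r', hr', hle⟩ := hrq.pull hq hx
  exact ⟨r', hD r hr r' hle (by rw [hr'.1]; exact hJ), hr'⟩

namespace RdAux

/-- basic open sets -/
def cone {w : Set I} (c : Finset (w × ℕ × ℕ)) : Set (Pt I) :=
  {y | ∀ t ∈ c, y t.1.1 t.2.1 = t.2.2}

theorem cone_lc {w : Set I} (c : Finset (w × ℕ × ℕ)) (C : Set (Pt I)) :
    LC C w (fun y => y ∈ cone c) := by
  classical
  intro x _
  refine ⟨c.image (fun t => t.1.1), ?_, c.sup (fun t => t.2.1 + 1), fun y _ ha => ?_⟩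
  · intro β hβ
    rw [Finset.mem_coe, Finset.mem_image] at hβ
    obtain ⟨t, -, rfl⟩ := hβ
    exact t.1.2
  · have key : ∀ t ∈ c, x t.1.1 t.2.1 = y t.1.1 t.2.1 := by
      intro t ht
      refine ha t.1.1 ?_ t.2.1 ?_
      · rw [Finset.mem_coe]
        exact Finset.mem_image_of_mem (fun t : w × ℕ × ℕ => t.1.1) ht
      · exact Finset.le_sup (f := fun t : w × ℕ × ℕ => t.2.1 + 1) ht
    apply propext
    constructor
    · intro h t ht
      rw [key t ht]
      exact h t ht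
    · intro h t ht
      rw [← key t ht]
      exact h t ht

theorem exists_cone {w : Set I} (x : Pt I) (F : Finset I) (hF : (F : Set I) ⊆ w) (n : ℕ) :
    ∃ c : Finset (w × ℕ × ℕ), x ∈ cone c ∧ ∀ y ∈ cone c, Agree (F : Set I) n x y := by
  classical
  refine ⟨((F.subtype (· ∈ w)) ×ˢ Finset.range n).image (fun q => (q.1, q.2, x q.1.1 q.2)), ?_, ?_⟩
  · intro t ht
    rw [Finset.mem_image] at ht
    obtain ⟨q, -, rfl⟩ := ht
    rfl
  · intro y hy β hβ i hi
    have h1 : ((⟨β, hF hβ⟩ : w), i, x β i) ∈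
        ((F.subtype (· ∈ w)) ×ˢ Finset.range n).image (fun q => (q.1, q.2, x q.1.1 q.2)) := by
      rw [Finset.mem_image]
      refine ⟨(⟨β, hF hβ⟩, i), ?_, rfl⟩
      rw [Finset.mem_product, Finset.mem_subtype, Finset.mem_range]
      exact ⟨Finset.mem_coe.1 hβ, hi⟩
    exact (hy _ h1).symm

end RdAux

open RdAux in
/-- general index function: a locally satisfied property with values in a type -/
theorem exists_index {ι : Type*} [Nonempty ι] {q : Cond I} {S : Cond I → ι → Prop}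
    (hS : ∀ r r' i, S r i → r' ≤ r → r'.w = q.w → S r' i)
    (h : ∀ x ∈ q.body, ∃ r i, OpenRes r q x ∧ S r i) :
    ∃ g : Pt I → ι, LC q.body q.w g ∧ ∀ x ∈ q.body, ∃ r, OpenRes r q x ∧ S r (g x) ∧
      ∀ y ∈ r.body, g y = g x := by
  classical
  have hcw : Countable q.w := q.ctbl.to_subtype
  obtain ⟨e, he⟩ := exists_injective_nat (Finset (q.w × ℕ × ℕ))
  -- the good cones
  let G : Finset (q.w × ℕ × ℕ) → ι → Prop := fun c i =>
    ∃ r, S r i ∧ r.w = q.w ∧ q.body ∩ cone c ⊆ r.body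
  let A : Pt I → Set ℕ := fun x => {m | ∃ c i, e c = m ∧ x ∈ cone c ∧ G c i}
  have hA : ∀ x ∈ q.body, (A x).Nonempty := by
    intro x hx
    obtain ⟨r, i, hr, hi⟩ := h x hx
    obtain ⟨hw, -, -, F, hF, n, hn⟩ := hr
    obtain ⟨c, hc, hc'⟩ := exists_cone x F hF n
    exact ⟨e c, c, i, rfl, hc, r, hi, hw, fun y hy => hn y hy.1 (hc' y hy.2)⟩
  let idx : Pt I → ℕ := fun x => sInf (A x)
  have hidx : ∀ x ∈ q.body, idx x ∈ A x := fun x hx => Nat.sInf_mem (hA x hx)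
  have hlc : LC q.body q.w idx := by
    intro x hx
    have hfin : {c : Finset (q.w × ℕ × ℕ) | e c ≤ idx x}.Finite :=
      Set.Finite.preimage he.injOn (Set.finite_Iic (idx x))
    obtain ⟨F, hF, n, hn⟩ := LC.finset hfin.toFinset (f := fun c y => y ∈ cone c)
      (fun c _ => cone_lc c q.body) x hx
    refine ⟨F, hF, n, fun y hy ha => ?_⟩
    have h1 : ∀ c, e c ≤ idx x → (y ∈ cone c ↔ x ∈ cone c) := fun c hc =>
      iff_of_eq (hn y hy ha c (hfin.mem_toFinset.2 hc))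
    obtain ⟨c, i, hc, hxc, hG⟩ := hidx x hx
    have h2 : idx y ≤ idx x := by
      refine Nat.sInf_le ⟨c, i, hc, (h1 c (le_of_eq hc)).2 hxc, hG⟩
    obtain ⟨c', i', hc', hyc', hG'⟩ := hidx y hy
    refine le_antisymm h2 (Nat.sInf_le ⟨c', i', hc', ?_, hG'⟩)
    exact (h1 c' (by rw [hc']; exact h2)).1 hyc'
  -- the value
  let val : ℕ → ι := fun m => if hm : ∃ i, ∃ c, e c = m ∧ G c i then hm.choose else Classical.arbitrary ι
  have hval : ∀ m, (∃ i, ∃ c, e c = m ∧ G c i) → ∃ c, e c = m ∧ G c (val m) := by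
    intro m hm
    have h1 : val m = hm.choose := dif_pos hm
    rw [h1]
    exact hm.choose_spec
  refine ⟨fun x => val (idx x), hlc.comp val, fun x hx => ?_⟩
  obtain ⟨r, hr, hrc⟩ := exists_nbhd_const q hx hlc
  obtain ⟨c, i, hc, hxc, hG⟩ := hidx x hx
  obtain ⟨c', hc', r0, hS0, hw0, hb0⟩ := hval (idx x) ⟨i, c, hc, hG⟩
  have hcc : c' = c := he (hc'.trans hc.symm)
  subst hcc
  refine ⟨r, hr, ?_, fun y hy => congrArg val (hrc y hy)⟩
  refine hS r0 r _ hS0 ⟨by rw [hw0, hr.1], fun y hy => hb0 ⟨hr.2.2.1 hy, ?_⟩⟩ hr.1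
  obtain ⟨d, j, hd, hyd, -⟩ := hidx y (hr.2.2.1 hy)
  have hdc : d = c' := he (by rw [hd, hrc y hy, hc])
  rw [← hdc]
  exact hyd

/-- an index function -/
theorem Reads.exists_index {D : Set (Cond I)} {q : Cond I} (h : Reads q D) :
    ∃ P : Pt I → Cond I, LC q.body q.w P ∧ ∀ x ∈ q.body, P x ∈ D ∧ OpenRes (P x) q x := by
  obtain ⟨x0, hx0⟩ := q.body_nonempty
  have : Nonempty (Cond I) := ⟨q⟩
  obtain ⟨g, hg, hg'⟩ := Pool.Agent.QPt.exists_index (q := q)
    (S := fun r i => i ∈ D ∧ i.w = q.w ∧ i.body ⊆ q.body ∧ r.body ⊆ i.body)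
    (fun r r' i hi hle _ => ⟨hi.1, hi.2.1, hi.2.2.1, hle.2.trans hi.2.2.2⟩)
    (fun x hx => by
      obtain ⟨r, hr, hrq⟩ := h x hx
      exact ⟨r, r, hrq, hr, hrq.1, hrq.2.2.1, Subset.rfl⟩)
  refine ⟨g, hg, fun x hx => ?_⟩
  obtain ⟨r, ⟨hrw, hxr, hrb, F, hF, n, hn⟩, ⟨h1, h2, h3, h4⟩, -⟩ := hg' x hx
  exact ⟨h1, h2, h4 hxr, h3, F, hF, n, fun y hy ha => h4 (hn y hy ha)⟩

end Pool.Agent.QPt
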