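import Pool.Agent.QPt.Step
import Pool.Agent.QPt.Reads

/-!
# Module CRM: continuous reading of names for all lower sets
-/

set_option autoImplicit false
set_option linter.unusedSectionVars false

namespace Pool.Agent.QPt

open Set

variable {I : Type} [LinearOrder I] [WellFoundedLT I]

theorem cr_step (L : Set I) (hL : IsLowerSet L) (h : ∀ β ∈ L, CR (Iio β)) : CR L := by
  classical
  intro D p F n hp hD hd hF
  rcases F.eq_empty_or_nonempty with rfl | hne
  · obtain ⟨q, hq, hqL, hqD⟩ := hd p le_rfl hp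
    refine ⟨q, hqL, ⟨hq, fun β hβ => ?_⟩, fun x hx => ⟨q, hqD, OpenRes.refl hx⟩⟩
    simp at hβ
  · set β := F.max' hne with hβdef
    have hβF : β ∈ F := F.max'_mem hne
    have hβp : β ∈ p.w := hF hβF
    have hopen : ∀ c : Unit, OpenIn L ((fun _ : Unit => {q : Cond I | q.w ⊆ L ∧ Reads q D}) c) := by
      intro c q hq q' hq' hL'
      exact ⟨hL', Reads.mono hD hq.2 hq' hL'⟩
    have hloc : ∀ (c : Unit) (q : Cond I), q.w ⊆ L →
        Reads q ((fun _ : Unit => {q : Cond I | q.w ⊆ L ∧ Reads q D}) c) →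
        q ∈ (fun _ : Unit => {q : Cond I | q.w ⊆ L ∧ Reads q D}) c := by
      intro c q hqL hq
      refine ⟨hqL, fun x hx => ?_⟩
      obtain ⟨r, hr, hrx⟩ := hq x hx
      obtain ⟨r', hr', hrx'⟩ := hr.2 x hrx.2.1
      exact ⟨r', hr', hrx'.trans hrx⟩
    obtain ⟨q, hqL, hpure, col, -, hread⟩ := step L hL β (hp hβp) (h β (hp hβp))
      (fun _ : Unit => {q : Cond I | q.w ⊆ L ∧ Reads q D}) hopen hloc p hp hβp
      (by
        intro q hq hqL
        refine ⟨q, le_rfl, hqL, fun _ _ => ⟨rfl, rfl⟩, {()}, ?_⟩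
        intro q' hq' hqL'
        obtain ⟨r, hr, hrL, hrD⟩ := hd q' (hq'.trans hq) hqL'
        refine ⟨r, hr, hrL, ?_⟩
        exact mem_iUnion₂.2 ⟨(), Finset.mem_singleton_self _, hrL,
          fun x hx => ⟨r, hrD, OpenRes.refl hx⟩⟩)
      F hF (fun γ hγ => F.le_max' γ hγ) n
    refine ⟨q, hqL, ⟨hpure.1, fun γ hγ => hpure.2 γ (Set.mem_insert_of_mem _ hγ)⟩, ?_⟩
    intro x hx
    obtain ⟨r, hr, hrx⟩ := hread x hx
    obtain ⟨r', hr', hrx'⟩ := hr.2 x hrx.2.1
    exact ⟨r', hr', hrx'.trans hrx⟩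

theorem cr_all (L : Set I) (hL : IsLowerSet L) : CR L := by
  have key : ∀ β : I, CR (Iio β) := by
    intro β
    induction β using (wellFounded_lt (α := I)).induction with
    | _ β ih => exact cr_step (Iio β) (isLowerSet_Iio β) fun γ hγ => ih γ hγ
  exact cr_step L hL fun β _ => key β

end Pool.Agent.QPt
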