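import Pool.Agent.QPt.Closure

/-!
# A coordinate at which the names of the ultrafilters are closed
-/

set_option autoImplicit false
set_option linter.unusedSectionVars false

namespace Pool.Agent.QPt

open Set

variable {I : Type} [LinearOrder I] [WellFoundedLT I] {W : WName I}

namespace ClosedAtAux

theorem Nm_congr {C : Set (Pt I)} {w : Set I} {a b : Pt I → Set ℕ} (h : Nm C w a)
    (hab : ∀ x ∈ C, a x = b x) : Nm C w b := by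
  intro m x hx
  obtain ⟨F, hF, n, hn⟩ := h m x hx
  refine ⟨F, hF, n, fun y hy hxy => ?_⟩
  have h1 : (m ∈ a y) = (m ∈ a x) := hn y hy hxy
  rw [hab y hy, hab x hx] at h1
  exact h1

theorem cond2_eq {c c' : Cond2 W} (h : c.p = c'.p) (h' : c.Z = c'.Z) : c = c' := by
  cases c
  cases c'
  cases h
  cases h'
  rfl

/-- The tasks. -/
def Task {c0 : Cond2 W} (E : EName W c0) :
    ℕ → Cond I → (Pt I → Set ℕ) → (Pt I → Set ℕ) → Cond I → Prop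
  | 0, p, _, a, p' => p' ≤ p ∧ (W.R p' a ∨ W.R p' (fun x => (a x)ᶜ))
  | 1, p, Z, a, p' => ∀ c ≤ c0, c.p = p → c.Z = Z →
      ∃ c' ≤ c, c'.p = p' ∧ (E.R c' a ∨ E.R c' (fun x => (a x)ᶜ))
  | 2, p, Z, a, p' => ∀ c ≤ c0, c.p = p → c.Z = Z → (∀ x ∈ p.body, (a x).Infinite) →
      ∃ c' ≤ c, c'.p = p' ∧ ∃ e, E.R c' e ∧ ∀ x ∈ c'.p.body, ∀ m ∈ e x, ∀ m' ∈ e x, m < m' →
      ∃ y ∈ a x, m < y ∧ y ≤ m'
  | 3, p, Z, a, p' => ∀ c ≤ c0, c.p = p → c.Z = Z →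
      (∀ x ∈ p.body, ∀ i j k, Nat.pair i j ∈ a x → Nat.pair i k ∈ a x → j = k) →
      (∀ x ∈ p.body, ∀ i j k, Nat.pair i k ∈ a x → Nat.pair j k ∈ a x → i = j) →
      ∃ c' ≤ c, c'.p = p' ∧ ∃ A B, Nm c'.p.body c'.p.w A ∧ LeW W c'.p c'.Z A ∧ E.R c' B ∧
      ∀ x ∈ c'.p.body, ∀ i ∈ A x, ∀ j ∈ B x, Nat.pair i j ∉ a x
  | _ + 4, _, _, _, _ => True

theorem task_ex {c0 : Cond2 W} (E : EName W c0) (t : ℕ) (p : Cond I) (Z a : Pt I → Set ℕ)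
    (_hZ : Nm p.body p.w Z) (ha : Nm p.body p.w a) : ∃ p', Task E t p Z a p' := by
  match t with
  | 0 =>
    obtain ⟨q, hq, h⟩ := W.ultra p a ha
    exact ⟨q, hq, h⟩
  | 1 =>
    by_cases h : ∃ c ≤ c0, c.p = p ∧ c.Z = Z
    · obtain ⟨c, hc, rfl, rfl⟩ := h
      obtain ⟨c', hc', h⟩ := E.ultra c a hc ha
      refine ⟨c'.p, fun c2 _ h1 h2 => ?_⟩
      obtain rfl := cond2_eq h1 h2
      exact ⟨c', hc', rfl, h⟩
    · exact ⟨p, fun c hc h1 h2 => absurd ⟨c, hc, h1, h2⟩ h⟩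
  | 2 =>
    by_cases h : (∃ c ≤ c0, c.p = p ∧ c.Z = Z) ∧ (∀ x ∈ p.body, (a x).Infinite)
    · obtain ⟨⟨c, hc, rfl, rfl⟩, hi⟩ := h
      obtain ⟨c', hc', h⟩ := E.Q c a hc ha hi
      refine ⟨c'.p, fun c2 _ h1 h2 _ => ?_⟩
      obtain rfl := cond2_eq h1 h2
      exact ⟨c', hc', rfl, h⟩
    · exact ⟨p, fun c hc h1 h2 h3 => absurd ⟨⟨c, hc, h1, h2⟩, h3⟩ h⟩
  | 3 =>
    by_cases h : (∃ c ≤ c0, c.p = p ∧ c.Z = Z) ∧
        (∀ x ∈ p.body, ∀ i j k, Nat.pair i j ∈ a x → Nat.pair i k ∈ a x → j = k) ∧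
        (∀ x ∈ p.body, ∀ i j k, Nat.pair i k ∈ a x → Nat.pair j k ∈ a x → i = j)
    · obtain ⟨⟨c, hc, rfl, rfl⟩, hi, hj⟩ := h
      obtain ⟨c', hc', h⟩ := E.N c a hc ha hi hj
      refine ⟨c'.p, fun c2 _ h1 h2 _ _ => ?_⟩
      obtain rfl := cond2_eq h1 h2
      exact ⟨c', hc', rfl, h⟩
    · exact ⟨p, fun c hc h1 h2 h3 h4 => absurd ⟨⟨c, hc, h1, h2⟩, h3, h4⟩ h⟩
  | _ + 4 => exact ⟨p, trivial⟩

theorem task_inv {c0 : Cond2 W} (E : EName W c0) (t : ℕ) (p : Cond I) (Z a : Pt I → Set ℕ)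
    (q : Cond I) (Y b : Pt I → Set ℕ) (p' : Cond I) (hw : p.w = q.w) (hb : p.body = q.body)
    (hZY : ∀ x ∈ p.body, Z x = Y x) (hab : ∀ x ∈ p.body, a x = b x) (hZ : Nm p.body p.w Z)
    (ha : Nm p.body p.w a) (h : Task E t p Z a p') : Task E t q Y b p' := by
  have hpq : p ≤ q := ⟨hw.symm.subset, hb.subset⟩
  have hNb : Nm p.body p.w b := Nm_congr ha hab
  have key : ∀ c ≤ c0, c.p = q → c.Z = Y → ∃ d ≤ c0, d.p = p ∧ d.Z = Z ∧ d ≤ c := by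
    intro c hc h1 h2
    subst h1
    subst h2
    have hf : ∀ x ∈ p.body, Fat (Z x) := fun x hx => by
      rw [hZY x hx]
      exact c.fat x (hb ▸ hx)
    have hle : (⟨p, Z, hZ, hf⟩ : Cond2 W) ≤ c :=
      ⟨hpq, LeW.of_subset fun x hx => (hZY x hx).subset⟩
    exact ⟨_, hle.trans hc, rfl, rfl, hle⟩
  match t with
  | 0 =>
    obtain ⟨h1, h2⟩ := h
    refine ⟨h1.trans hpq, ?_⟩
    have h3 : Nm p'.body p'.w b := hNb.mono h1.2 h1.1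
    rcases h2 with h2 | h2
    · exact Or.inl (W.up p' a b h2 h3 fun x hx => (hab x (h1.2 hx)).subset)
    · refine Or.inr (W.up p' _ _ h2 ?_ fun x hx => ?_)
      · exact Nm_congr (W.nm _ _ h2) fun x hx => by rw [hab x (h1.2 hx)]
      · rw [hab x (h1.2 hx)]
  | 1 =>
    intro c hc h1 h2
    obtain ⟨d, hd, e1, e2, hdc⟩ := key c hc h1 h2
    obtain ⟨c', hc', rfl, h3⟩ := h d hd e1 e2
    refine ⟨c', hc'.trans hdc, rfl, ?_⟩
    have hcp : c'.p ≤ p := e1 ▸ hc'.1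
    have hc0 : c' ≤ c0 := hc'.trans hd
    rcases h3 with h3 | h3
    · exact Or.inl (E.up c' a b hc0 h3 (hNb.mono hcp.2 hcp.1)
        fun x hx => (hab x (hcp.2 hx)).subset)
    · refine Or.inr (E.up c' _ _ hc0 h3 ?_ fun x hx => ?_)
      · exact Nm_congr (E.nm _ _ h3) fun x hx => by rw [hab x (hcp.2 hx)]
      · rw [hab x (hcp.2 hx)]
  | 2 =>
    intro c hc h1 h2 h4
    obtain ⟨d, hd, e1, e2, hdc⟩ := key c hc h1 h2
    obtain ⟨c', hc', rfl, e, he, h3⟩ := h d hd e1 e2 fun x hx => by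
      rw [hab x hx]
      exact h4 x (hb ▸ hx)
    refine ⟨c', hc'.trans hdc, rfl, e, he, fun x hx => ?_⟩
    have hcp : c'.p ≤ p := e1 ▸ hc'.1
    rw [← hab x (hcp.2 hx)]
    exact h3 x hx
  | 3 =>
    intro c hc h1 h2 h4 h5
    obtain ⟨d, hd, e1, e2, hdc⟩ := key c hc h1 h2
    obtain ⟨c', hc', rfl, A, B, hA, hA', hB, h3⟩ := h d hd e1 e2 (fun x hx => by
      rw [hab x hx]
      exact h4 x (hb ▸ hx)) (fun x hx => by
      rw [hab x hx]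
      exact h5 x (hb ▸ hx))
    refine ⟨c', hc'.trans hdc, rfl, A, B, hA, hA', hB, fun x hx => ?_⟩
    have hcp : c'.p ≤ p := e1 ▸ hc'.1
    rw [← hab x (hcp.2 hx)]
    exact h3 x hx
  | _ + 4 => exact trivial

end ClosedAtAux

open ClosedAtAux in
theorem exists_closedAt (hI : ∀ S : Set I, Cardinal.mk S ≤ Cardinal.continuum → ∃ β, ∀ γ ∈ S, γ < β)
    (hI' : ∀ β : I, Cardinal.mk (Iio β) ≤ Cardinal.continuum) {c0 : Cond2 W} (E : EName W c0) :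
    ∃ α : I, ClosedAt E α := by
  obtain ⟨α, h0, h⟩ := exists_closed hI hI' (Task E) (task_ex E) (task_inv E) c0.p.w c0.p.ctbl
  refine ⟨α, ⟨h0, ?_, ?_, ?_, ?_⟩⟩
  · intro p a hp ha
    obtain ⟨q, hq, hq', h1⟩ := h 0 p (fun _ => ∅) a hp (fun m x _ => ⟨∅, by simp, 0,
      fun _ _ _ => rfl⟩) ha
    exact ⟨q, hq', hq, h1⟩
  · intro c a hc hp ha
    obtain ⟨q, hq, h1⟩ := h 1 c.p c.Z a hp c.nm ha
    obtain ⟨c', hc', rfl, h2⟩ := h1 c hc rfl rfl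
    exact ⟨c', hc', hq, h2⟩
  · intro c a hc hp ha hinf
    obtain ⟨q, hq, h1⟩ := h 2 c.p c.Z a hp c.nm ha
    obtain ⟨c', hc', rfl, h2⟩ := h1 c hc rfl rfl hinf
    exact ⟨c', hc', hq, h2⟩
  · intro c a hc hp ha hi hj
    obtain ⟨q, hq, h1⟩ := h 3 c.p c.Z a hp c.nm ha
    obtain ⟨c', hc', rfl, h2⟩ := h1 c hc rfl rfl hi hj
    exact ⟨c', hc', hq, h2⟩

end Pool.Agent.QPt
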