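import Pool.Agent.QPt.BodyClosed

/-!
# A coordinate closed under countably many kinds of tasks
-/

set_option autoImplicit false
set_option linter.unusedSectionVars false

namespace Pool.Agent.QPt

open Set

variable {I : Type} [LinearOrder I] [WellFoundedLT I]

namespace ClosureAux

/-- The first values at the first coordinates (with respect to an enumeration of coordinates). -/
def patt (e : ℕ → Option I) (n : ℕ) (x : Pt I) : List (List ℕ) :=
  (List.range n).map fun j => (e j).elim [] fun γ => (List.range n).map (x γ)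

theorem length_patt (e : ℕ → Option I) (n : ℕ) (x : Pt I) : (patt e n x).length = n := by
  simp [patt]

theorem patt_eq {e : ℕ → Option I} {n m : ℕ} {x y : Pt I} (h : patt e n x = patt e m y) :
    n = m ∧ ∀ j < n, ∀ γ, e j = some γ → ∀ i < n, x γ i = y γ i := by
  have h1 : n = m := by
    have := congrArg List.length h
    rwa [length_patt, length_patt] at this
  subst h1
  refine ⟨rfl, fun j hj γ hγ i hi => ?_⟩
  have h2 : ∀ j < n, ((e j).elim [] fun γ => (List.range n).map (x γ)) =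
      (e j).elim [] fun γ => (List.range n).map (y γ) := by
    intro j hj
    exact List.map_inj_left.1 h j (List.mem_range.2 hj)
  have h3 := h2 j hj
  rw [hγ] at h3
  exact List.map_inj_left.1 h3 i (List.mem_range.2 hi)

theorem agree_of_patt {e : ℕ → Option I} (F : Finset I) (hF : ∀ γ ∈ F, ∃ j, e j = some γ) (n0 : ℕ) :
    ∃ n, ∀ (x y : Pt I) (m : ℕ), patt e n x = patt e m y → Agree (F : Set I) n0 x y := by
  classical
  choose! j hj using hF
  refine ⟨n0 + (F.sup j + 1), fun x y m h => ?_⟩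
  obtain ⟨-, h1⟩ := patt_eq h
  intro γ hγ i hi
  have h2 : j γ ≤ F.sup j := Finset.le_sup (f := j) hγ
  exact h1 (j γ) (by omega) γ (hj γ hγ) i (by omega)

/-- The points with the pattern `l`, in the form used for codes. -/
def bodyCode (e : ℕ → Option I) (C : Set (Pt I)) : Set (List (List ℕ)) :=
  {l | ∃ x ∈ C, ∃ n, l = patt e n x}

def nmCode (e : ℕ → Option I) (C : Set (Pt I)) (Z : Pt I → Set ℕ) : Set (List (List ℕ) × ℕ) :=
  {u | ∃ x ∈ C, ∃ n, u.1 = patt e n x ∧ ∀ y ∈ C, patt e n y = u.1 → u.2 ∈ Z y}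

theorem mem_nmCode_iff {e : ℕ → Option I} {C : Set (Pt I)} {w : Set I} {Z : Pt I → Set ℕ}
    (hw : ∀ γ ∈ w, ∃ j, e j = some γ) (hZ : Nm C w Z) {x : Pt I} (hx : x ∈ C) (m : ℕ) :
    m ∈ Z x ↔ ∃ n, (patt e n x, m) ∈ nmCode e C Z := by
  constructor
  · intro h
    obtain ⟨F, hF, n0, h0⟩ := hZ m x hx
    obtain ⟨n, hn⟩ := agree_of_patt (e := e) F (fun γ hγ => hw γ (hF hγ)) n0
    refine ⟨n, x, hx, n, rfl, fun y hy hyx => ?_⟩
    have h1 : (m ∈ Z y) = (m ∈ Z x) := h0 y hy (hn x y n hyx.symm)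
    exact h1.mpr h
  · rintro ⟨n, y, hy, k, h1, h2⟩
    have h3 := patt_eq h1
    obtain ⟨rfl, -⟩ := h3
    exact h2 x hx rfl

theorem mem_body_iff {e : ℕ → Option I} {p : Cond I} (hw : ∀ γ, γ ∈ p.w ↔ ∃ j, e j = some γ)
    (x : Pt I) : x ∈ p.body ↔ ∀ n, patt e n x ∈ bodyCode e p.body := by
  constructor
  · exact fun hx n => ⟨x, hx, n, rfl⟩
  · intro h
    refine p.body_closed x fun F hF n0 => ?_
    obtain ⟨n, hn⟩ := agree_of_patt (e := e) F (fun γ hγ => (hw γ).1 (hF hγ)) n0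
    obtain ⟨y, hy, k, hk⟩ := h n
    exact ⟨y, hy, hn x y k hk⟩

/-- Codes. -/
abbrev Code (β : I) : Type :=
  (ℕ → Option (Iio β)) × Set (List (List ℕ)) × Set (List (List ℕ) × ℕ) × Set (List (List ℕ) × ℕ)

def IsCode {β : I} (k : Code β) (p : Cond I) (Z a : Pt I → Set ℕ) : Prop :=
  (∀ γ, γ ∈ p.w ↔ ∃ j, (k.1 j).map Subtype.val = some γ) ∧
    k.2.1 = bodyCode (fun j => (k.1 j).map Subtype.val) p.body ∧
    k.2.2.1 = nmCode (fun j => (k.1 j).map Subtype.val) p.body Z ∧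
    k.2.2.2 = nmCode (fun j => (k.1 j).map Subtype.val) p.body a

theorem IsCode.unique {β : I} {k : Code β} {p q : Cond I} {Z a Y b : Pt I → Set ℕ}
    (h : IsCode k p Z a) (h' : IsCode k q Y b) (hZ : Nm p.body p.w Z) (ha : Nm p.body p.w a)
    (hY : Nm q.body q.w Y) (hb : Nm q.body q.w b) :
    p.w = q.w ∧ p.body = q.body ∧ (∀ x ∈ p.body, Z x = Y x) ∧ ∀ x ∈ p.body, a x = b x := by
  obtain ⟨h1, h2, h3, h4⟩ := h
  obtain ⟨h1', h2', h3', h4'⟩ := h'
  have hw : p.w = q.w := Set.ext fun γ => (h1 γ).trans (h1' γ).symm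
  have hb' : p.body = q.body := by
    ext x
    rw [mem_body_iff h1 x, mem_body_iff h1' x, ← h2, ← h2']
  refine ⟨hw, hb', fun x hx => ?_, fun x hx => ?_⟩
  · ext m
    rw [mem_nmCode_iff (fun γ hγ => (h1 γ).1 hγ) hZ hx m,
      mem_nmCode_iff (fun γ hγ => (h1' γ).1 hγ) hY (hb' ▸ hx) m, ← h3, ← h3']
  · ext m
    rw [mem_nmCode_iff (fun γ hγ => (h1 γ).1 hγ) ha hx m,
      mem_nmCode_iff (fun γ hγ => (h1' γ).1 hγ) hb (hb' ▸ hx) m, ← h4, ← h4']

theorem exists_code {β : I} (p : Cond I) (hp : p.w ⊆ Iio β) (Z a : Pt I → Set ℕ) :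
    ∃ k : Code β, IsCode k p Z a := by
  have h1 : (insert none (some '' {γ : Iio β | γ.1 ∈ p.w}) : Set (Option (Iio β))).Countable := by
    refine Set.Countable.insert _ (Set.Countable.image ?_ _)
    exact p.ctbl.preimage Subtype.val_injective
  obtain ⟨e, he⟩ := h1.exists_eq_range ⟨none, Set.mem_insert _ _⟩
  refine ⟨(e, bodyCode (fun j => (e j).map Subtype.val) p.body,
    nmCode (fun j => (e j).map Subtype.val) p.body Z,
    nmCode (fun j => (e j).map Subtype.val) p.body a), ?_, rfl, rfl, rfl⟩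
  intro γ
  constructor
  · intro hγ
    have h2 : some (⟨γ, hp hγ⟩ : Iio β) ∈ Set.range e := by
      rw [← he]
      exact Or.inr ⟨_, hγ, rfl⟩
    obtain ⟨j, hj⟩ := h2
    exact ⟨j, by simp only [hj]; rfl⟩
  · rintro ⟨j, hj⟩
    rw [Option.map_eq_some_iff] at hj
    obtain ⟨γ', h3, h4⟩ := hj
    have h5 : e j ∈ (insert none (some '' {γ : Iio β | γ.1 ∈ p.w}) : Set (Option (Iio β))) := by
      rw [he]
      exact ⟨j, rfl⟩
    change e j = some γ' at h3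
    rw [h3] at h5
    rcases h5 with h5 | ⟨γ'', h5, h6⟩
    · exact absurd h5 (by simp)
    · rw [Option.some_inj] at h6
      rw [← h4, ← h6]
      exact h5

open Cardinal in
theorem mk_code {β : I} (h : Cardinal.mk (Iio β) ≤ Cardinal.continuum) :
    Cardinal.mk (ℕ × Code β) ≤ Cardinal.continuum := by
  have h1 : #(ℕ → Option (Iio β)) ≤ 𝔠 := by
    rw [← Cardinal.power_def, Cardinal.mk_option, Cardinal.mk_nat]
    calc (#(Iio β) + 1) ^ ℵ₀ ≤ 𝔠 ^ ℵ₀ := by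
          refine Cardinal.power_le_power_right ?_
          calc #(Iio β) + 1 ≤ 𝔠 + 𝔠 := add_le_add h (Cardinal.one_le_aleph0.trans Cardinal.aleph0_le_continuum)
            _ = 𝔠 := Cardinal.continuum_add_self
      _ = 𝔠 := Cardinal.continuum_power_aleph0
  have h2 : ∀ (γ : Type) [Countable γ], #(Set γ) ≤ 𝔠 := by
    intro γ _
    rw [Cardinal.mk_set]
    calc (2 : Cardinal) ^ #γ ≤ 2 ^ ℵ₀ :=
          Cardinal.power_le_power_left two_ne_zero (Cardinal.mk_le_aleph0)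
      _ = 𝔠 := rfl
  have hmul : ∀ (γ δ : Type), #γ ≤ 𝔠 → #δ ≤ 𝔠 → #(γ × δ) ≤ 𝔠 := by
    intro γ δ hγ hδ
    rw [Cardinal.mk_prod, Cardinal.lift_id, Cardinal.lift_id]
    calc #γ * #δ ≤ 𝔠 * 𝔠 := mul_le_mul' hγ hδ
      _ = 𝔠 := Cardinal.continuum_mul_self
  refine hmul _ _ ?_ (hmul _ _ h1 (hmul _ _ (h2 _) (hmul _ _ (h2 _) (h2 _))))
  rw [Cardinal.mk_nat]
  exact Cardinal.aleph0_le_continuum

open Cardinal in
theorem one_step (hI : ∀ S : Set I, Cardinal.mk S ≤ Cardinal.continuum → ∃ β, ∀ γ ∈ S, γ < β)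
    (hI' : ∀ β : I, Cardinal.mk (Iio β) ≤ Cardinal.continuum)
    (Sol : ℕ → Cond I → (Pt I → Set ℕ) → (Pt I → Set ℕ) → Cond I → Prop)
    (hex : ∀ t p Z a, Nm p.body p.w Z → Nm p.body p.w a → ∃ p', Sol t p Z a p')
    (hinv : ∀ t p Z a q Y b p', p.w = q.w → p.body = q.body → (∀ x ∈ p.body, Z x = Y x) →
      (∀ x ∈ p.body, a x = b x) → Nm p.body p.w Z → Nm p.body p.w a → Sol t p Z a p' → Sol t q Y b p')
    (β : I) : ∃ γ : I, ∀ t p Z a, p.w ⊆ Iio β → Nm p.body p.w Z → Nm p.body p.w a →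
      ∃ p', p'.w ⊆ Iio γ ∧ Sol t p Z a p' := by
  classical
  let Q : ℕ × Code β → Cond I → Prop := fun k p' => ∃ p Z a, IsCode k.2 p Z a ∧
    Nm p.body p.w Z ∧ Nm p.body p.w a ∧ Sol k.1 p Z a p'
  let S : ℕ × Code β → Set I := fun k => if h : ∃ p', Q k p' then h.choose.w else ∅
  have hS : ∀ k, (S k).Countable := by
    intro k
    simp only [S]
    split
    · exact Cond.ctbl _
    · exact Set.countable_empty
  have hc : #(⋃ k, S k) ≤ 𝔠 := by
    refine (Cardinal.mk_iUnion_le S).trans ?_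
    calc #(ℕ × Code β) * ⨆ k, #(S k) ≤ 𝔠 * ℵ₀ := by
          refine mul_le_mul' (mk_code (hI' β)) ?_
          exact ciSup_le' fun k => (hS k).le_aleph0
      _ = 𝔠 := Cardinal.continuum_mul_aleph0
  obtain ⟨γ, hγ⟩ := hI _ hc
  refine ⟨γ, fun t p Z a hp hZ ha => ?_⟩
  obtain ⟨k, hk⟩ := exists_code p hp Z a
  obtain ⟨p0, hp0⟩ := hex t p Z a hZ ha
  have h1 : ∃ p', Q (t, k) p' := ⟨p0, p, Z, a, hk, hZ, ha, hp0⟩
  obtain ⟨q, Y, b, hq, hY, hb, hsol⟩ := h1.choose_spec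
  refine ⟨h1.choose, ?_, ?_⟩
  · intro δ hδ
    refine hγ δ (Set.mem_iUnion.2 ⟨(t, k), ?_⟩)
    simp only [S]
    rw [dif_pos h1]
    exact hδ
  · obtain ⟨e1, e2, e3, e4⟩ := hq.unique hk hY hb hZ ha
    exact hinv t q Y b p Z a _ e1 e2 e3 e4 hY hb hsol

/-- An uncountable well-order with countable initial segments. -/
abbrev W1 : Type := (Cardinal.aleph 1).ord.ToType

open Cardinal in
theorem W1_Iio (ξ : W1) : (Iio ξ).Countable := by
  rw [Cardinal.countable_iff_lt_aleph_one]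
  have h := Cardinal.mk_Iio_lt ξ (by rw [Cardinal.mk_ord_toType, Ordinal.type_toType])
  rwa [Cardinal.mk_ord_toType] at h

theorem W1_bdd (C : Set W1) (hC : C.Countable) : ∃ ξ, ∀ c ∈ C, c < ξ := by
  by_contra hcon
  push Not at hcon
  have h1 : (Set.univ : Set W1) = ⋃ c ∈ C, Iic c := by
    ext ξ
    simp only [Set.mem_univ, Set.mem_iUnion, true_iff]
    obtain ⟨c, hc, h⟩ := hcon ξ
    exact ⟨c, hc, h⟩
  have h2 : (Set.univ : Set W1).Countable := by
    rw [h1]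
    refine hC.biUnion fun c _ => ?_
    rw [← Set.Iio_insert]
    exact (W1_Iio c).insert _
  have h3 : Cardinal.mk W1 ≤ Cardinal.aleph0 := by
    rw [Cardinal.mk_le_aleph0_iff]
    exact Set.countable_univ_iff.1 h2
  rw [Cardinal.mk_ord_toType] at h3
  exact absurd h3 (not_le.2 Cardinal.aleph0_lt_aleph_one)

end ClosureAux

open ClosureAux in
theorem exists_closed (hI : ∀ S : Set I, Cardinal.mk S ≤ Cardinal.continuum → ∃ β, ∀ γ ∈ S, γ < β)
    (hI' : ∀ β : I, Cardinal.mk (Iio β) ≤ Cardinal.continuum)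
    (Sol : ℕ → Cond I → (Pt I → Set ℕ) → (Pt I → Set ℕ) → Cond I → Prop)
    (hex : ∀ t p Z a, Nm p.body p.w Z → Nm p.body p.w a → ∃ p', Sol t p Z a p')
    (hinv : ∀ t p Z a q Y b p', p.w = q.w → p.body = q.body → (∀ x ∈ p.body, Z x = Y x) →
      (∀ x ∈ p.body, a x = b x) → Nm p.body p.w Z → Nm p.body p.w a → Sol t p Z a p' → Sol t q Y b p')
    (w0 : Set I) (hw0 : w0.Countable) :
    ∃ α : I, w0 ⊆ Iio α ∧ ∀ t p Z a, p.w ⊆ Iio α → Nm p.body p.w Z → Nm p.body p.w a →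
      ∃ p', p'.w ⊆ Iio α ∧ Sol t p Z a p' := by
  classical
  choose g hg using one_step hI hI' Sol hex hinv
  have hctb : ∀ S : Set I, S.Countable → ∃ β, ∀ γ ∈ S, γ < β := fun S hS =>
    hI S (hS.le_aleph0.trans Cardinal.aleph0_le_continuum)
  -- the sequence
  obtain ⟨f, hf⟩ : ∃ f : W1 → I, ∀ ξ, (∀ γ ∈ w0, γ < f ξ) ∧ ∀ η < ξ, f η < f ξ ∧ g (f η) < f ξ := by
    have hb : ∀ S : Set I, ∃ β, S.Countable → ∀ γ ∈ S, γ < β := by
      intro S
      by_cases h : S.Countable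
      · obtain ⟨β, hβ⟩ := hctb S h
        exact ⟨β, fun _ => hβ⟩
      · obtain ⟨β, -⟩ := hctb ∅ Set.countable_empty
        exact ⟨β, fun h' => absurd h' h⟩
    choose b hb using hb
    let f : W1 → I := (wellFounded_lt (α := W1)).fix fun ξ F =>
      b (w0 ∪ ((Set.range fun η : Iio ξ => F η.1 η.2) ∪ Set.range fun η : Iio ξ => g (F η.1 η.2)))
    have hfe : ∀ ξ, f ξ = b (w0 ∪ ((Set.range fun η : Iio ξ => f η.1) ∪
        Set.range fun η : Iio ξ => g (f η.1))) := by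
      intro ξ
      exact (wellFounded_lt (α := W1)).fix_eq _ ξ
    refine ⟨f, fun ξ => ?_⟩
    have hc : (w0 ∪ ((Set.range fun η : Iio ξ => f η.1) ∪
        Set.range fun η : Iio ξ => g (f η.1))).Countable := by
      have : Countable (Iio ξ) := (W1_Iio ξ).to_subtype
      exact hw0.union ((Set.countable_range _).union (Set.countable_range _))
    have h1 := hb _ hc
    rw [← hfe] at h1
    refine ⟨fun γ hγ => h1 γ (Or.inl hγ), fun η hη => ⟨?_, ?_⟩⟩
    · exact h1 _ (Or.inr (Or.inl ⟨⟨η, hη⟩, rfl⟩))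
    · exact h1 _ (Or.inr (Or.inr ⟨⟨η, hη⟩, rfl⟩))
  -- the supremum
  have hne : {β : I | ∀ ξ, f ξ < β}.Nonempty := by
    obtain ⟨β, hβ⟩ := hI (Set.range f) (by
      refine Cardinal.mk_range_le.trans ?_
      rw [Cardinal.mk_ord_toType]
      exact Cardinal.aleph_one_le_continuum)
    exact ⟨β, fun ξ => hβ _ ⟨ξ, rfl⟩⟩
  obtain ⟨α, hα, hmin⟩ : ∃ α, (∀ ξ, f ξ < α) ∧ ∀ γ < α, ∃ ξ, γ ≤ f ξ := by
    refine ⟨(wellFounded_lt (α := I)).min _ hne, (wellFounded_lt (α := I)).min_mem _ hne, ?_⟩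
    intro γ hγ
    by_contra hcon
    push Not at hcon
    exact (wellFounded_lt (α := I)).not_lt_min {β | ∀ ξ, f ξ < β} hcon hγ
  refine ⟨α, ?_, ?_⟩
  · obtain ⟨ξ, -⟩ := W1_bdd ∅ Set.countable_empty
    exact fun γ hγ => ((hf ξ).1 γ hγ).trans (hα ξ)
  · intro t p Z a hp hZ ha
    have h1 : ∀ γ, γ ∈ p.w → ∃ ξ, γ ≤ f ξ := fun γ hγ => hmin γ (hp hγ)
    have : Nonempty W1 := ⟨(W1_bdd ∅ Set.countable_empty).choose⟩
    choose! k hk using h1
    obtain ⟨ξ, hξ⟩ := W1_bdd (k '' p.w) (p.ctbl.image k)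
    have h2 : p.w ⊆ Iio (f ξ) := by
      intro γ hγ
      exact (hk γ hγ).trans_lt ((hf ξ).2 _ (hξ _ ⟨γ, hγ, rfl⟩)).1
    obtain ⟨p', h3, h4⟩ := hg (f ξ) t p Z a h2 hZ ha
    obtain ⟨ζ, hζ⟩ := W1_bdd {ξ} (Set.countable_singleton ξ)
    refine ⟨p', fun γ hγ => ?_, h4⟩
    exact (h3 hγ).trans (((hf ζ).2 ξ (hζ ξ rfl)).2.trans (hα ζ))

end Pool.Agent.QPt
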