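import Pool.Agent.QPt.FinRead

/-!
# The second forcing: the order `LeW`, the generic ultrafilter decides names
-/

set_option autoImplicit false
set_option linter.unusedSectionVars false
set_option linter.unusedVariables false

namespace Pool.Agent.QPt

open Set

variable {I : Type} [LinearOrder I] [WellFoundedLT I]

variable {W : WName I}

theorem LeW.of_R {p : Cond I} {Z' Z T : Pt I → Set ℕ} (hT : W.R p T)
    (h : ∀ x ∈ p.body, ∀ n ∈ T x, {m | m ∈ Z' x ∧ lam m = n ∧ m ∉ Z x}.Finite) : LeW W p Z' Z :=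
  fun q hq => ⟨q, le_rfl, T, W.mono p q T hT hq, fun x hx n hn => h x (hq.2 hx) n hn⟩

/-- `LeW` can be checked locally -/
theorem LeW.local {p : Cond I} {Z' Z : Pt I → Set ℕ}
    (h : ∀ q ≤ p, ∃ r ≤ q, LeW W r Z' Z) : LeW W p Z' Z := by
  intro q hq
  obtain ⟨r, hr, h1⟩ := h q hq
  obtain ⟨s, hs, T, hT, h2⟩ := h1 r le_rfl
  exact ⟨s, hs.trans hr, T, hT, h2⟩

theorem LeW.of_reads {p : Cond I} {Z' Z : Pt I → Set ℕ}
    (h : ∀ x ∈ p.body, ∃ r, OpenRes r p x ∧ LeW W r Z' Z) : LeW W p Z' Z := by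
  refine LeW.local fun q hq => ?_
  obtain ⟨x, hx⟩ := q.body_nonempty
  obtain ⟨r, hr, h1⟩ := h x (hq.2 hx)
  obtain ⟨r', hr', h2⟩ := hr.pull hq hx
  exact ⟨r', hr'.le, h1.mono h2⟩

theorem LeW.congr {p : Cond I} {Z' Z Y' Y : Pt I → Set ℕ} (h : LeW W p Z' Z)
    (h1 : ∀ x ∈ p.body, Y' x = Z' x) (h2 : ∀ x ∈ p.body, Y x = Z x) : LeW W p Y' Y := by
  intro q hq
  obtain ⟨r, hr, T, hT, h3⟩ := h q hq
  refine ⟨r, hr, T, hT, fun x hx n hn => ?_⟩
  have hx' : x ∈ p.body := (hr.trans hq).2 hx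
  rw [h1 x hx', h2 x hx']
  exact h3 x hx n hn

theorem LeW.inter {p : Cond I} {Z A B : Pt I → Set ℕ} (h1 : LeW W p Z A) (h2 : LeW W p Z B) :
    LeW W p Z (fun x => A x ∩ B x) := by
  intro q hq
  obtain ⟨r, hr, T, hT, h3⟩ := h1 q hq
  obtain ⟨s, hs, T', hT', h4⟩ := h2 r (hr.trans hq)
  refine ⟨s, hs.trans hr, fun x => T x ∩ T' x, W.inter s T T' (W.mono r s T hT hs) hT', ?_⟩
  intro x hx n hn
  refine ((h3 x (hs.2 hx) n hn.1).union (h4 x hx n hn.2)).subset ?_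
  rintro m ⟨ha, hb, hc⟩
  by_cases hm : m ∈ A x
  · exact Or.inr ⟨ha, hb, fun h => hc ⟨hm, h⟩⟩
  · exact Or.inl ⟨ha, hb, hm⟩

/-- a fat name is not below the empty set -/
theorem LeW.not_empty {p : Cond I} {Z A : Pt I → Set ℕ} (hZ : ∀ x ∈ p.body, Fat (Z x))
    (h : LeW W p Z A) (hA : ∀ x ∈ p.body, A x = ∅) : False := by
  obtain ⟨r, hr, T, hT, h3⟩ := h p le_rfl
  refine W.proper r (W.up r T (fun _ => ∅) hT (Nm.const ∅) fun x hx n hn => ?_)
  have hx' := hr.2 hx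
  have hf := h3 x hx n hn
  rw [hA x hx'] at hf
  obtain ⟨N, hN⟩ := hf.bddAbove
  obtain ⟨a, ha, haN, han⟩ := hZ x hx' n (N + 1)
  have : a ≤ N := hN ⟨ha, han, fun h => h⟩
  omega

/-- no set and its complement can both be above a fat name -/
theorem LeW.not_compl {p : Cond I} {Z A : Pt I → Set ℕ} (hZ : ∀ x ∈ p.body, Fat (Z x))
    (h1 : LeW W p Z A) (h2 : LeW W p Z (fun x => (A x)ᶜ)) : False :=
  LeW.not_empty hZ (h1.inter h2) fun x _ => by
    ext m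
    simp

/-- no name which misses a column is above a fat name, no bounded name either -/
theorem LeW.infinite {p : Cond I} {Z A : Pt I → Set ℕ} (hZ : ∀ x ∈ p.body, Fat (Z x))
    (h1 : LeW W p Z A) : ∀ q ≤ p, ∃ r ≤ q, ∀ x ∈ r.body, ∀ k, ∃ n ≥ k, ∀ N, ∃ m ∈ A x, N ≤ m ∧ lam m = n := by
  intro q hq
  obtain ⟨r, hr, T, hT, h3⟩ := h1 q hq
  obtain ⟨r', hr', -, h4⟩ := inf_or_bdd univ isLowerSet_univ (cr_all univ isLowerSet_univ) r
    (subset_univ _) T (W.nm r T hT)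
  rcases h4 with h4 | ⟨k, h4⟩
  · refine ⟨r', hr'.trans hr, fun x hx k => ?_⟩
    obtain ⟨n, hn, hkn⟩ := (h4 x hx).exists_gt k
    refine ⟨n, hkn.le, fun N => ?_⟩
    have hf := h3 x (hr'.2 hx) n hn
    obtain ⟨B, hB⟩ := hf.bddAbove
    obtain ⟨a, ha, haN, han⟩ := hZ x ((hr'.trans (hr.trans hq)).2 hx) n (max N (B + 1))
    refine ⟨a, ?_, (le_max_left _ _).trans haN, han⟩
    by_contra hc
    have : a ≤ B := hB ⟨ha, han, hc⟩
    have : B + 1 ≤ a := (le_max_right _ _).trans haN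
    omega
  · exfalso
    have h5 := W.inter r' T (fun _ => Ici k) (W.mono r r' T hT hr') (W.cofin r' k)
    refine W.proper r' (W.up r' _ (fun _ => ∅) h5 (Nm.const ∅) ?_)
    rintro x hx n ⟨hn, hk⟩
    have := h4 x hx n hn
    exact absurd this (not_lt.2 hk)

theorem decide_aux (c : Cond2 W) (A : Pt I → Set ℕ) (hA : Nm c.p.body c.p.w A) :
    (∃ q ≤ c.p, LeW W q c.Z (fun x => (A x)ᶜ)) ∨ ∃ c' ≤ c, LeW W c'.p c'.Z A := by
  obtain ⟨b, hb, -, T, hT, hTx⟩ := fin_read univ isLowerSet_univ c.p (subset_univ _)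
    (fun x => c.Z x ∩ A x) (c.nm.inter hA)
  obtain ⟨q, hq, h⟩ := W.ultra b T hT
  rcases h with h | h
  · refine Or.inl ⟨q, hq.trans hb, LeW.of_R h fun x hx n hn => ?_⟩
    refine ((hTx x (hq.2 hx) n).1 hn).subset ?_
    rintro m ⟨h1, h2, h3⟩
    exact ⟨⟨h1, not_not.1 h3⟩, h2⟩
  · have hqc : q ≤ c.p := hq.trans hb
    set Z' : Pt I → Set ℕ := fun x => {m | m ∈ c.Z x ∧ (lam m ∈ T x ∨ m ∈ A x)} with hZ'
    have hnm : Nm q.body q.w Z' := by
      intro m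
      have h1 : LC q.body q.w (fun x => m ∈ c.Z x) := (c.nm m).mono hqc.2 hqc.1
      have h2 : LC q.body q.w (fun x => lam m ∈ T x) := (hT (lam m)).mono hq.2 hq.1
      have h3 : LC q.body q.w (fun x => m ∈ A x) := (hA m).mono hqc.2 hqc.1
      exact (h1.prod (h2.prod h3)).comp fun t => t.1 ∧ (t.2.1 ∨ t.2.2)
    have hfat : ∀ x ∈ q.body, Fat (Z' x) := by
      intro x hx n N
      by_cases hn : n ∈ T x
      · obtain ⟨a, ha, haN, han⟩ := c.fat x (hqc.2 hx) n N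
        refine ⟨a, ⟨ha, Or.inl ?_⟩, haN, han⟩
        rw [han]
        exact hn
      · have hinf : {m | m ∈ c.Z x ∩ A x ∧ lam m = n}.Infinite := fun hf =>
          hn ((hTx x (hq.2 hx) n).2 hf)
        obtain ⟨a, ha, haN⟩ := hinf.exists_gt N
        exact ⟨a, ⟨ha.1.1, Or.inr ha.1.2⟩, haN.le, ha.2⟩
    refine Or.inr ⟨⟨q, Z', hnm, hfat⟩, ⟨hqc, LeW.of_subset fun x _ m hm => hm.1⟩,
      LeW.of_R h fun x hx n hn => ?_⟩
    have : {m | m ∈ Z' x ∧ lam m = n ∧ m ∉ A x} = ∅ := by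
      ext m
      simp only [mem_ofPred_eq, mem_empty_iff_false, iff_false]
      rintro ⟨⟨_, h1⟩, h2, h3⟩
      rcases h1 with h1 | h1
      · rw [h2] at h1
        exact hn h1
      · exact h3 h1
    rw [this]
    exact Set.finite_empty

/-- the generic ultrafilter decides every name -/
theorem decide_U (c : Cond2 W) (A : Pt I → Set ℕ) (hA : Nm c.p.body c.p.w A) :
    ∃ c' ≤ c, LeW W c'.p c'.Z A ∨ LeW W c'.p c'.Z (fun x => (A x)ᶜ) := by
  rcases decide_aux c A hA with ⟨q, hq, h⟩ | ⟨c', hc', h⟩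
  · exact ⟨c.sub q hq, c.sub_le q hq, Or.inr h⟩
  · exact ⟨c', hc', Or.inl h⟩

end Pool.Agent.QPt
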