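import Pool.Agent.QPt.FusionLim

/-!
# Fusion sequences carrying data (module FS)
-/

set_option autoImplicit false
set_option linter.unusedSectionVars false

namespace Pool.Agent.QPt

open Set

variable {I : Type} [LinearOrder I] [WellFoundedLT I]

namespace FSAux

theorem exists_run {α : Type} (Good : ℕ → α → Prop) (R : ℕ → α → α → Prop)
    (h : ∀ j s, Good j s → ∃ s', Good (j + 1) s' ∧ R j s s') (s0 : α) (h0 : Good 0 s0) :
    ∃ f : ℕ → α, f 0 = s0 ∧ ∀ j, Good j (f j) ∧ R j (f j) (f (j + 1)) := by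
  classical
  choose! nx hnx using h
  let f : ℕ → α := fun j => Nat.rec s0 (fun j s => nx j s) j
  have hf : ∀ j, Good j (f j) := by
    intro j
    induction j with
    | zero => exact h0
    | succ j ih => exact (hnx j (f j) ih).1
  exact ⟨f, rfl, fun j => ⟨hf j, (hnx j (f j) (hf j)).2⟩⟩

theorem exists_enum (w : Set I) (hw : w.Countable) :
    ∃ en : ℕ → Option I, ∀ β, β ∈ w ↔ ∃ k, en k = some β := by
  classical
  rcases w.eq_empty_or_nonempty with rfl | hne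
  · exact ⟨fun _ => none, by simp⟩
  · obtain ⟨f, hf⟩ := hw.exists_eq_range hne
    refine ⟨fun k => some (f k), fun β => ?_⟩
    rw [hf]
    simp [Set.mem_range]

end FSAux

open FSAux in
theorem fusion_seq {σ : Type} (J : Set I) (Inv : ℕ → Cond I → σ → Prop)
    (Rel : ℕ → Cond I → σ → Cond I → σ → Prop)
    (hstep : ∀ (j : ℕ) (p : Cond I) (a : σ) (F : Finset I) (n : ℕ), p.w ⊆ J → (F : Set I) ⊆ p.w →
      Inv j p a → ∃ (p' : Cond I) (a' : σ), p'.w ⊆ J ∧ Pure (F : Set I) n p' p ∧ Inv (j + 1) p' a' ∧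
        Rel j p a p' a')
    (p0 : Cond I) (a0 : σ) (hp0 : p0.w ⊆ J) (h0 : Inv 0 p0 a0) (F0 : Finset I)
    (hF0 : (F0 : Set I) ⊆ p0.w) (n0 : ℕ) :
    ∃ (P : ℕ → Cond I) (A : ℕ → σ) (F : ℕ → Finset I) (q : Cond I), P 0 = p0 ∧ A 0 = a0 ∧
      F 0 = F0 ∧ Monotone F ∧ q.w ⊆ J ∧
      ∀ j, (P j).w ⊆ J ∧ (F j : Set I) ⊆ (P j).w ∧ Inv j (P j) (A j) ∧
        Rel j (P j) (A j) (P (j + 1)) (A (j + 1)) ∧ Pure (F j : Set I) (n0 + j) (P (j + 1)) (P j) ∧
        Pure (F j : Set I) (n0 + j) q (P j) := by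
  classical
  have hen : ∀ p : Cond I, ∃ en : ℕ → Option I, ∀ β, β ∈ p.w ↔ ∃ k, en k = some β := fun p =>
    exists_enum p.w p.ctbl
  choose en hen using hen
  -- states: condition, datum, finite set, history
  let Good : ℕ → (Cond I × σ × Finset I × List (Cond I)) → Prop := fun j s =>
    s.1.w ⊆ J ∧ (s.2.2.1 : Set I) ⊆ s.1.w ∧ Inv j s.1 s.2.1 ∧ s.1 ∈ s.2.2.2 ∧
      ∀ h ∈ s.2.2.2, h.w ⊆ s.1.w
  let R : ℕ → (Cond I × σ × Finset I × List (Cond I)) → (Cond I × σ × Finset I × List (Cond I)) →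
      Prop := fun j s s' =>
    Rel j s.1 s.2.1 s'.1 s'.2.1 ∧ Pure (s.2.2.1 : Set I) (n0 + j) s'.1 s.1 ∧
      s.2.2.1 ⊆ s'.2.2.1 ∧ (∀ h ∈ s.2.2.2, h ∈ s'.2.2.2) ∧
      ∀ h ∈ s'.2.2.2, ∀ k ≤ j + 1, ∀ β, en h k = some β → β ∈ s'.2.2.1
  have hnext : ∀ j s, Good j s → ∃ s', Good (j + 1) s' ∧ R j s s' := by
    rintro j ⟨p, a, F, H⟩ ⟨h1, h2, h3, h4, h5⟩
    obtain ⟨p', a', h6, h7, h8, h9⟩ := hstep j p a F (n0 + j) h1 h2 h3
    have h5' : ∀ h ∈ p' :: H, h.w ⊆ p'.w := by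
      intro h hh
      rcases List.mem_cons.1 hh with rfl | hh
      · exact Subset.rfl
      · exact (h5 h hh).trans h7.1.1
    have hfin : {β | ∃ h ∈ p' :: H, ∃ k ≤ j + 1, en h k = some β}.Finite := by
      have : {β | ∃ h ∈ p' :: H, ∃ k ≤ j + 1, en h k = some β} ⊆
          ⋃ h ∈ {h | h ∈ p' :: H}, ⋃ k ∈ Set.Iic (j + 1), {β | en h k = some β} := by
        rintro β ⟨h, hh, k, hk, hβ⟩
        exact mem_biUnion hh (mem_biUnion hk hβ)
      refine (Set.Finite.biUnion (List.finite_toSet _) fun h _ =>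
        Set.Finite.biUnion (Set.finite_Iic (j + 1)) fun k _ => ?_).subset this
      refine Set.Subsingleton.finite fun β hβ γ hγ => ?_
      have h10 : some β = some γ := by
        rw [← show en h k = some β from hβ, ← show en h k = some γ from hγ]
      exact Option.some.inj h10
    refine ⟨(p', a', F ∪ hfin.toFinset, p' :: H), ⟨h6, ?_, h8, List.mem_cons_self, h5'⟩,
      h9, h7, Finset.subset_union_left, fun h hh => List.mem_cons_of_mem _ hh, ?_⟩
    · intro β hβ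
      rw [Finset.mem_coe, Finset.mem_union] at hβ
      rcases hβ with hβ | hβ
      · exact h7.1.1 (h2 hβ)
      · obtain ⟨h, hh, k, -, hk⟩ := hfin.mem_toFinset.1 hβ
        exact h5' h hh ((hen h β).2 ⟨k, hk⟩)
    · intro h hh k hk β hβ
      exact Finset.mem_union_right _ (hfin.mem_toFinset.2 ⟨h, hh, k, hk, hβ⟩)
  obtain ⟨f, hf0, hf⟩ := exists_run Good R hnext (p0, a0, F0, [p0])
    ⟨hp0, hF0, h0, List.mem_cons_self, fun h hh => by
      rw [List.mem_singleton] at hh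
      rw [hh]⟩
  have hmono : Monotone fun j => (f j).2.2.1 := monotone_nat_of_le_succ fun j => (hf j).2.2.2.1
  have hhist : ∀ i j, i ≤ j → (f i).1 ∈ (f j).2.2.2 := by
    intro i j hij
    induction j, hij using Nat.le_induction with
    | base => exact (hf i).1.2.2.2.1
    | succ j _ ih => exact (hf j).2.2.2.2.1 _ ih
  have hcov : ∀ j, ∀ β ∈ (f j).1.w, ∃ k, β ∈ (f k).2.2.1 := by
    intro j β hβ
    obtain ⟨k, hk⟩ := (hen _ β).1 hβ
    refine ⟨max j k + 1, (hf (max j k)).2.2.2.2.2 _ (hhist j _ ?_) k ?_ β hk⟩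
    · omega
    · omega
  obtain ⟨q, hqw, hq⟩ := fusion_limit (fun j => (f j).1) (fun j => (f j).2.2.1) (fun j => n0 + j)
    (fun j => (hf j).1.2.1) hmono hcov (fun a b hab => by change n0 + a < n0 + b; omega)
    (fun j => (hf j).2.2.1)
  refine ⟨fun j => (f j).1, fun j => (f j).2.1, fun j => (f j).2.2.1, q, ?_, ?_, ?_, hmono, ?_, ?_⟩
  · change (f 0).1 = p0
    rw [hf0]
  · change (f 0).2.1 = a0
    rw [hf0]
  · change (f 0).2.2.1 = F0
    rw [hf0]
  · rw [hqw]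
    exact iUnion_subset fun j => (hf j).1.1
  · exact fun j => ⟨(hf j).1.1, (hf j).1.2.1, (hf j).1.2.2.1, (hf j).2.1, (hf j).2.2.1, hq j⟩

end Pool.Agent.QPt
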