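import Pool.Agent.QPt.Dec
import Pool.Agent.QPt.FusionSeq

/-!
# MP_04bc06_lc, module LAV: the Laver property over a lower set
-/

set_option autoImplicit false
set_option linter.unusedSectionVars false

namespace Pool.Agent.QPt

open Set

variable {I : Type} [LinearOrder I] [WellFoundedLT I]

namespace Lav

open Classical in
/-- the functions supported on `F` with values in the subsets of `range n` -/
noncomputable def Tset (F : Finset I) (n : ℕ) : Finset (I → Finset ℕ) :=
  (Fintype.piFinset fun _ : ↥F => (Finset.range n).powerset).image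
    fun g γ => if h : γ ∈ F then g ⟨γ, h⟩ else ∅

theorem tra_mem (p : Cond I) (F : Finset I) (n : ℕ) (x : Pt I) :
    tra p (F : Set I) n x ∈ Tset F n := by
  classical
  unfold Tset
  rw [Finset.mem_image]
  refine ⟨fun γ => tra p (F : Set I) n x γ, ?_, ?_⟩
  · rw [Fintype.mem_piFinset]
    rintro ⟨γ, hγ⟩
    rw [Finset.mem_powerset]
    intro k hk
    have hγ' : γ ∈ (F : Set I) := hγ
    unfold tra at hk
    simp only [hγ', if_true] at hk
    unfold tr at hk
    exact (Finset.mem_filter.1 hk).1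
  · funext γ
    by_cases h : γ ∈ F
    · rw [dif_pos h]
    · rw [dif_neg h]
      unfold tra
      rw [if_neg (by simpa using h)]

end Lav

open Lav

theorem lav (J0 : Set I) (hJ0 : IsLowerSet J0) {ι : Type} (p : Cond I) (f : ℕ → Pt I → ι)
    (hf : ∀ j, LC p.body p.w (f j)) (B : ℕ → Pt I → Finset ι)
    (hB : ∀ j, LC (p.dom J0) (p.w ∩ J0) (B j)) (hfB : ∀ j, ∀ x ∈ p.body, f j x ∈ B j x) :
    ∃ q ≤ p, ∃ (C : ℕ → Pt I → Finset ι) (h : ℕ → ℕ), (∀ j, LC (q.dom J0) (q.w ∩ J0) (C j)) ∧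
      ∀ j, ∀ x ∈ q.body, f j x ∈ C j x ∧ (C j x).card ≤ h j := by
  classical
  obtain ⟨P, A, Fs, q, hP0, -, -, -, -, hq⟩ := fusion_seq (I := I)
    (σ := (I → Finset ℕ) → Pt I → ι) univ (fun _ r _ => r ≤ p)
    (fun j _ _ p' a' => ∃ (F : Finset I) (n : ℕ), (∀ t, LC (p'.dom J0) (p'.w ∩ J0) (a' t)) ∧
      ∀ x ∈ p'.body, f j x = a' (tra p' (F : Set I) n x) x)
    (by
      intro j r a F n _ hFr hrp
      obtain ⟨q, -, hq, c, hc, hc'⟩ := dec J0 univ hJ0 isLowerSet_univ (subset_univ _) r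
        (subset_univ _) (f j) ((hf j).mono hrp.2 hrp.1) (B j)
        ((hB j).mono (Cond.dom_mono hrp hJ0) (inter_subset_inter_left _ hrp.1))
        (fun x hx => hfB j x (hrp.2 hx)) F hFr n
      refine ⟨q, c, subset_univ _, hq, hq.1.trans hrp, F.filter (· ∉ J0), n, hc, ?_⟩
      have h1 : ((F.filter (· ∉ J0) : Finset I) : Set I) = (F : Set I) \ J0 := by
        ext γ
        simp
      rw [h1]
      exact hc')
    p (fun _ => f 0) (subset_univ _) le_rfl ∅ (by simp) 0
  have hPq : ∀ j, q ≤ P j := fun j => (hq j).2.2.2.2.2.1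
  choose F n hA1 hA2 using fun j => (hq j).2.2.2.1
  refine ⟨q, by rw [← hP0]; exact hPq 0, fun j x => (Tset (F j) (n j)).image fun t => A (j + 1) t x,
    fun j => (Tset (F j) (n j)).card, ?_, ?_⟩
  · intro j x hx
    obtain ⟨F', hF', n', h'⟩ := LC.finset (Tset (F j) (n j))
      (fun t (_ : t ∈ Tset (F j) (n j)) => (hA1 j t).mono
        (Cond.dom_mono (hPq (j + 1)) hJ0) (inter_subset_inter_left _ (hPq (j + 1)).1)) x hx
    refine ⟨F', hF', n', fun y hy hxy => ?_⟩
    exact Finset.image_congr fun t ht => h' y hy hxy t ht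
  · intro j x hx
    refine ⟨?_, Finset.card_image_le⟩
    rw [hA2 j x ((hPq (j + 1)).2 hx)]
    exact Finset.mem_image_of_mem _ (tra_mem _ _ _ _)

end Pool.Agent.QPt
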