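import Pool.Agent.QPt.TiedIn

set_option autoImplicit false
set_option linter.unusedSectionVars false

/-!
# Module TO: a slalom given by the intervals of the generic branch is tied to a thinner branch
-/

namespace Pool.Agent.QPt

open Set

variable {I : Type} [LinearOrder I] [WellFoundedLT I]

namespace Tied

theorem pairwise_of_isStem {t : List ℕ} (h : IsStem t) : t.Pairwise (· < ·) := by
  obtain ⟨z, hz, hzt⟩ := h
  rw [← hzt, pre, List.pairwise_map]
  exact List.pairwise_lt_range.imp fun h => hz.1 h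

/-- the stems which extend `s` by a nonempty list of elements of `ys` -/
def Tr (s ys : List ℕ) : Set (List ℕ) :=
  {t | IsStem t ∧ ∃ u : List ℕ, u ≠ [] ∧ t = s ++ u ∧ ∀ c ∈ u, c ∈ ys}

theorem Tr_finite (s ys : List ℕ) : (Tr s ys).Finite := by
  refine (((s ++ ys).toFinset.powerset).finite_toSet.image (fun S => S.sort (· ≤ ·))).subset ?_
  rintro t ⟨ht, u, -, htu, hu⟩
  have hp := pairwise_of_isStem ht
  refine ⟨t.toFinset, ?_, ?_⟩
  · rw [Finset.mem_coe, Finset.mem_powerset]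
    intro c hc
    rw [List.mem_toFinset] at hc ⊢
    rw [htu, List.mem_append] at hc
    rw [List.mem_append]
    exact hc.imp id (hu c)
  · refine (List.toFinset_sort (· ≤ ·) ?_).2 ?_
    · exact hp.imp fun h => ne_of_lt h
    · exact hp.imp fun h => le_of_lt h

/-- the domain of the names -/
def D (α : I) (b0 : Cond I) (s : List ℕ) (R : Pt I → Set ℕ) : Set (Pt I) :=
  {x | x ∈ b0.body ∧ x α ∈ K ∧ pre (x α) s.length = s ∧ ∀ i, s.length ≤ i → x α i ∈ R x}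

def Treated (α : I) (C : ℕ → Pt I → Finset ℕ) (ys : List ℕ) (b : Cond I) (A : Pt I → Set ℕ)
    (t : List ℕ) : Prop :=
  ∃ (Φ : Finset ℕ) (e : ℕ → Pt I → ℕ), (∀ M, LC b.body b.w (e M)) ∧
    (∀ M, Forces α b t (fun x => {a | a ∈ A x ∧ e M x ≤ a})
      (fun x => (C (t.length - 1) x).filter (· < M) = Φ.filter (· < M))) ∧
    (∀ m ∈ Φ, ∀ y ∈ ys, (∀ c ∈ t, c < y) → m < y) ∧
    (∀ y ∈ ys, (∀ c ∈ t, c < y) → Forces α b t A
      (fun x => (C (t.length - 1) x).filter (· < y) = Φ.filter (· < y)))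

/-- the states of the recursion -/
abbrev St (I : Type) : Type := List ℕ × (Pt I → Set ℕ)

def Inv (α : I) (b0 : Cond I) (s : List ℕ) (R : Pt I → Set ℕ) (C : ℕ → Pt I → Finset ℕ)
    (_j : ℕ) (b : Cond I) (st : St I) : Prop :=
  b ≤ b0 ∧ Nm b.body b.w st.2 ∧
    (∀ x ∈ b.body, Fat (st.2 x) ∧ st.2 x ⊆ R x ∧ (∀ a ∈ st.2 x, ∀ c ∈ st.1, c < a) ∧
      ∀ y ∈ st.1, y ∈ R x) ∧
    ∀ t ∈ Tr s st.1, Treated α C st.1 b st.2 t

def Nx (j : ℕ) (b : Cond I) (st st' : St I) : Prop :=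
  ∃ y, st'.1 = st.1 ++ [y] ∧ lam y = lam j ∧
    ∀ x ∈ b.body, y ∈ st.2 x ∧ st'.2 x ⊆ st.2 x ∧ ∀ a ∈ st'.2 x, y < a

/-- treat finitely many stems -/
theorem treat_all (α : I) (b : Cond I) (hb : b.w ⊆ Iio α) (A : Pt I → Set ℕ)
    (hA : Nm b.body b.w A) (hF : ∀ x ∈ b.body, Fat (A x)) (C : List ℕ → Pt I → Finset ℕ)
    (h : List ℕ → ℕ) (V : Finset (List ℕ)) (hV : ∀ t ∈ V, IsStem t)
    (hC : ∀ t ∈ V, LC {x | x ∈ b.body ∧ x α ∈ K ∧ pre (x α) t.length = t ∧
      ∀ i, t.length ≤ i → x α i ∈ A x} (insert α b.w) (C t))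
    (hc : ∀ t ∈ V, Forces α b t A (fun x => (C t x).card ≤ h t)) :
    ∃ b' ≤ b, b'.w ⊆ Iio α ∧ ∃ A' : Pt I → Set ℕ, Nm b'.body b'.w A' ∧
      (∀ x ∈ b'.body, Fat (A' x) ∧ A' x ⊆ A x) ∧
      ∀ t ∈ V, ∃ (Φ : Finset ℕ) (e : ℕ → Pt I → ℕ), (∀ M, LC b'.body b'.w (e M)) ∧
        ∀ M, Forces α b' t (fun x => {a | a ∈ A' x ∧ e M x ≤ a})
          (fun x => (C t x).filter (· < M) = Φ.filter (· < M)) := by
  classical
  induction V using Finset.induction_on with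
  | empty =>
    exact ⟨b, le_rfl, hb, A, hA, fun x hx => ⟨hF x hx, Subset.rfl⟩, fun t ht =>
      absurd ht (Finset.notMem_empty t)⟩
  | insert t V _ ih =>
    obtain ⟨b1, hb1, hb1w, A1, hA1, hFA1, h1⟩ := ih
      (fun t ht => hV t (Finset.mem_insert_of_mem ht))
      (fun t ht => hC t (Finset.mem_insert_of_mem ht))
      (fun t ht => hc t (Finset.mem_insert_of_mem ht))
    have htV := Finset.mem_insert_self t V
    obtain ⟨b2, hb2, hb2w, A2, F0, e, hA2, hFA2, he, hfor⟩ := tied_in α b1 hb1w t (hV t htV) A1 hA1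
      (fun x hx => (hFA1 x hx).1) (h t) (C t) ((hC t htV).mono (by
        rintro x ⟨h1, h2, h3, h4⟩
        exact ⟨hb1.2 h1, h2, h3, fun i hi => (hFA1 x h1).2 (h4 i hi)⟩)
        (insert_subset_insert hb1.1)) ((hc t htV).mono hb1 fun x hx => (hFA1 x hx).2)
    refine ⟨b2, hb2.trans hb1, hb2w, A2, hA2, fun x hx => ⟨(hFA2 x hx).1,
      (hFA2 x hx).2.trans (hFA1 x (hb2.2 hx)).2⟩, ?_⟩
    intro t' ht'
    rcases Finset.mem_insert.1 ht' with rfl | ht'
    · exact ⟨F0, e, he, hfor⟩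
    · obtain ⟨Φ, e', he', hfor'⟩ := h1 t' ht'
      exact ⟨Φ, e', fun M => (he' M).mono hb2.2 hb2.1, fun M => (hfor' M).mono hb2 fun x hx a ha =>
        ⟨(hFA2 x hx).2 ha.1, ha.2⟩⟩

theorem LC_sum {C : Set (Pt I)} {w : Set I} {ι : Type*} (V : Finset ι) (f : ι → Pt I → ℕ)
    (hf : ∀ i ∈ V, LC C w (f i)) : LC C w (fun x => ∑ i ∈ V, f i x) := by
  intro x hx
  obtain ⟨F, hF, n, hn⟩ := LC.finset V hf x hx
  exact ⟨F, hF, n, fun y hy hxy => Finset.sum_congr rfl fun i hi => hn y hy hxy i hi⟩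

theorem step_all (α : I) (b0 : Cond I) (s : List ℕ) (R : Pt I → Set ℕ)
    (C : ℕ → Pt I → Finset ℕ) (h : ℕ → ℕ) (hC : ∀ j, LC (D α b0 s R) (insert α b0.w) (C j))
    (hc : ∀ j, ∀ x ∈ D α b0 s R, (C j x).card ≤ h j) (j : ℕ) (b : Cond I) (st : St I)
    (hb : b.w ⊆ Iio α) (hI : Inv α b0 s R C j b st) :
    ∃ b' ≤ b, b'.w ⊆ Iio α ∧ ∃ st', Nx j b' st st' ∧ Inv α b0 s R C (j + 1) b' st' := by
  classical
  obtain ⟨ys, A⟩ := st
  obtain ⟨hle, hnm, hfat, hT⟩ := hI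
  simp only at hnm hfat hT
  choose! Φ e he hfor hΦ hfor' using hT
  obtain ⟨V, hV⟩ : ∃ V : Finset (List ℕ), ∀ t, t ∈ V ↔ t ∈ Tr s ys :=
    ⟨(Tr_finite s ys).toFinset, fun t => Set.Finite.mem_toFinset _⟩
  obtain ⟨L, hL⟩ : ∃ L, ∀ t ∈ V, ∀ m ∈ Φ t, m < L := by
    refine ⟨V.sup (fun t => (Φ t).sup id) + 1, fun t ht m hm => Nat.lt_succ_of_le ?_⟩
    exact (Finset.le_sup (f := id) hm).trans (Finset.le_sup (f := fun t => (Φ t).sup id) ht)
  obtain ⟨x0, hx0⟩ := b.body_nonempty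
  obtain ⟨r, hr, hrc⟩ := exists_nbhd_const b hx0
    (LC.nxt hnm (fun x hx => (hfat x hx).1) L (lam j))
  have hspec0 := nxt_spec (hfat x0 hx0).1 L (lam j)
  obtain ⟨y, hy⟩ : ∃ y, y = nxt (A x0) L (lam j) := ⟨_, rfl⟩
  rw [← hy] at hspec0 hrc
  have hyA : ∀ x ∈ r.body, y ∈ A x := by
    intro x hx
    have h1 := nxt_spec (hfat x (hr.le.2 hx)).1 L (lam j)
    rw [hrc x hx] at h1
    exact h1.1
  have hyy : ∀ c ∈ ys, c < y := (hfat x0 hx0).2.2.1 y hspec0.1
  obtain ⟨g, hg⟩ : ∃ g : Pt I → ℕ, g = fun x => y + ∑ t ∈ V, e t y x := ⟨_, rfl⟩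
  have hgL : LC r.body r.w g := by
    rw [hg]
    refine (LC_sum V (fun t => e t y) fun t ht => ?_).comp (fun m => y + m)
    exact (he t ((hV t).1 ht) y).mono hr.le.2 hr.le.1
  have hg1 : ∀ x, y ≤ g x := fun x => by rw [hg]; exact Nat.le_add_right _ _
  have hg2 : ∀ x, ∀ t ∈ V, e t y x ≤ g x := by
    intro x t ht
    rw [hg]
    exact (Finset.single_le_sum (f := fun t => e t y x) (fun _ _ => Nat.zero_le _) ht).trans
      (Nat.le_add_left _ _)
  obtain ⟨A1, hA1⟩ : ∃ A1 : Pt I → Set ℕ, A1 = fun x => {m | m ∈ A x ∧ g x < m} := ⟨_, rfl⟩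
  have hA1nm : Nm r.body r.w A1 := by
    rw [hA1]
    exact Nm.tail (hnm.mono hr.le.2 hr.le.1) hgL
  have hA1m : ∀ x, ∀ a, a ∈ A1 x ↔ a ∈ A x ∧ g x < a := by
    intro x a; rw [hA1]; rfl
  have hA1fat : ∀ x ∈ r.body, Fat (A1 x) := by
    intro x hx
    rw [hA1]
    exact (hfat x (hr.le.2 hx)).1.tail (g x + 1)
  have hrw : r.w ⊆ Iio α := by rw [hr.1]; exact hb
  have hrle : r ≤ b0 := hr.le.trans hle
  -- the new stems
  obtain ⟨V', hV'⟩ : ∃ V : Finset (List ℕ), ∀ t, t ∈ V ↔ t ∈ Tr s (ys ++ [y]) ∧ y ∈ t :=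
    ⟨((Tr_finite s (ys ++ [y])).subset (fun t ht => ht.1 :
      {t | t ∈ Tr s (ys ++ [y]) ∧ y ∈ t} ⊆ Tr s (ys ++ [y]))).toFinset, fun t =>
      Set.Finite.mem_toFinset _⟩
  have hysR : ∀ x ∈ r.body, ∀ c ∈ ys ++ [y], c ∈ R x := by
    intro x hx c hc
    rcases List.mem_append.1 hc with hc | hc
    · exact (hfat x (hr.le.2 hx)).2.2.2 c hc
    · rw [List.mem_singleton.1 hc]
      exact (hfat x (hr.le.2 hx)).2.1 (hyA x hx)
  have hdom : ∀ t ∈ V', ∀ x ∈ r.body, x α ∈ K → pre (x α) t.length = t →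
      (∀ i, t.length ≤ i → x α i ∈ A1 x) → x ∈ D α b0 s R := by
    intro t ht x hx hK htx hxi
    obtain ⟨⟨hst, u, hu, htu, huy⟩, hyt⟩ := (hV' t).1 ht
    have hlen : t.length = s.length + u.length := by rw [htu, List.length_append]
    have hget : ∀ i (hi : i < t.length), x α i = t.getD i 0 := by
      intro i hi
      conv_rhs => rw [← htx]
      rw [pre_getD _ _ _ hi]
    refine ⟨hrle.2 hx, hK, ?_, ?_⟩
    · refine List.ext_getElem (length_pre _ _) fun i hi1 hi2 => ?_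
      have h1 : i < t.length := by omega
      have h2 : (pre (x α) s.length)[i] = x α i := by
        simp [pre]
      rw [h2, hget i h1, htu]
      rw [List.getD_eq_getElem _ _ (by rw [List.length_append]; omega),
        List.getElem_append_left hi2]
    · intro i hi
      by_cases hit : i < t.length
      · have h1 : x α i ∈ u := by
          rw [hget i hit, htu, List.getD_eq_getElem _ _ (by rw [List.length_append]; omega),
            List.getElem_append_right hi]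
          exact List.getElem_mem _
        exact hysR x hx _ (huy _ h1)
      · have := hxi i (not_lt.1 hit)
        rw [hA1m] at this
        exact (hfat x (hr.le.2 hx)).2.1 this.1
  obtain ⟨b', hb', hb'w, A', hA', hFA', htr⟩ := treat_all α r hrw A1 hA1nm hA1fat
    (fun t => C (t.length - 1)) (fun t => h (t.length - 1)) V' (fun t ht => ((hV' t).1 ht).1.1)
    (fun t ht => (hC (t.length - 1)).mono (by
      rintro x ⟨h1, h2, h3, h4⟩
      exact hdom t ht x h1 h2 h3 h4) (insert_subset_insert hrle.1))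
    (fun t ht x h1 h2 h3 h4 => hc (t.length - 1) x (hdom t ht x h1 h2 h3 h4))
  have hA'A : ∀ x ∈ b'.body, A' x ⊆ A x := fun x hx a ha =>
    ((hA1m x a).1 ((hFA' x hx).2 ha)).1
  have hA'g : ∀ x ∈ b'.body, ∀ a ∈ A' x, g x < a := fun x hx a ha =>
    ((hA1m x a).1 ((hFA' x hx).2 ha)).2
  have hA'y : ∀ x ∈ b'.body, ∀ a ∈ A' x, y < a := fun x hx a ha =>
    (hg1 x).trans_lt (hA'g x hx a ha)
  have hb'b : b' ≤ b := hb'.trans hr.le
  refine ⟨b', hb'b, hb'w, (ys ++ [y], A'), ⟨y, rfl, hspec0.2.2, fun x hx =>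
    ⟨hyA x (hb'.2 hx), hA'A x hx, hA'y x hx⟩⟩, hb'b.trans hle, hA', ?_, ?_⟩
  · intro x hx
    refine ⟨(hFA' x hx).1, (hA'A x hx).trans (hfat x (hb'b.2 hx)).2.1, ?_,
      hysR x (hb'.2 hx)⟩
    intro a ha c hc
    rcases List.mem_append.1 hc with hc | hc
    · exact (hfat x (hb'b.2 hx)).2.2.1 a (hA'A x hx ha) c hc
    · rw [List.mem_singleton.1 hc]
      exact hA'y x hx a ha
  · intro t ht
    show Treated α C (ys ++ [y]) b' A' t
    by_cases hyt : y ∈ t
    · -- new stem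
      have hvac : ∀ y' ∈ ys ++ [y], ¬ ∀ c ∈ t, c < y' := by
        intro y' hy' hall
        have h1 := hall y hyt
        rcases List.mem_append.1 hy' with h2 | h2
        · have := hyy y' h2
          omega
        · rw [List.mem_singleton.1 h2] at h1
          omega
      obtain ⟨Ψ, e', he', hfor1⟩ := htr t ((hV' t).2 ⟨ht, hyt⟩)
      exact ⟨Ψ, e', he', hfor1, fun m _ y' hy' hall => absurd hall (hvac y' hy'),
        fun y' hy' hall => absurd hall (hvac y' hy')⟩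
    · -- old stem
      have ht' : t ∈ Tr s ys := by
        obtain ⟨h1, u, hu, htu, huy⟩ := ht
        refine ⟨h1, u, hu, htu, fun c hc => ?_⟩
        rcases List.mem_append.1 (huy c hc) with h2 | h2
        · exact h2
        · exfalso
          apply hyt
          rw [List.mem_singleton.1 h2] at hc
          rw [htu]
          exact List.mem_append_right _ hc
      refine ⟨Φ t, e t, fun M => (he t ht' M).mono hb'b.2 hb'b.1, fun M =>
        (hfor t ht' M).mono hb'b fun x hx a ha => ⟨hA'A x hx ha.1, ha.2⟩, ?_, ?_⟩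
      · intro m hm y' hy' hall
        rcases List.mem_append.1 hy' with h2 | h2
        · exact hΦ t ht' m hm y' h2 hall
        · rw [List.mem_singleton.1 h2]
          exact (hL t ((hV t).2 ht') m hm).trans_le hspec0.2.1
      · intro y' hy' hall
        rcases List.mem_append.1 hy' with h2 | h2
        · exact (hfor' t ht' y' h2 hall).mono hb'b hA'A
        · rw [List.mem_singleton.1 h2]
          exact (hfor t ht' y).mono hb'b fun x hx a ha =>
            ⟨hA'A x hx ha, (hg2 x t ((hV t).2 ht')).trans (hA'g x hx a ha).le⟩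

/-- the combinatorial core -/
theorem core (z Y : ℕ → ℕ) (s : List ℕ) (c : Finset ℕ) (j : ℕ) (hz : z ∈ Fib s Y) (hY : Y ∈ K)
    (hj : s.length ≤ j) (hc : ∀ m ∈ c, z j ≤ m ∧ m < z (j + 1))
    (h : ∀ l, z (j + 1) = Y l → ∀ t : List ℕ, t = pre z (j + 1) → t ∈ Tr s (pre Y l) →
      ∃ Φ : Finset ℕ, (∀ m ∈ Φ, ∀ y ∈ pre Y l, (∀ a ∈ t, a < y) → m < y) ∧
        ∀ y ∈ pre Y l, (∀ a ∈ t, a < y) → c.filter (· < y) = Φ.filter (· < y)) :
    ∀ m ∈ c, ∃ k, Y k ≤ m ∧ m < Y (k + 1) ∧ (Y k ∈ range z ∨ Y (k + 1) ∈ range z) := by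
  intro m hm
  obtain ⟨hzK, hzs, hzY⟩ := hz
  obtain ⟨j', hj'⟩ := hzY j hj
  obtain ⟨l, hl⟩ := hzY (j + 1) (by omega)
  have hlt : j' < l := by
    have h1 : Y j' < Y l := by rw [hj', hl]; exact hzK.1 (Nat.lt_succ_self j)
    exact hY.1.lt_iff_lt.1 h1
  have hmem : ∀ i < l, Y i ∈ pre Y l := fun i hi =>
    List.mem_map.2 ⟨i, List.mem_range.2 hi, rfl⟩
  have hpre : ∀ a ∈ pre z (j + 1), a ≤ z j := by
    intro a ha
    obtain ⟨i, hi, rfl⟩ := List.mem_map.1 ha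
    exact hzK.1.monotone (Nat.lt_succ_iff.1 (List.mem_range.1 hi))
  have hT : pre z (j + 1) ∈ Tr s (pre Y l) := by
    refine ⟨isStem_pre hzK _, (List.range (j + 1 - s.length)).map (fun i => z (s.length + i)), ?_, ?_,
      ?_⟩
    · intro h0
      have := congrArg List.length h0
      simp only [List.length_map, List.length_range, List.length_nil] at this
      omega
    · conv_rhs => rw [← hzs]
      have h1 : j + 1 = s.length + (j + 1 - s.length) := by omega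
      conv_lhs => rw [h1]
      rw [pre, pre, List.range_add, List.map_append, List.map_map, List.length_map,
        List.length_range]
      rfl
    · intro a ha
      obtain ⟨i, hi, rfl⟩ := List.mem_map.1 ha
      rw [List.mem_range] at hi
      obtain ⟨i', hi'⟩ := hzY (s.length + i) (by omega)
      rw [← hi']
      refine hmem i' (hY.1.lt_iff_lt.1 ?_)
      rw [hi', hl]
      exact hzK.1 (by omega)
  obtain ⟨Φ, hΦ, hcΦ⟩ := h l hl.symm _ rfl hT
  obtain ⟨hm1, hm2⟩ := hc m hm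
  by_cases h1 : l = j' + 1
  · exact ⟨j', by rw [hj']; exact hm1, by rw [← h1, hl]; exact hm2, Or.inl ⟨j, hj'.symm⟩⟩
  · have hall : ∀ i, j' < i → ∀ a ∈ pre z (j + 1), a < Y i := by
      intro i hi a ha
      refine (hpre a ha).trans_lt ?_
      rw [← hj']
      exact hY.1 hi
    by_cases h2 : m < Y (l - 1)
    · have h3 := hcΦ (Y (l - 1)) (hmem (l - 1) (by omega)) (hall (l - 1) (by omega))
      have h4 : m ∈ Φ.filter (· < Y (l - 1)) := by
        rw [← h3]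
        exact Finset.mem_filter.2 ⟨hm, h2⟩
      have h5 := hΦ m (Finset.mem_filter.1 h4).1 (Y (j' + 1)) (hmem (j' + 1) (by omega))
        (hall (j' + 1) (by omega))
      exact ⟨j', by rw [hj']; exact hm1, h5, Or.inl ⟨j, hj'.symm⟩⟩
    · refine ⟨l - 1, not_lt.1 h2, ?_, Or.inr ⟨j + 1, ?_⟩⟩
      · rw [Nat.sub_add_cancel (by omega), hl]; exact hm2
      · rw [Nat.sub_add_cancel (by omega), hl]

end Tied

open Tied in
theorem tied (α : I) (p : Cond I) (hα : α ∈ p.w) (C : ℕ → Pt I → Finset ℕ)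
    (hC : ∀ j, LC (p.dom (Iic α)) (p.w ∩ Iic α) (C j)) (h : ℕ → ℕ)
    (hc : ∀ j, ∀ x ∈ p.dom (Iic α), (C j x).card ≤ h j ∧ ∀ b ∈ C j x, x α j ≤ b ∧ b < x α (j + 1)) :
    ∃ q ≤ p, ∃ s : List ℕ, (∀ x ∈ q.dom (Iio α), q.s α x = s) ∧
      ∀ x ∈ q.body, ∀ j, s.length ≤ j → ∀ b ∈ C j x, ∃ k, q.y α x k ≤ b ∧ b < q.y α x (k + 1) ∧
        (q.y α x k ∈ range (x α) ∨ q.y α x (k + 1) ∈ range (x α)) := by
  obtain ⟨x0, hx0⟩ := p.body_nonempty
  obtain ⟨p1, hp1, hp1s, hp1c⟩ := exists_low_const p (Iio α) (isLowerSet_Iio α) hx0 (p.hs α hα)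
  obtain ⟨s, hs⟩ : ∃ s, s = p.s α x0 := ⟨_, rfl⟩
  rw [← hs] at hp1c
  have hαα : α ∉ Iio α := lt_irrefl α
  have hp1p : p1 ≤ p := hp1.le
  have hαp1 : α ∈ p1.w := hp1p.1 hα
  have hS : IsStem s := by
    rw [hs]
    exact p.hS α hα x0 (p.body_subset_dom _ hx0)
  have hp1sα : ∀ x ∈ p1.dom (Iio α), p1.s α x = s := by
    intro x hx
    rw [(hp1s α hαα).1]
    exact hp1c x hx
  obtain ⟨b0, hb0⟩ : ∃ b0, b0 = p1.res (Iio α) (isLowerSet_Iio α) := ⟨_, rfl⟩
  have hb0w : b0.w = p1.w ∩ Iio α := by rw [hb0]; rfl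
  have hb0b : b0.body = p1.dom (Iio α) := by rw [hb0]; exact Cond.res_body _ _ _
  have hb0L : b0.w ⊆ Iio α := by rw [hb0w]; exact inter_subset_right
  obtain ⟨R, hR⟩ : ∃ R : Pt I → Set ℕ, R = fun x => range (p1.y α x) := ⟨_, rfl⟩
  have hRnm : Nm b0.body b0.w R := by
    rw [hR]
    refine Nm.range (fun i => ?_) ?_
    · rw [hb0w, hb0b]; exact p1.hy α hαp1 i
    · rw [hb0b]; exact p1.hK α hαp1
  have hRfat : ∀ x ∈ b0.body, Fat (R x) := by
    intro x hx
    rw [hR]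
    rw [hb0b] at hx
    exact fat_range (p1.hK α hαp1 x hx)
  -- the domain of the names
  have hdom : D α b0 s R ⊆ p1.dom (Iic α) := by
    rintro x ⟨h1, h2, h3, h4⟩
    rw [hb0b] at h1
    rw [hR] at h4
    intro β hβ hβα
    rcases lt_or_eq_of_le hβα with hlt | heq
    · exact h1 β hβ hlt
    · subst heq
      rw [hp1sα x h1]
      exact ⟨h2, h3, h4⟩
  have hpd : p1.dom (Iic α) ⊆ p.dom (Iic α) := Cond.dom_mono hp1p (isLowerSet_Iic α)
  have hCD : ∀ j, LC (D α b0 s R) (insert α b0.w) (C j) := by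
    intro j
    refine (hC j).mono (hdom.trans hpd) ?_
    rintro γ ⟨hγ, hγα⟩
    rcases lt_or_eq_of_le hγα with hlt | heq
    · refine mem_insert_of_mem _ ?_
      rw [hb0w]
      exact ⟨hp1p.1 hγ, hlt⟩
    · rw [heq]; exact mem_insert _ _
  have hcD : ∀ j, ∀ x ∈ D α b0 s R, (C j x).card ≤ h j := fun j x hx =>
    (hc j x (hpd (hdom hx))).1
  -- the recursion
  obtain ⟨b, hb, hbw, S, hS0, hSL, hSS⟩ := seq_choice (Iio α) (isLowerSet_Iio α)
    (cr_all (Iio α) (isLowerSet_Iio α)) (Inv α b0 s R C) Nx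
    (by
      rintro j b b' ⟨ys, A⟩ hb _ ⟨h1, h2, h3, h4⟩
      refine ⟨hb.trans h1, h2.mono hb.2 hb.1, fun x hx => h3 x (hb.2 hx), fun t ht => ?_⟩
      obtain ⟨Φ, e, h5, h6, h7, h8⟩ := h4 t ht
      exact ⟨Φ, e, fun M => (h5 M).mono hb.2 hb.1, fun M => (h6 M).mono hb fun _ _ => Subset.rfl,
        h7, fun y hy hall => (h8 y hy hall).mono hb fun _ _ => Subset.rfl⟩)
    (by
      rintro j b b' st st' hb _ ⟨y, h1, h2, h3⟩
      exact ⟨y, h1, h2, fun x hx => h3 x (hb.2 hx)⟩)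
    (fun j b st hb hI => step_all α b0 s R C h hCD hcD j b st hb hI) b0 hb0L ([], R)
    ⟨le_rfl, hRnm, fun x hx => ⟨hRfat x hx, Subset.rfl, fun a _ c hc => by simp at hc,
      fun y hy => by simp at hy⟩, fun t ht => by
        obtain ⟨_, u, hu, -, huy⟩ := ht
        obtain ⟨c, hc⟩ := List.exists_mem_of_ne_nil u hu
        exact absurd (huy c hc) (by simp)⟩
  -- the branch
  obtain ⟨Y, hY⟩ : ∃ Y : Pt I → ℕ → ℕ, Y = fun x j => (S (j + 1) x).1.getD j 0 := ⟨_, rfl⟩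
  have hSY : ∀ x ∈ b.body, ∀ j, (S j x).1 = pre (Y x) j := by
    intro x hx j
    induction j with
    | zero => rw [hS0 x hx]; rfl
    | succ j ih =>
      obtain ⟨r, hr, -, ⟨y, hy, -, -⟩, -⟩ := hSS j x hx
      rw [hy, pre_succ, ih]
      congr 2
      rw [hY]
      show y = (S (j + 1) x).1.getD j 0
      rw [hy, ih, List.getD_eq_getElem _ _ (by rw [List.length_append, length_pre]; simp),
        List.getElem_append_right (by rw [length_pre])]
      simp [length_pre]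
  have hYs : ∀ x ∈ b.body, ∀ j, lam (Y x j) = lam j ∧ Y x j ∈ (S j x).2 x ∧
      (S (j + 1) x).2 x ⊆ (S j x).2 x ∧ ∀ a ∈ (S (j + 1) x).2 x, Y x j < a := by
    intro x hx j
    obtain ⟨r, hr, -, ⟨y, hy, hlam, hyr⟩, -⟩ := hSS j x hx
    have h1 : Y x j = y := by
      have h2 : (S (j + 1) x).1 = (S j x).1 ++ [Y x j] := by
        rw [hSY x hx, hSY x hx, pre_succ]
      rw [hy] at h2
      exact (List.singleton_inj.1 (List.append_cancel_left h2)).symm
    rw [h1]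
    exact ⟨hlam, (hyr x hr.2.1).1, (hyr x hr.2.1).2.1, (hyr x hr.2.1).2.2⟩
  have hanti : ∀ x ∈ b.body, ∀ i j, i ≤ j → (S j x).2 x ⊆ (S i x).2 x := by
    intro x hx i j hij
    induction j, hij using Nat.le_induction with
    | base => exact Subset.rfl
    | succ j hij ih => exact (hYs x hx j).2.2.1.trans ih
  have hYK : ∀ x ∈ b.body, Y x ∈ K := by
    intro x hx
    refine ⟨strictMono_nat_of_lt_succ fun j => ?_, fun j => (hYs x hx j).1⟩
    exact (hYs x hx j).2.2.2 _ (hYs x hx (j + 1)).2.1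
  have hYL : ∀ j, LC b.body b.w (fun x => Y x j) := by
    intro j
    rw [hY]
    exact (hSL (j + 1)).comp (fun st => st.1.getD j 0)
  have hYR : ∀ x ∈ b.body, range (Y x) ⊆ R x := by
    rintro x hx _ ⟨j, rfl⟩
    have h1 := (hYs x hx j).2.1
    obtain ⟨r, hr, hI, -, -⟩ := hSS j x hx
    exact (hI.2.2.1 x hr.2.1).2.1 h1
  -- the condition
  obtain ⟨a, haw, had, has, hay, hab, hadom⟩ := exists_top b α hbw (fun _ => s) Y (LC.const s) hYL
    (fun _ _ => hS) hYK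
  have haL : a.w ⊆ Iic α := by
    rw [haw]
    rintro γ (h1 | h1)
    · exact le_of_eq h1
    · exact le_of_lt (hbw h1)
  have hle : a ≤ p1.res (Iic α) (isLowerSet_Iic α) := by
    rw [Cond.le_res_iff]
    constructor
    · rintro γ ⟨hγ, hγα⟩
      rw [haw]
      rcases lt_or_eq_of_le hγα with hlt | heq
      · refine mem_insert_of_mem _ (hb.1 ?_)
        rw [hb0w]
        exact ⟨hγ, hlt⟩
      · rw [heq]; exact mem_insert _ _
    · intro x hx
      rw [hab] at hx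
      obtain ⟨hx1, hx2, hx3, hx4⟩ := hx
      exact hdom ⟨hb.2 hx1, hx2, hx3, fun i hi => hYR x hx1 (hx4 i hi)⟩
  obtain ⟨q, hqw, hqJ, -, hqa, hqp, -, hqb⟩ := exists_amal (Iic α) (isLowerSet_Iic α) p1 a haL hle
  have hqs : q.s α = fun _ => s := by rw [(hqJ α (mem_Iic.2 le_rfl)).1, has]
  have hqy : q.y α = Y := by rw [(hqJ α (mem_Iic.2 le_rfl)).2, hay]
  refine ⟨q, hqp.trans hp1p, s, fun x _ => by rw [hqs], ?_⟩
  intro x hx j hj
  have hxa : x ∈ a.body := hqa.2 hx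
  rw [hab] at hxa
  obtain ⟨hxb, hxF⟩ := hxa
  rw [hqy]
  have hxp : x ∈ p.dom (Iic α) := p.body_subset_dom _ ((hqp.trans hp1p).2 hx)
  refine core (x α) (Y x) s (C j x) j hxF (hYK x hxb) hj (hc j x hxp).2 ?_
  intro l hl t ht hT
  obtain ⟨r, hr, hI, -, -⟩ := hSS l x hxb
  have hIT := hI.2.2.2
  rw [hSY x hxb] at hIT
  obtain ⟨Φ, e, -, -, h3, h4⟩ := hIT t hT
  refine ⟨Φ, h3, fun y hy hall => ?_⟩
  have hlen : t.length - 1 = j := by rw [ht, length_pre]; rfl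
  have h5 := h4 y hy hall x hr.2.1 hxF.1 (by rw [ht, length_pre]) (by
    intro i hi
    rw [ht, length_pre] at hi
    obtain ⟨i', hi'⟩ := hxF.2.2 i (by omega)
    rw [← hi']
    refine hanti x hxb l i' ?_ (hYs x hxb i').2.1
    have h6 : Y x l ≤ Y x i' := by
      rw [hi', ← hl]
      exact hxF.1.1.monotone hi
    exact (hYK x hxb).1.le_iff_le.1 h6)
  rw [hlen] at h5
  exact h5

end Pool.Agent.QPt
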