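import Pool.Agent.QPt.Ops
import Pool.Agent.QPt.Lav
import Pool.Agent.QPt.Tied

/-!
# The set of the Q-point is covered by intervals tied to the generic branch
-/

set_option autoImplicit false
set_option linter.unusedSectionVars false

namespace Pool.Agent.QPt

open Set

namespace CoreLeft

/-- the part of `S` in the interval `[a, b)` -/
noncomputable def part (S : Set ℕ) (a b : ℕ) : Finset ℕ :=
  open Classical in (Finset.Ico a b).filter (fun m => m ∈ S)

theorem mem_part {S : Set ℕ} {a b m : ℕ} : m ∈ part S a b ↔ (a ≤ m ∧ m < b) ∧ m ∈ S := by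
  classical
  unfold part
  rw [Finset.mem_filter, Finset.mem_Ico]

theorem exists_interval {z : ℕ → ℕ} (hz : StrictMono z) (n b : ℕ) (h : z n ≤ b) :
    ∃ j, n ≤ j ∧ z j ≤ b ∧ b < z (j + 1) := by
  classical
  have hex : ∃ j, b < z (j + 1) := ⟨b, lt_of_lt_of_le (Nat.lt_succ_self b) (hz.le_apply (x := b + 1))⟩
  rcases lt_or_ge b (z (n + 1)) with h1 | h1
  · exact ⟨n, le_rfl, h, h1⟩
  · refine ⟨Nat.find hex, ?_, ?_, Nat.find_spec hex⟩
    · by_contra hlt
      push Not at hlt
      have : z (Nat.find hex + 1) ≤ z n := hz.monotone (by omega)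
      have := Nat.find_spec hex
      omega
    · by_contra hlt
      push Not at hlt
      rcases Nat.eq_zero_or_pos (Nat.find hex) with h0 | h0
      · rw [h0] at hlt
        have : z 0 ≤ z n := hz.monotone (Nat.zero_le _)
        omega
      · have h2 := Nat.find_min hex (m := Nat.find hex - 1) (by omega)
        rw [Nat.sub_add_cancel h0] at h2
        exact h2 hlt

/-- the elements `b` of the interval `[a, b)` such that `{b} ∈ C` -/
noncomputable def sing (C : Finset (Finset ℕ)) (a b : ℕ) : Finset ℕ :=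
  open Classical in (Finset.Ico a b).filter (fun m => {m} ∈ C)

theorem mem_sing {C : Finset (Finset ℕ)} {a b m : ℕ} :
    m ∈ sing C a b ↔ (a ≤ m ∧ m < b) ∧ ({m} : Finset ℕ) ∈ C := by
  classical
  unfold sing
  rw [Finset.mem_filter, Finset.mem_Ico]

theorem card_sing_le (C : Finset (Finset ℕ)) (a b : ℕ) : (sing C a b).card ≤ C.card := by
  classical
  refine Finset.card_le_card_of_injOn (fun m => ({m} : Finset ℕ)) ?_ ?_
  · intro m hm
    exact (mem_sing.1 hm).2
  · intro m _ m' _ h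
    exact Finset.singleton_injective h

end CoreLeft

open CoreLeft

variable {I : Type} [LinearOrder I] [WellFoundedLT I] {W : WName I}

/-- K2: the set `S` and its covering by intervals tied to the generic branch -/
theorem core_left {c0 : Cond2 W} (E : EName W c0) {α : I} (c1 : Cond2 W) (h1 : c1 ≤ c0)
    (hα : α ∈ c1.p.w) :
    ∃ c2 ≤ c1, ∃ S, E.R c2 S ∧ ∃ p4 ≤ c2.p, ∃ s : List ℕ,
      (∀ x ∈ p4.dom (Iio α), p4.s α x = s) ∧
      ∀ x ∈ p4.body, ∀ b ∈ S x, x α s.length ≤ b → ∃ k, p4.y α x k ≤ b ∧ b < p4.y α x (k + 1) ∧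
        (p4.y α x k ∈ range (x α) ∨ p4.y α x (k + 1) ∈ range (x α)) := by
  have hK1 : ∀ x ∈ c1.p.body, x α ∈ K := fun x hx => (hx α hα (mem_univ _)).1
  obtain ⟨c2, h2, S, hS, hSQ⟩ := E.Q c1 (fun x => range (x α)) h1
    (Nm.range (fun i => LC.coord hα i) hK1) (fun x hx => (fat_range (hK1 x hx)).infinite)
  have hα2 : α ∈ c2.p.w := h2.1.1 hα
  have hK2 : ∀ x ∈ c2.p.body, x α ∈ K := fun x hx => (hx α hα2 (mem_univ _)).1
  -- the sequence of finite sets
  have hf : ∀ j, LC c2.p.body c2.p.w (fun x => part (S x) (x α j) (x α (j + 1))) := by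
    intro j
    refine LC.diag (ι := ℕ × ℕ) (g := fun x => (x α j, x α (j + 1)))
      (f := fun ab x => part (S x) ab.1 ab.2) ((LC.coord hα2 j).prod (LC.coord hα2 (j + 1))) ?_
    intro x _
    refine LC.of_Nm (E.nm c2 S hS) ?_
    intro y _
    refine ⟨x α (j + 1), fun z _ hz => ?_⟩
    ext m
    rw [mem_part, mem_part]
    refine and_congr_right fun hm => hz m hm.2
  have hαJ : α ∈ c2.p.w ∩ Iic α := ⟨hα2, le_refl α⟩
  obtain ⟨q, hq, C, h, hC, hCf⟩ := lav (Iic α) (isLowerSet_Iic α) c2.p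
    (fun j x => part (S x) (x α j) (x α (j + 1))) hf
    (fun j x => (Finset.Ico (x α j) (x α (j + 1))).powerset)
    (fun j => ((LC.coord hαJ j).prod (LC.coord hαJ (j + 1))).comp
      (fun ab => (Finset.Ico ab.1 ab.2).powerset))
    (fun j x _ => by
      rw [Finset.mem_powerset]
      intro m hm
      rw [Finset.mem_Ico]
      exact (mem_part.1 hm).1)
  have hαq : α ∈ q.w := hq.1 hα2
  have hαqJ : α ∈ q.w ∩ Iic α := ⟨hαq, le_refl α⟩
  have hC' : ∀ j, LC (q.dom (Iic α)) (q.w ∩ Iic α)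
      (fun x => sing (C j x) (x α j) (x α (j + 1))) := by
    intro j
    exact (((LC.coord hαqJ j).prod (LC.coord hαqJ (j + 1))).prod (hC j)).comp
      (fun t => sing t.2 t.1.1 t.1.2)
  obtain ⟨p4, hp4, s, hs, ht⟩ := tied α q hαq
    (fun j x => sing (C j x) (x α j) (x α (j + 1))) hC' h (by
      intro j x hx
      refine ⟨?_, fun b hb => (mem_sing.1 hb).1⟩
      obtain ⟨x', hx', hag, -⟩ := q.exists_ext (isLowerSet_Iic α) hx
      have h3 : C j x' = C j x :=
        (hC j).eq_of_agree hx (q.body_subset_dom _ hx') (fun β hβ => hag β hβ.2)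
      refine (card_sing_le _ _ _).trans ?_
      change (C j x).card ≤ h j
      rw [← h3]
      exact (hCf j x' hx').2)
  refine ⟨c2, h2, S, hS, p4, hp4.trans hq, s, hs, ?_⟩
  intro x hx b hb hsb
  have hxq : x ∈ q.body := hp4.2 hx
  have hx2 : x ∈ c2.p.body := hq.2 hxq
  have hmono : StrictMono (x α) := (hK2 x hx2).1
  obtain ⟨j, hj, hj1, hj2⟩ := exists_interval hmono s.length b hsb
  refine ht x hx j hj b ?_
  rw [mem_sing]
  refine ⟨⟨hj1, hj2⟩, ?_⟩
  have h3 : part (S x) (x α j) (x α (j + 1)) = {b} := by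
    ext m
    rw [mem_part, Finset.mem_singleton]
    constructor
    · rintro ⟨⟨ha, hb'⟩, hm⟩
      by_contra hne
      rcases lt_or_gt_of_ne hne with hlt | hlt
      · obtain ⟨y, ⟨i, rfl⟩, hy1, hy2⟩ := hSQ x hx2 m hm b hb hlt
        have h4 : j < i := hmono.lt_iff_lt.1 (lt_of_le_of_lt ha hy1)
        have h5 : x α (j + 1) ≤ x α i := hmono.monotone h4
        omega
      · obtain ⟨y, ⟨i, rfl⟩, hy1, hy2⟩ := hSQ x hx2 b hb m hm hlt
        have h4 : j < i := hmono.lt_iff_lt.1 (lt_of_le_of_lt hj1 hy1)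
        have h5 : x α (j + 1) ≤ x α i := hmono.monotone h4
        omega
    · rintro rfl
      exact ⟨⟨hj1, hj2⟩, hb⟩
  rw [← h3]
  exact (hCf j x hxq).1

end Pool.Agent.QPt
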