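import Pool.Agent.QPt.Nbhd

/-!
# Names below the coordinate: thinning the branch
-/

set_option autoImplicit false
set_option linter.unusedSectionVars false

namespace Pool.Agent.QPt

open Set

namespace CoreRight

theorem exists_interval {z : ℕ → ℕ} (hz : StrictMono z) (b : ℕ) (h : z 0 ≤ b) :
    ∃ j, z j ≤ b ∧ b < z (j + 1) := by
  classical
  have hex : ∃ j, b < z (j + 1) := ⟨b, lt_of_lt_of_le (Nat.lt_succ_self b) (hz.le_apply (x := b + 1))⟩
  refine ⟨Nat.find hex, ?_, Nat.find_spec hex⟩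
  by_contra hlt
  push Not at hlt
  rcases Nat.eq_zero_or_pos (Nat.find hex) with h0 | h0
  · rw [h0] at hlt
    omega
  · have h2 := Nat.find_min hex (m := Nat.find hex - 1) (by omega)
    rw [Nat.sub_add_cancel h0] at h2
    exact h2 hlt

/-- `y'` is in `R`, in the same column and of the same type as `y` -/
def cls (R : Set ℕ) (A : Fin 2 → Set ℕ) (y y' : ℕ) : Prop :=
  y' ∈ R ∧ lam y' = lam y ∧ ∀ i, (y' ∈ A i ↔ y ∈ A i)

/-- the number of smaller elements of the class of `y` -/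
noncomputable def rk (R : Set ℕ) (A : Fin 2 → Set ℕ) (y : ℕ) : ℕ :=
  open Classical in Nat.count (cls R A y) y

/-- the two binary digits -/
def dg (i : Fin 2) (r : ℕ) : ℕ := if i = 0 then r % 2 else r / 2 % 2

/-- `b ∈ e` and `a` is the last element of `R` up to `b` (`i = 0`), the next element of `R` (`i = 1`) -/
def gam (R e : Set ℕ) (i : Fin 2) (a b : ℕ) : Prop :=
  a ∈ R ∧ b ∈ e ∧ (if i = 0 then a ≤ b ∧ ∀ r ∈ R, a < r → b < r else b < a ∧ ∀ r ∈ R, b < r → a ≤ r)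

def Gam (R e : Set ℕ) (i : Fin 2) : Set ℕ := {n | gam R e i n.unpair.1 n.unpair.2}

theorem pair_mem_Gam {R e : Set ℕ} {i : Fin 2} {a b : ℕ} :
    Nat.pair a b ∈ Gam R e i ↔ gam R e i a b := by
  unfold Gam
  simp

def Gd (R e : Set ℕ) (A : Fin 2 → Set ℕ) (i : Fin 2) (d : ℕ) : Set ℕ :=
  {b | ∃ a, gam R e i a b ∧ a ∉ A i ∧ dg i (rk R A a) = d}

def Pd (R : Set ℕ) (A : Fin 2 → Set ℕ) (i : Fin 2) (d : ℕ) : Set ℕ :=
  {y | y ∉ A i ∧ dg i (rk R A y) = d}

theorem dg_lt (i : Fin 2) (r : ℕ) : dg i r = 0 ∨ dg i r = 1 := by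
  unfold dg
  split_ifs <;> omega

theorem exists_digits (ε : Fin 2 → ℕ) (hε : ∀ i, ε i = 0 ∨ ε i = 1) (N : ℕ) :
    ∃ r, N ≤ r ∧ ∀ i, dg i r ≠ ε i := by
  refine ⟨4 * N + 2 * (1 - ε 1) + (1 - ε 0), by omega, ?_⟩
  intro i
  have h0 := hε 0
  have h1 := hε 1
  fin_cases i
  · unfold dg
    simp only [Fin.zero_eta, if_true]
    omega
  · unfold dg
    simp only [Fin.mk_one, one_ne_zero, if_false]
    omega

theorem gam_congr {R R' e e' : Set ℕ} {N : ℕ} (hR : ∀ k < N, (k ∈ R' ↔ k ∈ R))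
    (he : ∀ k < N, (k ∈ e' ↔ k ∈ e)) {i : Fin 2} {a b : ℕ} (ha : a < N) (hb : b < N) :
    gam R' e' i a b ↔ gam R e i a b := by
  unfold gam
  rw [hR a ha, he b hb]
  refine and_congr_right fun _ => and_congr_right fun _ => ?_
  split_ifs
  · refine and_congr_right fun _ => ⟨fun h r hr har => ?_, fun h r hr har => ?_⟩
    · by_contra hc
      exact hc (h r ((hR r (by omega)).2 hr) har)
    · by_contra hc
      exact hc (h r ((hR r (by omega)).1 hr) har)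
  · refine and_congr_right fun _ => ⟨fun h r hr har => ?_, fun h r hr har => ?_⟩
    · by_contra hc
      exact hc (h r ((hR r (by omega)).2 hr) har)
    · by_contra hc
      exact hc (h r ((hR r (by omega)).1 hr) har)

theorem rk_congr {R R' : Set ℕ} {A A' : Fin 2 → Set ℕ} {N : ℕ} (hR : ∀ k < N, (k ∈ R' ↔ k ∈ R))
    (hA : ∀ k < N, ∀ i, (k ∈ A' i ↔ k ∈ A i)) {a : ℕ} (ha : a < N) : rk R' A' a = rk R A a := by
  classical
  unfold rk
  rw [Nat.count_eq_card_filter_range, Nat.count_eq_card_filter_range]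
  congr 1
  refine Finset.filter_congr fun y hy => ?_
  have hy' : y < N := by
    have := Finset.mem_range.1 hy
    omega
  unfold cls
  rw [hR y hy']
  refine and_congr_right fun _ => and_congr_right fun _ => ?_
  refine forall_congr' fun i => ?_
  rw [hA y hy' i, hA a ha i]

/-- the complement of `P 0 ∪ P 1` in `R` is fat -/
theorem fat_compl {R : Set ℕ} (hR : Fat R) (A : Fin 2 → Set ℕ) (ε : Fin 2 → ℕ)
    (hε : ∀ i, ε i = 0 ∨ ε i = 1) : Fat (R \ (Pd R A 0 (ε 0) ∪ Pd R A 1 (ε 1))) := by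
  classical
  intro n N
  -- some type class is infinite
  have hinf : {a | a ∈ R ∧ lam a = n}.Infinite := by
    rw [Set.infinite_iff_exists_gt]
    intro k
    obtain ⟨a, ha, hk, hn⟩ := hR n (k + 1)
    exact ⟨a, ⟨ha, hn⟩, hk⟩
  have hτ : ∃ τ : Fin 2 → Prop, {a | (a ∈ R ∧ lam a = n) ∧ ∀ i, (a ∈ A i ↔ τ i)}.Infinite := by
    by_contra hc
    push Not at hc
    refine hinf ?_
    have : {a | a ∈ R ∧ lam a = n} =
        ⋃ τ : Fin 2 → Prop, {a | (a ∈ R ∧ lam a = n) ∧ ∀ i, (a ∈ A i ↔ τ i)} := by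
      ext a
      rw [Set.mem_iUnion]
      constructor
      · intro ha
        exact ⟨fun i => a ∈ A i, ha, fun i => Iff.rfl⟩
      · rintro ⟨τ, ha, -⟩
        exact ha
    rw [this]
    exact Set.finite_iUnion fun τ => Set.not_infinite.1 (by simpa using hc τ)
  obtain ⟨τ, hτ⟩ := hτ
  obtain ⟨r, hr, hd⟩ := exists_digits ε hε N
  have hmem := Nat.nth_mem_of_infinite hτ r
  have hcount := Nat.count_nth_of_infinite hτ r
  set y := Nat.nth (fun a => (a ∈ R ∧ lam a = n) ∧ ∀ i, (a ∈ A i ↔ τ i)) r with hy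
  have hyr : rk R A y = r := by
    unfold rk
    rw [← hcount]
    rw [Nat.count_eq_card_filter_range, Nat.count_eq_card_filter_range]
    congr 1
    refine Finset.filter_congr fun z _ => ?_
    unfold cls
    obtain ⟨⟨-, hyn⟩, hyA⟩ := hmem
    rw [hyn]
    constructor
    · rintro ⟨h1, h2, h3⟩
      exact ⟨⟨h1, h2⟩, fun i => (h3 i).trans (hyA i)⟩
    · rintro ⟨⟨h1, h2⟩, h3⟩
      exact ⟨h1, h2, fun i => (h3 i).trans (hyA i).symm⟩
  have hNy : N ≤ y := by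
    refine hr.trans ?_
    rw [hy]
    exact (Nat.nth_strictMono hτ).le_apply
  refine ⟨y, ⟨hmem.1.1, ?_⟩, hNy, hmem.1.2⟩
  rintro (⟨-, h1⟩ | ⟨-, h1⟩)
  · rw [hyr] at h1
    exact hd 0 h1
  · rw [hyr] at h1
    exact hd 1 h1

section Names

variable {I : Type} {C : Set (Pt I)} {w : Set I}

/-- a set which depends locally on finitely many memberships in four names -/
theorem nm_local {R e : Pt I → Set ℕ} {A : Fin 2 → Pt I → Set ℕ} {b : Pt I → Set ℕ}
    (hR : Nm C w R) (he : Nm C w e) (hA : ∀ i, Nm C w (A i))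
    (h : ∀ x ∈ C, ∀ m, ∃ N, ∀ y ∈ C, (∀ k < N, (k ∈ R y ↔ k ∈ R x)) →
      (∀ k < N, (k ∈ e y ↔ k ∈ e x)) → (∀ k < N, ∀ i, (k ∈ A i y ↔ k ∈ A i x)) →
      (m ∈ b y ↔ m ∈ b x)) : Nm C w b := by
  intro m x hx
  obtain ⟨N, hN⟩ := h x hx m
  obtain ⟨F, hF, n, hn⟩ := LC.finset (C := C) (w := w) (Finset.range N)
    (f := fun k x => ((k ∈ R x, k ∈ e x), (k ∈ A 0 x, k ∈ A 1 x)))
    (fun k _ => ((hR k).prod (he k)).prod ((hA 0 k).prod (hA 1 k))) x hx
  refine ⟨F, hF, n, fun y hy hxy => ?_⟩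
  have h1 := hn y hy hxy
  refine propext (hN y hy ?_ ?_ ?_)
  · intro k hk
    have := h1 k (Finset.mem_range.2 hk)
    simp only [Prod.mk.injEq] at this
    exact iff_of_eq this.1.1
  · intro k hk
    have := h1 k (Finset.mem_range.2 hk)
    simp only [Prod.mk.injEq] at this
    exact iff_of_eq this.1.2
  · intro k hk i
    have := h1 k (Finset.mem_range.2 hk)
    simp only [Prod.mk.injEq] at this
    fin_cases i
    · exact iff_of_eq this.2.1
    · exact iff_of_eq this.2.2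

theorem nm_Gam {R e : Pt I → Set ℕ} (hR : Nm C w R) (he : Nm C w e) (i : Fin 2) :
    Nm C w (fun x => Gam (R x) (e x) i) := by
  refine nm_local (A := fun _ _ => univ) hR he (fun _ => Nm.const _) fun x _ m => ?_
  refine ⟨m.unpair.1 + m.unpair.2 + 1, fun y _ h1 h2 _ => ?_⟩
  exact gam_congr h1 h2 (by omega) (by omega)

theorem nm_Pd {R : Pt I → Set ℕ} {A : Fin 2 → Pt I → Set ℕ} (hR : Nm C w R)
    (hA : ∀ i, Nm C w (A i)) (i : Fin 2) (d : ℕ) :
    Nm C w (fun x => Pd (R x) (fun i => A i x) i d) := by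
  refine nm_local (e := fun _ => univ) hR (Nm.const _) hA fun x _ m => ?_
  refine ⟨m + 1, fun y _ h1 _ h3 => ?_⟩
  change (m ∉ A i y ∧ dg i (rk (R y) (fun i => A i y) m) = d) ↔
    (m ∉ A i x ∧ dg i (rk (R x) (fun i => A i x) m) = d)
  rw [rk_congr (A := fun i => A i x) (A' := fun i => A i y) h1 h3 (Nat.lt_succ_self m),
    h3 m (Nat.lt_succ_self m) i]

theorem nm_Gd {R e : Pt I → Set ℕ} {A : Fin 2 → Pt I → Set ℕ} (hR : Nm C w R) (he : Nm C w e)
    (hA : ∀ i, Nm C w (A i)) (hfat : ∀ x ∈ C, Fat (R x)) (i : Fin 2) (d : ℕ) :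
    Nm C w (fun x => Gd (R x) (e x) (fun i => A i x) i d) := by
  refine nm_local hR he hA fun x hx m => ?_
  obtain ⟨a0, ha0, hma0, -⟩ := hfat x hx 0 (m + 1)
  refine ⟨a0 + 1, fun y _ h1 h2 h3 => ?_⟩
  have key : ∀ R' e' : Set ℕ, a0 ∈ R' → ∀ a, gam R' e' i a m → a < a0 + 1 := by
    intro R' e' h0 a ha
    obtain ⟨-, -, h⟩ := ha
    split_ifs at h
    · have := h.1
      omega
    · have := h.2 a0 h0 (by omega)
      omega
  have ha0' : a0 ∈ R y := (h1 a0 (Nat.lt_succ_self _)).2 ha0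
  constructor
  · rintro ⟨a, g1, g2, g3⟩
    have haN := key _ _ ha0' a g1
    refine ⟨a, (gam_congr h1 h2 haN (by omega)).1 g1, fun h => g2 ((h3 a haN i).2 h), ?_⟩
    rw [← g3, rk_congr (A := fun i => A i x) (A' := fun i => A i y) h1 h3 haN]
  · rintro ⟨a, g1, g2, g3⟩
    have haN := key _ _ ha0 a g1
    refine ⟨a, (gam_congr h1 h2 haN (by omega)).2 g1, fun h => g2 ((h3 a haN i).1 h), ?_⟩
    rw [← g3, rk_congr (A := fun i => A i x) (A' := fun i => A i y) h1 h3 haN]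

end Names

/-- `e` has at most one element between consecutive elements of `R` -/
def Spread (R e : Set ℕ) : Prop := ∀ m ∈ e, ∀ m' ∈ e, m < m' → ∃ y ∈ R, m < y ∧ y ≤ m'

theorem gam_inj_right {R e : Set ℕ} (h : Spread R e) {i : Fin 2} {a b b' : ℕ} (hb : gam R e i a b)
    (hb' : gam R e i a b') : b = b' := by
  by_contra hne
  wlog hlt : b < b' generalizing b b'
  · exact this hb' hb (Ne.symm hne) (by omega)
  obtain ⟨y, hy, h1, h2⟩ := h b hb.2.1 b' hb'.2.1 hlt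
  obtain ⟨-, -, g⟩ := hb
  obtain ⟨-, -, g'⟩ := hb'
  split_ifs at g g'
  · have := g'.2 y hy (by omega)
    omega
  · have := g.2 y hy h1
    omega

theorem gam_inj_left {R e : Set ℕ} {i : Fin 2} {a a' b : ℕ} (ha : gam R e i a b)
    (ha' : gam R e i a' b) : a = a' := by
  by_contra hne
  wlog hlt : a < a' generalizing a a'
  · exact this ha' ha (Ne.symm hne) (by omega)
  obtain ⟨h1, -, g⟩ := ha
  obtain ⟨h1', -, g'⟩ := ha'
  split_ifs at g g'
  · have := g.2 a' h1' hlt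
    omega
  · have := g'.2 a h1 (by omega)
    omega

theorem gam_interval {z : ℕ → ℕ} (hz : StrictMono z) {e : Set ℕ} {k b : ℕ} (hb : b ∈ e)
    (h1 : z k ≤ b) (h2 : b < z (k + 1)) (i : Fin 2) :
    gam (range z) e i (if i = 0 then z k else z (k + 1)) b := by
  unfold gam
  split_ifs
  · refine ⟨⟨k, rfl⟩, hb, h1, ?_⟩
    rintro _ ⟨l, rfl⟩ hl
    have : k < l := hz.lt_iff_lt.1 hl
    exact lt_of_lt_of_le h2 (hz.monotone this)
  · refine ⟨⟨k + 1, rfl⟩, hb, h2, ?_⟩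
    rintro _ ⟨l, rfl⟩ hl
    have : k < l := hz.lt_iff_lt.1 (lt_of_le_of_lt h1 hl)
    exact hz.monotone this

end CoreRight

open CoreRight

variable {I : Type} [LinearOrder I] [WellFoundedLT I] {W : WName I}

/-- K3: names below `α`. `Y` is the branch at `α`; `e`, `P₁`, `P₂` are names with: `e` has at most one
element in each interval `[Y k, Y (k+1))`; `E` contains a set `H` each element `b` of which lies in some
`[Y k, Y (k+1))` with `Y k ∈ P₁` and `Y (k+1) ∈ P₂`; and `Y` minus `P₁ ∪ P₂` is infinite in every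
column. -/
theorem core_right {c0 : Cond2 W} (E : EName W c0) {α : I} (hα : ClosedAt E α) (c5 : Cond2 W)
    (h5 : c5 ≤ c0) (hw : c5.p.w ⊆ Iio α) (Y : Pt I → ℕ → ℕ)
    (hY : ∀ i, LC c5.p.body c5.p.w (fun x => Y x i)) (hYK : ∀ x ∈ c5.p.body, Y x ∈ K)
    (hZ : ∀ x ∈ c5.p.body, c5.Z x = range (Y x)) :
    ∃ c9 ≤ c5, c9.p.w ⊆ Iio α ∧ ∃ (H : Pt I → Set ℕ) (P : Fin 2 → Pt I → Set ℕ), E.R c9 H ∧
      (∀ i, Nm c9.p.body c9.p.w (P i)) ∧ (∀ i, LeW W c9.p c9.Z (fun x => (P i x)ᶜ)) ∧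
      (∀ x ∈ c9.p.body, ∀ b ∈ H x, ∀ k, Y x k ≤ b → b < Y x (k + 1) →
        Y x k ∈ P 0 x ∧ Y x (k + 1) ∈ P 1 x) ∧
      ∀ x ∈ c9.p.body, Fat (range (Y x) \ (P 0 x ∪ P 1 x)) := by
  -- make `Y 0` constant
  obtain ⟨x0, hx0⟩ := c5.p.body_nonempty
  obtain ⟨r, hr, hr0⟩ := exists_nbhd_const c5.p hx0 (hY 0)
  have hrle : r ≤ c5.p := hr.le
  set c5' : Cond2 W := c5.sub r hrle with hc5'
  have h5' : c5' ≤ c5 := c5.sub_le r hrle
  have hw' : c5'.p.w ⊆ Iio α := by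
    change r.w ⊆ Iio α
    rw [hr.1]
    exact hw
  have hY0 : ∀ x ∈ c5'.p.body, Y x 0 = Y x0 0 := hr0
  -- the name of `range Y` below `c5`
  have hRn : ∀ c : Cond2 W, c ≤ c5 → Nm c.p.body c.p.w (fun x => range (Y x)) := by
    intro c hc
    exact (Nm.range hY hYK).mono hc.1.2 hc.1.1
  have hYKc : ∀ c : Cond2 W, c ≤ c5 → ∀ x ∈ c.p.body, Y x ∈ K := fun c hc x hx => hYK x (hc.1.2 hx)
  have hRf : ∀ c : Cond2 W, c ≤ c5 → ∀ x ∈ c.p.body, Fat (range (Y x)) :=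
    fun c hc x hx => fat_range (hYKc c hc x hx)
  -- the set `e`
  obtain ⟨c6, h6, hw6, e, he, heQ⟩ := hα.hQ c5' (fun x => range (Y x)) (h5'.trans h5) hw'
    (hRn c5' h5') (fun x hx => (hRf c5' h5' x hx).infinite)
  have h65 : c6 ≤ c5 := h6.trans h5'
  have hsep : ∀ x ∈ c6.p.body, Spread (range (Y x)) (e x) := heQ
  have hen : ∀ c : Cond2 W, c ≤ c6 → Nm c.p.body c.p.w e :=
    fun c hc => (E.nm c6 e he).mono hc.1.2 hc.1.1
  have hinjr : ∀ i : Fin 2, ∀ c : Cond2 W, c ≤ c6 → ∀ x ∈ c.p.body, ∀ a b b',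
      Nat.pair a b ∈ Gam (range (Y x)) (e x) i → Nat.pair a b' ∈ Gam (range (Y x)) (e x) i → b = b' := by
    intro i c hc x hx a b b' h1 h2
    exact gam_inj_right (hsep x (hc.1.2 hx)) (pair_mem_Gam.1 h1) (pair_mem_Gam.1 h2)
  have hinjl : ∀ i : Fin 2, ∀ c : Cond2 W, c ≤ c6 → ∀ x ∈ c.p.body, ∀ a a' b,
      Nat.pair a b ∈ Gam (range (Y x)) (e x) i → Nat.pair a' b ∈ Gam (range (Y x)) (e x) i → a = a' := by
    intro i c hc x hx a b b' h1 h2
    exact gam_inj_left (pair_mem_Gam.1 h1) (pair_mem_Gam.1 h2)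
  -- the sets `A 0`, `A 1`
  obtain ⟨c7, h7, hw7, A0, B0, hA0, hA0le, hB0, hAB0⟩ := hα.hN c6
    (fun x => Gam (range (Y x)) (e x) 0) (h65.trans h5) hw6 (nm_Gam (hRn c6 h65) (hen c6 le_rfl) 0)
    (hinjr 0 c6 le_rfl) (hinjl 0 c6 le_rfl)
  have h75 : c7 ≤ c5 := h7.trans h65
  obtain ⟨c8, h8, hw8, A1, B1, hA1, hA1le, hB1, hAB1⟩ := hα.hN c7
    (fun x => Gam (range (Y x)) (e x) 1) (h75.trans h5) hw7 (nm_Gam (hRn c7 h75) (hen c7 h7) 1)
    (hinjr 1 c7 h7) (hinjl 1 c7 h7)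
  have h86 : c8 ≤ c6 := h8.trans h7
  have h85 : c8 ≤ c5 := h8.trans h75
  set A : Fin 2 → Pt I → Set ℕ := fun i => if i = 0 then A0 else A1 with hAdef
  set B : Fin 2 → Pt I → Set ℕ := fun i => if i = 0 then B0 else B1 with hBdef
  have hAn : ∀ c : Cond2 W, c ≤ c8 → ∀ i, Nm c.p.body c.p.w (A i) := by
    intro c hc i
    fin_cases i
    · exact hA0.mono ((hc.trans h8).1.2) ((hc.trans h8).1.1)
    · exact hA1.mono hc.1.2 hc.1.1
  have hAle : ∀ i, LeW W c8.p c8.Z (A i) := by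
    intro i
    fin_cases i
    · exact h8.2.trans (hA0le.mono h8.1)
    · exact hA1le
  have hBR : ∀ i, E.R c8 (B i) := by
    intro i
    fin_cases i
    · exact E.mono c7 c8 B0 hB0 h8
    · exact hB1
  have hAB : ∀ i, ∀ x ∈ c8.p.body, ∀ a ∈ A i x, ∀ b ∈ B i x,
      ¬ gam (range (Y x)) (e x) i a b := by
    intro i x hx a ha b hb hg
    fin_cases i
    · exact hAB0 x (h8.1.2 hx) a ha b hb (pair_mem_Gam.2 hg)
    · exact hAB1 x hx a ha b hb (pair_mem_Gam.2 hg)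
  have hGn : ∀ c : Cond2 W, c ≤ c8 → ∀ i d, Nm c.p.body c.p.w
      (fun x => Gd (range (Y x)) (e x) (fun i => A i x) i d) := by
    intro c hc i d
    exact nm_Gd (hRn c (hc.trans h85)) (hen c (hc.trans h86)) (hAn c hc) (hRf c (hc.trans h85)) i d
  -- decide the digits
  have hdec : ∀ c : Cond2 W, c ≤ c8 → c.p.w ⊆ Iio α → ∀ i : Fin 2, ∃ c' ≤ c, c'.p.w ⊆ Iio α ∧
      ∃ d, (d = 0 ∨ d = 1) ∧ E.R c' (fun x => Gd (range (Y x)) (e x) (fun i => A i x) i d) := by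
    intro c hc hcw i
    have hc0 : c ≤ c0 := (hc.trans h85).trans h5
    obtain ⟨c', hc', hcw', hor⟩ := hα.hE c _ hc0 hcw (hGn c hc i 0)
    refine ⟨c', hc', hcw', ?_⟩
    rcases hor with h | h
    · exact ⟨0, Or.inl rfl, h⟩
    · refine ⟨1, Or.inr rfl, ?_⟩
      have hc'0 : c' ≤ c0 := hc'.trans hc0
      have hc'8 : c' ≤ c8 := hc'.trans hc
      have k1 := E.inter c' _ _ hc'0 h (E.inter c' _ _ hc'0 (E.mono _ c' _ he (hc'8.trans h86))
        (E.inter c' _ _ hc'0 (E.mono _ c' _ (hBR i) hc'8) (E.cofin c' (Y x0 0) hc'0)))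
      refine E.up c' _ _ hc'0 k1 (hGn c' hc'8 i 1) ?_
      rintro x hx b ⟨hb1, hb2, hb3, hb4⟩
      have hx8 : x ∈ c8.p.body := hc'8.1.2 hx
      have hx5' : x ∈ c5'.p.body := (h86.trans h6).1.2 hx8
      have hmono : StrictMono (Y x) := (hYKc c8 h85 x hx8).1
      have hb4' : Y x 0 ≤ b := by
        rw [hY0 x hx5']
        exact hb4
      obtain ⟨k, hk1, hk2⟩ := exists_interval hmono b hb4'
      have hg := gam_interval hmono hb2 hk1 hk2 i
      have hnA : (if i = 0 then Y x k else Y x (k + 1)) ∉ A i x :=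
        fun hin => hAB i x hx8 _ hin b hb3 hg
      refine ⟨_, hg, hnA, ?_⟩
      rcases dg_lt i (rk (range (Y x)) (fun i => A i x) (if i = 0 then Y x k else Y x (k + 1)))
        with h0 | h0
      · exact absurd ⟨_, hg, hnA, h0⟩ hb1
      · exact h0
  obtain ⟨c8', h8', hw8', d0, hd0, hG0⟩ := hdec c8 le_rfl hw8 0
  obtain ⟨c9, h9, hw9, d1, hd1, hG1⟩ := hdec c8' h8' hw8' 1
  have h98 : c9 ≤ c8 := h9.trans h8'
  have h95 : c9 ≤ c5 := h98.trans h85
  set ε : Fin 2 → ℕ := fun i => if i = 0 then d0 else d1 with hε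
  have hεs : ∀ i, ε i = 0 ∨ ε i = 1 := by
    intro i
    fin_cases i
    · exact hd0
    · exact hd1
  have hGR : ∀ i, E.R c9 (fun x => Gd (range (Y x)) (e x) (fun i => A i x) i (ε i)) := by
    intro i
    fin_cases i
    · exact E.mono _ c9 _ hG0 h9
    · exact hG1
  refine ⟨c9, h95, hw9, _, fun i x => Pd (range (Y x)) (fun i => A i x) i (ε i),
    E.inter c9 _ _ (h95.trans h5) (hGR 0) (hGR 1), ?_, ?_, ?_, ?_⟩
  · intro i
    exact nm_Pd (hRn c9 h95) (hAn c9 h98) i (ε i)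
  · intro i
    have k1 : LeW W c9.p c9.Z (A i) := h98.2.trans ((hAle i).mono h98.1)
    refine k1.trans (LeW.of_subset ?_)
    intro x _ a ha hP
    exact hP.1 ha
  · rintro x hx b ⟨⟨a, ha, haA, had⟩, ⟨a', ha', haA', had'⟩⟩ k hk1 hk2
    have hmono : StrictMono (Y x) := (hYKc c9 h95 x hx).1
    have g0 := gam_inj_left ha (gam_interval hmono ha.2.1 hk1 hk2 0)
    have g1 := gam_inj_left ha' (gam_interval hmono ha'.2.1 hk1 hk2 1)
    simp only [if_true] at g0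
    simp only [one_ne_zero, if_false] at g1
    subst g0
    subst g1
    exact ⟨⟨haA, had⟩, ⟨haA', had'⟩⟩
  · intro x hx
    exact fat_compl (hRf c9 h95 x hx) (fun i => A i x) ε hεs

end Pool.Agent.QPt
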