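import Pool.Agent.QPt.FinRead
import Pool.Agent.QPt.CondTwo

/-!
# Thinning the branch at the top coordinate
-/

set_option autoImplicit false
set_option linter.unusedSectionVars false
set_option linter.unusedVariables false

namespace Pool.Agent.QPt

open Set

variable {I : Type} [LinearOrder I] [WellFoundedLT I] {W : WName I}

/-- K4: thinning the branch at `α` -/
theorem core_thin {c0 : Cond2 W} (E : EName W c0) {α : I} (hα : ClosedAt E α) (c9 : Cond2 W)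
    (hw : c9.p.w ⊆ Iio α) (Y : Pt I → ℕ → ℕ) (P : Fin 2 → Pt I → Set ℕ)
    (hY : ∀ i, LC c9.p.body c9.p.w (fun x => Y x i)) (hYK : ∀ x ∈ c9.p.body, Y x ∈ K)
    (hP : ∀ i, Nm c9.p.body c9.p.w (P i)) (hP' : ∀ i, LeW W c9.p c9.Z (fun x => (P i x)ᶜ))
    (hle : LeW W c9.p c9.Z (fun x => range (Y x)))
    (hfat : ∀ x ∈ c9.p.body, Fat (range (Y x) \ (P 0 x ∪ P 1 x))) :
    ∃ r ≤ c9.p, r.w ⊆ Iio α ∧ ∃ T Y' : Pt I → Set ℕ, W.R r T ∧ Nm r.body r.w Y' ∧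
      ∀ x ∈ r.body, Fat (Y' x) ∧ Y' x ⊆ range (Y x) \ (P 0 x ∪ P 1 x) ∧
        ∀ m ∈ Y' x, lam m ∈ T x → m ∈ c9.Z x := by
  have hVn : Nm c9.p.body c9.p.w (fun x => range (Y x) \ (P 0 x ∪ P 1 x)) := by
    refine ((Nm.range hY hYK).inter ((hP 0).union (hP 1)).compl).congr fun x _ => ?_
    rfl
  have hDn : Nm c9.p.body c9.p.w (fun x => c9.Z x ∩ (range (Y x) \ (P 0 x ∪ P 1 x))ᶜ) :=
    c9.nm.inter hVn.compl
  have hVle : LeW W c9.p c9.Z (fun x => range (Y x) \ (P 0 x ∪ P 1 x)) := by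
    refine (hle.inter ((hP' 0).inter (hP' 1))).congr (fun x _ => rfl) fun x _ => ?_
    ext m
    simp only [mem_sdiff, mem_union, mem_inter_iff, mem_compl_iff, not_or]
  obtain ⟨b, hb, hbw, T, hTn, hT⟩ := fin_read (Iio α) (isLowerSet_Iio α) c9.p hw _ hDn
  obtain ⟨r, hr, hrw, hor⟩ := hα.hW b T hbw hTn
  have hrc : r ≤ c9.p := hr.trans hb
  have hTR : W.R r T := by
    rcases hor with h | h
    · exact h
    · exfalso
      obtain ⟨r', hr', T', hT', hfin⟩ := hVle r hrc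
      refine W.proper r' (W.up r' _ _ (W.inter r' _ _ hT' (W.mono r r' _ h hr')) (Nm.const _) ?_)
      rintro x hx n ⟨hn1, hn2⟩
      refine (hn2 ?_).elim
      rw [hT x (hr.2 (hr'.2 hx)) n]
      refine (hfin x hx n hn1).subset ?_
      rintro m ⟨⟨hm1, hm2⟩, hm3⟩
      exact ⟨hm1, hm3, hm2⟩
  refine ⟨r, hrc, hrw, T, fun x => {m | m ∈ range (Y x) \ (P 0 x ∪ P 1 x) ∧
    (lam m ∈ T x → m ∈ c9.Z x)}, hTR, ?_, ?_⟩
  · intro m
    exact (((hVn.mono hrc.2 hrc.1 m).prod (((hTn.mono hr.2 hr.1) (lam m)).prod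
      (c9.nm.mono hrc.2 hrc.1 m))).comp (fun t => t.1 ∧ (t.2.1 → t.2.2)))
  · intro x hx
    refine ⟨?_, fun m hm => hm.1, fun m hm => hm.2⟩
    intro n N
    by_cases hn : n ∈ T x
    · have hfin := (hT x (hr.2 hx) n).1 hn
      obtain ⟨M, hM⟩ := hfin.bddAbove
      obtain ⟨a, ha, hNa, hna⟩ := c9.fat x (hrc.2 hx) n (max N (M + 1))
      have h1 : N ≤ a := (le_max_left _ _).trans hNa
      have h2 : M + 1 ≤ a := (le_max_right _ _).trans hNa
      refine ⟨a, ⟨?_, fun _ => ha⟩, h1, hna⟩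
      by_contra hc
      have := hM ⟨⟨ha, hc⟩, hna⟩
      omega
    · obtain ⟨a, ha, hNa, hna⟩ := hfat x (hrc.2 hx) n N
      refine ⟨a, ⟨ha, fun h => ?_⟩, hNa, hna⟩
      rw [hna] at h
      exact absurd h hn

end Pool.Agent.QPt
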