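import Pool.Agent.QPt.Ops

/-!
# Glueing and amalgamation (module GL)
-/

set_option autoImplicit false
set_option linter.unusedSectionVars false

namespace Pool.Agent.QPt

open Set

variable {I : Type} [LinearOrder I] [WellFoundedLT I]

namespace GlueAux

theorem subset_Iio {J : Set I} (hJ : IsLowerSet J) {β : I} (hβ : β ∉ J) : J ⊆ Iio β := by
  intro γ hγ
  by_contra h
  exact hβ (hJ (not_lt.1 h) hγ)

open Classical in
/-- the data of the glued condition -/
noncomputable def glue (J : Set I) (a : Cond I) (P : Pt I → Cond I) : Pre I where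
  w := a.w ∪ ⋃ x ∈ a.body, ((P x).w \ J)
  s := fun β x => if β ∈ J then a.s β x else if β ∈ (P x).w then (P x).s β x else []
  y := fun β x => if β ∈ J then a.y β x else if β ∈ (P x).w then (P x).y β x else fun n => n

variable {J : Set I} {a : Cond I} {P : Pt I → Cond I}

theorem glue_s_mem {β : I} (hβ : β ∈ J) : (glue J a P).s β = a.s β := by
  funext x
  exact if_pos hβ

theorem glue_y_mem {β : I} (hβ : β ∈ J) : (glue J a P).y β = a.y β := by
  funext x
  exact if_pos hβ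

theorem glue_pos {β : I} (hβ : β ∉ J) {x : Pt I} (h : β ∈ (P x).w) :
    (glue J a P).s β x = (P x).s β x ∧ (glue J a P).y β x = (P x).y β x := by
  constructor
  · exact (if_neg hβ).trans (if_pos h)
  · exact (if_neg hβ).trans (if_pos h)

theorem glue_neg {β : I} (hβ : β ∉ J) {x : Pt I} (h : β ∉ (P x).w) :
    (glue J a P).s β x = [] ∧ (glue J a P).y β x = fun n => n := by
  constructor
  · exact (if_neg hβ).trans (if_neg h)
  · exact (if_neg hβ).trans (if_neg h)

theorem mem_w {β : I} : β ∈ (glue J a P).w ↔ β ∈ a.w ∨ ∃ x ∈ a.body, β ∈ (P x).w ∧ β ∉ J := by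
  simp only [glue, mem_union, mem_iUnion, mem_sdiff, exists_prop]

theorem mem_w_J (ha : a.w ⊆ J) {β : I} (hβ : β ∈ J) : β ∈ (glue J a P).w ↔ β ∈ a.w := by
  rw [mem_w]
  constructor
  · rintro (h | ⟨x, -, -, h⟩)
    · exact h
    · exact absurd hβ h
  · exact Or.inl

/-- below coordinates of `J` the glued condition is `a` -/
theorem dom_low (hJ : IsLowerSet J) (ha : a.w ⊆ J) {L : Set I} (hL : L ⊆ J) :
    (glue J a P).dom L = a.dom L := by
  ext x
  constructor
  · intro h β hβ hβL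
    have := h β ((mem_w_J ha (hL hβL)).2 hβ) hβL
    rwa [glue_s_mem (hL hβL), glue_y_mem (hL hβL)] at this
  · intro h β hβ hβL
    rw [glue_s_mem (hL hβL), glue_y_mem (hL hβL)]
    exact h β ((mem_w_J ha (hL hβL)).1 hβ) hβL

theorem dom_J (hJ : IsLowerSet J) (ha : a.w ⊆ J) : (glue J a P).dom J = a.body := by
  rw [dom_low hJ ha Subset.rfl, a.body_eq_dom ha]

theorem mem_body_of_dom (hJ : IsLowerSet J) (ha : a.w ⊆ J) {L : Set I} (hL : J ⊆ L) {x : Pt I}
    (hx : x ∈ (glue J a P).dom L) : x ∈ a.body := by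
  rw [← dom_J (P := P) hJ ha]
  exact fun β hβ hβJ => hx β hβ (hL hβJ)

theorem mem_P_dom (hJ : IsLowerSet J) (ha : a.w ⊆ J)
    (hdom : ∀ x ∈ a.body, (P x).w ∩ J ⊆ a.w ∧ x ∈ (P x).dom J) {L : Set I} (hL : J ⊆ L) {x : Pt I}
    (hx : x ∈ (glue J a P).dom L) : x ∈ (P x).dom L := by
  have hxa := mem_body_of_dom hJ ha hL hx
  intro β hβ hβL
  by_cases hβJ : β ∈ J
  · exact (hdom x hxa).2 β hβ hβJ
  · have := hx β (mem_w.2 (Or.inr ⟨x, hxa, hβ, hβJ⟩)) hβL
    rwa [(glue_pos hβJ hβ).1, (glue_pos hβJ hβ).2] at this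

theorem P_w_subset {x : Pt I} (hx : x ∈ a.body) (h : (P x).w ∩ J ⊆ a.w) :
    (P x).w ⊆ (glue J a P).w := by
  intro β hβ
  by_cases hβJ : β ∈ J
  · exact mem_w.2 (Or.inl (h ⟨hβ, hβJ⟩))
  · exact mem_w.2 (Or.inr ⟨x, hx, hβ, hβJ⟩)

/-- functions of the data of `P x` at `β ∉ J` are locally constant -/
theorem lc_aux {γ : Type*} (hJ : IsLowerSet J) (ha : a.w ⊆ J) (hP : LC a.body a.w P)
    (hdom : ∀ x ∈ a.body, (P x).w ∩ J ⊆ a.w ∧ x ∈ (P x).dom J) {β : I} (hβ : β ∉ J)
    (f : Pt I → γ) (g : Cond I → Pt I → γ) (c : γ)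
    (hf : ∀ x, f x = g (P x) x ∨ β ∉ (P x).w)
    (hf' : ∀ x, β ∉ (P x).w → f x = c)
    (hg : ∀ p : Cond I, β ∈ p.w → LC (p.dom (Iio β)) (p.w ∩ Iio β) (g p)) :
    LC ((glue J a P).dom (Iio β)) ((glue J a P).w ∩ Iio β) f := by
  classical
  have hJβ : J ⊆ Iio β := subset_Iio hJ hβ
  intro x hx
  have hxa : x ∈ a.body := mem_body_of_dom hJ ha hJβ hx
  obtain ⟨F, hF, n, hn⟩ := hP x hxa
  by_cases h : β ∈ (P x).w
  · obtain ⟨F', hF', n', hn'⟩ := hg (P x) h x (mem_P_dom hJ ha hdom hJβ hx)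
    refine ⟨F ∪ F', ?_, max n n', fun y hy hag => ?_⟩
    · rw [Finset.coe_union]
      refine union_subset (fun δ hδ => ?_) (fun δ hδ => ?_)
      · exact ⟨mem_w.2 (Or.inl (hF hδ)), hJβ (ha (hF hδ))⟩
      · exact ⟨P_w_subset hxa (hdom x hxa).1 (hF' hδ).1, (hF' hδ).2⟩
    · have hya : y ∈ a.body := mem_body_of_dom hJ ha hJβ hy
      have h1 : P y = P x := hn y hya (hag.mono (by simp) (le_max_left _ _))
      have hyP : y ∈ (P x).dom (Iio β) := h1 ▸ mem_P_dom hJ ha hdom hJβ hy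
      have h2 : g (P x) y = g (P x) x := hn' y hyP (hag.mono (by simp) (le_max_right _ _))
      have h3 : f y = g (P y) y := (hf y).resolve_right (by rw [h1]; exact fun h' => h' h)
      have h4 : f x = g (P x) x := (hf x).resolve_right (fun h' => h' h)
      rw [h3, h4, h1, h2]
  · refine ⟨F, fun δ hδ => ⟨mem_w.2 (Or.inl (hF hδ)), hJβ (ha (hF hδ))⟩, n, fun y hy hag => ?_⟩
    have hya : y ∈ a.body := mem_body_of_dom hJ ha hJβ hy
    have h1 : P y = P x := hn y hya hag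
    rw [hf' x h, hf' y (by rw [h1]; exact h)]

end GlueAux

open GlueAux in
/-- Glueing: below `a` (support in the lower set `J`) take at the point `x` the part of `P x` outside
`J`. -/
theorem exists_glue (J : Set I) (hJ : IsLowerSet J) (a : Cond I) (ha : a.w ⊆ J) (P : Pt I → Cond I)
    (hP : LC a.body a.w P) (hdom : ∀ x ∈ a.body, (P x).w ∩ J ⊆ a.w ∧ x ∈ (P x).dom J) :
    ∃ q : Cond I, q.w = a.w ∪ ⋃ x ∈ a.body, ((P x).w \ J) ∧
      (∀ β ∈ J, q.s β = a.s β ∧ q.y β = a.y β) ∧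
      (∀ x ∈ a.body, ∀ β, β ∉ J → β ∈ (P x).w → q.s β x = (P x).s β x ∧ q.y β x = (P x).y β x) ∧
      (∀ x ∈ a.body, ∀ β, β ∉ J → β ∉ (P x).w → q.s β x = [] ∧ q.y β x = fun n => n) ∧
      q ≤ a ∧ q.dom J = a.body ∧ ∀ x ∈ q.body, x ∈ a.body ∧ x ∈ (P x).body := by
  classical
  have hlow : ∀ β ∈ J, (glue J a P).dom (Iio β) = a.dom (Iio β) := fun β hβ =>
    dom_low hJ ha fun γ hγ => hJ (le_of_lt hγ) hβ
  have hwlow : ∀ β ∈ J, a.w ∩ Iio β ⊆ (glue J a P).w ∩ Iio β := fun β _ γ hγ =>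
    ⟨mem_w.2 (Or.inl hγ.1), hγ.2⟩
  have hmem : ∀ β ∈ (glue J a P).w, β ∈ J → β ∈ a.w := fun β h h' => (mem_w_J ha h').1 h
  let q : Cond I :=
    { toPre := glue J a P
      ctbl := by
        have h1 : (P '' a.body).Countable := hP.countable_image a.ctbl
        have h2 : (glue J a P).w ⊆ a.w ∪ ⋃ p ∈ P '' a.body, p.w := by
          intro β hβ
          rcases mem_w.1 hβ with h | ⟨x, hx, h, -⟩
          · exact Or.inl h
          · exact Or.inr (mem_biUnion (mem_image_of_mem P hx) h)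
        exact (a.ctbl.union (h1.biUnion fun p _ => p.ctbl)).mono h2
      hs := by
        intro β hβ
        by_cases hβJ : β ∈ J
        · rw [hlow β hβJ, glue_s_mem hβJ]
          exact (a.hs β (hmem β hβ hβJ)).mono Subset.rfl (hwlow β hβJ)
        · refine lc_aux hJ ha hP hdom hβJ _ (fun p x => p.s β x) [] ?_ ?_ (fun p hp => p.hs β hp)
          · intro x
            by_cases h : β ∈ (P x).w
            · exact Or.inl (glue_pos hβJ h).1
            · exact Or.inr h
          · exact fun x h => (glue_neg hβJ h).1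
      hy := by
        intro β hβ i
        by_cases hβJ : β ∈ J
        · rw [hlow β hβJ, glue_y_mem hβJ]
          exact (a.hy β (hmem β hβ hβJ) i).mono Subset.rfl (hwlow β hβJ)
        · refine lc_aux hJ ha hP hdom hβJ _ (fun p x => p.y β x i) i ?_ ?_ (fun p hp => p.hy β hp i)
          · intro x
            by_cases h : β ∈ (P x).w
            · exact Or.inl (by rw [(glue_pos hβJ h).2])
            · exact Or.inr h
          · intro x h
            change (glue J a P).y β x i = i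
            rw [(glue_neg hβJ h).2]
      hS := by
        intro β hβ x hx
        by_cases hβJ : β ∈ J
        · rw [hlow β hβJ] at hx
          rw [glue_s_mem hβJ]
          exact a.hS β (hmem β hβ hβJ) x hx
        · by_cases h : β ∈ (P x).w
          · rw [(glue_pos hβJ h).1]
            exact (P x).hS β h x (mem_P_dom hJ ha hdom (subset_Iio hJ hβJ) hx)
          · rw [(glue_neg hβJ h).1]
            exact isStem_nil
      hK := by
        intro β hβ x hx
        by_cases hβJ : β ∈ J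
        · rw [hlow β hβJ] at hx
          rw [glue_y_mem hβJ]
          exact a.hK β (hmem β hβ hβJ) x hx
        · by_cases h : β ∈ (P x).w
          · rw [(glue_pos hβJ h).2]
            exact (P x).hK β h x (mem_P_dom hJ ha hdom (subset_Iio hJ hβJ) hx)
          · rw [(glue_neg hβJ h).2]
            exact id_mem_K }
  refine ⟨q, rfl, fun β hβ => ⟨glue_s_mem hβ, glue_y_mem hβ⟩,
    fun x _ β hβ h => glue_pos hβ h, fun x _ β hβ h => glue_neg hβ h, ?_, dom_J hJ ha, ?_⟩
  · exact ⟨fun β hβ => mem_w.2 (Or.inl hβ), fun x hx => mem_body_of_dom hJ ha (subset_univ J) hx⟩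
  · exact fun x hx => ⟨mem_body_of_dom hJ ha (subset_univ J) hx,
      mem_P_dom hJ ha hdom (subset_univ J) hx⟩

/-- Amalgamation: replace the part of `p` in `J` by `a`. -/
theorem exists_amal (J : Set I) (hJ : IsLowerSet J) (p a : Cond I) (ha : a.w ⊆ J)
    (hle : a ≤ p.res J hJ) :
    ∃ q : Cond I, q.w = a.w ∪ (p.w \ J) ∧ (∀ β ∈ J, q.s β = a.s β ∧ q.y β = a.y β) ∧
      (∀ β, β ∉ J → q.s β = p.s β ∧ q.y β = p.y β) ∧
      q ≤ a ∧ q ≤ p ∧ q.dom J = a.body ∧ q.body = {x | x ∈ a.body ∧ x ∈ p.body} := by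
  classical
  have hpw : p.w ∩ J ⊆ a.w := hle.1
  have hpd : ∀ x ∈ a.body, x ∈ p.dom J := by
    intro x hx
    have h1 := hle.2 hx
    rw [Cond.res_body] at h1
    exact h1
  obtain ⟨q0, hw0, hJ0, hP0, hn0, hle0, hd0, hb0⟩ := exists_glue J hJ a ha (fun _ => p)
    (LC.const p) (fun x hx => ⟨hpw, hpd x hx⟩)
  have hwq : q0.w = a.w ∪ (p.w \ J) := by
    rw [hw0]
    congr 1
    obtain ⟨x, hx⟩ := a.body_nonempty
    ext β
    simp only [mem_iUnion, mem_sdiff, exists_prop]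
    constructor
    · rintro ⟨_, _, h⟩
      exact h
    · intro h
      exact ⟨x, hx, h⟩
  let q1 : Pre I :=
    { w := q0.w
      s := fun β x => if β ∈ J then a.s β x else p.s β x
      y := fun β x => if β ∈ J then a.y β x else p.y β x }
  have hsJ : ∀ β ∈ J, q1.s β = a.s β ∧ q1.y β = a.y β := fun β hβ =>
    ⟨funext fun x => if_pos hβ, funext fun x => if_pos hβ⟩
  have hsp : ∀ β, β ∉ J → q1.s β = p.s β ∧ q1.y β = p.y β := fun β hβ =>
    ⟨funext fun x => if_neg hβ, funext fun x => if_neg hβ⟩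
  have hJsub : ∀ β, β ∉ J → J ⊆ Iio β := fun β hβ => GlueAux.subset_Iio hJ hβ
  -- the domains agree
  have hdJ : q1.dom J = a.body := by
    rw [a.body_eq_dom ha]
    ext x
    constructor
    · intro h β hβ hβJ
      have := h β (by change β ∈ q0.w; rw [hwq]; exact Or.inl hβ) hβJ
      rwa [(hsJ β hβJ).1, (hsJ β hβJ).2] at this
    · intro h β hβ hβJ
      rw [(hsJ β hβJ).1, (hsJ β hβJ).2]
      change β ∈ q0.w at hβ
      rw [hwq] at hβ
      rcases hβ with hβ | hβ
      · exact h β hβ hβJ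
      · exact absurd hβJ hβ.2
  have hlow : ∀ β ∈ J, q1.dom (Iio β) = a.dom (Iio β) := by
    intro β hβ
    have hsub : ∀ γ, γ < β → γ ∈ J := fun γ hγ => hJ (le_of_lt hγ) hβ
    ext x
    constructor
    · intro h γ hγ hγβ
      have := h γ (by change γ ∈ q0.w; rw [hwq]; exact Or.inl hγ) hγβ
      rwa [(hsJ γ (hsub γ hγβ)).1, (hsJ γ (hsub γ hγβ)).2] at this
    · intro h γ hγ hγβ
      rw [(hsJ γ (hsub γ hγβ)).1, (hsJ γ (hsub γ hγβ)).2]
      change γ ∈ q0.w at hγ
      rw [hwq] at hγ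
      rcases hγ with hγ | hγ
      · exact h γ hγ hγβ
      · exact absurd (hsub γ hγβ) hγ.2
  have hhigh : ∀ L : Set I, J ⊆ L → ∀ x ∈ q1.dom L, x ∈ a.body ∧ x ∈ p.dom L := by
    intro L hL x hx
    have hxa : x ∈ a.body := by rw [← hdJ]; exact fun β hβ hβJ => hx β hβ (hL hβJ)
    refine ⟨hxa, fun β hβ hβL => ?_⟩
    by_cases hβJ : β ∈ J
    · exact hpd x hxa β hβ hβJ
    · have := hx β (by change β ∈ q0.w; rw [hwq]; exact Or.inr ⟨hβ, hβJ⟩) hβL
      rwa [(hsp β hβJ).1, (hsp β hβJ).2] at this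
  have hmem : ∀ β ∈ q1.w, β ∈ J → β ∈ a.w := by
    intro β hβ hβJ
    change β ∈ q0.w at hβ
    rw [hwq] at hβ
    rcases hβ with hβ | hβ
    · exact hβ
    · exact absurd hβJ hβ.2
  have hmem' : ∀ β ∈ q1.w, β ∉ J → β ∈ p.w := by
    intro β hβ hβJ
    change β ∈ q0.w at hβ
    rw [hwq] at hβ
    rcases hβ with hβ | hβ
    · exact absurd (ha hβ) hβJ
    · exact hβ.1
  have haw : a.w ⊆ q1.w := by
    intro β hβ; change β ∈ q0.w; rw [hwq]; exact Or.inl hβ
  have hpw' : p.w ⊆ q1.w := by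
    intro β hβ
    by_cases hβJ : β ∈ J
    · exact haw (hpw ⟨hβ, hβJ⟩)
    · change β ∈ q0.w; rw [hwq]; exact Or.inr ⟨hβ, hβJ⟩
  let q : Cond I :=
    { toPre := q1
      ctbl := q0.ctbl
      hs := by
        intro β hβ
        by_cases hβJ : β ∈ J
        · rw [hlow β hβJ, (hsJ β hβJ).1]
          exact (a.hs β (hmem β hβ hβJ)).mono Subset.rfl fun γ hγ => ⟨haw hγ.1, hγ.2⟩
        · rw [(hsp β hβJ).1]
          exact (p.hs β (hmem' β hβ hβJ)).mono (fun x hx => (hhigh _ (hJsub β hβJ) x hx).2)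
            fun γ hγ => ⟨hpw' hγ.1, hγ.2⟩
      hy := by
        intro β hβ i
        by_cases hβJ : β ∈ J
        · rw [hlow β hβJ, (hsJ β hβJ).2]
          exact (a.hy β (hmem β hβ hβJ) i).mono Subset.rfl fun γ hγ => ⟨haw hγ.1, hγ.2⟩
        · rw [(hsp β hβJ).2]
          exact (p.hy β (hmem' β hβ hβJ) i).mono (fun x hx => (hhigh _ (hJsub β hβJ) x hx).2)
            fun γ hγ => ⟨hpw' hγ.1, hγ.2⟩
      hS := by
        intro β hβ x hx
        by_cases hβJ : β ∈ J
        · rw [hlow β hβJ] at hx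
          rw [(hsJ β hβJ).1]
          exact a.hS β (hmem β hβ hβJ) x hx
        · rw [(hsp β hβJ).1]
          exact p.hS β (hmem' β hβ hβJ) x (hhigh _ (hJsub β hβJ) x hx).2
      hK := by
        intro β hβ x hx
        by_cases hβJ : β ∈ J
        · rw [hlow β hβJ] at hx
          rw [(hsJ β hβJ).2]
          exact a.hK β (hmem β hβ hβJ) x hx
        · rw [(hsp β hβJ).2]
          exact p.hK β (hmem' β hβ hβJ) x (hhigh _ (hJsub β hβJ) x hx).2 }
  have hbody : q.body = {x | x ∈ a.body ∧ x ∈ p.body} := by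
    ext x
    constructor
    · exact fun hx => hhigh univ (subset_univ J) x hx
    · rintro ⟨hx, hx'⟩ β hβ -
      by_cases hβJ : β ∈ J
      · have h1 : x ∈ q1.dom J := by rw [hdJ]; exact hx
        exact h1 β hβ hβJ
      · change x β ∈ Fib (q1.s β x) (q1.y β x)
        rw [(hsp β hβJ).1, (hsp β hβJ).2]
        exact hx' β (hmem' β hβ hβJ) trivial
  refine ⟨q, hwq, hsJ, hsp, ⟨haw, ?_⟩, ⟨hpw', ?_⟩, hdJ, hbody⟩
  · rw [hbody]; exact fun x hx => hx.1
  · rw [hbody]; exact fun x hx => hx.2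

end Pool.Agent.QPt
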