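import Pool.Agent.QPt.Glue

/-!
# Restriction to neighbourhoods (module NB of MP_04bc06_lc)
-/

set_option autoImplicit false
set_option linter.unusedSectionVars false
set_option linter.unusedVariables false

namespace Pool.Agent.QPt

open Set

variable {I : Type} [LinearOrder I] [WellFoundedLT I]

namespace Nbhd

/-- `(F, N)` describes a neighbourhood of `x` in `q` -/
structure Good (q : Cond I) (x : Pt I) (F : Finset I) (N : I → ℕ) : Prop where
  sub : (F : Set I) ⊆ q.w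
  len : ∀ β ∈ F, (q.s β x).length ≤ N β
  st : ∀ β ∈ F, ∀ y ∈ q.dom (Iio β), (∀ γ ∈ F, γ < β → ∀ i < N γ, y γ i = x γ i) →
    q.s β y = q.s β x ∧ ∀ i, (q.s β x).length ≤ i → i < N β → x β i ∈ range (q.y β y)

theorem body_Iio {q : Cond I} {x : Pt I} (hx : x ∈ q.body) (β : I) : x ∈ q.dom (Iio β) :=
  q.body_subset_dom _ hx

/-- finitely many values at `β` are determined by finitely much below `β` -/
theorem need (q : Cond I) {x : Pt I} (hx : x ∈ q.body) {β : I} (hβ : β ∈ q.w) (M : ℕ) :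
    ∃ G : Finset I, (G : Set I) ⊆ q.w ∩ Iio β ∧ ∃ n, ∀ y ∈ q.dom (Iio β), Agree (G : Set I) n x y →
      q.s β y = q.s β x ∧ ∀ i < M, q.y β y i = q.y β x i := by
  classical
  obtain ⟨G1, hG1, n1, h1⟩ := q.hs β hβ x (body_Iio hx β)
  obtain ⟨G2, hG2, n2, h2⟩ := LC.finset (Finset.range M)
    (f := fun i (y : Pt I) => q.y β y i) (fun i _ => q.hy β hβ i) x (body_Iio hx β)
  refine ⟨G1 ∪ G2, ?_, max n1 n2, fun y hy hag => ⟨?_, fun i hi => ?_⟩⟩
  · rw [Finset.coe_union]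
    exact union_subset hG1 hG2
  · exact h1 y hy (hag.mono (by rw [Finset.coe_union]; exact subset_union_left) (le_max_left _ _))
  · exact h2 y hy (hag.mono (by rw [Finset.coe_union]; exact subset_union_right) (le_max_right _ _)) i
      (Finset.mem_range.2 hi)

theorem good_empty (q : Cond I) (x : Pt I) (N : I → ℕ) : Good q x ∅ N :=
  ⟨by simp, fun β h => by simp at h, fun β h => by simp at h⟩

/-- the inductive step -/
theorem good_step (q : Cond I) {x : Pt I} (hx : x ∈ q.body) (β : I)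
    (ih : ∀ (F0 : Finset I) (N0 : I → ℕ), (F0 : Set I) ⊆ q.w → (∀ γ ∈ F0, γ < β) →
      ∃ F N, Good q x F N ∧ F0 ⊆ F ∧ (∀ γ ∈ F0, N0 γ ≤ N γ) ∧ ∀ γ ∈ F, γ < β)
    (F0 : Finset I) (N0 : I → ℕ) (hF0 : (F0 : Set I) ⊆ q.w) (hβ : β ∈ F0) (hmax : ∀ γ ∈ F0, γ ≤ β) :
    ∃ F N, Good q x F N ∧ F0 ⊆ F ∧ (∀ γ ∈ F0, N0 γ ≤ N γ) ∧ ∀ γ ∈ F, γ ≤ β := by
  classical
  have hβw : β ∈ q.w := hF0 hβ
  set M := max (N0 β) (q.s β x).length with hM
  obtain ⟨G, hG, n, hn⟩ := need q hx hβw (x β M + 1)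
  obtain ⟨F, N, hgood, h1, h2, h3⟩ := ih (F0.erase β ∪ G) (fun γ => max (N0 γ) n) (by
    intro γ hγ
    rw [Finset.mem_coe, Finset.mem_union] at hγ
    rcases hγ with hγ | hγ
    · exact hF0 (Finset.mem_of_mem_erase hγ)
    · exact (hG hγ).1) (by
    intro γ hγ
    rw [Finset.mem_union] at hγ
    rcases hγ with hγ | hγ
    · exact lt_of_le_of_ne (hmax γ (Finset.mem_of_mem_erase hγ)) (Finset.ne_of_mem_erase hγ)
    · exact (hG hγ).2)
  have hβF : β ∉ F := fun h => lt_irrefl _ (h3 β h)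
  let N' : I → ℕ := fun γ => if γ = β then M else N γ
  have hN' : ∀ γ ∈ F, N' γ = N γ := by
    intro γ hγ
    have : γ ≠ β := fun h => hβF (h ▸ hγ)
    simp [N', this]
  have hN'β : N' β = M := by simp [N']
  refine ⟨insert β F, N', ⟨?_, ?_, ?_⟩, ?_, ?_, ?_⟩
  · rw [Finset.coe_insert]
    exact insert_subset hβw hgood.sub
  · intro γ hγ
    rw [Finset.mem_insert] at hγ
    rcases hγ with rfl | hγ
    · rw [hN'β]
      exact le_max_right _ _
    · rw [hN' γ hγ]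
      exact hgood.len γ hγ
  · intro γ hγ y hy hag
    rw [Finset.mem_insert] at hγ
    rcases hγ with rfl | hγ
    · have hag' : Agree (G : Set I) n x y := by
        intro δ hδ i hi
        have hδF : δ ∈ F := h1 (Finset.mem_union_right _ hδ)
        have h4 := hag δ (Finset.mem_insert_of_mem hδF) (h3 δ hδF) i (by
          rw [hN' δ hδF]
          exact hi.trans_le ((le_max_right _ _).trans (h2 δ (Finset.mem_union_right _ hδ))))
        exact h4.symm
      obtain ⟨h5, h6⟩ := hn y hy hag'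
      refine ⟨h5, fun i hi1 hi2 => ?_⟩
      rw [hN'β] at hi2
      obtain ⟨k, hk⟩ := (hx γ hβw (mem_univ _)).2.2 i hi1
      have hKx : q.y γ x ∈ K := q.hK γ hβw x (body_Iio hx γ)
      have hk1 : k ≤ x γ i := by rw [← hk]; exact K_le hKx k
      have hk2 : x γ i < x γ M := (hx γ hβw (mem_univ _)).1.1 hi2
      refine ⟨k, ?_⟩
      rw [h6 k (by omega), hk]
    · have h4 := hgood.st γ hγ y hy (fun δ hδ hδγ i hi => hag δ (Finset.mem_insert_of_mem hδ) hδγ i
        (by rw [hN' δ hδ]; exact hi))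
      rw [hN' γ hγ]
      exact h4
  · intro γ hγ
    by_cases h : γ = β
    · rw [h]; exact Finset.mem_insert_self _ _
    · exact Finset.mem_insert_of_mem (h1 (Finset.mem_union_left _ (Finset.mem_erase.2 ⟨h, hγ⟩)))
  · intro γ hγ
    by_cases h : γ = β
    · rw [h, hN'β]; exact le_max_left _ _
    · have hγ' : γ ∈ F0.erase β ∪ G := Finset.mem_union_left _ (Finset.mem_erase.2 ⟨h, hγ⟩)
      rw [hN' γ (h1 hγ')]
      exact (le_max_left _ _).trans (h2 γ hγ')
  · intro γ hγ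
    rw [Finset.mem_insert] at hγ
    rcases hγ with rfl | hγ
    · exact le_rfl
    · exact (h3 γ hγ).le

theorem good_below (q : Cond I) {x : Pt I} (hx : x ∈ q.body) (β : I) :
    ∀ (F0 : Finset I) (N0 : I → ℕ), (F0 : Set I) ⊆ q.w → (∀ γ ∈ F0, γ < β) →
      ∃ F N, Good q x F N ∧ F0 ⊆ F ∧ (∀ γ ∈ F0, N0 γ ≤ N γ) ∧ ∀ γ ∈ F, γ < β := by
  induction β using (wellFounded_lt (α := I)).induction with
  | _ β ih =>
    intro F0 N0 hF0 hlt
    rcases F0.eq_empty_or_nonempty with rfl | hne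
    · exact ⟨∅, N0, good_empty q x N0, Finset.Subset.refl _, fun _ _ => le_rfl, by simp⟩
    · have hm := F0.max'_mem hne
      obtain ⟨F, N, h1, h2, h3, h4⟩ := good_step q hx (F0.max' hne) (ih _ (hlt _ hm)) F0 N0 hF0 hm
        (fun γ hγ => F0.le_max' γ hγ)
      exact ⟨F, N, h1, h2, h3, fun γ hγ => (h4 γ hγ).trans_lt (hlt _ hm)⟩

theorem exists_good (q : Cond I) {x : Pt I} (hx : x ∈ q.body) (F0 : Finset I) (N0 : I → ℕ)
    (hF0 : (F0 : Set I) ⊆ q.w) :
    ∃ F N, Good q x F N ∧ F0 ⊆ F ∧ ∀ γ ∈ F0, N0 γ ≤ N γ := by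
  rcases F0.eq_empty_or_nonempty with rfl | hne
  · exact ⟨∅, N0, good_empty q x N0, Finset.Subset.refl _, fun _ _ => le_rfl⟩
  · have hm := F0.max'_mem hne
    obtain ⟨F, N, h1, h2, h3, _⟩ := good_step q hx (F0.max' hne) (good_below q hx _) F0 N0 hF0 hm
      (fun γ hγ => F0.le_max' γ hγ)
    exact ⟨F, N, h1, h2, h3⟩

open Classical in
/-- the data of the restriction -/
noncomputable def rPre (q : Cond I) (x : Pt I) (F : Finset I) (N : I → ℕ) : Pre I where
  w := q.w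
  s := fun β y => if β ∈ F then pre (x β) (N β) else q.s β y
  y := q.y

theorem mem_dom_iff {q : Cond I} {x : Pt I} (hx : x ∈ q.body) {F : Finset I} {N : I → ℕ}
    (hg : Good q x F N) {β : I} (hβ : β ∈ q.w) {y : Pt I} (hy : y ∈ q.dom (Iio β))
    (hag : ∀ γ ∈ F, γ < β → ∀ i < N γ, y γ i = x γ i) :
    y β ∈ Fib ((rPre q x F N).s β y) (q.y β y) ↔
      y β ∈ Fib (q.s β y) (q.y β y) ∧ (β ∈ F → ∀ i < N β, y β i = x β i) := by
  classical
  by_cases hF : β ∈ F
  · have hs : (rPre q x F N).s β y = pre (x β) (N β) := by simp [rPre, hF]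
    rw [hs]
    obtain ⟨h1, h2⟩ := hg.st β hF y hy hag
    have hxβ := hx β hβ (mem_univ _)
    have hlen := hg.len β hF
    constructor
    · intro h
      have h3 := h.2.1
      rw [length_pre, pre_eq_iff] at h3
      refine ⟨?_, fun _ => h3⟩
      have hpre : q.s β x <+: pre (x β) (N β) := by
        have h4 := Branch.pre_prefix (x β) hlen
        rwa [hxβ.2.1] at h4
      obtain ⟨t, ht⟩ := hpre
      rw [h1]
      refine mem_Fib_append (t := t) (by rw [ht]; exact h) fun a ha => ?_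
      obtain ⟨i, hi, rfl⟩ := List.getElem_of_mem ha
      have h5 : t[i] = (pre (x β) (N β)).getD ((q.s β x).length + i) 0 := by
        rw [← ht, List.getD_append_right _ _ _ _ (Nat.le_add_right _ _),
          Nat.add_sub_cancel_left, List.getD_eq_getElem _ _ hi]
      have h6 : (q.s β x).length + i < N β := by
        have h7 : (q.s β x ++ t).length = N β := by rw [ht, length_pre]
        rw [List.length_append] at h7
        omega
      rw [h5, pre_getD _ _ _ h6]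
      exact h2 _ (Nat.le_add_right _ _) h6
    · rintro ⟨h, h'⟩
      have h3 : pre (y β) (N β) = pre (x β) (N β) := (pre_eq_iff _ _ _).2 (h' hF)
      rw [← h3]
      exact (mem_Fib_pre h (by rw [h1]; exact hlen) _).2 ⟨h, fun _ _ => rfl⟩
  · have hs : (rPre q x F N).s β y = q.s β y := by simp [rPre, hF]
    rw [hs]
    simp [hF]

theorem dom_Iio {q : Cond I} {x : Pt I} (hx : x ∈ q.body) {F : Finset I} {N : I → ℕ}
    (hg : Good q x F N) (β : I) :
    (rPre q x F N).dom (Iio β) = {y | y ∈ q.dom (Iio β) ∧ ∀ γ ∈ F, γ < β → ∀ i < N γ, y γ i = x γ i} := by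
  induction β using (wellFounded_lt (α := I)).induction with
  | _ β ih =>
    ext y
    constructor
    · intro hy
      have hy' : ∀ γ < β, y ∈ (rPre q x F N).dom (Iio γ) := fun γ hγ δ hδ hδγ =>
        hy δ hδ (lt_trans hδγ hγ)
      have h1 : ∀ γ ∈ q.w, γ < β → y γ ∈ Fib (q.s γ y) (q.y γ y) ∧
          (γ ∈ F → ∀ i < N γ, y γ i = x γ i) := by
        intro γ hγ hγβ
        have h2 := hy' γ hγβ
        rw [ih γ hγβ] at h2
        exact (mem_dom_iff hx hg hγ h2.1 h2.2).1 (hy γ hγ hγβ)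
      exact ⟨fun γ hγ hγβ => (h1 γ hγ hγβ).1, fun γ hγ hγβ => (h1 γ (hg.sub hγ) hγβ).2 hγ⟩
    · rintro ⟨h1, h2⟩ γ hγ hγβ
      refine (mem_dom_iff hx hg hγ (fun δ hδ hδγ => h1 δ hδ (lt_trans hδγ hγβ))
        (fun δ hδ hδγ => h2 δ hδ (lt_trans hδγ hγβ))).2 ⟨h1 γ hγ hγβ, fun hF => h2 γ hF hγβ⟩

theorem dom_lower {q : Cond I} {x : Pt I} (hx : x ∈ q.body) {F : Finset I} {N : I → ℕ}
    (hg : Good q x F N) {J : Set I} (hJ : IsLowerSet J) :
    (rPre q x F N).dom J = {y | y ∈ q.dom J ∧ ∀ γ ∈ F, γ ∈ J → ∀ i < N γ, y γ i = x γ i} := by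
  ext y
  constructor
  · intro hy
    have h1 : ∀ γ ∈ q.w, γ ∈ J → y γ ∈ Fib (q.s γ y) (q.y γ y) ∧
        (γ ∈ F → ∀ i < N γ, y γ i = x γ i) := by
      intro γ hγ hγJ
      have h2 : y ∈ (rPre q x F N).dom (Iio γ) := fun δ hδ hδγ => hy δ hδ (hJ (le_of_lt hδγ) hγJ)
      rw [dom_Iio hx hg] at h2
      exact (mem_dom_iff hx hg hγ h2.1 h2.2).1 (hy γ hγ hγJ)
    exact ⟨fun γ hγ hγJ => (h1 γ hγ hγJ).1, fun γ hγ hγJ => (h1 γ (hg.sub hγ) hγJ).2 hγ⟩
  · rintro ⟨h1, h2⟩ γ hγ hγJ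
    exact (mem_dom_iff hx hg hγ (fun δ hδ hδγ => h1 δ hδ (hJ (le_of_lt hδγ) hγJ))
      (fun δ hδ hδγ => h2 δ hδ (hJ (le_of_lt hδγ) hγJ))).2 ⟨h1 γ hγ hγJ, fun hF => h2 γ hF hγJ⟩

/-- the restriction of a condition to a good neighbourhood -/
theorem exists_restr {q : Cond I} {x : Pt I} (hx : x ∈ q.body) {F : Finset I} {N : I → ℕ}
    (hg : Good q x F N) : ∃ r : Cond I, r.toPre = rPre q x F N := by
  classical
  have hsub : ∀ β, (rPre q x F N).dom (Iio β) ⊆ q.dom (Iio β) := fun β y hy => by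
    rw [dom_Iio hx hg] at hy
    exact hy.1
  refine ⟨{ toPre := rPre q x F N, ctbl := q.ctbl, hs := ?_, hy := ?_, hS := ?_, hK := ?_ }, rfl⟩
  · intro β hβ
    by_cases hF : β ∈ F
    · have h1 : (rPre q x F N).s β = fun _ => pre (x β) (N β) := by
        funext y; simp [rPre, hF]
      rw [h1]
      exact LC.const _
    · have h1 : (rPre q x F N).s β = q.s β := by
        funext y; simp [rPre, hF]
      rw [h1]
      exact (q.hs β hβ).mono (hsub β) Subset.rfl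
  · intro β hβ i
    exact (q.hy β hβ i).mono (hsub β) Subset.rfl
  · intro β hβ y hy
    by_cases hF : β ∈ F
    · have h1 : (rPre q x F N).s β y = pre (x β) (N β) := by simp [rPre, hF]
      rw [h1]
      exact isStem_pre (hx β hβ (mem_univ _)).1 _
    · have h1 : (rPre q x F N).s β y = q.s β y := by simp [rPre, hF]
      rw [h1]
      exact q.hS β hβ y (hsub β hy)
  · intro β hβ y hy
    exact q.hK β hβ y (hsub β hy)

end Nbhd

theorem exists_nbhd (q : Cond I) {x : Pt I} (hx : x ∈ q.body) (F : Finset I)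
    (hF : (F : Set I) ⊆ q.w) (n : ℕ) :
    ∃ r : Cond I, OpenRes r q x ∧ ∀ y ∈ r.body, Agree (F : Set I) n x y := by
  obtain ⟨G, N, hg, h1, h2⟩ := Nbhd.exists_good q hx F (fun _ => n) hF
  obtain ⟨r, hr⟩ := Nbhd.exists_restr hx hg
  have hbody : r.body = {y | y ∈ q.body ∧ ∀ γ ∈ G, γ ∈ (univ : Set I) → ∀ i < N γ, y γ i = x γ i} := by
    unfold Cond.body
    rw [hr]
    exact Nbhd.dom_lower hx hg isLowerSet_univ
  refine ⟨r, ⟨by rw [hr]; rfl, ?_, ?_, G, hg.sub, G.sup N, ?_⟩, ?_⟩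
  · rw [hbody]
    exact ⟨hx, fun _ _ _ _ _ => rfl⟩
  · rw [hbody]
    exact fun y hy => hy.1
  · intro y hy hag
    rw [hbody]
    exact ⟨hy, fun γ hγ _ i hi => (hag γ hγ i (hi.trans_le (Finset.le_sup hγ))).symm⟩
  · intro y hy β hβ i hi
    rw [hbody] at hy
    exact (hy.2 β (h1 hβ) (mem_univ _) i (hi.trans_le (h2 β hβ))).symm

/-- a neighbourhood on which a locally constant function is constant -/
theorem exists_nbhd_const {γ : Type*} (q : Cond I) {x : Pt I} (hx : x ∈ q.body) {f : Pt I → γ}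
    (hf : LC q.body q.w f) : ∃ r : Cond I, OpenRes r q x ∧ ∀ y ∈ r.body, f y = f x := by
  obtain ⟨F, hF, n, hn⟩ := hf x hx
  obtain ⟨r, hr, hag⟩ := exists_nbhd q hx F hF n
  exact ⟨r, hr, fun y hy => hn y (hr.2.2.1 hy) (hag y hy)⟩

/-- if `x ∈ q.body` and `q' ≤ q` then neighbourhoods of `x` in `q` contain neighbourhoods in `q'` -/
theorem OpenRes.pull {q q' r : Cond I} {x : Pt I} (hr : OpenRes r q x) (h : q' ≤ q)
    (hx : x ∈ q'.body) : ∃ r', OpenRes r' q' x ∧ r' ≤ r := by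
  obtain ⟨hw, hxr, hsub, F, hF, n, hn⟩ := hr
  obtain ⟨r', hr', hag⟩ := exists_nbhd q' hx F (hF.trans h.1) n
  refine ⟨r', hr', ?_, ?_⟩
  · rw [hw, hr'.1]
    exact h.1
  · exact fun y hy => hn y (h.2 (hr'.2.2.1 hy)) (hag y hy)

theorem OpenRes.inf {q r r' : Cond I} {x : Pt I} (hr : OpenRes r q x) (hr' : OpenRes r' q x) :
    ∃ s, OpenRes s q x ∧ s ≤ r ∧ s ≤ r' := by
  classical
  obtain ⟨hw, hxr, hsub, F, hF, n, hn⟩ := hr
  obtain ⟨hw', hxr', hsub', F', hF', n', hn'⟩ := hr'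
  obtain ⟨s, hs, hag⟩ := exists_nbhd q (hsub hxr) (F ∪ F')
    (by rw [Finset.coe_union]; exact union_subset hF hF') (max n n')
  refine ⟨s, hs, ⟨by rw [hw, hs.1], fun y hy => ?_⟩, ⟨by rw [hw', hs.1], fun y hy => ?_⟩⟩
  · exact hn y (hs.2.2.1 hy) ((hag y hy).mono (by rw [Finset.coe_union]; exact subset_union_left)
      (le_max_left _ _))
  · exact hn' y (hs.2.2.1 hy) ((hag y hy).mono (by rw [Finset.coe_union]; exact subset_union_right)
      (le_max_right _ _))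

/-- a neighbourhood inside the lower set `J` -/
theorem exists_nbhd_low (q : Cond I) (J : Set I) (hJ : IsLowerSet J) {x : Pt I} (hx : x ∈ q.body)
    {r : Cond I} (hr : OpenRes r (q.res J hJ) x) :
    ∃ q' : Cond I, OpenRes q' q x ∧ q'.w = q.w ∧ q'.dom J = r.body ∧
      (∀ β ∈ J, q'.s β = r.s β ∧ q'.y β = r.y β) ∧ (∀ β, β ∉ J → q'.s β = q.s β ∧ q'.y β = q.y β) := by
  obtain ⟨hw, hxr, hsub, F, hF, n, hn⟩ := hr
  have hwr : r.w = q.w ∩ J := hw
  have hle : r ≤ q.res J hJ := ⟨by rw [hw], hsub⟩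
  obtain ⟨q', h1, h2, h3, h4, h5, h6, h7⟩ := exists_amal J hJ q r
    (by rw [hwr]; exact inter_subset_right) hle
  have hw' : q'.w = q.w := by
    rw [h1, hwr, inter_union_sdiff]
  refine ⟨q', ⟨hw', ?_, ?_, F, ?_, n, ?_⟩, hw', h6, h2, h3⟩
  · rw [h7]
    exact ⟨hxr, hx⟩
  · rw [h7]
    exact fun y hy => hy.2
  · exact hF.trans inter_subset_left
  · intro y hy hag
    rw [h7]
    refine ⟨hn y ?_ hag, hy⟩
    rw [Cond.res_body]
    exact q.body_subset_dom J hy

/-- make a locally constant function of the coordinates in `J` constant, changing only coordinates in `J` -/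
theorem exists_low_const {γ : Type*} (q : Cond I) (J : Set I) (hJ : IsLowerSet J) {x : Pt I}
    (hx : x ∈ q.body) {f : Pt I → γ} (hf : LC (q.dom J) (q.w ∩ J) f) :
    ∃ q' : Cond I, OpenRes q' q x ∧ (∀ β, β ∉ J → q'.s β = q.s β ∧ q'.y β = q.y β) ∧
      ∀ y ∈ q'.dom J, f y = f x := by
  have hx' : x ∈ (q.res J hJ).body := by
    rw [Cond.res_body]
    exact q.body_subset_dom J hx
  have hf' : LC (q.res J hJ).body (q.res J hJ).w f := by
    rw [Cond.res_body]
    exact hf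
  obtain ⟨r, hr, hc⟩ := exists_nbhd_const (q.res J hJ) hx' hf'
  obtain ⟨q', h1, h2, h3, h4, h5⟩ := exists_nbhd_low q J hJ hx hr
  refine ⟨q', h1, h5, fun y hy => hc y ?_⟩
  rw [← h3]
  exact hy

/-- shrink `q` inside `J` below a neighbourhood `r` of `x` in `b`, where `q.res J ≤ b` -/
theorem OpenRes.pull_low {b r q : Cond I} {x : Pt I} (J : Set I) (hJ : IsLowerSet J)
    (hr : OpenRes r b x) (hq : q.res J hJ ≤ b) (hx : x ∈ q.body) :
    ∃ q' : Cond I, OpenRes q' q x ∧ q'.res J hJ ≤ r ∧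
      ∀ β, β ∉ J → q'.s β = q.s β ∧ q'.y β = q.y β := by
  have hx' : x ∈ (q.res J hJ).body := by
    rw [Cond.res_body]
    exact q.body_subset_dom J hx
  obtain ⟨r', hr', hle⟩ := hr.pull hq hx'
  obtain ⟨q', h1, h2, h3, h4, h5⟩ := exists_nbhd_low q J hJ hx hr'
  refine ⟨q', h1, ⟨?_, ?_⟩, h5⟩
  · have h6 : (q'.res J hJ).w = q'.w ∩ J := rfl
    have h7 : r'.w = q.w ∩ J := hr'.1
    rw [h6, h2, ← h7]
    exact hle.1
  · rw [Cond.res_body, h3]
    exact hle.2

end Pool.Agent.QPt
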