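import Pool.Agent.QPt.CoreTop
import Pool.Agent.QPt.CoreLeft
import Pool.Agent.QPt.CoreRight
import Pool.Agent.QPt.CoreThin
import Pool.Agent.QPt.ClosedAt
import Pool.Agent.QPt.Glue
import Pool.Agent.QPt.Nbhd

/-!
# Module K5: no name of another Q-point
-/

set_option autoImplicit false
set_option linter.unusedSectionVars false
set_option linter.unusedVariables false

namespace Pool.Agent.QPt

open Set

variable {I : Type} [LinearOrder I] [WellFoundedLT I] {W : WName I}

namespace CoreMain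

/-- the condition `(p4 restricted below α, range of the branch at α)` -/
theorem exists_c5 {c0 c1 : Cond2 W} {α : I} (h0 : c0.p.w ⊆ Iio α) (h1w : c1.p.w = insert α c0.p.w)
    (h1 : ∀ x ∈ c1.p.dom (Iio α), x ∈ c0.p.body ∧ range (c1.p.y α x) ⊆ c0.Z x)
    (p4 : Cond I) (hp4 : p4 ≤ c1.p) (s : List ℕ) (hs : ∀ x ∈ p4.dom (Iio α), p4.s α x = s) :
    ∃ c5 ≤ c0, c5.p = p4.res (Iio α) (isLowerSet_Iio α) ∧ c5.Z = fun x => range (p4.y α x) := by
  have hα : α ∈ p4.w := hp4.1 (by rw [h1w]; exact mem_insert _ _)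
  have hα1 : α ∈ c1.p.w := by rw [h1w]; exact mem_insert _ _
  have hbody : (p4.res (Iio α) (isLowerSet_Iio α)).body = p4.dom (Iio α) := Cond.res_body _ _ _
  refine ⟨⟨p4.res (Iio α) (isLowerSet_Iio α), fun x => range (p4.y α x), ?_, ?_⟩, ⟨?_, ?_⟩, rfl, rfl⟩
  · rw [hbody]
    refine Nm.range (p4.hy α hα) (p4.hK α hα)
  · rw [hbody]
    exact fun x hx => fat_range (p4.hK α hα x hx)
  · refine ⟨fun γ hγ => ⟨hp4.1 (by rw [h1w]; exact mem_insert_of_mem _ hγ), h0 hγ⟩, ?_⟩
    show (p4.res (Iio α) (isLowerSet_Iio α)).body ⊆ _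
    rw [hbody]
    exact fun x hx => (h1 x (Cond.dom_mono hp4 (isLowerSet_Iio α) hx)).1
  · -- LeW
    intro q hq
    refine ⟨q, le_rfl, fun _ => Ici 0, W.cofin q 0, fun x hx n _ => ?_⟩
    have hx4 : x ∈ p4.dom (Iio α) := by
      have := hq.2 hx
      rwa [hbody] at this
    have hst : IsStem (p4.s α x) := p4.hS α hα x hx4
    refine (unreach_finite hst (p4.hK α hα x hx4) n).subset ?_
    rintro m ⟨hm, hmn, hmZ⟩
    refine ⟨hm, hmn, ?_⟩
    rintro z hz i hi rfl
    apply hmZ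
    have hx1 : x ∈ c1.p.dom (Iio α) := Cond.dom_mono hp4 (isLowerSet_Iio α) hx4
    have hz1 := Cond.Fib_mono hp4 hα1 hx4 hz
    have hpre := Cond.s_mono hp4 hα1 hx4
    exact (h1 x hx1).2 (hz1.2.2 i (hpre.length_le.trans hi))

end CoreMain

open CoreMain in
theorem no_EName (hI : ∀ S : Set I, Cardinal.mk S ≤ Cardinal.continuum → ∃ β, ∀ γ ∈ S, γ < β)
    (hI' : ∀ β : I, Cardinal.mk (Iio β) ≤ Cardinal.continuum) {c0 : Cond2 W} (E : EName W c0) :
    False := by
  obtain ⟨α, hα⟩ := exists_closedAt hI hI' E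
  obtain ⟨c1, hc1, h1w, h1, hZ1⟩ := core_top hα.supp
  have hα1 : α ∈ c1.p.w := by rw [h1w]; exact mem_insert _ _
  obtain ⟨c2, hc2, S, hS, p4, hp4, s, hs, hcov⟩ := core_left E c1 hc1 hα1
  have hp41 : p4 ≤ c1.p := hp4.trans hc2.1
  have hα4 : α ∈ p4.w := hp41.1 hα1
  obtain ⟨c5, hc5, hp5, hZ5⟩ := exists_c5 hα.supp h1w h1 p4 hp41 s hs
  have hbody5 : c5.p.body = p4.dom (Iio α) := by rw [hp5]; exact Cond.res_body _ _ _
  have hw5 : c5.p.w = p4.w ∩ Iio α := by rw [hp5]; rfl
  obtain ⟨c9, hc9, hw9, H, P, hH, hPn, hPL, hHP, hfat⟩ := core_right E hα c5 hc5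
    (by rw [hw5]; exact inter_subset_right) (p4.y α)
    (by rw [hbody5, hw5]; exact p4.hy α hα4)
    (by rw [hbody5]; exact p4.hK α hα4) (fun x _ => by rw [hZ5])
  have hsub9 : c9.p.body ⊆ p4.dom (Iio α) := by rw [← hbody5]; exact hc9.1.2
  have hw59 : p4.w ∩ Iio α ⊆ c9.p.w := by rw [← hw5]; exact hc9.1.1
  obtain ⟨r, hr, hrw, T, Y', hT, hY'n, hY'⟩ := core_thin E hα c9 hw9 (p4.y α) P
    (fun i => (p4.hy α hα4 i).mono hsub9 hw59) (fun x hx => p4.hK α hα4 x (hsub9 hx)) hPn hPL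
    (by
      have := hc9.2
      rw [hZ5] at this
      exact this) hfat
  have hsubr : r.body ⊆ p4.dom (Iio α) := hr.2.trans hsub9
  -- `s` is a stem
  have hstem : IsStem s := by
    obtain ⟨x, hx⟩ := r.body_nonempty
    have := p4.hS α hα4 x (hsubr hx)
    rwa [hs x (hsubr hx)] at this
  obtain ⟨a, haw, hao, has, hay, habody, hadom⟩ := exists_top r α hrw (fun _ => s)
    (fun x => zm [] (Y' x)) (LC.const s)
    (LC.zm (LC.const []) hY'n (fun _ _ => isStem_nil) (fun x hx => (hY' x hx).1))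
    (fun _ _ => hstem) (fun x hx => zm_mem_K isStem_nil (hY' x hx).1)
  have hIic : IsLowerSet (Iic α) := isLowerSet_Iic α
  have haIic : a.w ⊆ Iic α := by
    rw [haw]
    rintro γ (rfl | hγ)
    · exact mem_Iic.2 le_rfl
    · exact mem_Iic.2 (le_of_lt (hrw hγ))
  have hFibsub : ∀ x ∈ r.body, Fib s (zm [] (Y' x)) ⊆ Fib s (p4.y α x) := by
    intro x hx
    refine Fib_mono_right ?_
    exact (range_zm_nil (hY' x hx).1).trans ((hY' x hx).2.1.trans sdiff_subset)
  have hale : a ≤ p4.res (Iic α) hIic := by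
    rw [Cond.le_res_iff]
    constructor
    · rintro γ ⟨hγ, hγα⟩
      rw [haw]
      rcases (mem_Iic.1 hγα).eq_or_lt with rfl | hlt
      · exact mem_insert _ _
      · exact mem_insert_of_mem _ (hr.1 (hw59 ⟨hγ, hlt⟩))
    · intro x hx
      rw [habody] at hx
      intro γ hγ hγα
      rcases (mem_Iic.1 hγα).eq_or_lt with rfl | hlt
      · rw [hs x (hsubr hx.1)]
        exact hFibsub x hx.1 hx.2
      · exact hsubr hx.1 γ hγ hlt
  obtain ⟨q, hqw, -, -, hqa, hq4, -, hqbody⟩ := exists_amal (Iic α) hIic p4 a haIic hale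
  have har : a ≤ r := by
    refine ⟨by rw [haw]; exact subset_insert _ _, ?_⟩
    rw [habody]
    exact fun x hx => hx.1
  have hqr : q ≤ r := hqa.trans har
  have hq2 : q ≤ c2.p := hq4.trans hp4
  -- the branch at `α`
  have hbranch : ∀ x ∈ q.body, pre (x α) s.length = s ∧ (∀ i, s.length ≤ i → x α i ∈ Y' x) ∧
      x α ∈ Fib s (p4.y α x) := by
    intro x hx
    have hxa := hqa.2 hx
    rw [habody] at hxa
    refine ⟨hxa.2.2.1, fun i hi => ?_, hFibsub x hxa.1 hxa.2⟩
    exact range_zm_nil (hY' x hxa.1).1 (hxa.2.2.2 i hi)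
  set c11 := c2.sub q hq2 with hc11
  have hc112 : c11 ≤ c2 := c2.sub_le q hq2
  have hc11_0 : c11 ≤ c0 := hc112.trans (hc2.trans hc1)
  have hc119 : c11 ≤ c9 := by
    refine ⟨hqr.trans hr, ?_⟩
    have e1 : LeW W q c2.Z c1.Z := hc2.2.mono hq2
    have e2 : LeW W q c1.Z c9.Z := by
      intro q' hq'
      refine ⟨q', le_rfl, T, W.mono r q' T hT (hq'.trans hqr), fun x hx n hn => ?_⟩
      have hxq : x ∈ q.body := hq'.2 hx
      have hxr : x ∈ r.body := hqr.2 hxq
      refine (s.finite_toSet).subset ?_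
      rintro m ⟨hm, hmn, hmZ⟩
      rw [hZ1] at hm
      obtain ⟨i, rfl⟩ := hm
      by_cases hi : s.length ≤ i
      · exfalso
        apply hmZ
        refine (hY' x hxr).2.2 _ ((hbranch x hxq).2.1 i hi) ?_
        rw [hmn]
        exact hn
      · push Not at hi
        have h3 := pre_getD (x α) s.length i hi
        rw [(hbranch x hxq).1] at h3
        show x α i ∈ s
        rw [← h3, List.getD_eq_getElem _ _ hi]
        exact List.getElem_mem _
    exact e1.trans e2
  -- the bound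
  have hbound : ∀ x ∈ q.body, ∀ b ∈ S x, b ∈ H x → b < x α s.length := by
    intro x hx b hbS hbH
    by_contra hlt
    push Not at hlt
    obtain ⟨k, hk1, hk2, hk3⟩ := hcov x (hq4.2 hx) b hbS hlt
    have hx9 : x ∈ c9.p.body := (hqr.trans hr).2 hx
    obtain ⟨hP0, hP1⟩ := hHP x hx9 b hbH k hk1 hk2
    obtain ⟨hpre, hval, hFib⟩ := hbranch x hx
    have hxr : x ∈ r.body := hqr.2 hx
    have hYK : p4.y α x ∈ K := p4.hK α hα4 x (hsubr hxr)
    have hmono : StrictMono (x α) := hFib.1.1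
    rcases hk3 with ⟨i, hi⟩ | ⟨i, hi⟩
    · by_cases his : s.length ≤ i
      · have := ((hY' x hxr).2.1 (hval i his)).2
        rw [hi] at this
        exact this (Or.inl hP0)
      · push Not at his
        obtain ⟨j, hj⟩ := hFib.2.2 s.length le_rfl
        have h1 : x α i < x α s.length := hmono his
        rw [hi, ← hj] at h1
        have h2 : k < j := hYK.1.lt_iff_lt.1 h1
        have h3 : p4.y α x j < p4.y α x (k + 1) := by
          rw [hj]
          exact lt_of_le_of_lt hlt hk2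
        have h4 : j < k + 1 := hYK.1.lt_iff_lt.1 h3
        omega
    · by_cases his : s.length ≤ i
      · have := ((hY' x hxr).2.1 (hval i his)).2
        rw [hi] at this
        exact this (Or.inr hP1)
      · push Not at his
        have h1 : x α i < x α s.length := hmono his
        rw [hi] at h1
        omega
  -- make the bound constant
  obtain ⟨x0, hx0⟩ := q.body_nonempty
  have hαq : α ∈ q.w := hq4.1 hα4
  obtain ⟨q', hq'res, hq'c⟩ := exists_nbhd_const q hx0 (LC.coord (C := q.body) hαq s.length)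
  have hq'q : q' ≤ q := hq'res.le
  set c12 := c11.sub q' hq'q with hc12
  have hc1211 : c12 ≤ c11 := c11.sub_le q' hq'q
  have hc12_0 : c12 ≤ c0 := hc1211.trans hc11_0
  have r1 : E.R c12 S := E.mono c2 c12 S hS (hc1211.trans hc112)
  have r2 : E.R c12 H := E.mono c9 c12 H hH (hc1211.trans hc119)
  have r3 := E.cofin c12 (x0 α s.length) hc12_0
  have r4 := E.inter c12 _ _ hc12_0 (E.inter c12 _ _ hc12_0 r1 r2) r3
  refine E.proper c12 hc12_0 (E.up c12 _ _ hc12_0 r4 (Nm.const ∅) ?_)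
  rintro x hx b ⟨⟨hbS, hbH⟩, hbk⟩
  exfalso
  have hxq : x ∈ q.body := hq'q.2 hx
  have h5 := hbound x hxq b hbS hbH
  have h6 : x α s.length = x0 α s.length := hq'c x hx
  rw [h6] at h5
  exact absurd h5 (not_lt.2 hbk)

end Pool.Agent.QPt
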