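import Pool.Agent.QPt.Ops

/-!
# The set `Z` of a condition can be put into a new coordinate on top
-/

set_option autoImplicit false
set_option linter.unusedSectionVars false

namespace Pool.Agent.QPt

open Set

variable {I : Type} [LinearOrder I] [WellFoundedLT I] {W : WName I}

/-- K1: put `Z0` into the coordinate `α` -/
theorem core_top {c0 : Cond2 W} {α : I} (h : c0.p.w ⊆ Iio α) :
    ∃ c1 ≤ c0, c1.p.w = insert α c0.p.w ∧ (∀ x ∈ c1.p.dom (Iio α), x ∈ c0.p.body ∧
      range (c1.p.y α x) ⊆ c0.Z x) ∧ c1.Z = fun x => range (x α) := by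
  obtain ⟨a, hw, -, -, hy, hbody, hdom⟩ := exists_top c0.p α h (fun _ => [])
    (fun x => zm [] (c0.Z x)) (LC.const [])
    (fun i => LC.zm (LC.const []) c0.nm (fun _ _ => isStem_nil) c0.fat i)
    (fun _ _ => isStem_nil) (fun x hx => zm_mem_K isStem_nil (c0.fat x hx))
  have hαw : α ∈ a.w := by rw [hw]; exact mem_insert _ _
  have hmem : ∀ x ∈ a.body, x ∈ c0.p.body ∧ x α ∈ Fib [] (zm [] (c0.Z x)) := by
    intro x hx
    rw [hbody] at hx
    exact hx
  have hsub : ∀ x ∈ a.body, range (x α) ⊆ c0.Z x := by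
    rintro x hx _ ⟨i, rfl⟩
    exact range_zm_nil (c0.fat x (hmem x hx).1) ((hmem x hx).2.2.2 i (Nat.zero_le _))
  refine ⟨⟨a, fun x => range (x α), Nm.range (fun i => LC.coord hαw i)
    (fun x hx => (hmem x hx).2.1), fun x hx => fat_range (hmem x hx).2.1⟩,
    ⟨⟨?_, fun x hx => (hmem x hx).1⟩, LeW.of_subset hsub⟩, hw, ?_, rfl⟩
  · rw [hw]; exact subset_insert _ _
  · intro x hx
    have hx' : x ∈ c0.p.body := by rw [← hdom]; exact hx
    refine ⟨hx', ?_⟩
    change range (a.y α x) ⊆ c0.Z x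
    rw [hy]
    exact range_zm_nil (c0.fat x hx')

end Pool.Agent.QPt
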