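import Pool.Agent.QPt.Step
import Pool.Agent.QPt.CRMain

/-!
# MP_04bc06_lc, module DEC: deciding a bounded name by the traces
-/

set_option autoImplicit false
set_option linter.unusedSectionVars false

namespace Pool.Agent.QPt

open Set

variable {I : Type} [LinearOrder I] [WellFoundedLT I]

namespace Dec

/-- a condition with support in `J` is its own restriction -/
theorem res_self_le (a : Cond I) {J : Set I} (hJ : IsLowerSet J) (ha : a.w ⊆ J) :
    a.res J hJ ≤ a := by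
  refine ⟨?_, ?_⟩
  · rw [Cond.res_w]
    exact fun γ hγ => ⟨hγ, ha hγ⟩
  · rw [Cond.res_body, Cond.body_eq_dom a ha]

theorem res_le_of_le {q a : Cond I} (h : q ≤ a) {J : Set I} (hJ : IsLowerSet J) (ha : a.w ⊆ J) :
    q.res J hJ ≤ a := (Cond.res_mono h J hJ).trans (res_self_le a hJ ha)

/-- the trace depends only on the branch -/
theorem tr_congr {p q : Cond I} {β : I} {x : Pt I} (n : ℕ) (h : p.y β x = q.y β x) :
    tr p β n x = tr q β n x := by
  unfold tr
  rw [h]

theorem tr_subset (p : Cond I) (β : I) (n : ℕ) (x : Pt I) : tr p β n x ⊆ Finset.range n := by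
  classical
  intro k hk
  unfold tr at hk
  exact (Finset.mem_filter.1 hk).1

end Dec

open Dec

/-- base case: `F ⊆ J0` -/
theorem dec_base (J0 L : Set I) (hJ0 : IsLowerSet J0) (hL : IsLowerSet L) (hJL : J0 ⊆ L) {ι : Type}
    (p : Cond I) (hp : p.w ⊆ L) (f : Pt I → ι) (hf : LC p.body p.w f)
    (F : Finset I) (hF : (F : Set I) ⊆ p.w) (hFJ : (F : Set I) ⊆ J0) (n : ℕ) :
    ∃ q : Cond I, q.w ⊆ L ∧ Pure (F : Set I) n q p ∧ ∃ c : Pt I → ι,
      LC (q.dom J0) (q.w ∩ J0) c ∧ ∀ x ∈ q.body, f x = c x := by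
  classical
  set D : Set (Cond I) := {d | ∃ v, ∀ x ∈ d.body, f x = v} with hD
  have hden : ∀ a : Cond I, a.w ⊆ J0 → a ≤ p.res J0 hJ0 →
      ∃ q ∈ D, q.w ⊆ L ∧ q ≤ p ∧ q.res J0 hJ0 ≤ a := by
    intro a ha hap
    obtain ⟨pa, hw, h1, h2, h3, h4, -, -⟩ := exists_amal J0 hJ0 p a ha hap
    have hpaL : pa.w ⊆ L := by
      rw [hw]
      rintro γ (hγ | hγ)
      · exact hJL (ha hγ)
      · exact hp hγ.1
    obtain ⟨x, hx⟩ := pa.body_nonempty
    obtain ⟨r, hr, hr'⟩ := exists_nbhd_const pa hx (hf.mono h4.2 h4.1)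
    exact ⟨r, ⟨f x, hr'⟩, by rw [hr.1]; exact hpaL, hr.le.trans h4,
      res_le_of_le (hr.le.trans h3) _ ha⟩
  obtain ⟨q, P, hqL, hq, hP, hP1, hP2, hP3⟩ := lift J0 L hJ0 hJL (cr_all J0 hJ0) p hp D hden F hF
    hFJ n
  refine ⟨q, hqL, hq, fun x => f (P x).body_nonempty.some, hP.comp fun d => f d.body_nonempty.some,
    ?_⟩
  intro x hx
  obtain ⟨v, hv⟩ := (hP1 x (q.body_subset_dom J0 hx)).1
  rw [hv x (hP3 x hx).1]
  exact (hv _ (P x).body_nonempty.some_mem).symm

theorem dec (J0 L : Set I) (hJ0 : IsLowerSet J0) (hL : IsLowerSet L) (hJL : J0 ⊆ L) {ι : Type}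
    (p : Cond I) (hp : p.w ⊆ L) (f : Pt I → ι) (hf : LC p.body p.w f)
    (B : Pt I → Finset ι) (hB : LC (p.dom J0) (p.w ∩ J0) B) (hfB : ∀ x ∈ p.body, f x ∈ B x)
    (F : Finset I) (hF : (F : Set I) ⊆ p.w) (n : ℕ) :
    ∃ q : Cond I, q.w ⊆ L ∧ Pure (F : Set I) n q p ∧ ∃ c : (I → Finset ℕ) → Pt I → ι,
      (∀ t, LC (q.dom J0) (q.w ∩ J0) (c t)) ∧
      ∀ x ∈ q.body, f x = c (tra q ((F : Set I) \ J0) n x) x := by
  classical
  obtain ⟨m, hm⟩ : ∃ m : ℕ, (F.filter (· ∉ J0)).card = m := ⟨_, rfl⟩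
  induction m generalizing L p F ι with
  | zero =>
    have hFJ : (F : Set I) ⊆ J0 := by
      intro γ hγ
      by_contra h
      have h1 : γ ∈ F.filter (· ∉ J0) := Finset.mem_filter.2 ⟨hγ, h⟩
      rw [Finset.card_eq_zero.1 hm] at h1
      exact absurd h1 (Finset.notMem_empty γ)
    obtain ⟨q, hqL, hq, c, hc, hc'⟩ := dec_base J0 L hJ0 hL hJL p hp f hf F hF hFJ n
    exact ⟨q, hqL, hq, fun _ => c, fun _ => hc, hc'⟩
  | succ m ih =>
    have hne : (F.filter (· ∉ J0)).Nonempty := by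
      rw [← Finset.card_pos, hm]; omega
    set β := (F.filter (· ∉ J0)).max' hne with hβd
    have hβm : β ∈ F.filter (· ∉ J0) := Finset.max'_mem _ _
    obtain ⟨hβF, hβJ⟩ := Finset.mem_filter.1 hβm
    have hJβ : J0 ⊆ Iio β := by
      intro γ hγ
      by_contra h
      exact hβJ (hJ0 (not_lt.1 h) hγ)
    have hFβ : ∀ γ ∈ F, γ ≤ β := by
      intro γ hγ
      by_cases h : γ ∈ J0
      · exact le_of_lt (hJβ h)
      · exact Finset.le_max' _ _ (Finset.mem_filter.2 ⟨hγ, h⟩)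
    have hβp : β ∈ p.w := hF hβF
    have hβL : β ∈ L := hp hβp
    set G : ι → Set (Cond I) := fun c => {q | ∀ x ∈ q.body, f x = c} with hG
    have hopen : ∀ c, OpenIn L (G c) := fun c a ha q hq _ x hx => ha x (hq.2 hx)
    have hloc : ∀ c q, q.w ⊆ L → Reads q (G c) → q ∈ G c := by
      intro c q _ hr x hx
      obtain ⟨r, hr1, hr2⟩ := hr x hx
      exact hr1 x hr2.2.1
    obtain ⟨q1, hq1L, hq1, col, hcol, hcol'⟩ := step L hL β hβL (cr_all _ (isLowerSet_Iio β)) G
      hopen hloc p hp hβp (by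
        intro q hq hqL
        obtain ⟨x, hx⟩ := q.body_nonempty
        obtain ⟨q', hq', hq'd, hq'B⟩ := exists_low_const q J0 hJ0 hx
          (hB.mono (Cond.dom_mono hq hJ0) (inter_subset_inter_left _ hq.1))
        refine ⟨q', hq'.le, by rw [hq'.1]; exact hqL, fun γ hγ => hq'd γ fun h =>
          absurd (hJβ h) (not_lt.2 hγ), B x, ?_⟩
        intro q'' hq'' hq''L
        obtain ⟨y, hy⟩ := q''.body_nonempty
        have hqp : q'' ≤ p := hq''.trans (hq'.le.trans hq)
        obtain ⟨r, hr, hrc⟩ := exists_nbhd_const q'' hy (hf.mono hqp.2 hqp.1)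
        refine ⟨r, hr.le, by rw [hr.1]; exact hq''L, ?_⟩
        rw [mem_iUnion₂]
        refine ⟨f y, ?_, hrc⟩
        rw [← hq'B y (q'.body_subset_dom J0 (hq''.2 hy))]
        exact hfB y (hqp.2 hy)) F hF hFβ n
    have hfcol : ∀ x ∈ q1.body, f x = col (tr q1 β n x) x := by
      intro x hx
      obtain ⟨r, hr, hr'⟩ := hcol' x hx
      exact hr x hr'.2.1
    set p' : Cond I := q1.res (Iio β) (isLowerSet_Iio β) with hp'
    have hp'w : p'.w = q1.w ∩ Iio β := rfl
    have hp'b : p'.body = q1.dom (Iio β) := Cond.res_body _ _ _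
    have hp'J : p'.dom J0 = q1.dom J0 := by
      rw [hp', Cond.res_dom, inter_eq_right.2 hJβ]
    have hp'wJ : p'.w ∩ J0 = q1.w ∩ J0 := by
      rw [hp'w, inter_assoc, inter_eq_right.2 hJβ]
    have hBq1 : LC (q1.dom J0) (q1.w ∩ J0) B :=
      hB.mono (Cond.dom_mono hq1.1 hJ0) (inter_subset_inter_left _ hq1.1.1)
    set f' : Pt I → Finset (Finset ℕ × ι) := fun x =>
      ((Finset.range n).powerset ×ˢ B x).filter (fun tc => col tc.1 x = tc.2) with hf'
    set B' : Pt I → Finset (Finset (Finset ℕ × ι)) := fun x =>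
      ((Finset.range n).powerset ×ˢ B x).powerset with hB'
    have hBβ : LC (q1.dom (Iio β)) (q1.w ∩ Iio β) B :=
      hBq1.mono (q1.dom_anti hJβ) (inter_subset_inter_right _ hJβ)
    have hf'LC : LC p'.body p'.w f' := by
      rw [hp'b, hp'w]
      intro x hx
      obtain ⟨F1, hF1, n1, h1⟩ := hBβ x hx
      obtain ⟨F2, hF2, n2, h2⟩ := LC.finset (Finset.range n).powerset
        (fun t (_ : t ∈ (Finset.range n).powerset) => hcol t) x hx
      refine ⟨F1 ∪ F2, ?_, max n1 n2, ?_⟩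
      · rw [Finset.coe_union]; exact union_subset hF1 hF2
      · intro y hy hxy
        have e1 : B y = B x := h1 y hy (hxy.mono (by
          rw [Finset.coe_union]; exact subset_union_left) (le_max_left _ _))
        have e2 := h2 y hy (hxy.mono (by
          rw [Finset.coe_union]; exact subset_union_right) (le_max_right _ _))
        rw [hf']
        simp only
        rw [e1]
        apply Finset.filter_congr
        rintro ⟨t, c⟩ htc
        rw [Finset.mem_product] at htc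
        rw [e2 t htc.1]
    have hB'LC : LC (p'.dom J0) (p'.w ∩ J0) B' := by
      rw [hp'J, hp'wJ]
      exact hBq1.comp fun b => ((Finset.range n).powerset ×ˢ b).powerset
    set F' : Finset I := F.erase β with hF'
    have hF'w : (F' : Set I) ⊆ p'.w := by
      intro γ hγ
      have h1 := Finset.mem_erase.1 (Finset.mem_coe.1 hγ)
      exact ⟨hq1.1.1 (hF h1.2), lt_of_le_of_ne (hFβ γ h1.2) h1.1⟩
    have hcard : (F'.filter (· ∉ J0)).card = m := by
      have h1 : F'.filter (· ∉ J0) = (F.filter (· ∉ J0)).erase β := by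
        ext γ
        simp only [hF', Finset.mem_filter, Finset.mem_erase]
        tauto
      rw [h1, Finset.card_erase_of_mem hβm, hm]
      rfl
    obtain ⟨q2, hq2w, hq2, c', hc', hc'f⟩ := ih (Iio β) (isLowerSet_Iio β) hJβ p'
      (by rw [hp'w]; exact inter_subset_right) f' hf'LC B' hB'LC
      (fun x _ => Finset.mem_powerset.2 (Finset.filter_subset _ _)) F' hF'w hcard
    obtain ⟨q, hqw, hqJ, hqJ', hqq2, hqq1, hqdom, hqbody⟩ :=
      exists_amal (Iio β) (isLowerSet_Iio β) q1 q2 hq2w hq2.1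
    have hqL : q.w ⊆ L := by
      rw [hqw]
      rintro γ (hγ | hγ)
      · exact hL (le_of_lt (hq2w hγ)) hβL
      · exact hq1L hγ.1
    have hdiff : ∀ γ, γ ∈ (F' : Set I) \ J0 → γ < β := by
      intro γ hγ
      have h1 := Finset.mem_erase.1 (Finset.mem_coe.1 hγ.1)
      exact lt_of_le_of_ne (hFβ γ h1.2) h1.1
    refine ⟨q, hqL, ⟨hqq1.trans hq1.1, ?_⟩, fun t x =>
      if h : ∃ c, (t β, c) ∈ c' (fun γ => if γ ∈ (F' : Set I) \ J0 then t γ else ∅) x then h.choose
      else f p.body_nonempty.some, ?_, ?_⟩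
    · intro γ hγ x hx
      rcases (hFβ γ hγ).lt_or_eq with h | rfl
      · have h1 : γ ∈ F' := Finset.mem_erase.2 ⟨h.ne, hγ⟩
        obtain ⟨e1, e2⟩ := hqJ γ h
        obtain ⟨e3, e4⟩ := hq2.2 γ h1 x (Cond.dom_mono hqq2 (isLowerSet_Iio γ) hx)
        obtain ⟨e5, e6⟩ := hq1.2 γ (Or.inr hγ) x (Cond.dom_mono hqq1 (isLowerSet_Iio γ) hx)
        refine ⟨by rw [e1, e3]; exact e5, fun i hi => by rw [e2, e4 i hi]; exact e6 i hi⟩
      · obtain ⟨e1, e2⟩ := hqJ' β (lt_irrefl β)
        obtain ⟨e5, e6⟩ := hq1.2 β (Or.inl rfl) x (Cond.dom_mono hqq1 (isLowerSet_Iio β) hx)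
        refine ⟨by rw [e1]; exact e5, fun i hi => by rw [e2]; exact e6 i hi⟩
    · intro t
      have h1 : LC (q.dom J0) (q.w ∩ J0)
          (c' (fun γ => if γ ∈ (F' : Set I) \ J0 then t γ else ∅)) :=
        (hc' _).mono (Cond.dom_mono hqq2 hJ0) (inter_subset_inter_left _ hqq2.1)
      exact h1.comp fun g => if h : ∃ c, (t β, c) ∈ g then h.choose else f p.body_nonempty.some
    · intro x hx
      have hx1 : x ∈ q1.body := hqq1.2 hx
      have hx2 : x ∈ q2.body := hqq2.2 hx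
      have e1 : tra q ((F : Set I) \ J0) n x β = tr q1 β n x := by
        unfold tra
        rw [if_pos ⟨hβF, hβJ⟩]
        exact tr_congr n (by rw [(hqJ' β (lt_irrefl β)).2])
      have e2 : (fun γ => if γ ∈ (F' : Set I) \ J0 then tra q ((F : Set I) \ J0) n x γ else ∅) =
          tra q2 ((F' : Set I) \ J0) n x := by
        funext γ
        unfold tra
        by_cases h : γ ∈ (F' : Set I) \ J0
        · have h1 : γ ∈ (F : Set I) \ J0 :=
            ⟨(Finset.mem_erase.1 (Finset.mem_coe.1 h.1)).2, h.2⟩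
          rw [if_pos h, if_pos h, if_pos h1]
          exact tr_congr n (by rw [(hqJ γ (hdiff γ h)).2])
        · rw [if_neg h, if_neg h]
      have hfx := hfcol x hx1
      have hmem : (tr q1 β n x, f x) ∈ f' x := by
        rw [hf']
        simp only
        rw [Finset.mem_filter, Finset.mem_product, Finset.mem_powerset]
        exact ⟨⟨tr_subset _ _ _ _, hfB x (hq1.1.2 hx1)⟩, hfx.symm⟩
      have hc1 := hc'f x hx2
      simp only
      rw [e1, e2, ← hc1]
      have hex : ∃ c, (tr q1 β n x, c) ∈ f' x := ⟨f x, hmem⟩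
      rw [dif_pos hex, hfx]
      exact (Finset.mem_filter.1 hex.choose_spec).2

end Pool.Agent.QPt
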