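import Mathlib

/-!
# A countable support iteration of columnwise Mathias forcing: definitions

`I` is a well-order.  A condition `p` has a countable support `p.w` and, at each coordinate `β` of the
support, a stem `p.s β x` and a branch `p.y β x`, which depend on the point `x` in a locally constant
way (continuous reading of names, using only the coordinates in `p.w` below `β`).  `p.body` is the set of
points `x` such that, for every `β ∈ p.w`, `x β` is a branch through the stem `p.s β x` with all other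
values in the range of `p.y β x`.
-/

set_option autoImplicit false

namespace Pool.Agent.QPt

open Set

/-- The column of a natural number (every column is infinite). -/
def lam (i : ℕ) : ℕ := (Nat.unpair i).1

/-- Branches: strictly increasing sequences `z` such that `z i` lies in the same column as `i`. -/
def K : Set (ℕ → ℕ) := {z | StrictMono z ∧ ∀ i, lam (z i) = lam i}

/-- Sets with infinite intersection with every column. -/
def Fat (A : Set ℕ) : Prop := ∀ n N, ∃ a ∈ A, N ≤ a ∧ lam a = n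

/-- The list of the first `m` values. -/
def pre (z : ℕ → ℕ) (m : ℕ) : List ℕ := (List.range m).map z

/-- Stems: initial segments of branches. -/
def IsStem (s : List ℕ) : Prop := ∃ z ∈ K, pre z s.length = s

/-- Branches with the initial segment `s` and all other values in the range of `y`. -/
def Fib (s : List ℕ) (y : ℕ → ℕ) : Set (ℕ → ℕ) :=
  {z | z ∈ K ∧ pre z s.length = s ∧ ∀ i, s.length ≤ i → z i ∈ range y}

/-- The least element `≥ L` of `A` in the column `n`. -/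
noncomputable def nxt (A : Set ℕ) (L n : ℕ) : ℕ := sInf {a | a ∈ A ∧ L ≤ a ∧ lam a = n}

/-- The least branch through the stem `s` with all other values in `A`. -/
noncomputable def zm (s : List ℕ) (A : Set ℕ) : ℕ → ℕ
  | 0 => if 0 < s.length then s.getD 0 0 else nxt A 0 (lam 0)
  | i + 1 => if i + 1 < s.length then s.getD (i + 1) 0 else nxt A (zm s A i + 1) (lam (i + 1))

section Points

variable {I : Type}

/-- Points. -/
abbrev Pt (I : Type) : Type := I → ℕ → ℕ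

/-- `x` and `y` agree at the coordinates in `F` up to `n`. -/
def Agree (F : Set I) (n : ℕ) (x y : Pt I) : Prop := ∀ β ∈ F, ∀ i < n, x β i = y β i

/-- `f` is locally constant on `C`, using only finitely many coordinates in `w` at each point. -/
def LC {γ : Type*} (C : Set (Pt I)) (w : Set I) (f : Pt I → γ) : Prop :=
  ∀ x ∈ C, ∃ F : Finset I, (F : Set I) ⊆ w ∧ ∃ n, ∀ y ∈ C, Agree (F : Set I) n x y → f y = f x

/-- `a` is a name of a set of natural numbers on `C` (coordinates in `w`). -/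
def Nm (C : Set (Pt I)) (w : Set I) (a : Pt I → Set ℕ) : Prop := ∀ m, LC C w (fun x => m ∈ a x)

theorem LC.mono {γ : Type*} {C C' : Set (Pt I)} {w w' : Set I} {f : Pt I → γ} (h : LC C w f)
    (hC : C' ⊆ C) (hw : w ⊆ w') : LC C' w' f := by
  intro x hx
  obtain ⟨F, hF, n, hn⟩ := h x (hC hx)
  exact ⟨F, hF.trans hw, n, fun y hy => hn y (hC hy)⟩

theorem Nm.mono {C C' : Set (Pt I)} {w w' : Set I} {a : Pt I → Set ℕ} (h : Nm C w a)
    (hC : C' ⊆ C) (hw : w ⊆ w') : Nm C' w' a := fun m => (h m).mono hC hw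

/-- The data of a condition. -/
structure Pre (I : Type) where
  w : Set I
  s : I → Pt I → List ℕ
  y : I → Pt I → ℕ → ℕ

/-- Points which satisfy the requirements of `p` at the coordinates in `J`. -/
def Pre.dom (p : Pre I) (J : Set I) : Set (Pt I) :=
  {x | ∀ β ∈ p.w, β ∈ J → x β ∈ Fib (p.s β x) (p.y β x)}

end Points

variable {I : Type} [LinearOrder I]

variable (I) in
/-- Conditions of the countable support iteration. -/
structure Cond extends Pre I where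
  ctbl : w.Countable
  hs : ∀ β ∈ w, LC (toPre.dom (Iio β)) (w ∩ Iio β) (s β)
  hy : ∀ β ∈ w, ∀ i, LC (toPre.dom (Iio β)) (w ∩ Iio β) (fun x => y β x i)
  hS : ∀ β ∈ w, ∀ x ∈ toPre.dom (Iio β), IsStem (s β x)
  hK : ∀ β ∈ w, ∀ x ∈ toPre.dom (Iio β), y β x ∈ K

/-- Points which satisfy the requirements of `p` at the coordinates in `J`. -/
abbrev Cond.dom (p : Cond I) (J : Set I) : Set (Pt I) := p.toPre.dom J

/-- The set of branches of a condition. -/
def Cond.body (p : Cond I) : Set (Pt I) := p.toPre.dom univ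

instance : Preorder (Cond I) where
  le q p := p.w ⊆ q.w ∧ q.body ⊆ p.body
  le_refl _ := ⟨Subset.rfl, Subset.rfl⟩
  le_trans _ _ _ h h' := ⟨h'.1.trans h.1, h.2.trans h'.2⟩

theorem Cond.le_def (q p : Cond I) : q ≤ p ↔ p.w ⊆ q.w ∧ q.body ⊆ p.body := Iff.rfl

/-- `r` is a restriction of `q` to a neighbourhood of `x`. -/
def OpenRes (r q : Cond I) (x : Pt I) : Prop :=
  r.w = q.w ∧ x ∈ r.body ∧ r.body ⊆ q.body ∧
    ∃ F : Finset I, (F : Set I) ⊆ q.w ∧ ∃ n, ∀ y ∈ q.body, Agree (F : Set I) n x y → y ∈ r.body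

/-- Locally, `q` belongs to `D`. -/
def Reads (q : Cond I) (D : Set (Cond I)) : Prop := ∀ x ∈ q.body, ∃ r ∈ D, OpenRes r q x

/-- `q ≤ p`, and at the coordinates in `F` the stem and the first `n` values of the branch are
unchanged. -/
def Pure (F : Set I) (n : ℕ) (q p : Cond I) : Prop :=
  q ≤ p ∧ ∀ β ∈ F, ∀ x ∈ q.dom (Iio β), q.s β x = p.s β x ∧ ∀ i < n, q.y β x i = p.y β x i

/-- `D` is open in the forcing with supports in `J`. -/
def OpenIn (J : Set I) (D : Set (Cond I)) : Prop :=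
  ∀ p ∈ D, ∀ q ≤ p, q.w ⊆ J → q ∈ D

/-- `D` is dense below `p` in the forcing with supports in `J`. -/
def DenseIn (J : Set I) (D : Set (Cond I)) (p : Cond I) : Prop :=
  ∀ q ≤ p, q.w ⊆ J → ∃ r ≤ q, r.w ⊆ J ∧ r ∈ D

/-- Continuous reading with purity, for the forcing with supports in `J`. -/
def CR (J : Set I) : Prop :=
  ∀ (D : Set (Cond I)) (p : Cond I) (F : Finset I) (n : ℕ), p.w ⊆ J → OpenIn J D → DenseIn J D p →
    (F : Set I) ⊆ p.w → ∃ q : Cond I, q.w ⊆ J ∧ Pure (F : Set I) n q p ∧ Reads q D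

/-- The trace of `x` at `β`: the indices `k < n` such that `p.y β x k` is a value of `x β`. -/
noncomputable def tr (p : Cond I) (β : I) (n : ℕ) (x : Pt I) : Finset ℕ :=
  open Classical in (Finset.range n).filter (fun k => p.y β x k ∈ range (x β))

/-- The traces of `x` at the coordinates in `F`. -/
noncomputable def tra (p : Cond I) (F : Set I) (n : ℕ) (x : Pt I) : I → Finset ℕ :=
  open Classical in fun β => if β ∈ F then tr p β n x else ∅

/-- Restriction of a condition to a lower set of coordinates. -/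
def Cond.res (p : Cond I) (J : Set I) (hJ : IsLowerSet J) : Cond I where
  w := p.w ∩ J
  s := p.s
  y := p.y
  ctbl := p.ctbl.mono inter_subset_left
  hs := by
    intro β hβ
    have hd : Pre.dom (⟨p.w ∩ J, p.s, p.y⟩ : Pre I) (Iio β) = p.dom (Iio β) := by
      ext x
      exact ⟨fun h γ hγ hγβ => h γ ⟨hγ, hJ (le_of_lt hγβ) hβ.2⟩ hγβ, fun h γ hγ hγβ => h γ hγ.1 hγβ⟩
    rw [hd]
    refine (p.hs β hβ.1).mono Subset.rfl ?_
    exact fun γ hγ => ⟨⟨hγ.1, hJ (le_of_lt hγ.2) hβ.2⟩, hγ.2⟩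
  hy := by
    intro β hβ i
    have hd : Pre.dom (⟨p.w ∩ J, p.s, p.y⟩ : Pre I) (Iio β) = p.dom (Iio β) := by
      ext x
      exact ⟨fun h γ hγ hγβ => h γ ⟨hγ, hJ (le_of_lt hγβ) hβ.2⟩ hγβ, fun h γ hγ hγβ => h γ hγ.1 hγβ⟩
    rw [hd]
    refine (p.hy β hβ.1 i).mono Subset.rfl ?_
    exact fun γ hγ => ⟨⟨hγ.1, hJ (le_of_lt hγ.2) hβ.2⟩, hγ.2⟩
  hS := by
    intro β hβ x hx
    refine p.hS β hβ.1 x ?_
    exact fun γ hγ hγβ => hx γ ⟨hγ, hJ (le_of_lt hγβ) hβ.2⟩ hγβ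
  hK := by
    intro β hβ x hx
    refine p.hK β hβ.1 x ?_
    exact fun γ hγ hγβ => hx γ ⟨hγ, hJ (le_of_lt hγβ) hβ.2⟩ hγβ

/-- At the coordinate `β`, the condition `q` has the stem `t` and all other values in `A`. -/
def AtStem (q : Cond I) (β : I) (t : List ℕ) (A : Pt I → Set ℕ) : Prop :=
  β ∈ q.w ∧ ∀ x ∈ q.dom (Iio β), q.s β x = t ∧
    ∀ z ∈ Fib t (q.y β x), ∀ i, t.length ≤ i → z i ∈ A x

section PureDecision

variable (L : Set I) (β : I) {ι : Type} (G : ι → Set (Cond I)) (p : Cond I)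

/-- `q` (below `p` and `b`, with the stem `t` at `β` and the other values in `A`) is in `G c`. -/
def Wit (b : Cond I) (t : List ℕ) (A : Pt I → Set ℕ) (c : ι) (q : Cond I) : Prop :=
  q ∈ G c ∧ q.w ⊆ L ∧ q ≤ p ∧ q.res (Iio β) (isLowerSet_Iio β) ≤ b ∧ AtStem q β t A

/-- No extension with the stem `t` and the other values in `A` is in any `G c`. -/
def Bad (b : Cond I) (t : List ℕ) (A : Pt I → Set ℕ) : Prop := ∀ c q, ¬ Wit L β G p b t A c q

end PureDecision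

/-- All branches at `α` with the stem `u` and the other values in `A` satisfy `φ`. -/
def Forces (α : I) (b : Cond I) (u : List ℕ) (A : Pt I → Set ℕ) (φ : Pt I → Prop) : Prop :=
  ∀ x ∈ b.body, x α ∈ K → pre (x α) u.length = u → (∀ i, u.length ≤ i → x α i ∈ A x) → φ x

/-! ### Names for an ultrafilter `W`, the second forcing -/

variable (I) in
/-- A name of a nonprincipal ultrafilter. -/
structure WName where
  R : Cond I → (Pt I → Set ℕ) → Prop
  nm : ∀ p a, R p a → Nm p.body p.w a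
  mono : ∀ p q a, R p a → q ≤ p → R q a
  loc : ∀ p a, Nm p.body p.w a → (∀ q ≤ p, ∃ r ≤ q, R r a) → R p a
  up : ∀ p a b, R p a → Nm p.body p.w b → (∀ x ∈ p.body, a x ⊆ b x) → R p b
  inter : ∀ p a b, R p a → R p b → R p (fun x => a x ∩ b x)
  ultra : ∀ p a, Nm p.body p.w a → ∃ q ≤ p, R q a ∨ R q (fun x => (a x)ᶜ)
  cofin : ∀ p k, R p (fun _ => Ici k)
  proper : ∀ p, ¬ R p (fun _ => ∅)

/-- In the ultrapower order given by `W`, `p` forces that `Z'` is below `Z`: for `W`-almost all columns `n`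
the column `n` of `Z'` is contained, up to a finite set, in `Z`. -/
def LeW (W : WName I) (p : Cond I) (Z' Z : Pt I → Set ℕ) : Prop :=
  ∀ q ≤ p, ∃ r ≤ q, ∃ T, W.R r T ∧
    ∀ x ∈ r.body, ∀ n ∈ T x, {m | m ∈ Z' x ∧ lam m = n ∧ m ∉ Z x}.Finite

/-- Conditions of the second forcing (a condition `p` with a name `Z` of a fat set). -/
structure Cond2 (W : WName I) where
  p : Cond I
  Z : Pt I → Set ℕ
  nm : Nm p.body p.w Z
  fat : ∀ x ∈ p.body, Fat (Z x)

theorem LeW.of_subset {W : WName I} {p : Cond I} {Z' Z : Pt I → Set ℕ}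
    (h : ∀ x ∈ p.body, Z' x ⊆ Z x) : LeW W p Z' Z := by
  intro q hq
  refine ⟨q, le_rfl, fun _ => Ici 0, W.cofin q 0, fun x hx n _ => ?_⟩
  have : {m | m ∈ Z' x ∧ lam m = n ∧ m ∉ Z x} = ∅ := by
    ext m
    simp only [mem_ofPred_eq, mem_empty_iff_false, iff_false, not_and, not_not]
    exact fun h1 _ => h x (hq.2 hx) h1
  rw [this]
  exact Set.finite_empty

theorem LeW.mono {W : WName I} {p q : Cond I} {Z' Z : Pt I → Set ℕ} (h : LeW W p Z' Z)
    (hq : q ≤ p) : LeW W q Z' Z := fun r hr => h r (hr.trans hq)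

theorem LeW.trans {W : WName I} {p : Cond I} {Z'' Z' Z : Pt I → Set ℕ} (h : LeW W p Z'' Z')
    (h' : LeW W p Z' Z) : LeW W p Z'' Z := by
  intro q hq
  obtain ⟨r, hr, T, hT, h1⟩ := h q hq
  obtain ⟨s, hs, T', hT', h2⟩ := h' r (hr.trans hq)
  refine ⟨s, hs.trans hr, fun x => T x ∩ T' x, W.inter s T T' (W.mono r s T hT hs) hT', ?_⟩
  intro x hx n hn
  refine ((h1 x (hs.2 hx) n hn.1).union (h2 x hx n hn.2)).subset ?_
  rintro m ⟨ha, hb, hc⟩
  by_cases hm : m ∈ Z' x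
  · exact Or.inr ⟨hm, hb, hc⟩
  · exact Or.inl ⟨ha, hb, hm⟩

instance (W : WName I) : Preorder (Cond2 W) where
  le c' c := c'.p ≤ c.p ∧ LeW W c'.p c'.Z c.Z
  le_refl c := ⟨le_rfl, LeW.of_subset fun _ _ => Subset.rfl⟩
  le_trans _ _ _ h h' := ⟨h.1.trans h'.1, h.2.trans (h'.2.mono h.1)⟩

theorem Cond2.le_def {W : WName I} (c' c : Cond2 W) :
    c' ≤ c ↔ c'.p ≤ c.p ∧ LeW W c'.p c'.Z c.Z := Iff.rfl

/-- Restriction of a condition of the second forcing. -/
def Cond2.sub {W : WName I} (c : Cond2 W) (q : Cond I) (hq : q ≤ c.p) : Cond2 W where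
  p := q
  Z := c.Z
  nm := c.nm.mono hq.2 hq.1
  fat := fun x hx => c.fat x (hq.2 hx)

theorem Cond2.sub_le {W : WName I} (c : Cond2 W) (q : Cond I) (hq : q ≤ c.p) : c.sub q hq ≤ c :=
  ⟨hq, LeW.of_subset fun _ _ => Subset.rfl⟩

/-- A name (below `c0`) of a nonprincipal ultrafilter `E` on the natural numbers which is a Q-point (`Q`)
and is not the image of the generic ultrafilter `U` under an injection (`N`). -/
structure EName (W : WName I) (c0 : Cond2 W) where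
  R : Cond2 W → (Pt I → Set ℕ) → Prop
  nm : ∀ c a, R c a → Nm c.p.body c.p.w a
  mono : ∀ c c' a, R c a → c' ≤ c → R c' a
  up : ∀ c a b, c ≤ c0 → R c a → Nm c.p.body c.p.w b → (∀ x ∈ c.p.body, a x ⊆ b x) → R c b
  inter : ∀ c a b, c ≤ c0 → R c a → R c b → R c (fun x => a x ∩ b x)
  ultra : ∀ c a, c ≤ c0 → Nm c.p.body c.p.w a → ∃ c' ≤ c, R c' a ∨ R c' (fun x => (a x)ᶜ)
  cofin : ∀ c k, c ≤ c0 → R c (fun _ => Ici k)
  proper : ∀ c, c ≤ c0 → ¬ R c (fun _ => ∅)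
  Q : ∀ c Y, c ≤ c0 → Nm c.p.body c.p.w Y → (∀ x ∈ c.p.body, (Y x).Infinite) →
    ∃ c' ≤ c, ∃ e, R c' e ∧ ∀ x ∈ c'.p.body, ∀ m ∈ e x, ∀ m' ∈ e x, m < m' →
      ∃ y ∈ Y x, m < y ∧ y ≤ m'
  N : ∀ c Γ, c ≤ c0 → Nm c.p.body c.p.w Γ →
    (∀ x ∈ c.p.body, ∀ i j k, Nat.pair i j ∈ Γ x → Nat.pair i k ∈ Γ x → j = k) →
    (∀ x ∈ c.p.body, ∀ i j k, Nat.pair i k ∈ Γ x → Nat.pair j k ∈ Γ x → i = j) →
    ∃ c' ≤ c, ∃ A B, Nm c'.p.body c'.p.w A ∧ LeW W c'.p c'.Z A ∧ R c' B ∧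
      ∀ x ∈ c'.p.body, ∀ i ∈ A x, ∀ j ∈ B x, Nat.pair i j ∉ Γ x

/-- The names of `W` and `E` are closed at `α`: tasks with supports below `α` have solutions with supports
below `α`. -/
structure ClosedAt {W : WName I} {c0 : Cond2 W} (E : EName W c0) (α : I) : Prop where
  supp : c0.p.w ⊆ Iio α
  hW : ∀ p a, p.w ⊆ Iio α → Nm p.body p.w a →
    ∃ q ≤ p, q.w ⊆ Iio α ∧ (W.R q a ∨ W.R q (fun x => (a x)ᶜ))
  hE : ∀ c a, c ≤ c0 → c.p.w ⊆ Iio α → Nm c.p.body c.p.w a →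
    ∃ c' ≤ c, c'.p.w ⊆ Iio α ∧ (E.R c' a ∨ E.R c' (fun x => (a x)ᶜ))
  hQ : ∀ c Y, c ≤ c0 → c.p.w ⊆ Iio α → Nm c.p.body c.p.w Y → (∀ x ∈ c.p.body, (Y x).Infinite) →
    ∃ c' ≤ c, c'.p.w ⊆ Iio α ∧ ∃ e, E.R c' e ∧ ∀ x ∈ c'.p.body, ∀ m ∈ e x, ∀ m' ∈ e x, m < m' →
      ∃ y ∈ Y x, m < y ∧ y ≤ m'
  hN : ∀ c Γ, c ≤ c0 → c.p.w ⊆ Iio α → Nm c.p.body c.p.w Γ →
    (∀ x ∈ c.p.body, ∀ i j k, Nat.pair i j ∈ Γ x → Nat.pair i k ∈ Γ x → j = k) →
    (∀ x ∈ c.p.body, ∀ i j k, Nat.pair i k ∈ Γ x → Nat.pair j k ∈ Γ x → i = j) →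
    ∃ c' ≤ c, c'.p.w ⊆ Iio α ∧ ∃ A B, Nm c'.p.body c'.p.w A ∧ LeW W c'.p c'.Z A ∧ E.R c' B ∧
      ∀ x ∈ c'.p.body, ∀ i ∈ A x, ∀ j ∈ B x, Nat.pair i j ∉ Γ x

/-! ### Dense embeddings and Boolean values -/

/-- A dense embedding of a preorder into a complete Boolean algebra. -/
structure DEmb (P : Type) [Preorder P] (𝔹 : Type) [CompleteBooleanAlgebra 𝔹] where
  e : P → 𝔹
  ne : ∀ p, e p ≠ ⊥
  mono : ∀ p q, p ≤ q → e p ≤ e q
  dense : ∀ b, b ≠ ⊥ → ∃ p, e p ≤ b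
  compat : ∀ p q, e p ⊓ e q ≠ ⊥ → ∃ r, r ≤ p ∧ r ≤ q

section Boolean

variable {W : WName I} {𝔹 : Type} [CompleteBooleanAlgebra 𝔹] (D : DEmb (Cond2 W) 𝔹)

/-- The name `a` represents the sequence `A` of Boolean values below `c`. -/
def Rep (c : Cond2 W) (a : Pt I → Set ℕ) (A : ℕ → 𝔹) : Prop :=
  Nm c.p.body c.p.w a ∧ ∀ c' ≤ c, ∀ m, ((∀ x ∈ c'.p.body, m ∈ a x) → D.e c' ≤ A m) ∧
    ((∀ x ∈ c'.p.body, m ∉ a x) → D.e c' ≤ (A m)ᶜ)

/-- The sequence of Boolean values of a name. -/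
def hat (c : Cond2 W) (a : Pt I → Set ℕ) (m : ℕ) : 𝔹 :=
  ⨆ c' : {c' : Cond2 W // c' ≤ c ∧ ∀ x ∈ c'.p.body, m ∈ a x}, D.e c'.1

/-- The Boolean value of `A ∈ U`, where `U` is the generic ultrafilter. -/
def UV (A : ℕ → 𝔹) : 𝔹 :=
  ⨆ c : {c : Cond2 W // ∃ a, Rep D c a A ∧ LeW W c.p c.Z a}, D.e c.1

/-- The relation `e c ≤ V a` for names `a`. -/
def VR (V : (ℕ → 𝔹) → 𝔹) (c : Cond2 W) (a : Pt I → Set ℕ) : Prop :=
  ∃ A, Rep D c a A ∧ D.e c ≤ V A

end Boolean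

end Pool.Agent.QPt
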