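import Pool.Agent.QPt.Defs

/-!
# Dense embeddings into complete Boolean algebras
-/

set_option autoImplicit false
set_option linter.unusedSectionVars false

namespace Pool.Agent.QPt

open Set

section DEmb
variable {P : Type} [Preorder P] {𝔹 : Type} [CompleteBooleanAlgebra 𝔹] (D : DEmb P 𝔹)

theorem DEmb.exists_below {p : P} {b : 𝔹} (h : D.e p ⊓ b ≠ ⊥) : ∃ q ≤ p, D.e q ≤ b := by
  obtain ⟨p', hp'⟩ := D.dense _ h
  have h1 : D.e p' ⊓ D.e p ≠ ⊥ := by
    rw [inf_eq_left.2 (hp'.trans inf_le_left)]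
    exact D.ne p'
  obtain ⟨r, hr1, hr2⟩ := D.compat _ _ h1
  exact ⟨r, hr2, (D.mono _ _ hr1).trans (hp'.trans inf_le_right)⟩

theorem DEmb.false_of {q : P} {b : 𝔹} (h1 : D.e q ≤ b) (h2 : D.e q ≤ bᶜ) : False := by
  apply D.ne q
  rw [eq_bot_iff, ← inf_compl_eq_bot (a := b)]
  exact le_inf h1 h2

theorem DEmb.le_of_dense {p : P} {b : 𝔹} (h : ∀ q ≤ p, ∃ r ≤ q, D.e r ≤ b) : D.e p ≤ b := by
  by_contra hc
  have h1 : D.e p ⊓ bᶜ ≠ ⊥ := by
    intro h2
    apply hc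
    have := (disjoint_iff.2 h2).le_compl_right
    rwa [compl_compl] at this
  obtain ⟨q, hq, hq'⟩ := D.exists_below h1
  obtain ⟨r, hr, hr'⟩ := h q hq
  exact D.false_of hr' ((D.mono _ _ hr).trans hq')

theorem DEmb.le_compl_iff {p : P} {b : 𝔹} : D.e p ≤ bᶜ ↔ ∀ q ≤ p, ¬ D.e q ≤ b := by
  constructor
  · intro h q hq h1
    exact D.false_of h1 ((D.mono _ _ hq).trans h)
  · intro h
    by_contra hc
    have h1 : D.e p ⊓ b ≠ ⊥ := by
      intro h2
      exact hc (disjoint_iff.2 h2).le_compl_right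
    obtain ⟨q, hq, hq'⟩ := D.exists_below h1
    exact h q hq hq'

theorem DEmb.le_himp_iff {p : P} {a b : 𝔹} : D.e p ≤ a ⇨ b ↔ ∀ q ≤ p, D.e q ≤ a → D.e q ≤ b := by
  constructor
  · intro h q hq h1
    have h2 := (D.mono _ _ hq).trans h
    rw [_root_.le_himp_iff] at h2
    exact (le_inf le_rfl h1).trans h2
  · intro h
    by_contra hc
    have h1 : D.e p ⊓ (a ⊓ bᶜ) ≠ ⊥ := by
      intro h2
      apply hc
      rw [_root_.le_himp_iff]
      rw [← inf_assoc] at h2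
      have := (disjoint_iff.2 h2).le_compl_right
      rwa [compl_compl] at this
    obtain ⟨q, hq, hq'⟩ := D.exists_below h1
    exact D.false_of (h q hq (hq'.trans inf_le_left)) (hq'.trans inf_le_right)

theorem DEmb.le_iSup_iff {ι : Sort*} {p : P} {f : ι → 𝔹} :
    D.e p ≤ ⨆ i, f i ↔ ∀ q ≤ p, ∃ r ≤ q, ∃ i, D.e r ≤ f i := by
  constructor
  · intro h q hq
    have h1 := (D.mono _ _ hq).trans h
    by_contra hc
    have h2 : ∀ i, D.e q ⊓ f i = ⊥ := by
      intro i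
      by_contra h3
      obtain ⟨r, hr, hr'⟩ := D.exists_below h3
      exact hc ⟨r, hr, i, hr'⟩
    apply D.ne q
    rw [← inf_eq_left.2 h1, inf_iSup_eq]
    simp only [h2, iSup_bot]
  · intro h
    refine D.le_of_dense fun q hq => ?_
    obtain ⟨r, hr, i, hi⟩ := h q hq
    exact ⟨r, hr, hi.trans (le_iSup f i)⟩

theorem DEmb.le_sup_iff {p : P} {a b : 𝔹} :
    D.e p ≤ a ⊔ b ↔ ∀ q ≤ p, ∃ r ≤ q, D.e r ≤ a ∨ D.e r ≤ b := by
  constructor
  · intro h q hq
    have h1 := (D.mono _ _ hq).trans h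
    by_contra hc
    have h2 : D.e q ⊓ a = ⊥ := by
      by_contra h3
      obtain ⟨r, hr, hr'⟩ := D.exists_below h3
      exact hc ⟨r, hr, Or.inl hr'⟩
    have h3 : D.e q ⊓ b = ⊥ := by
      by_contra h4
      obtain ⟨r, hr, hr'⟩ := D.exists_below h4
      exact hc ⟨r, hr, Or.inr hr'⟩
    apply D.ne q
    rw [← inf_eq_left.2 h1, inf_sup_left, h2, h3, sup_bot_eq]
  · intro h
    refine D.le_of_dense fun q hq => ?_
    obtain ⟨r, hr, hi⟩ := h q hq
    rcases hi with hi | hi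
    · exact ⟨r, hr, hi.trans le_sup_left⟩
    · exact ⟨r, hr, hi.trans le_sup_right⟩

/-- a weaker criterion -/
theorem DEmb.le_of_exists {a b : 𝔹} (h : ∀ p, D.e p ≤ a → ∃ q ≤ p, D.e q ≤ b) : a ≤ b := by
  by_contra hc
  have h1 : a ⊓ bᶜ ≠ ⊥ := by
    intro h2
    apply hc
    have := (disjoint_iff.2 h2).le_compl_right
    rwa [compl_compl] at this
  obtain ⟨p, hp⟩ := D.dense _ h1
  obtain ⟨q, hq, hq'⟩ := h p (hp.trans inf_le_left)
  exact D.false_of hq' (((D.mono _ _ hq).trans hp).trans inf_le_right)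

/-- it suffices to check inequalities on conditions -/
theorem DEmb.le_iff {a b : 𝔹} : a ≤ b ↔ ∀ p, D.e p ≤ a → D.e p ≤ b :=
  ⟨fun h _ hp => hp.trans h, fun h => D.le_of_exists fun p hp => ⟨p, le_rfl, h p hp⟩⟩

theorem DEmb.top_of_dense {b : 𝔹} (h : ∀ p, ∃ q ≤ p, D.e q ≤ b) : b = ⊤ :=
  top_unique (D.le_of_exists fun p _ => h p)

end DEmb

end Pool.Agent.QPt
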