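import Pool.Agent.QPt.SubN
import Pool.Agent.MP_b1d3ea_lc.SH

/-! # Finite sets of natural numbers are the bounded ones -/

set_option autoImplicit false

namespace Pool.Agent.QPt

open Pool.Agent.BVM Pool.Agent.StarHur

variable {𝔹 : Type} [CompleteBooleanAlgebra 𝔹]

/-- `g` is functional -/
private def fnl (g : BSet 𝔹) : 𝔹 := ⨅ k, ⨅ y, ⨅ z, bPM k y g ⇨ bPM k z g ⇨ beq y z

private theorem fnl_num (g : BSet 𝔹) (k : ℕ) {i j : ℕ} (h : i ≠ j) :
    fnl g ⊓ (bPM (num k) (num i) g ⊓ bPM (num k) (num j) g) = ⊥ := by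
  rw [eq_bot_iff]
  have h1 : fnl g ≤ bPM (num k) (num i) g ⇨ bPM (num k) (num j) g ⇨ beq (num i) (num j) :=
    (iInf_le _ (num k)).trans ((iInf_le _ (num i)).trans (iInf_le _ (num j)))
  rw [le_himp_iff, le_himp_iff, beq_num, if_neg h, inf_assoc] at h1
  exact h1

private theorem decide_bdd (g : BSet 𝔹) (n : ℕ) {p : 𝔹} (hp : p ≠ ⊥) (hpg : p ≤ fnl g) :
    ∃ q, q ≠ ⊥ ∧ q ≤ p ∧ ∃ N : ℕ, ∀ k < n, ∀ j, N ≤ j → q ⊓ bPM (num k) (num j) g = ⊥ := by
  induction n with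
  | zero => exact ⟨p, hp, le_rfl, 0, fun k hk => absurd hk (Nat.not_lt_zero k)⟩
  | succ n ih =>
    obtain ⟨q, hq, hqp, N, hN⟩ := ih
    by_cases h : ∃ j : ℕ, q ⊓ bPM (num n) (num j) g ≠ ⊥
    · obtain ⟨j, hj⟩ := h
      refine ⟨_, hj, inf_le_left.trans hqp, max N (j + 1), ?_⟩
      intro k hk i hi
      rcases Nat.lt_succ_iff_lt_or_eq.1 hk with h1 | h1
      · rw [eq_bot_iff, ← hN k h1 i (le_trans (le_max_left _ _) hi)]
        exact inf_le_inf_right _ inf_le_left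
      · subst h1
        have hij : j ≠ i := by
          have := le_trans (le_max_right N (j + 1)) hi
          omega
        rw [eq_bot_iff, ← fnl_num g k hij]
        exact le_inf (inf_le_left.trans (inf_le_left.trans (hqp.trans hpg)))
          (le_inf (inf_le_left.trans inf_le_right) inf_le_right)
    · push Not at h
      refine ⟨q, hq, hqp, N, ?_⟩
      intro k hk i hi
      rcases Nat.lt_succ_iff_lt_or_eq.1 hk with h1 | h1
      · exact hN k h1 i hi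
      · subst h1
        exact h i

theorem bFinite_le (x : BSet 𝔹) : bFinite omegaN x ⊓ (⨅ k, bmem k x ⇨ bmem k omegaN) ≤
    ⨆ n : ℕ, ⨅ k : ℕ, ⨅ _ : n ≤ k, (bmem (num k) x)ᶜ := by
  refine inf_le_left.trans ?_
  unfold bFinite
  have hE : Ext1 (fun m : BSet 𝔹 => ⨆ g, (⨅ k, ⨅ y, ⨅ z, bPM k y g ⇨ bPM k z g ⇨ beq y z) ⊓
    ⨅ t, bmem t x ⇨ ⨆ k, bmem k m ⊓ bPM k t g) := by
    refine Ext1.iSup fun g => (Ext1.const _).inf (Ext1.iInf fun t => ?_)
    exact (Ext1.const _).himp (Ext1.iSup fun k => (ext1_bmem_right k).inf (Ext1.const _))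
  rw [bex_omega hE]
  refine iSup_le fun n => iSup_le fun g => ?_
  refine le_of_dense fun p hp hpg => ?_
  obtain ⟨q, hq, hqp, N, hN⟩ := decide_bdd g n hp (hpg.trans inf_le_left)
  refine ⟨q, hq, hqp, le_iSup_of_le N (le_iInf fun j => le_iInf fun hj => ?_)⟩
  rw [le_compl_iff_disjoint_right, disjoint_iff, eq_bot_iff]
  have h1 : q ⊓ bmem (num j) x ≤ ⨆ k, bmem k (num n) ⊓ bPM k (num j) g := by
    rw [← le_himp_iff]
    exact (hqp.trans hpg).trans (inf_le_right.trans (iInf_le _ (num j)))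
  have h2 : (⨆ k, bmem k (num n) ⊓ bPM k (num j) g) ≤ ⨆ k : ℕ, ⨆ _ : k < n, bPM (num k) (num j) g := by
    refine iSup_le fun k => ?_
    rw [bmem_num, iSup_inf_eq]
    refine iSup_mono fun i => ?_
    rw [iSup_inf_eq]
    refine iSup_mono fun _ => ?_
    exact ext1_bPM1 (num j) g k (num i)
  have h3 : q ⊓ bmem (num j) x ≤ q ⊓ ⨆ k : ℕ, ⨆ _ : k < n, bPM (num k) (num j) g :=
    le_inf inf_le_left (h1.trans h2)
  refine h3.trans ?_
  rw [inf_iSup_eq]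
  refine iSup_le fun k => ?_
  rw [inf_iSup_eq]
  refine iSup_le fun hk => ?_
  rw [hN k hk j hj]

theorem le_bFinite (x : BSet 𝔹) : (⨅ k, bmem k x ⇨ bmem k omegaN) ⊓
    (⨆ n : ℕ, ⨅ k : ℕ, ⨅ _ : n ≤ k, (bmem (num k) x)ᶜ) ≤ bFinite omegaN x := by
  rw [inf_iSup_eq]
  refine iSup_le fun n => ?_
  refine SH.bFinite_of_list (fun j : Fin n => num j.1) x fun t => ?_
  have h1 : (⨅ k, bmem k x ⇨ bmem k omegaN) ⊓ bmem t x ≤ ⨆ m : ℕ, beq t (num m) := by
    rw [← bmem_omegaN, ← le_himp_iff]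
    exact iInf_le _ t
  have h2 : (⨅ k, bmem k x ⇨ bmem k omegaN) ⊓ (⨅ k : ℕ, ⨅ _ : n ≤ k, (bmem (num k) x)ᶜ) ⊓
      bmem t x ≤ ((⨅ k : ℕ, ⨅ _ : n ≤ k, (bmem (num k) x)ᶜ) ⊓ bmem t x) ⊓
        ⨆ m : ℕ, beq t (num m) := by
    refine le_inf (inf_le_inf_right _ inf_le_right) ?_
    exact (inf_le_inf_right _ inf_le_left).trans h1
  refine h2.trans ?_
  rw [inf_iSup_eq]
  refine iSup_le fun m => ?_
  by_cases hm : m < n
  · exact inf_le_right.trans (le_iSup (fun j : Fin n => beq t (num j.1)) ⟨m, hm⟩)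
  · have h3 : ((⨅ k : ℕ, ⨅ _ : n ≤ k, (bmem (num k) x)ᶜ) ⊓ bmem t x) ⊓ beq t (num m) ≤
        (bmem (num m) x)ᶜ ⊓ bmem (num m) x := by
      refine le_inf ?_ ?_
      · exact (inf_le_left.trans inf_le_left).trans (iInf₂_le m (not_lt.1 hm))
      · refine le_trans ?_ (bmem_congr_left t (num m) x)
        exact le_inf inf_le_right (inf_le_left.trans inf_le_right)
    rw [compl_inf_self] at h3
    exact h3.trans bot_le

end Pool.Agent.QPt
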