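import Pool.Agent.QPt.Seq
import Pool.Agent.QPt.Nbhd

/-!
# A name of a set of natural numbers is, below some condition, infinite or bounded
-/

set_option autoImplicit false
set_option linter.unusedSectionVars false

namespace Pool.Agent.QPt

open Set

variable {I : Type} [LinearOrder I] [WellFoundedLT I]

/-- a name is, below some condition, pointwise infinite or bounded by a constant -/
theorem inf_or_bdd (J : Set I) (hJ : IsLowerSet J) (hCR : CR J) (b : Cond I) (hb : b.w ⊆ J)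
    (N : Pt I → Set ℕ) (hN : Nm b.body b.w N) :
    ∃ b' ≤ b, b'.w ⊆ J ∧ ((∀ x ∈ b'.body, (N x).Infinite) ∨
      ∃ k, ∀ x ∈ b'.body, ∀ m ∈ N x, m < k) := by
  by_cases h : ∃ b' ≤ b, b'.w ⊆ J ∧ ∃ k, ∀ x ∈ b'.body, ∀ m ∈ N x, m < k
  · obtain ⟨b', hb', hw, hk⟩ := h
    exact ⟨b', hb', hw, Or.inr hk⟩
  · push Not at h
    obtain ⟨q, hq, hqw, hr⟩ := CR.reads_seq J hJ hCR
      (fun k => {b' | ∃ m ≥ k, ∀ x ∈ b'.body, m ∈ N x}) b hb
      (by
        rintro k p ⟨m, hm, hp⟩ q hq _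
        exact ⟨m, hm, fun x hx => hp x (hq.2 hx)⟩)
      (by
        intro k q hq hqw
        obtain ⟨x, hx, m, hm, hkm⟩ := h q hq hqw k
        obtain ⟨r, hr, hrc⟩ := exists_nbhd_const q hx ((hN.mono hq.2 hq.1) m)
        refine ⟨r, hr.le, by rw [hr.1]; exact hqw, m, hkm, fun y hy => ?_⟩
        have h1 : (m ∈ N y) = (m ∈ N x) := hrc y hy
        rw [h1]
        exact hm)
    refine ⟨q, hq, hqw, Or.inl fun x hx => ?_⟩
    rw [Set.infinite_iff_exists_gt]
    intro k
    obtain ⟨r, ⟨m, hm, hmem⟩, hrx⟩ := hr (k + 1) x hx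
    exact ⟨m, hmem x hrx.2.1, by omega⟩

/-- a name `M` of a set of natural numbers coloured by finitely many colours: if `M x` is infinite at all
points then below some condition some colour class is infinite at all points -/
theorem inf_color (J : Set I) (hJ : IsLowerSet J) (hCR : CR J) (b : Cond I) (hb : b.w ⊆ J)
    {ι : Type} [Finite ι] (N : ι → Pt I → Set ℕ) (hN : ∀ c, Nm b.body b.w (N c))
    (hinf : ∀ x ∈ b.body, (⋃ c, N c x).Infinite) :
    ∃ b' ≤ b, b'.w ⊆ J ∧ ∃ c, ∀ x ∈ b'.body, (N c x).Infinite := by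
  classical
  have key : ∀ s : Finset ι, ∃ b' ≤ b, b'.w ⊆ J ∧ ((∃ c, ∀ x ∈ b'.body, (N c x).Infinite) ∨
      ∀ c ∈ s, ∃ k, ∀ x ∈ b'.body, ∀ m ∈ N c x, m < k) := by
    intro s
    induction s using Finset.induction_on with
    | empty => exact ⟨b, le_rfl, hb, Or.inr fun c hc => absurd hc (Finset.notMem_empty c)⟩
    | insert a s _ ih =>
      obtain ⟨b1, hb1, hw1, h1⟩ := ih
      rcases h1 with h1 | h1
      · exact ⟨b1, hb1, hw1, Or.inl h1⟩
      · obtain ⟨b2, hb2, hw2, h2⟩ := inf_or_bdd J hJ hCR b1 hw1 (N a) ((hN a).mono hb1.2 hb1.1)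
        refine ⟨b2, hb2.trans hb1, hw2, ?_⟩
        rcases h2 with h2 | h2
        · exact Or.inl ⟨a, h2⟩
        · refine Or.inr fun c hc => ?_
          rcases Finset.mem_insert.1 hc with rfl | hc
          · exact h2
          · obtain ⟨k, hk⟩ := h1 c hc
            exact ⟨k, fun x hx => hk x (hb2.2 hx)⟩
  have := Fintype.ofFinite ι
  obtain ⟨b', hb', hw', h | h⟩ := key Finset.univ
  · exact ⟨b', hb', hw', h⟩
  · exfalso
    obtain ⟨x, hx⟩ := b'.body_nonempty
    refine hinf x (hb'.2 hx) (Set.finite_iUnion fun c => ?_)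
    obtain ⟨k, hk⟩ := h c (Finset.mem_univ c)
    exact (Set.finite_lt_nat k).subset fun m hm => hk x hx m hm

end Pool.Agent.QPt
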