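import Pool.Agent.QPt.CRMain
import Pool.Agent.QPt.Inf

/-!
# The set of columns on which a name is finite (module FR)
-/

set_option autoImplicit false
set_option linter.unusedSectionVars false

namespace Pool.Agent.QPt

open Set

variable {I : Type} [LinearOrder I] [WellFoundedLT I]

/-- below some condition with support in `J`, the set of columns in which `D` is finite has a name -/
theorem fin_read (J : Set I) (hJ : IsLowerSet J) (b : Cond I) (hb : b.w ⊆ J) (D : Pt I → Set ℕ)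
    (hD : Nm b.body b.w D) :
    ∃ b' ≤ b, b'.w ⊆ J ∧ ∃ T : Pt I → Set ℕ, Nm b'.body b'.w T ∧
      ∀ x ∈ b'.body, ∀ n, n ∈ T x ↔ {m | m ∈ D x ∧ lam m = n}.Finite := by
  have hCR : CR J := cr_all J hJ
  let E : ℕ → Set (Cond I) := fun n => {q | (∀ x ∈ q.body, {m | m ∈ D x ∧ lam m = n}.Infinite) ∨
    ∃ k, ∀ x ∈ q.body, ∀ m ∈ {m | m ∈ D x ∧ lam m = n}, m < k}
  have hopen : ∀ n, OpenIn J (E n) := by
    intro n p hp q hq _
    rcases hp with h | ⟨k, h⟩
    · exact Or.inl fun x hx => h x (hq.2 hx)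
    · exact Or.inr ⟨k, fun x hx => h x (hq.2 hx)⟩
  have hdense : ∀ n, DenseIn J (E n) b := by
    intro n q hq hqJ
    have hN : Nm q.body q.w (fun x => {m | m ∈ D x ∧ lam m = n}) :=
      (hD.mono hq.2 hq.1).inter (Nm.const {m | lam m = n})
    obtain ⟨q', hq', hqJ', h⟩ := inf_or_bdd J hJ hCR q hqJ _ hN
    exact ⟨q', hq', hqJ', h⟩
  obtain ⟨q, hqb, hqJ, hq⟩ := CR.reads_seq J hJ hCR E b hb hopen hdense
  refine ⟨q, hqb, hqJ, fun x => {n | {m | m ∈ D x ∧ lam m = n}.Finite}, ?_, fun x _ n => Iff.rfl⟩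
  intro n x hx
  obtain ⟨r, hr, -, hxr, -, F, hF, m, hm⟩ := hq n x hx
  refine ⟨F, hF, m, fun y hy ha => ?_⟩
  have hyr := hm y hy ha
  have key : ∀ {k : ℕ} {z : Pt I}, (∀ m ∈ {m | m ∈ D z ∧ lam m = n}, m < k) →
      {m | m ∈ D z ∧ lam m = n}.Finite := fun {k z} h => (finite_lt_nat k).subset h
  apply propext
  rcases hr with h | ⟨k, h⟩
  · exact ⟨fun h1 => absurd h1 (h y hyr), fun h1 => absurd h1 (h x hxr)⟩
  · exact ⟨fun _ => key (h x hxr), fun _ => key (h y hyr)⟩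

end Pool.Agent.QPt
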