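import Pool.Agent.QPt.Points

/-!
# Limits of fusion sequences (module FL of MP_04bc06_lc)
-/

set_option autoImplicit false
set_option linter.unusedSectionVars false
set_option linter.unusedVariables false

namespace Pool.Agent.QPt

open Set

variable {I : Type} [LinearOrder I] [WellFoundedLT I]

namespace FusionLim

section

variable (p : ℕ → Cond I) (F : ℕ → Finset I) (n : ℕ → ℕ)

open Classical in
/-- the first stage at which `β` is fixed -/
noncomputable def k0 (β : I) : ℕ := if h : ∃ k, β ∈ F k then Nat.find h else 0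

theorem k0_spec {β : I} (h : ∃ k, β ∈ F k) : β ∈ F (k0 F β) := by
  classical
  rw [k0, dif_pos h]
  exact Nat.find_spec h

theorem k0_le {β : I} {j : ℕ} (h : β ∈ F j) : k0 F β ≤ j := by
  classical
  rw [k0, dif_pos ⟨j, h⟩]
  exact Nat.find_min' _ h

/-- the data of the limit -/
noncomputable def lim : Pre I where
  w := ⋃ j, (p j).w
  s := fun β => (p (k0 F β)).s β
  y := fun β x i => (p (max (k0 F β) (i + 1))).y β x i

variable {p F n}

theorem anti (hp : ∀ j, Pure (F j : Set I) (n j) (p (j + 1)) (p j)) {j m : ℕ} (h : j ≤ m) :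
    p m ≤ p j := by
  induction m, h using Nat.le_induction with
  | base => exact le_rfl
  | succ m _ ih => exact (hp m).1.trans ih

theorem stab_s (hFm : Monotone F) (hp : ∀ j, Pure (F j : Set I) (n j) (p (j + 1)) (p j)) {β : I}
    {x : Pt I} (hx : ∀ m, x ∈ (p m).dom (Iio β)) {j m : ℕ} (hj : β ∈ F j) (h : j ≤ m) :
    (p m).s β x = (p j).s β x := by
  induction m, h using Nat.le_induction with
  | base => rfl
  | succ m hm ih =>
    rw [← ih]
    exact ((hp m).2 β (hFm hm hj) x (hx _)).1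

theorem stab_y (hFm : Monotone F) (hn : StrictMono n)
    (hp : ∀ j, Pure (F j : Set I) (n j) (p (j + 1)) (p j)) {β : I}
    {x : Pt I} (hx : ∀ m, x ∈ (p m).dom (Iio β)) {j m : ℕ} (hj : β ∈ F j) (h : j ≤ m) {i : ℕ}
    (hi : i < n j) : (p m).y β x i = (p j).y β x i := by
  induction m, h using Nat.le_induction with
  | base => rfl
  | succ m hm ih =>
    rw [← ih]
    exact ((hp m).2 β (hFm hm hj) x (hx _)).2 i (hi.trans_le (hn.monotone hm))

theorem lim_y (hFm : Monotone F) (hn : StrictMono n)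
    (hp : ∀ j, Pure (F j : Set I) (n j) (p (j + 1)) (p j)) {β : I}
    {x : Pt I} (hx : ∀ m, x ∈ (p m).dom (Iio β)) {j : ℕ} (hj : β ∈ F j) {i : ℕ}
    (hi : i < n j) : (lim p F).y β x i = (p j).y β x i := by
  have h0 : β ∈ F (k0 F β) := k0_spec F ⟨j, hj⟩
  have h1 : β ∈ F (max (k0 F β) (i + 1)) := hFm (le_max_left _ _) h0
  have h2 : i < n (max (k0 F β) (i + 1)) :=
    lt_of_lt_of_le (Nat.lt_succ_self i) ((le_max_right (k0 F β) (i + 1)).trans hn.le_apply)
  have h3 := stab_y hFm hn hp hx h1 (le_max_left (max (k0 F β) (i + 1)) j) h2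
  have h4 := stab_y hFm hn hp hx hj (le_max_right (max (k0 F β) (i + 1)) j) hi
  show (p (max (k0 F β) (i + 1))).y β x i = _
  rw [← h3, h4]

theorem lim_s (hFm : Monotone F)
    (hp : ∀ j, Pure (F j : Set I) (n j) (p (j + 1)) (p j)) {β : I}
    {x : Pt I} (hx : ∀ m, x ∈ (p m).dom (Iio β)) {j : ℕ} (hj : β ∈ F j) :
    (lim p F).s β x = (p j).s β x := by
  have h0 : β ∈ F (k0 F β) := k0_spec F ⟨j, hj⟩
  exact (stab_s hFm hp hx h0 (k0_le F hj)).symm

theorem lim_K (hFm : Monotone F) (hn : StrictMono n)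
    (hp : ∀ j, Pure (F j : Set I) (n j) (p (j + 1)) (p j)) {β : I}
    (hβ : ∃ k, β ∈ F k) (hw : ∀ j, β ∈ F j → β ∈ (p j).w)
    {x : Pt I} (hx : ∀ m, x ∈ (p m).dom (Iio β)) : (lim p F).y β x ∈ K := by
  have h0 : β ∈ F (k0 F β) := k0_spec F hβ
  have h1 : ∀ i, ∃ j, β ∈ F j ∧ i < n j := fun i =>
    ⟨max (k0 F β) (i + 1), hFm (le_max_left _ _) h0,
      lt_of_lt_of_le (Nat.lt_succ_self i) ((le_max_right (k0 F β) (i + 1)).trans hn.le_apply)⟩
  constructor
  · refine strictMono_nat_of_lt_succ fun i => ?_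
    obtain ⟨j, hj, hij⟩ := h1 (i + 1)
    rw [lim_y hFm hn hp hx hj hij, lim_y hFm hn hp hx hj ((Nat.lt_succ_self i).trans hij)]
    exact ((p j).hK β (hw j hj) x (hx j)).1 (Nat.lt_succ_self i)
  · intro i
    obtain ⟨j, hj, hij⟩ := h1 i
    rw [lim_y hFm hn hp hx hj hij]
    exact ((p j).hK β (hw j hj) x (hx j)).2 i

/-- the main step -/
theorem key (hF : ∀ j, (F j : Set I) ⊆ (p j).w) (hFm : Monotone F)
    (hFc : ∀ j, ∀ β ∈ (p j).w, ∃ k, β ∈ F k) (hn : StrictMono n)
    (hp : ∀ j, Pure (F j : Set I) (n j) (p (j + 1)) (p j)) {γ : I} {x : Pt I}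
    (hx : ∀ m, x ∈ (p m).dom (Iio γ)) (hz : x γ ∈ Fib ((lim p F).s γ x) ((lim p F).y γ x))
    (j : ℕ) (hγ : γ ∈ (p j).w) : x γ ∈ Fib ((p j).s γ x) ((p j).y γ x) := by
  refine mem_Fib_of_approx fun N0 => ?_
  obtain ⟨k, hk⟩ := hFc j γ hγ
  set z := x γ with hzd
  set N := max N0 ((lim p F).s γ x).length with hN
  set m := max (max j k) (z N + 1) with hm
  have hkm : γ ∈ F m := hFm ((le_max_right j k).trans (le_max_left _ _)) hk
  have hs : (lim p F).s γ x = (p m).s γ x := lim_s hFm hp hx hkm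
  have hγm : γ ∈ (p m).w := hF m hkm
  have hKm := (p m).hK γ hγm x (hx m)
  have hKl := lim_K hFm hn hp ⟨k, hk⟩ (fun j hj => hF j hj) hx
  have hr : ∀ i, ((p m).s γ x).length ≤ i → i < N → z i ∈ range ((p m).y γ x) := by
    intro i hi1 hi2
    obtain ⟨l, hl⟩ := hz.2.2 i (by rw [hs]; exact hi1)
    have hl1 : l ≤ z i := by rw [← hl]; exact K_le hKl l
    have hl2 : l < n m := by
      have h1 : z i < z N := hz.1.1 hi2
      have h2 : z N + 1 ≤ m := le_max_right _ _
      have h3 : m ≤ n m := hn.le_apply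
      omega
    rw [lim_y hFm hn hp hx hkm hl2] at hl
    exact ⟨l, hl⟩
  have hst : IsStem (pre z N) := isStem_pre hz.1 N
  have h1 := zm_mem_Fib hst hKm
  have hlen : ((p m).s γ x).length ≤ N := by rw [← hs]; exact le_max_right _ _
  have hpre : (p m).s γ x <+: pre z N := by
    have h2 := Branch.pre_prefix z hlen
    rw [← hs, hz.2.1, hs] at h2
    exact h2
  obtain ⟨t, ht⟩ := hpre
  have h3 : zm (pre z N) (range ((p m).y γ x)) ∈ Fib ((p m).s γ x) ((p m).y γ x) := by
    have h4 : zm (pre z N) (range ((p m).y γ x)) ∈ Fib ((p m).s γ x ++ t) ((p m).y γ x) := by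
      rw [ht]; exact h1
    refine mem_Fib_append h4 fun a ha => ?_
    obtain ⟨i, hi, rfl⟩ := List.getElem_of_mem ha
    have h5 : t[i] = (pre z N).getD (((p m).s γ x).length + i) 0 := by
      rw [← ht, List.getD_append_right _ _ _ _ (Nat.le_add_right _ _),
        Nat.add_sub_cancel_left, List.getD_eq_getElem _ _ hi]
    have h6 : ((p m).s γ x).length + i < N := by
      have h7 : (((p m).s γ x) ++ t).length = N := by rw [ht, length_pre]
      rw [List.length_append] at h7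
      omega
    rw [h5, pre_getD _ _ _ h6]
    exact hr _ (Nat.le_add_right _ _) h6
  refine ⟨_, Cond.Fib_mono (anti hp ((le_max_left j k).trans (le_max_left _ _))) hγ (hx m) h3, ?_⟩
  intro i hi
  have h8 := h1.2.1
  rw [length_pre, pre_eq_iff] at h8
  exact h8 i (hi.trans_le (le_max_left _ _))

theorem dom_sub (hF : ∀ j, (F j : Set I) ⊆ (p j).w) (hFm : Monotone F)
    (hFc : ∀ j, ∀ β ∈ (p j).w, ∃ k, β ∈ F k) (hn : StrictMono n)
    (hp : ∀ j, Pure (F j : Set I) (n j) (p (j + 1)) (p j)) (β : I) :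
    ∀ x ∈ (lim p F).dom (Iio β), ∀ m, x ∈ (p m).dom (Iio β) := by
  induction β using (wellFounded_lt (α := I)).induction with
  | _ β ih =>
    intro x hx m γ hγ hγβ
    have hx' : x ∈ (lim p F).dom (Iio γ) := fun δ hδ hδγ => hx δ hδ (lt_trans hδγ hγβ)
    exact key hF hFm hFc hn hp (ih γ hγβ x hx') (hx γ (mem_iUnion.2 ⟨m, hγ⟩) hγβ) m hγ

end

end FusionLim

open FusionLim in
theorem fusion_limit (p : ℕ → Cond I) (F : ℕ → Finset I) (n : ℕ → ℕ)
    (hF : ∀ j, (F j : Set I) ⊆ (p j).w) (hFm : Monotone F)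
    (hFc : ∀ j, ∀ β ∈ (p j).w, ∃ k, β ∈ F k) (hn : StrictMono n)
    (hp : ∀ j, Pure (F j : Set I) (n j) (p (j + 1)) (p j)) :
    ∃ q : Cond I, (q.w = ⋃ j, (p j).w) ∧ ∀ j, Pure (F j : Set I) (n j) q (p j) := by
  have hdom := dom_sub hF hFm hFc hn hp
  have hex : ∀ β ∈ (lim p F).w, ∃ k, β ∈ F k := by
    intro β hβ
    obtain ⟨j, hj⟩ := mem_iUnion.1 hβ
    exact hFc j β hj
  have hw : ∀ m β, β ∈ (p m).w → β ∈ (lim p F).w := fun m β h => mem_iUnion.2 ⟨m, h⟩
  have hwF : ∀ β j, β ∈ F j → β ∈ (p j).w := fun β j h => hF j h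
  let q : Cond I :=
    { toPre := lim p F
      ctbl := countable_iUnion fun j => (p j).ctbl
      hs := by
        intro β hβ
        have h0 := hwF β _ (k0_spec F (hex β hβ))
        exact ((p (k0 F β)).hs β h0).mono (fun x hx => hdom β x hx _)
          (fun γ hγ => ⟨hw _ γ hγ.1, hγ.2⟩)
      hy := by
        intro β hβ i
        have h0 := k0_spec F (hex β hβ)
        have h1 := hwF β _ (hFm (le_max_left _ (i + 1)) h0)
        exact ((p (max (k0 F β) (i + 1))).hy β h1 i).mono (fun x hx => hdom β x hx _)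
          (fun γ hγ => ⟨hw _ γ hγ.1, hγ.2⟩)
      hS := by
        intro β hβ x hx
        have h0 := hwF β _ (k0_spec F (hex β hβ))
        exact (p (k0 F β)).hS β h0 x (hdom β x hx _)
      hK := by
        intro β hβ x hx
        exact lim_K hFm hn hp (hex β hβ) (hwF β) (hdom β x hx) }
  refine ⟨q, rfl, fun j => ⟨⟨hw j, ?_⟩, ?_⟩⟩
  · intro x hx γ hγ _
    have hx' : x ∈ (lim p F).dom (Iio γ) := fun δ hδ _ => hx δ hδ (mem_univ _)
    exact key hF hFm hFc hn hp (hdom γ x hx') (hx γ (hw j γ hγ) (mem_univ _)) j hγ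
  · intro β hβ x hx
    exact ⟨lim_s hFm hp (hdom β x hx) hβ, fun i hi => lim_y hFm hn hp (hdom β x hx) hβ hi⟩

end Pool.Agent.QPt
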