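import Pool.Agent.QPt.Defs
import Pool.Agent.MP_b1d3ea_lc.RO

/-!
# Module IX: the index set, the Boolean algebra, the trivial condition
-/

set_option autoImplicit false
set_option linter.unusedSectionVars false

namespace Pool.Agent.QPt

open Set

/-- A well-order of length the successor of the continuum. -/
theorem exists_index_set : ∃ (I : Type) (_ : LinearOrder I) (_ : WellFoundedLT I) (_ : Nonempty I),
    (∀ S : Set I, Cardinal.mk S ≤ Cardinal.continuum → ∃ β, ∀ γ ∈ S, γ < β) ∧
    ∀ β : I, Cardinal.mk (Iio β) ≤ Cardinal.continuum := by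
  set κ : Cardinal.{0} := Order.succ Cardinal.continuum with hκ
  have hreg : κ.IsRegular := Cardinal.isRegular_succ Cardinal.aleph0_le_continuum
  have hcont : Cardinal.continuum < κ := Order.lt_succ _
  have hne : κ.ord ≠ 0 := by
    intro h
    rw [Cardinal.ord_eq_zero] at h
    rw [h] at hcont
    exact absurd hcont (not_lt.2 bot_le)
  refine ⟨κ.ord.ToType, inferInstance, inferInstance, ?_, ?_, ?_⟩
  · exact Ordinal.nonempty_toType_iff.2 hne
  · intro S hS
    by_contra hcon
    push Not at hcon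
    have hcof : IsCofinal S := by
      intro β
      obtain ⟨γ, hγ, hle⟩ := hcon β
      exact ⟨γ, hγ, hle⟩
    have h1 := Order.cof_le hcof
    rw [Ordinal.cof_toType, hreg.cof_ord] at h1
    exact absurd (h1.trans hS) (not_le.2 hcont)
  · intro β
    exact Order.lt_succ_iff.1 (Cardinal.mk_Iio_toType_ord_lt β)

/-- The regular open algebra. -/
theorem exists_DEmb (P : Type) [Preorder P] : ∃ (𝔹 : Type) (_ : CompleteBooleanAlgebra 𝔹),
    Nonempty (DEmb P 𝔹) := by
  obtain ⟨𝔹, i1, e, h1, h2, h3, h4⟩ := Pool.Agent.StarHur.exists_RO P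
  exact ⟨𝔹, i1, ⟨⟨e, h1, h2, h3, h4⟩⟩⟩

/-- The trivial condition. -/
theorem nonempty_Cond2 {I : Type} [LinearOrder I] (W : WName I) : Nonempty (Cond2 W) := by
  refine ⟨⟨⟨⟨∅, fun _ _ => [], fun _ _ n => n⟩, countable_empty, ?_, ?_, ?_, ?_⟩, fun _ => univ, ?_, ?_⟩⟩
  · exact fun β hβ => absurd hβ (notMem_empty β)
  · exact fun β hβ => absurd hβ (notMem_empty β)
  · exact fun β hβ => absurd hβ (notMem_empty β)
  · exact fun β hβ => absurd hβ (notMem_empty β)
  · exact fun m x _ => ⟨∅, by simp, 0, fun _ _ _ => rfl⟩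
  · intro x _ n N
    refine ⟨Nat.pair n N, mem_univ _, Nat.right_le_pair n N, ?_⟩
    rw [lam, Nat.unpair_pair]

end Pool.Agent.QPt
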