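import Pool.Agent.QPt.Glue
import Pool.Agent.QPt.Nbhd
import Pool.Agent.QPt.Reads

/-!
# Module LIFT: reading a dense set with an index depending only on the lower coordinates
-/

set_option autoImplicit false
set_option linter.unusedSectionVars false
set_option linter.unusedVariables false

namespace Pool.Agent.QPt

open Set

variable {I : Type} [LinearOrder I] [WellFoundedLT I]

theorem lift (J L : Set I) (hJ : IsLowerSet J) (hJL : J ⊆ L) (hCR : CR J) (p : Cond I) (hpL : p.w ⊆ L)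
    (D : Set (Cond I))
    (hD : ∀ a : Cond I, a.w ⊆ J → a ≤ p.res J hJ → ∃ q ∈ D, q.w ⊆ L ∧ q ≤ p ∧ q.res J hJ ≤ a)
    (F : Finset I) (hF : (F : Set I) ⊆ p.w) (hFJ : (F : Set I) ⊆ J) (n : ℕ) :
    ∃ (q : Cond I) (P : Pt I → Cond I), q.w ⊆ L ∧ Pure (F : Set I) n q p ∧
      LC (q.dom J) (q.w ∩ J) P ∧
      (∀ x ∈ q.dom J, P x ∈ D ∧ P x ≤ p ∧ x ∈ (P x).dom J) ∧
      (∀ x ∈ q.dom J, ∀ β ∈ (P x).w, β ∉ J → q.s β x = (P x).s β x ∧ q.y β x = (P x).y β x) ∧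
      ∀ x ∈ q.body, x ∈ (P x).body ∧ ∃ r, OpenRes r q x ∧ r ≤ P x := by
  classical
  have : Nonempty (Cond I) := ⟨p⟩
  set DJ : Set (Cond I) := {a | a.w ⊆ J ∧ ∃ d ∈ D, d.w ⊆ L ∧ d ≤ p ∧ a ≤ d.res J hJ} with hDJ
  have hopen : OpenIn J DJ := by
    rintro a ⟨haJ, d, hd, hdL, hdp, had⟩ a' ha' ha'J
    exact ⟨ha'J, d, hd, hdL, hdp, ha'.trans had⟩
  have hpJ : (p.res J hJ).w ⊆ J := inter_subset_right
  have hdense : DenseIn J DJ (p.res J hJ) := by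
    intro a ha haJ
    obtain ⟨d, hd, hdL, hdp, hda⟩ := hD a haJ ha
    exact ⟨d.res J hJ, hda, inter_subset_right, inter_subset_right, d, hd, hdL, hdp, le_rfl⟩
  obtain ⟨a, haJ, hpure, hread⟩ := hCR DJ (p.res J hJ) F n hpJ hopen hdense
    (fun γ hγ => ⟨hF hγ, hFJ hγ⟩)
  obtain ⟨P, hPLC, hP⟩ := exists_index (q := a)
    (S := fun r d => d ∈ D ∧ d.w ⊆ L ∧ d ≤ p ∧ r ≤ d.res J hJ)
    (fun r r' d h hr' _ => ⟨h.1, h.2.1, h.2.2.1, hr'.trans h.2.2.2⟩)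
    (by
      intro x hx
      obtain ⟨r, ⟨_, d, hd, hdL, hdp, hrd⟩, hr⟩ := hread x hx
      exact ⟨r, d, hr, hd, hdL, hdp, hrd⟩)
  have hPx : ∀ x ∈ a.body, P x ∈ D ∧ (P x).w ⊆ L ∧ P x ≤ p ∧ (P x).w ∩ J ⊆ a.w ∧ x ∈ (P x).dom J := by
    intro x hx
    obtain ⟨r, hr, ⟨h1, h2, h3, h4⟩, -⟩ := hP x hx
    refine ⟨h1, h2, h3, ?_, ?_⟩
    · rw [← hr.1]
      exact h4.1
    · have := h4.2 hr.2.1
      rwa [Cond.res_body] at this
  obtain ⟨q, hqw, hqJ, hqP, hqN, hqa, hqdom, hqbody⟩ := exists_glue J hJ a haJ P hPLC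
    (fun x hx => ⟨(hPx x hx).2.2.2.1, (hPx x hx).2.2.2.2⟩)
  have hqwJ : q.w ∩ J = a.w := by
    ext γ
    rw [hqw]
    constructor
    · rintro ⟨h | h, hγJ⟩
      · exact h
      · simp only [mem_iUnion] at h
        obtain ⟨x, hx, h⟩ := h
        exact absurd hγJ h.2
    · exact fun h => ⟨Or.inl h, haJ h⟩
  have hPw : ∀ x ∈ a.body, (P x).w ⊆ q.w := by
    intro x hx γ hγ
    rw [hqw]
    by_cases hγJ : γ ∈ J
    · exact Or.inl ((hPx x hx).2.2.2.1 ⟨hγ, hγJ⟩)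
    · exact Or.inr (mem_iUnion₂.2 ⟨x, hx, hγ, hγJ⟩)
  have hqp : q ≤ p := by
    obtain ⟨x, hx⟩ := a.body_nonempty
    refine ⟨(hPx x hx).2.2.1.1.trans (hPw x hx), fun y hy => ?_⟩
    obtain ⟨hya, hyP⟩ := hqbody y hy
    exact (hPx y hya).2.2.1.2 hyP
  refine ⟨q, P, ?_, ⟨hqp, ?_⟩, ?_, ?_, ?_, ?_⟩
  · rw [hqw]
    apply union_subset (haJ.trans hJL)
    exact iUnion₂_subset fun x hx => sdiff_subset.trans (hPx x hx).2.1
  · intro β hβ x hx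
    have hβJ := hFJ hβ
    have hxa : x ∈ a.dom (Iio β) := by
      intro γ hγ hγβ
      have hγJ : γ ∈ J := haJ hγ
      have h1 := hx γ (by rw [hqw]; exact Or.inl hγ) hγβ
      rwa [(hqJ γ hγJ).1, (hqJ γ hγJ).2] at h1
    have h2 := hpure.2 β hβ x hxa
    rw [(hqJ β hβJ).1, (hqJ β hβJ).2]
    exact h2
  · rw [hqdom, hqwJ]
    exact hPLC
  · rw [hqdom]
    exact fun x hx => ⟨(hPx x hx).1, (hPx x hx).2.2.1, (hPx x hx).2.2.2.2⟩
  · rw [hqdom]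
    exact fun x hx β hβ hβJ => hqP x hx β hβJ hβ
  · intro x hx
    obtain ⟨hxa, hxP⟩ := hqbody x hx
    refine ⟨hxP, ?_⟩
    have hLCq : LC q.body q.w P := by
      refine hPLC.mono (fun y hy => (hqbody y hy).1) ?_
      rw [← hqwJ]
      exact inter_subset_left
    obtain ⟨r, hr, hrc⟩ := exists_nbhd_const q hx hLCq
    refine ⟨r, hr, ?_, ?_⟩
    · rw [hr.1]
      exact hPw x hxa
    · intro y hy
      have := (hqbody y (hr.2.2.1 hy)).2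
      rwa [hrc y hy] at this

end Pool.Agent.QPt
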