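import Pool.Agent.QPt.Branch

/-!
# Locally constant functions (module LC)
-/

set_option autoImplicit false
set_option linter.unusedSectionVars false

namespace Pool.Agent.QPt

open Set

section LC
variable {I : Type} {γ δ : Type*} {C C' : Set (Pt I)} {w w' : Set I}

theorem Agree.refl (F : Set I) (n : ℕ) (x : Pt I) : Agree F n x x := fun _ _ _ _ => rfl
theorem Agree.symm {F : Set I} {n : ℕ} {x y : Pt I} (h : Agree F n x y) : Agree F n y x :=
  fun β hβ i hi => (h β hβ i hi).symm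
theorem Agree.trans {F : Set I} {n : ℕ} {x y z : Pt I} (h : Agree F n x y) (h' : Agree F n y z) :
    Agree F n x z := fun β hβ i hi => (h β hβ i hi).trans (h' β hβ i hi)
theorem Agree.mono {F F' : Set I} {n n' : ℕ} {x y : Pt I} (h : Agree F' n' x y) (hF : F ⊆ F')
    (hn : n ≤ n') : Agree F n x y := fun β hβ i hi => h β (hF hβ) i (lt_of_lt_of_le hi hn)

theorem LC.const (c : γ) : LC C w (fun _ => c) :=
  fun _ _ => ⟨∅, by simp, 0, fun _ _ _ => rfl⟩

theorem LC.comp {f : Pt I → γ} (h : LC C w f) (g : γ → δ) : LC C w (fun x => g (f x)) := by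
  intro x hx
  obtain ⟨F, hF, n, hn⟩ := h x hx
  exact ⟨F, hF, n, fun y hy ha => congrArg g (hn y hy ha)⟩

namespace LocAux

/-- Two finite sets of conditions can be merged. -/
theorem merge {P Q : Pt I → Prop} {x : Pt I}
    (h1 : ∃ F : Finset I, (F : Set I) ⊆ w ∧ ∃ n, ∀ y ∈ C, Agree (F : Set I) n x y → P y)
    (h2 : ∃ F : Finset I, (F : Set I) ⊆ w ∧ ∃ n, ∀ y ∈ C, Agree (F : Set I) n x y → Q y) :
    ∃ F : Finset I, (F : Set I) ⊆ w ∧ ∃ n, ∀ y ∈ C, Agree (F : Set I) n x y → P y ∧ Q y := by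
  classical
  obtain ⟨F, hF, n, hn⟩ := h1
  obtain ⟨F', hF', n', hn'⟩ := h2
  refine ⟨F ∪ F', ?_, max n n', fun y hy ha => ⟨hn y hy ?_, hn' y hy ?_⟩⟩
  · rw [Finset.coe_union]; exact union_subset hF hF'
  · exact ha.mono (by simp) (le_max_left _ _)
  · exact ha.mono (by simp) (le_max_right _ _)

end LocAux

theorem LC.prod {f : Pt I → γ} {g : Pt I → δ} (hf : LC C w f) (hg : LC C w g) :
    LC C w (fun x => (f x, g x)) := by
  intro x hx
  obtain ⟨F, hF, n, hn⟩ := LocAux.merge (hf x hx) (hg x hx)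
  exact ⟨F, hF, n, fun y hy ha => Prod.ext (hn y hy ha).1 (hn y hy ha).2⟩

theorem LC.congr {f g : Pt I → γ} (h : LC C w f) (hfg : ∀ x ∈ C, g x = f x) : LC C w g := by
  intro x hx
  obtain ⟨F, hF, n, hn⟩ := h x hx
  exact ⟨F, hF, n, fun y hy ha => by rw [hfg y hy, hfg x hx, hn y hy ha]⟩

theorem LC.coord {β : I} (hβ : β ∈ w) (i : ℕ) : LC C w (fun x : Pt I => x β i) := by
  intro x _
  refine ⟨{β}, by simpa using hβ, i + 1, fun y _ ha => ?_⟩
  exact (ha β (by simp) i (Nat.lt_succ_self i)).symm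

/-- finitely many locally constant functions -/
theorem LC.finset {ι : Type*} (s : Finset ι) {f : ι → Pt I → γ} (h : ∀ i ∈ s, LC C w (f i)) :
    ∀ x ∈ C, ∃ F : Finset I, (F : Set I) ⊆ w ∧ ∃ n, ∀ y ∈ C, Agree (F : Set I) n x y →
      ∀ i ∈ s, f i y = f i x := by
  classical
  intro x hx
  induction s using Finset.induction_on with
  | empty => exact ⟨∅, by simp, 0, fun _ _ _ i hi => absurd hi (by simp)⟩
  | insert a s has ih =>
    have h1 := h a (Finset.mem_insert_self a s) x hx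
    have h2 := ih fun i hi => h i (Finset.mem_insert_of_mem hi)
    obtain ⟨F, hF, n, hn⟩ := LocAux.merge h1 h2
    refine ⟨F, hF, n, fun y hy ha i hi => ?_⟩
    obtain ⟨h3, h4⟩ := hn y hy ha
    rcases Finset.mem_insert.1 hi with rfl | hi
    · exact h3
    · exact h4 i hi

/-- diagonal: a family of locally constant functions indexed by a locally constant function -/
theorem LC.diag {ι : Type*} {g : Pt I → ι} {f : ι → Pt I → γ} (hg : LC C w g)
    (h : ∀ x ∈ C, LC C w (f (g x))) : LC C w (fun x => f (g x) x) := by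
  intro x hx
  obtain ⟨F, hF, n, hn⟩ := LocAux.merge (hg x hx) (h x hx x hx)
  refine ⟨F, hF, n, fun y hy ha => ?_⟩
  obtain ⟨h1, h2⟩ := hn y hy ha
  change f (g y) y = f (g x) x
  rw [h1, h2]

/-- a function which is locally equal to a locally constant function -/
theorem LC.local {f : Pt I → γ} (h : ∀ x ∈ C, ∃ F : Finset I, (F : Set I) ⊆ w ∧ ∃ n, ∃ g : Pt I → γ,
    LC {y | y ∈ C ∧ Agree (F : Set I) n x y} w g ∧ ∀ y ∈ C, Agree (F : Set I) n x y → f y = g y) :
    LC C w f := by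
  classical
  intro x hx
  obtain ⟨F, hF, n, g, hg, hfg⟩ := h x hx
  obtain ⟨F', hF', n', hn'⟩ := hg x ⟨hx, Agree.refl _ _ _⟩
  refine ⟨F ∪ F', ?_, max n n', fun y hy ha => ?_⟩
  · rw [Finset.coe_union]; exact union_subset hF hF'
  · have h1 : Agree (F : Set I) n x y := ha.mono (by simp) (le_max_left _ _)
    have h2 : Agree (F' : Set I) n' x y := ha.mono (by simp) (le_max_right _ _)
    rw [hfg y hy h1, hfg x hx (Agree.refl _ _ _)]
    exact hn' y ⟨hy, h1⟩ h2

/-- locally constant functions depend only on the coordinates in `w` -/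
theorem LC.eq_of_agree {f : Pt I → γ} (h : LC C w f) {x y : Pt I} (hx : x ∈ C) (hy : y ∈ C)
    (hxy : ∀ β ∈ w, y β = x β) : f y = f x := by
  obtain ⟨F, hF, n, hn⟩ := h x hx
  exact hn y hy fun β hβ i _ => by rw [hxy β (hF hβ)]

theorem Nm.const (A : Set ℕ) : Nm C w (fun _ => A) := fun _ => LC.const _

theorem Nm.inter {a b : Pt I → Set ℕ} (ha : Nm C w a) (hb : Nm C w b) :
    Nm C w (fun x => a x ∩ b x) := fun m =>
  ((ha m).prod (hb m)).comp (fun q : Prop × Prop => q.1 ∧ q.2)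

theorem Nm.union {a b : Pt I → Set ℕ} (ha : Nm C w a) (hb : Nm C w b) :
    Nm C w (fun x => a x ∪ b x) := fun m =>
  ((ha m).prod (hb m)).comp (fun q : Prop × Prop => q.1 ∨ q.2)

theorem Nm.compl {a : Pt I → Set ℕ} (ha : Nm C w a) : Nm C w (fun x => (a x)ᶜ) := fun m =>
  (ha m).comp (fun q : Prop => ¬ q)

theorem Nm.congr {a b : Pt I → Set ℕ} (h : Nm C w a) (hab : ∀ x ∈ C, b x = a x) : Nm C w b :=
  fun m => (h m).congr fun x hx => by rw [hab x hx]

/-- locally constant functions of finitely much of a name -/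
theorem LC.of_Nm {a : Pt I → Set ℕ} {f : Pt I → γ} (ha : Nm C w a)
    (h : ∀ x ∈ C, ∃ N, ∀ y ∈ C, (∀ k < N, (k ∈ a y ↔ k ∈ a x)) → f y = f x) :
    LC C w f := by
  intro x hx
  obtain ⟨N, hN⟩ := h x hx
  obtain ⟨F, hF, n, hn⟩ := LC.finset (Finset.range N) (f := fun k x => k ∈ a x)
    (fun k _ => ha k) x hx
  refine ⟨F, hF, n, fun y hy hag => hN y hy fun k hk => ?_⟩
  exact iff_of_eq (hn y hy hag k (Finset.mem_range.2 hk))

/-- a set of natural numbers which depends locally on finitely much of another name -/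
theorem Nm.of_local {a b : Pt I → Set ℕ} (ha : Nm C w a)
    (h : ∀ x ∈ C, ∀ m, ∃ N, ∀ y ∈ C, (∀ k < N, (k ∈ a y ↔ k ∈ a x)) → (m ∈ b y ↔ m ∈ b x)) :
    Nm C w b := by
  intro m
  refine LC.of_Nm ha fun x hx => ?_
  obtain ⟨N, hN⟩ := h x hx m
  exact ⟨N, fun y hy hk => propext (hN y hy hk)⟩

/-- the range of a branch name -/
theorem Nm.range {Y : Pt I → ℕ → ℕ} (hY : ∀ i, LC C w (fun x => Y x i)) (hK : ∀ x ∈ C, Y x ∈ K) :
    Nm C w (fun x => range (Y x)) := by
  intro m x hx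
  obtain ⟨F, hF, n, hn⟩ := LC.finset (Finset.range (m + 1)) (f := fun i x => Y x i)
    (fun i _ => hY i) x hx
  refine ⟨F, hF, n, fun y hy ha => ?_⟩
  have h1 := hn y hy ha
  have key : ∀ z ∈ C, (m ∈ Set.range (Y z) ↔ ∃ i ∈ Finset.range (m + 1), Y z i = m) := by
    intro z hz
    constructor
    · rintro ⟨i, hi⟩
      refine ⟨i, Finset.mem_range.2 (Nat.lt_succ_of_le ?_), hi⟩
      have := K_le (hK z hz) i
      omega
    · rintro ⟨i, _, hi⟩
      exact ⟨i, hi⟩
  apply propext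
  change m ∈ Set.range (Y y) ↔ m ∈ Set.range (Y x)
  rw [key y hy, key x hx]
  constructor
  · rintro ⟨i, hi, h2⟩
    exact ⟨i, hi, by rw [← h1 i hi]; exact h2⟩
  · rintro ⟨i, hi, h2⟩
    exact ⟨i, hi, by rw [h1 i hi]; exact h2⟩

theorem Nm.tail {a : Pt I → Set ℕ} (ha : Nm C w a) {f : Pt I → ℕ} (hf : LC C w f) :
    Nm C w (fun x => {m | m ∈ a x ∧ f x < m}) := fun m =>
  ((ha m).prod hf).comp (fun q : Prop × ℕ => q.1 ∧ q.2 < m)

namespace LocAux

theorem nxt_local {A B : Set ℕ} (hA : Fat A) (L n : ℕ)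
    (h : ∀ k < nxt A L n + 1, (k ∈ B ↔ k ∈ A)) : nxt B L n = nxt A L n := by
  obtain ⟨h1, h2, h3⟩ := nxt_spec hA L n
  have hB : nxt A L n ∈ {a | a ∈ B ∧ L ≤ a ∧ lam a = n} :=
    ⟨(h _ (Nat.lt_succ_self _)).2 h1, h2, h3⟩
  have h4 : nxt B L n ≤ nxt A L n := Nat.sInf_le hB
  have h5 : nxt B L n ∈ {a | a ∈ B ∧ L ≤ a ∧ lam a = n} := Nat.sInf_mem ⟨_, hB⟩
  refine le_antisymm h4 ?_
  have h6 : nxt B L n ∈ {a | a ∈ A ∧ L ≤ a ∧ lam a = n} :=
    ⟨(h _ (Nat.lt_succ_of_le h4)).1 h5.1, h5.2⟩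
  exact Nat.sInf_le h6

end LocAux

theorem LC.nxt {a : Pt I → Set ℕ} (ha : Nm C w a) (hF : ∀ x ∈ C, Fat (a x)) (L n : ℕ) :
    LC C w (fun x => nxt (a x) L n) := by
  refine LC.of_Nm ha fun x hx => ⟨Pool.Agent.QPt.nxt (a x) L n + 1, fun y _ hk => ?_⟩
  exact LocAux.nxt_local (hF x hx) L n hk

theorem LC.zm {s : Pt I → List ℕ} {a : Pt I → Set ℕ} (hs : LC C w s) (ha : Nm C w a)
    (hS : ∀ x ∈ C, IsStem (s x)) (hF : ∀ x ∈ C, Fat (a x)) (i : ℕ) :
    LC C w (fun x => zm (s x) (a x) i) := by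
  intro x hx
  obtain ⟨N, hN⟩ := zm_local (hS x hx) (hF x hx) i
  have h1 : ∃ F : Finset I, (F : Set I) ⊆ w ∧ ∃ n, ∀ y ∈ C, Agree (F : Set I) n x y →
      ∀ k ∈ Finset.range N, (k ∈ a y) = (k ∈ a x) :=
    LC.finset (Finset.range N) (f := fun k x => k ∈ a x) (fun k _ => ha k) x hx
  obtain ⟨F, hF', n, hn⟩ := LocAux.merge (hs x hx) h1
  refine ⟨F, hF', n, fun y hy hag => ?_⟩
  obtain ⟨h2, h3⟩ := hn y hy hag
  change Pool.Agent.QPt.zm (s y) (a y) i = Pool.Agent.QPt.zm (s x) (a x) i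
  rw [h2]
  exact hN (a y) fun m hm => iff_of_eq (h3 m (Finset.mem_range.2 hm))

/-- locally constant functions have countable range -/
theorem LC.countable_image {f : Pt I → γ} (hw : w.Countable) (h : LC C w f) :
    (f '' C).Countable := by
  classical
  have : Countable w := hw.to_subtype
  choose! F hF n hn using h
  let code : Pt I → Finset w × ℕ × Finset (w × ℕ × ℕ) := fun x =>
    ((F x).subtype (· ∈ w), n x,
      (((F x).subtype (· ∈ w)) ×ˢ (Finset.range (n x))).image (fun q => (q.1, q.2, x q.1.1 q.2)))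
  have key : ∀ x ∈ C, ∀ y ∈ C, code x = code y → f y = f x := by
    intro x hx y hy hc
    refine hn x hx y hy ?_
    intro β hβ i hi
    have hβw : β ∈ w := hF x hx hβ
    have h1 : (⟨β, hβw⟩, i, x β i) ∈ (code x).2.2 := by
      refine Finset.mem_image.2 ⟨(⟨β, hβw⟩, i), ?_, rfl⟩
      refine Finset.mem_product.2 ⟨?_, Finset.mem_range.2 hi⟩
      exact Finset.mem_subtype.2 hβ
    rw [hc] at h1
    obtain ⟨q, _, hq⟩ := Finset.mem_image.1 h1
    have h2 : q.1 = (⟨β, hβw⟩ : w) := congrArg Prod.fst hq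
    have h3 : q.2 = i := congrArg (fun z => z.2.1) hq
    have h4 : y q.1.1 q.2 = x β i := congrArg (fun z => z.2.2) hq
    rw [h2, h3] at h4
    exact h4.symm
  have hcount : (code '' C).Countable := to_countable _
  have : f '' C ⊆ (fun c => f (Function.invFunOn code C c)) '' (code '' C) := by
    rintro _ ⟨x, hx, rfl⟩
    have hex : ∃ a ∈ C, code a = code x := ⟨x, hx, rfl⟩
    refine ⟨code x, ⟨x, hx, rfl⟩, ?_⟩
    exact key x hx _ (Function.invFunOn_mem hex) (Function.invFunOn_eq hex).symm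
  exact (hcount.image _).mono this

end LC

end Pool.Agent.QPt
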