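import Pool.Agent.QPt.MV
import Pool.Agent.MP_b1d3ea_lc.Pairs

/-! # An isomorphism in the Boolean-valued model -/

set_option autoImplicit false

namespace Pool.Agent.QPt

open Pool.Agent.BVM Pool.Agent.StarHur

variable {𝔹 : Type} [CompleteBooleanAlgebra 𝔹]

/-- the name of the bijection -/
def bijN (g : ℕ → ℕ → 𝔹) : BSet 𝔹 :=
  ⟨ℕ × ℕ, fun p => opair (num p.1) (num p.2), fun p => g p.1 p.2⟩

theorem bmem_bijN (g : ℕ → ℕ → 𝔹) (x : BSet 𝔹) :
    bmem x (bijN g) = ⨆ i : ℕ, ⨆ j : ℕ, g i j ⊓ beq x (opair (num i) (num j)) := by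
  rw [bijN, bmem, iSup_prod]

theorem bPM_bijN (g : ℕ → ℕ → 𝔹) (x y : BSet 𝔹) :
    bPM x y (bijN g) = ⨆ i : ℕ, ⨆ j : ℕ, g i j ⊓ (beq x (num i) ⊓ beq y (num j)) := by
  rw [bPM_eq, bmem_bijN]
  simp only [beq_opair]

theorem le_bPM_bijN (g : ℕ → ℕ → 𝔹) (i j : ℕ) : g i j ≤ bPM (num i) (num j) (bijN g) := by
  rw [bPM_bijN]
  refine le_iSup_of_le i (le_iSup_of_le j ?_)
  rw [beq_refl, beq_refl, inf_top_eq, inf_top_eq]

/-- the image of a subset of omega -/
def img (g : ℕ → ℕ → 𝔹) (A : ℕ → 𝔹) : ℕ → 𝔹 := fun j => ⨆ i, g i j ⊓ A i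

theorem bmem_img (g : ℕ → ℕ → 𝔹) (A : ℕ → 𝔹) (k : BSet 𝔹) :
    (⨆ i, bmem i (subN A) ⊓ bPM i k (bijN g)) = bmem k (subN (img g A)) := by
  apply le_antisymm
  · refine iSup_le fun x => ?_
    rw [bmem_subN, bPM_bijN, bmem_subN]
    simp only [iSup_inf_eq, inf_iSup_eq]
    refine iSup_le fun i => iSup_le fun j => iSup_le fun i' => ?_
    by_cases h : i' = i
    · subst h
      refine le_iSup_of_le j (le_inf ?_ (inf_le_right.trans (inf_le_right.trans inf_le_right)))
      unfold img
      exact le_iSup_of_le i' (le_inf (inf_le_right.trans inf_le_left)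
        (inf_le_left.trans inf_le_left))
    · have h1 : A i' ⊓ beq x (num i') ⊓ (g i j ⊓ (beq x (num i) ⊓ beq k (num j))) ≤
          beq x (num i') ⊓ beq x (num i) :=
        le_inf (inf_le_left.trans inf_le_right)
          (inf_le_right.trans (inf_le_right.trans inf_le_left))
      rw [beq_num_inf_le_bot x h] at h1
      exact h1.trans bot_le
  · rw [bmem_subN]
    refine iSup_le fun j => ?_
    unfold img
    rw [iSup_inf_eq]
    refine iSup_le fun i => le_iSup_of_le (num i) ?_
    rw [bmem_num_subN]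
    refine le_inf (inf_le_left.trans inf_le_right) ?_
    refine le_trans ?_ (ext1_bPM2 (num i) (bijN g) (num j) k)
    rw [beq_symm]
    exact le_inf inf_le_right ((inf_le_left.trans inf_le_left).trans (le_bPM_bijN g i j))

section bij
variable (g : ℕ → ℕ → 𝔹)

/-- `g` is a bijection -/
def bijV : 𝔹 :=
  (((⨅ i, ⨆ j, g i j) ⊓ (⨅ j, ⨆ i, g i j)) ⊓
    ((⨅ i, ⨅ j, ⨅ k, ⨅ _ : j ≠ k, (g i j ⊓ g i k)ᶜ) ⊓
      (⨅ i, ⨅ j, ⨅ k, ⨅ _ : i ≠ j, (g i k ⊓ g j k)ᶜ)))

theorem bijV_fun {i j k : ℕ} (h : j ≠ k) : bijV g ⊓ (g i j ⊓ g i k) = ⊥ := by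
  rw [eq_bot_iff]
  have h1 : bijV g ≤ (g i j ⊓ g i k)ᶜ :=
    (inf_le_right.trans inf_le_left).trans ((iInf_le _ i).trans ((iInf_le _ j).trans
      (iInf₂_le k h)))
  refine (inf_le_inf_right _ h1).trans ?_
  rw [compl_inf_self]

theorem bijV_inj {i j k : ℕ} (h : i ≠ j) : bijV g ⊓ (g i k ⊓ g j k) = ⊥ := by
  rw [eq_bot_iff]
  have h1 : bijV g ≤ (g i k ⊓ g j k)ᶜ :=
    (inf_le_right.trans inf_le_right).trans ((iInf_le _ i).trans ((iInf_le _ j).trans
      ((iInf_le _ k).trans (iInf_le _ h))))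
  refine (inf_le_inf_right _ h1).trans ?_
  rw [compl_inf_self]

theorem bijV_tot (i : ℕ) : bijV g ≤ ⨆ j, g i j :=
  (inf_le_left.trans inf_le_left).trans (iInf_le _ i)

theorem bijV_sur (j : ℕ) : bijV g ≤ ⨆ i, g i j :=
  (inf_le_left.trans inf_le_right).trans (iInf_le _ j)

theorem bijV_le_bBij : bijV g ≤ bBij omegaN (bijN g) := by
  unfold bBij bFun
  refine le_inf (le_inf ?_ ?_) (le_inf ?_ ?_)
  · refine le_iInf fun p => ?_
    rw [le_himp_iff]
    refine inf_le_right.trans ?_
    rw [bmem_bijN]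
    refine iSup_le fun i => iSup_le fun j => le_iSup_of_le (num i) ?_
    rw [Omega.bmem_num_omegaN, top_inf_eq]
    refine le_iSup_of_le (num j) ?_
    rw [Omega.bmem_num_omegaN, top_inf_eq, bPair_eq]
    exact inf_le_right
  · rw [ball_omega]
    · refine le_iInf fun i => ?_
      refine (le_inf le_rfl (bijV_tot g i)).trans ?_
      rw [inf_iSup_eq]
      refine iSup_le fun j => le_iSup_of_le (num j) (le_inf (inf_le_right.trans
        (le_bPM_bijN g i j)) (le_iInf fun y => ?_))
      rw [le_himp_iff, bPM_bijN]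
      simp only [inf_iSup_eq]
      refine iSup_le fun i' => iSup_le fun j' => ?_
      by_cases hi : i = i'
      · subst hi
        by_cases hj : j = j'
        · subst hj
          exact inf_le_right.trans (inf_le_right.trans inf_le_right)
        · have h1 : bijV g ⊓ g i j ⊓ (g i j' ⊓ (beq (num i) (num i) ⊓ beq y (num j'))) ≤
              bijV g ⊓ (g i j ⊓ g i j') :=
            le_inf (inf_le_left.trans inf_le_left) (le_inf (inf_le_left.trans inf_le_right)
              (inf_le_right.trans inf_le_left))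
          rw [bijV_fun g hj] at h1
          exact h1.trans bot_le
      · rw [beq_num, if_neg hi, bot_inf_eq, inf_bot_eq, inf_bot_eq]
        exact bot_le
    · exact Ext1.iSup fun y => (ext1_bPM1 y _).inf
        (Ext1.iInf fun y' => (ext1_bPM1 y' _).himp (Ext1.const _))
  · refine le_iInf fun x => le_iInf fun y => le_iInf fun z => ?_
    rw [le_himp_iff, le_himp_iff, bPM_bijN, bPM_bijN]
    simp only [inf_iSup_eq, iSup_inf_eq]
    refine iSup_le fun i => iSup_le fun j => iSup_le fun i' => iSup_le fun j' => ?_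
    have key : ∀ i j i' j' : ℕ, bijV g ⊓ (g i j ⊓ (beq x (num i) ⊓ beq z (num j))) ⊓
        (g i' j' ⊓ (beq y (num i') ⊓ beq z (num j'))) ≤ beq x y := by
      intro i j i' j'
      by_cases hj : j = j'
      · subst hj
        by_cases hi : i = i'
        · subst hi
          refine le_trans ?_ (beq_trans x (num i) y)
          rw [beq_symm (num i) y]
          exact le_inf ((inf_le_left.trans inf_le_right).trans (inf_le_right.trans inf_le_left))
            (inf_le_right.trans (inf_le_right.trans inf_le_left))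
        · have h1 : bijV g ⊓ (g i j ⊓ (beq x (num i) ⊓ beq z (num j))) ⊓
              (g i' j ⊓ (beq y (num i') ⊓ beq z (num j))) ≤ bijV g ⊓ (g i j ⊓ g i' j) :=
            le_inf (inf_le_left.trans inf_le_left) (le_inf ((inf_le_left.trans
              inf_le_right).trans inf_le_left) (inf_le_right.trans inf_le_left))
          rw [bijV_inj g hi] at h1
          exact h1.trans bot_le
      · have h1 : bijV g ⊓ (g i j ⊓ (beq x (num i) ⊓ beq z (num j))) ⊓
            (g i' j' ⊓ (beq y (num i') ⊓ beq z (num j'))) ≤ beq z (num j) ⊓ beq z (num j') :=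
          le_inf ((inf_le_left.trans inf_le_right).trans (inf_le_right.trans inf_le_right))
            (inf_le_right.trans (inf_le_right.trans inf_le_right))
        rw [beq_num_inf_le_bot z hj] at h1
        exact h1.trans bot_le
    first
      | exact key i j i' j'
      | exact key i' j' i j
  · rw [ball_omega]
    · refine le_iInf fun j => (bijV_sur g j).trans ?_
      refine iSup_le fun i => le_iSup_of_le (num i) ?_
      rw [Omega.bmem_num_omegaN, top_inf_eq]
      exact le_bPM_bijN g i j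
    · exact Ext1.iSup fun i => (Ext1.const _).inf (ext1_bPM2 i _)

/-- the preimage -/
def preI (B : ℕ → 𝔹) : ℕ → 𝔹 := fun i => ⨆ j, g i j ⊓ B j

theorem img_preI (B : ℕ → 𝔹) : bijV g ≤ ⨅ j, bi (B j) (img g (preI g B) j) := by
  refine le_iInf fun j => ?_
  unfold bi
  refine le_inf ?_ ?_
  · rw [le_himp_iff]
    refine (inf_le_inf_right _ (bijV_sur g j)).trans ?_
    unfold img
    rw [iSup_inf_eq]
    refine iSup_mono fun i => le_inf inf_le_left ?_
    unfold preI
    exact le_iSup_of_le j le_rfl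
  · rw [le_himp_iff]
    unfold img preI
    simp only [inf_iSup_eq]
    refine iSup_le fun i => iSup_le fun j' => ?_
    by_cases h : j = j'
    · subst h
      exact inf_le_right.trans (inf_le_right.trans inf_le_right)
    · have h1 : bijV g ⊓ (g i j ⊓ (g i j' ⊓ B j')) ≤ bijV g ⊓ (g i j ⊓ g i j') :=
        le_inf inf_le_left (le_inf (inf_le_right.trans inf_le_left)
          (inf_le_right.trans (inf_le_right.trans inf_le_left)))
      rw [bijV_fun g h] at h1
      exact h1.trans bot_le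

end bij

theorem isoVal_le_bIso {U : (ℕ → 𝔹) → 𝔹} (h : QCore 𝔹 U) (v : BSet 𝔹) (g : ℕ → ℕ → 𝔹) :
    bUltra omegaN v ⊓ isoVal U (memV v) g ≤ bIso omegaN (ultraN U) v := by
  have e1 : isoVal U (memV v) g = bijV g ⊓ ⨅ A : ℕ → 𝔹, bi (U A) (memV v (img g A)) := rfl
  rw [e1]
  set I : 𝔹 := ⨅ A : ℕ → 𝔹, bi (U A) (memV v (img g A)) with hI
  set L : 𝔹 := bUltra omegaN v ⊓ (bijV g ⊓ I) with hL
  have hLb : L ≤ bijV g := inf_le_right.trans inf_le_left
  have hLI : L ≤ I := inf_le_right.trans inf_le_right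
  have hLu : L ≤ bUltra omegaN v := inf_le_left
  unfold bIso
  refine le_iSup_of_le (bijN g) (le_inf (hLb.trans (bijV_le_bBij g)) (le_iInf fun Y => ?_))
  unfold biff
  refine le_inf ?_ ?_
  · rw [le_himp_iff]
    set B : ℕ → 𝔹 := fun n => bmem (num n) Y with hB
    refine le_iSup_of_le (subN (preI g B)) ?_
    have c1 : L ⊓ bmem Y v ≤ beq Y (subN B) :=
      ((inf_le_inf_right _ hLu).trans (bUltra_sub v Y)).trans (le_beq_subN Y)
    have c2 : L ⊓ bmem Y v ≤ beq (subN B) (subN (img g (preI g B))) := by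
      rw [beq_subN]
      exact (inf_le_left.trans hLb).trans (img_preI g B)
    have c3 : L ⊓ bmem Y v ≤ beq Y (subN (img g (preI g B))) :=
      (le_inf c1 c2).trans (beq_trans _ _ _)
    refine le_inf ?_ ?_
    · rw [bmem_ultraN h.up]
      have c4 : L ⊓ bmem Y v ≤ memV v (img g (preI g B)) :=
        (le_inf c3 inf_le_right).trans (bmem_congr_left Y _ v)
      have c5 : L ⊓ bmem Y v ≤ memV v (img g (preI g B)) ⇨ U (preI g B) :=
        (inf_le_left.trans hLI).trans ((iInf_le _ (preI g B)).trans inf_le_right)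
      exact (le_inf c5 c4).trans himp_inf_le
    · refine le_iInf fun k => ?_
      rw [bmem_img]
      refine c3.trans ?_
      rw [beq_eq_iInf]
      exact iInf_le _ k
  · rw [le_himp_iff, inf_iSup_eq]
    refine iSup_le fun X => ?_
    have key : L ⊓ bmem X (ultraN U) ≤
        (⨅ k, biff (bmem k Y) (⨆ i, bmem i X ⊓ bPM i k (bijN g))) ⇨ bmem Y v := by
      refine ultraN_le_of_ext (f := fun X =>
        (⨅ k, biff (bmem k Y) (⨆ i, bmem i X ⊓ bPM i k (bijN g))) ⇨ bmem Y v) ?_ (fun A => ?_) X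
      · exact (Ext1.iInf fun k => ext1_biff (Ext1.const _) (Ext1.iSup fun i =>
          (ext1_bmem_right i).inf (Ext1.const _))).himp (Ext1.const _)
      · show L ⊓ U A ≤ (⨅ k, biff (bmem k Y) (⨆ i, bmem i (subN A) ⊓ bPM i k (bijN g))) ⇨
          bmem Y v
        rw [le_himp_iff]
        have d1 : L ⊓ U A ≤ memV v (img g A) := by
          have d2 : L ⊓ U A ≤ U A ⇨ memV v (img g A) :=
            (inf_le_left.trans hLI).trans ((iInf_le _ A).trans inf_le_left)
          exact (le_inf d2 inf_le_right).trans himp_inf_le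
        have d3 : (⨅ k, biff (bmem k Y) (⨆ i, bmem i (subN A) ⊓ bPM i k (bijN g))) ≤
            beq Y (subN (img g A)) := by
          refine le_beq_of_biff fun z => (iInf_le _ z).trans ?_
          rw [bmem_img]
        refine (inf_le_inf d1 d3).trans ?_
        rw [inf_comm, beq_symm]
        exact bmem_congr_left _ _ _
    rw [le_himp_iff, inf_assoc] at key
    exact key

end Pool.Agent.QPt
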