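import Pool.Agent.QPt.MUltra

/-! # The name of the ultrafilter is a Q-point -/

set_option autoImplicit false

namespace Pool.Agent.QPt

open Pool.Agent.BVM Pool.Agent.StarHur

variable {𝔹 : Type} [CompleteBooleanAlgebra 𝔹]

/-- the equivalence relation of a partition -/
def relP (P : BSet 𝔹) (i j : ℕ) : 𝔹 := ⨆ p, bmem p P ⊓ (bmem (num i) p ⊓ bmem (num j) p)

theorem relP_symm (P : BSet 𝔹) (i j : ℕ) : relP P i j = relP P j i := by
  unfold relP
  exact iSup_congr fun p => by rw [inf_comm (bmem (num i) p)]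

/-- `subN A` is a selector -/
theorem le_bSelector (P : BSet 𝔹) (A : ℕ → 𝔹) :
    (⨅ i, ⨅ j, ⨅ _ : i < j, (A i ⊓ A j ⊓ relP P i j)ᶜ) ≤ bSelector P (subN A) := by
  unfold bSelector
  refine le_iInf fun p => ?_
  rw [le_himp_iff]
  refine le_iInf fun x => le_iInf fun y => ?_
  rw [le_himp_iff, le_himp_iff, le_himp_iff, le_himp_iff]
  rw [bmem_subN A x]
  have key : ∀ i j : ℕ, ((((((⨅ i, ⨅ j, ⨅ _ : i < j, (A i ⊓ A j ⊓ relP P i j)ᶜ) ⊓ bmem p P) ⊓
      (A i ⊓ beq x (num i))) ⊓ (A j ⊓ beq y (num j))) ⊓ bmem x p) ⊓ bmem y p) ≤ beq x y := by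
    intro i j
    set L : 𝔹 := ((((((⨅ i, ⨅ j, ⨅ _ : i < j, (A i ⊓ A j ⊓ relP P i j)ᶜ) ⊓ bmem p P) ⊓
      (A i ⊓ beq x (num i))) ⊓ (A j ⊓ beq y (num j))) ⊓ bmem x p) ⊓ bmem y p) with hL
    have a1 : L ≤ ⨅ i, ⨅ j, ⨅ _ : i < j, (A i ⊓ A j ⊓ relP P i j)ᶜ :=
      (((((inf_le_left.trans inf_le_left).trans inf_le_left).trans inf_le_left)).trans inf_le_left)
    have a2 : L ≤ bmem p P :=
      (((((inf_le_left.trans inf_le_left).trans inf_le_left).trans inf_le_left)).trans inf_le_right)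
    have a3 : L ≤ A i ⊓ beq x (num i) :=
      ((inf_le_left.trans inf_le_left).trans inf_le_left).trans inf_le_right
    have a4 : L ≤ A j ⊓ beq y (num j) := (inf_le_left.trans inf_le_left).trans inf_le_right
    have a5 : L ≤ bmem x p := inf_le_left.trans inf_le_right
    have a6 : L ≤ bmem y p := inf_le_right
    have b1 : L ≤ bmem (num i) p :=
      (le_inf (a3.trans inf_le_right) a5).trans (bmem_congr_left x (num i) p)
    have b2 : L ≤ bmem (num j) p :=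
      (le_inf (a4.trans inf_le_right) a6).trans (bmem_congr_left y (num j) p)
    have b3 : L ≤ relP P i j := by
      unfold relP
      exact le_iSup_of_le p (le_inf a2 (le_inf b1 b2))
    rcases lt_trichotomy i j with h | h | h
    · have c1 : L ≤ (A i ⊓ A j ⊓ relP P i j) ⊓ (A i ⊓ A j ⊓ relP P i j)ᶜ :=
        le_inf (le_inf (le_inf (a3.trans inf_le_left) (a4.trans inf_le_left)) b3)
          (a1.trans ((iInf_le _ i).trans (iInf₂_le j h)))
      rw [inf_compl_self] at c1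
      exact c1.trans bot_le
    · subst h
      refine le_trans ?_ (beq_trans x (num i) y)
      rw [beq_symm (num i) y]
      exact le_inf (a3.trans inf_le_right) (a4.trans inf_le_right)
    · have c1 : L ≤ (A j ⊓ A i ⊓ relP P j i) ⊓ (A j ⊓ A i ⊓ relP P j i)ᶜ :=
        le_inf (le_inf (le_inf (a4.trans inf_le_left) (a3.trans inf_le_left))
          (by rw [relP_symm]; exact b3)) (a1.trans ((iInf_le _ j).trans (iInf₂_le i h)))
      rw [inf_compl_self] at c1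
      exact c1.trans bot_le
  rw [bmem_subN A y]
  simp only [inf_iSup_eq, iSup_inf_eq]
  exact iSup_le fun j => iSup_le fun i => key i j

theorem ext1_bFinite : Ext1 (fun a : BSet 𝔹 => bFinite omegaN a) := by
  unfold bFinite
  exact Ext1.iSup fun m => (Ext1.const _).inf (Ext1.iSup fun g => (Ext1.const _).inf
    (Ext1.iInf fun t => (ext1_bmem_right t).himp (Ext1.const _)))

theorem bPartition_le_fin (P : BSet 𝔹) (i : ℕ) :
    bPartition omegaN P ⊓ (⨅ p, bmem p P ⇨ bFinite omegaN p) ≤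
      ⨆ N : ℕ, ⨅ j, ⨅ _ : N ≤ j, (relP P i j)ᶜ := by
  set Γ : 𝔹 := bPartition omegaN P ⊓ (⨅ p, bmem p P ⇨ bFinite omegaN p) with hΓ
  have h1 : Γ ≤ ⨆ p, (bmem p P ⊓ bmem (num i) p) ⊓ ⨅ q, bmem q P ⇨ bmem (num i) q ⇨ beq q p := by
    have h2 : Γ ≤ bmem (num i) omegaN ⇨ ⨆ p, (bmem p P ⊓ bmem (num i) p) ⊓
        ⨅ q, bmem q P ⇨ bmem (num i) q ⇨ beq q p :=
      (inf_le_left.trans inf_le_right).trans (iInf_le _ (num i))
    rwa [Omega.bmem_num_omegaN, top_himp] at h2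
  refine (le_inf le_rfl h1).trans ?_
  rw [inf_iSup_eq]
  refine iSup_le fun p => ?_
  have h3 : Γ ⊓ bmem p P ≤ ⨆ n : ℕ, ⨅ k : ℕ, ⨅ _ : n ≤ k, (bmem (num k) p)ᶜ := by
    refine le_trans (le_inf ?_ ?_) (bFinite_le p)
    · rw [← le_himp_iff]
      exact inf_le_right.trans (iInf_le _ p)
    · have h4 : Γ ≤ bmem p P ⇨ (⨆ k, bmem k p) ⊓ ⨅ k, bmem k p ⇨ bmem k omegaN :=
        (inf_le_left.trans inf_le_left).trans (iInf_le _ p)
      rw [le_himp_iff] at h4
      exact h4.trans inf_le_right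
  have h5 : Γ ⊓ ((bmem p P ⊓ bmem (num i) p) ⊓ ⨅ q, bmem q P ⇨ bmem (num i) q ⇨ beq q p) ≤
      (⨅ q, bmem q P ⇨ bmem (num i) q ⇨ beq q p) ⊓
        ⨆ n : ℕ, ⨅ k : ℕ, ⨅ _ : n ≤ k, (bmem (num k) p)ᶜ := by
    refine le_inf (inf_le_right.trans inf_le_right) ?_
    exact le_trans (le_inf inf_le_left ((inf_le_right.trans inf_le_left).trans inf_le_left)) h3
  refine h5.trans ?_
  rw [inf_iSup_eq]
  refine iSup_mono fun N => le_iInf fun j => le_iInf fun hj => ?_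
  rw [le_compl_iff_disjoint_right, disjoint_iff, eq_bot_iff]
  unfold relP
  rw [inf_iSup_eq]
  refine iSup_le fun q => ?_
  set L : 𝔹 := ((⨅ q, bmem q P ⇨ bmem (num i) q ⇨ beq q p) ⊓
    ⨅ k : ℕ, ⨅ _ : N ≤ k, (bmem (num k) p)ᶜ) ⊓ (bmem q P ⊓ (bmem (num i) q ⊓ bmem (num j) q))
  have a1 : L ≤ beq q p := by
    have b1 : (⨅ q, bmem q P ⇨ bmem (num i) q ⇨ beq q p) ≤ bmem q P ⇨ bmem (num i) q ⇨ beq q p :=
      iInf_le _ q
    rw [le_himp_iff, le_himp_iff] at b1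
    refine le_trans (le_inf (le_inf (inf_le_left.trans inf_le_left)
      (inf_le_right.trans inf_le_left)) ?_) b1
    exact inf_le_right.trans (inf_le_right.trans inf_le_left)
  have a2 : L ≤ bmem (num j) p := by
    refine le_trans (le_inf a1 ?_) (bmem_congr_right (num j) q p)
    exact inf_le_right.trans (inf_le_right.trans inf_le_right)
  have a3 : L ≤ (bmem (num j) p)ᶜ := (inf_le_left.trans inf_le_right).trans (iInf₂_le j hj)
  have a4 := le_inf a2 a3
  rwa [inf_compl_self] at a4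

theorem bQPoint_top {U : (ℕ → 𝔹) → 𝔹} (h : QCore 𝔹 U) : bQPoint omegaN (ultraN U) = ⊤ := by
  rw [bQPoint, bUltra_top h, top_inf_eq, eq_top_iff]
  refine le_iInf fun P => ?_
  rw [le_himp_iff, le_himp_iff, top_inf_eq]
  have h1 : bPartition omegaN P ⊓ (⨅ p, bmem p P ⇨ bFinite omegaN p) ≤
      ⨅ i, ⨆ N : ℕ, ⨅ j, ⨅ _ : N ≤ j, (relP P i j)ᶜ :=
    le_iInf fun i => bPartition_le_fin P i
  refine h1.trans ((h.Q (relP P)).trans ?_)
  refine iSup_le fun A => le_iSup_of_le (subN A) ?_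
  rw [bmem_ultraN h.up]
  exact inf_le_inf_left _ (le_bSelector P A)

end Pool.Agent.QPt
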