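import Pool.Agent.QPt.MUltra

/-! # The name of the ultrafilter is not Ramsey -/

set_option autoImplicit false

namespace Pool.Agent.QPt

open Pool.Agent.BVM Pool.Agent.StarHur

variable {𝔹 : Type} [CompleteBooleanAlgebra 𝔹]

/-- the `n`-th column -/
def colA (n : ℕ) : ℕ → 𝔹 := fun m => if lam m = n then ⊤ else ⊥

/-- the name of the partition into columns -/
def colN : BSet 𝔹 := ⟨ℕ, fun n => subN (colA n), fun _ => ⊤⟩

theorem bmem_colN (x : BSet 𝔹) : bmem x colN = ⨆ n : ℕ, beq x (subN (colA n)) := by
  rw [colN, bmem]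
  exact iSup_congr fun n => top_inf_eq _

theorem mem_colN (n : ℕ) : bmem (subN (colA n) : BSet 𝔹) colN = ⊤ := by
  rw [bmem_colN, eq_top_iff]
  exact le_iSup_of_le n (beq_refl _).ge

theorem bPartition_colN : bPartition (omegaN : BSet 𝔹) colN = ⊤ := by
  rw [bPartition, eq_top_iff]
  refine le_inf ?_ ?_
  · refine le_iInf fun p => ?_
    rw [le_himp_iff]
    refine bmem_le_of_ext (x := colN) (f := fun p => (⨆ k, bmem k p) ⊓
      ⨅ k, bmem k p ⇨ bmem k omegaN) ?_ (fun n => ?_) p
    · exact (Ext1.iSup fun k => ext1_bmem_right k).inf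
        (Ext1.iInf fun k => (ext1_bmem_right k).himp (Ext1.const _))
    · show _ ≤ (⨆ k, bmem k (subN (colA n))) ⊓ ⨅ k, bmem k (subN (colA n)) ⇨ bmem k omegaN
      rw [subN_le_omegaN, inf_top_eq]
      refine le_iSup_of_le (num (Nat.pair n 0)) ?_
      rw [bmem_num_subN, colA, if_pos (by simp [lam])]
      exact le_top
  · rw [ball_omega]
    · refine le_iInf fun m => le_iSup_of_le (subN (colA (lam m))) ?_
      refine le_inf (le_inf (mem_colN _).ge ?_) ?_
      · rw [bmem_num_subN, colA, if_pos rfl]
      · refine le_iInf fun q => ?_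
        rw [le_himp_iff]
        refine bmem_le_of_ext (x := colN) (f := fun q => bmem (num m) q ⇨
          beq q (subN (colA (lam m)))) ?_ (fun n => ?_) q
        · exact (ext1_bmem_right _).himp (ext1_beq_left _)
        · show _ ≤ bmem (num m) (subN (colA n)) ⇨ beq (subN (colA n)) (subN (colA (lam m)))
          rw [le_himp_iff, bmem_num_subN, colA]
          by_cases hn : lam m = n
          · subst hn
            rw [beq_refl]
            exact le_top
          · rw [if_neg hn, inf_bot_eq]
            exact bot_le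
    · exact Ext1.iSup fun p => ((Ext1.const _).inf (ext1_bmem_left p)).inf
        (Ext1.iInf fun q => (Ext1.const _).himp ((ext1_bmem_left q).himp (Ext1.const _)))

theorem bRamsey_bot {U : (ℕ → 𝔹) → 𝔹} (h : QCore 𝔹 U) : bRamsey omegaN (ultraN U) = ⊥ := by
  rw [bRamsey, eq_bot_iff]
  refine inf_le_right.trans ((iInf_le _ colN).trans ?_)
  rw [bPartition_colN, top_himp]
  have h1 : (⨅ p, bmem p colN ⇨ (bmem p (ultraN U))ᶜ) = ⊤ := by
    rw [eq_top_iff]
    refine le_iInf fun p => ?_
    rw [le_himp_iff]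
    refine bmem_le_of_ext (x := colN) (f := fun p => (bmem p (ultraN U))ᶜ)
      (ext1_bmem_left _).compl (fun n => ?_) p
    show _ ≤ (bmem (subN (colA n)) (ultraN U))ᶜ
    rw [bmem_ultraN h.up]
    have h2 : U (colA n) = ⊥ := h.col n
    rw [h2, compl_bot]
    exact le_top
  rw [h1, top_himp]
  refine iSup_le fun X => ?_
  have hsel : bmem X (ultraN U) ⊓ bSelector colN X ≤ ⊥ := by
    rw [inf_comm, ← le_himp_iff]
    have key : (⊤ : 𝔹) ⊓ bmem X (ultraN U) ≤ bSelector colN X ⇨ ⊥ := by
      refine ultraN_le_of_ext (f := fun X => bSelector colN X ⇨ ⊥) ?_ (fun A => ?_) X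
      · refine Ext1.himp ?_ (Ext1.const _)
        unfold bSelector
        exact Ext1.iInf fun p => (Ext1.const _).himp (Ext1.iInf fun i => Ext1.iInf fun j =>
          (ext1_bmem_right i).himp ((ext1_bmem_right j).himp (Ext1.const _)))
      · show ⊤ ⊓ U A ≤ bSelector colN (subN A) ⇨ ⊥
        rw [top_inf_eq, le_himp_iff]
        refine (inf_le_inf_right _ (h.two A)).trans ?_
        simp only [iSup_inf_eq]
        refine iSup_le fun i => iSup_le fun j => iSup_le fun hij => ?_
        have h3 : bSelector colN (subN A) ≤ A i ⇨ A j ⇨ ⊥ := by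
          have h4 : bSelector (colN : BSet 𝔹) (subN A) ≤
              bmem (subN (colA (lam i))) colN ⇨ ⨅ i', ⨅ j', bmem i' (subN A) ⇨ bmem j' (subN A) ⇨
                bmem i' (subN (colA (lam i))) ⇨ bmem j' (subN (colA (lam i))) ⇨ beq i' j' :=
            iInf_le _ (subN (colA (lam i)))
          rw [mem_colN, top_himp] at h4
          have h5 := h4.trans ((iInf_le _ (num i)).trans (iInf_le _ (num j)))
          have e1 : (colA (lam i) : ℕ → 𝔹) i = ⊤ := if_pos rfl
          have e2 : (colA (lam i) : ℕ → 𝔹) j = ⊤ := if_pos hij.2.symm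
          rw [bmem_num_subN, bmem_num_subN, bmem_num_subN, bmem_num_subN, beq_num,
            if_neg (ne_of_lt hij.1), e1, e2, top_himp, top_himp] at h5
          exact h5
        rw [le_himp_iff, le_himp_iff, inf_assoc] at h3
        rw [inf_comm]
        exact h3
    rw [top_inf_eq] at key
    rw [le_himp_iff, inf_comm, ← le_himp_iff]
    exact key
  exact hsel

end Pool.Agent.QPt
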