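import Pool.Agent.QPt.FinBdd

/-! # The name of the ultrafilter is an ultrafilter -/

set_option autoImplicit false

namespace Pool.Agent.QPt

open Pool.Agent.BVM Pool.Agent.StarHur

variable {𝔹 : Type} [CompleteBooleanAlgebra 𝔹]

theorem bUltra_top {U : (ℕ → 𝔹) → 𝔹} (h : QCore 𝔹 U) : bUltra omegaN (ultraN U) = ⊤ := by
  rw [bUltra, eq_top_iff]
  refine le_inf ?_ (le_inf ?_ (le_inf ?_ (le_inf ?_ ?_)))
  · refine le_iInf fun a => ?_
    rw [le_himp_iff, top_inf_eq]
    exact bmem_ultraN_le U a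
  · refine le_iInf fun a => le_iInf fun b => ?_
    rw [le_himp_iff]
    refine ultraN_le_of_ext (f := fun a => (⨅ k, bmem k b ⇨ bmem k omegaN) ⇨
      (⨅ k, bmem k a ⇨ bmem k b) ⇨ bmem b (ultraN U)) ?_ (fun A => ?_) a
    · exact (Ext1.const _).himp ((Ext1.iInf fun k => (ext1_bmem_right k).himp (Ext1.const _)).himp
        (Ext1.const _))
    · show ⊤ ⊓ U A ≤ (⨅ k, bmem k b ⇨ bmem k omegaN) ⇨
        (⨅ k, bmem k (subN A) ⇨ bmem k b) ⇨ bmem b (ultraN U)
      rw [top_inf_eq, le_himp_iff]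
      refine sub_le_of_ext (f := fun b => (⨅ k, bmem k (subN A) ⇨ bmem k b) ⇨ bmem b (ultraN U))
        ?_ (fun B => ?_) b
      · exact (Ext1.iInf fun k => (Ext1.const _).himp (ext1_bmem_right k)).himp
          (ext1_bmem_left _)
      · show U A ≤ (⨅ k, bmem k (subN A) ⇨ bmem k (subN B)) ⇨ bmem (subN B) (ultraN U)
        rw [le_himp_iff, bmem_ultraN h.up, inf_comm]
        refine le_trans (inf_le_inf_right _ (le_iInf fun m => ?_)) (h.up A B)
        refine (iInf_le _ (num m)).trans ?_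
        rw [bmem_num_subN, bmem_num_subN]
  · refine le_iInf fun a => le_iInf fun b => le_iInf fun c => ?_
    rw [le_himp_iff]
    refine ultraN_le_of_ext (f := fun a => bmem b (ultraN U) ⇨
      (⨅ k, biff (bmem k c) (bmem k a ⊓ bmem k b)) ⇨ bmem c (ultraN U)) ?_ (fun A => ?_) a
    · exact (Ext1.const _).himp ((Ext1.iInf fun k => ext1_biff (Ext1.const _)
        ((ext1_bmem_right k).inf (Ext1.const _))).himp (Ext1.const _))
    · show ⊤ ⊓ U A ≤ bmem b (ultraN U) ⇨
        (⨅ k, biff (bmem k c) (bmem k (subN A) ⊓ bmem k b)) ⇨ bmem c (ultraN U)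
      rw [top_inf_eq, le_himp_iff]
      refine ultraN_le_of_ext (f := fun b =>
        (⨅ k, biff (bmem k c) (bmem k (subN A) ⊓ bmem k b)) ⇨ bmem c (ultraN U)) ?_
        (fun B => ?_) b
      · exact (Ext1.iInf fun k => ext1_biff (Ext1.const _)
          ((Ext1.const _).inf (ext1_bmem_right k))).himp (Ext1.const _)
      · show U A ⊓ U B ≤ (⨅ k, biff (bmem k c) (bmem k (subN A) ⊓ bmem k (subN B))) ⇨
          bmem c (ultraN U)
        rw [le_himp_iff]
        have h1 : (⨅ k, biff (bmem k c) (bmem k (subN A) ⊓ bmem k (subN B))) ≤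
            beq c (subN fun m => A m ⊓ B m) := by
          refine le_beq_of_biff fun z => (iInf_le _ z).trans ?_
          rw [bmem_subN_inf]
        have h2 : U A ⊓ U B ≤ bmem (subN fun m => A m ⊓ B m) (ultraN U) := by
          rw [bmem_ultraN h.up]
          exact h.inter A B
        refine (inf_le_inf h2 h1).trans ?_
        rw [inf_comm, beq_symm]
        exact bmem_congr_left _ _ _
  · refine le_iInf fun a => le_iInf fun b => ?_
    rw [le_himp_iff]
    refine sub_le_of_ext (f := fun a => (⨅ k, biff (bmem k b) (bmem k omegaN ⊓ (bmem k a)ᶜ)) ⇨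
      bmem a (ultraN U) ⊔ bmem b (ultraN U)) ?_ (fun A => ?_) a
    · exact (Ext1.iInf fun k => ext1_biff (Ext1.const _) ((Ext1.const _).inf
        (ext1_bmem_right k).compl)).himp ((ext1_bmem_left _).sup (Ext1.const _))
    · show ⊤ ≤ (⨅ k, biff (bmem k b) (bmem k omegaN ⊓ (bmem k (subN A))ᶜ)) ⇨
        bmem (subN A) (ultraN U) ⊔ bmem b (ultraN U)
      rw [le_himp_iff, top_inf_eq]
      have h1 : (⨅ k, biff (bmem k b) (bmem k omegaN ⊓ (bmem k (subN A))ᶜ)) ≤
          beq b (subN fun m => (A m)ᶜ) := by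
        refine le_beq_of_biff fun z => (iInf_le _ z).trans ?_
        rw [bmem_subN_compl]
      have h2 : (⊤ : 𝔹) ≤ bmem (subN A) (ultraN U) ⊔ bmem (subN fun m => (A m)ᶜ) (ultraN U) := by
        rw [bmem_ultraN h.up, bmem_ultraN h.up, h.ultra]
      calc (⨅ k, biff (bmem k b) (bmem k omegaN ⊓ (bmem k (subN A))ᶜ))
          ≤ beq b (subN fun m => (A m)ᶜ) ⊓
            (bmem (subN A) (ultraN U) ⊔ bmem (subN fun m => (A m)ᶜ) (ultraN U)) :=
            le_inf h1 (le_top.trans h2)
        _ ≤ _ := by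
          rw [inf_sup_left]
          refine sup_le_sup inf_le_right ?_
          rw [beq_symm]
          exact bmem_congr_left _ _ _
  · refine le_iInf fun a => ?_
    rw [le_himp_iff]
    refine ultraN_le_of_ext (f := fun a => (bFinite omegaN a)ᶜ) ?_ (fun A => ?_) a
    · refine Ext1.compl ?_
      unfold bFinite
      refine Ext1.iSup fun m => (Ext1.const _).inf (Ext1.iSup fun g => (Ext1.const _).inf
        (Ext1.iInf fun t => (ext1_bmem_right t).himp (Ext1.const _)))
    · show ⊤ ⊓ U A ≤ (bFinite omegaN (subN A))ᶜ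
      rw [top_inf_eq, le_compl_iff_disjoint_right, disjoint_iff, eq_bot_iff]
      have h1 : bFinite omegaN (subN A) ≤ ⨆ n : ℕ, ⨅ k : ℕ, ⨅ _ : n ≤ k, (A k)ᶜ := by
        refine le_trans (le_inf le_rfl ?_) ((bFinite_le (subN A)).trans ?_)
        · rw [subN_le_omegaN]; exact le_top
        · simp only [bmem_num_subN]; exact le_rfl
      refine (inf_le_inf_left _ h1).trans ?_
      rw [inf_iSup_eq]
      refine iSup_le fun n => ?_
      refine (inf_le_inf_right _ (h.inf A n)).trans ?_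
      rw [iSup_inf_eq]
      refine iSup_le fun k => ?_
      rw [iSup_inf_eq]
      refine iSup_le fun hk => ?_
      have h2 : A k ⊓ (⨅ k : ℕ, ⨅ _ : n ≤ k, (A k)ᶜ) ≤ A k ⊓ (A k)ᶜ :=
        inf_le_inf_left _ (iInf₂_le k hk)
      rwa [inf_compl_self] at h2

end Pool.Agent.QPt
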