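import Pool.Agent.QPt.MQ

/-! # Q-points in the Boolean-valued model are `IsQV` -/

set_option autoImplicit false

namespace Pool.Agent.QPt

open Pool.Agent.BVM Pool.Agent.StarHur

variable {𝔹 : Type} [CompleteBooleanAlgebra 𝔹]

theorem le_sub_subN (A B : ℕ → 𝔹) :
    (⨅ m, A m ⇨ B m) ≤ ⨅ k, bmem k (subN A) ⇨ bmem k (subN B) := by
  refine le_iInf fun k => ?_
  rw [le_himp_iff, bmem_subN, bmem_subN, inf_iSup_eq]
  refine iSup_mono fun i => ?_
  rw [← inf_assoc]
  refine inf_le_inf_right _ ?_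
  rw [← le_himp_iff]
  exact iInf_le _ i

section ultra
variable (v : BSet 𝔹)

theorem bUltra_up (A B : ℕ → 𝔹) :
    bUltra omegaN v ⊓ ((⨅ m, A m ⇨ B m) ⊓ memV v A) ≤ memV v B := by
  have h1 : bUltra omegaN v ≤ bmem (subN A) v ⇨ (⨅ k, bmem k (subN B) ⇨ bmem k omegaN) ⇨
      (⨅ k, bmem k (subN A) ⇨ bmem k (subN B)) ⇨ bmem (subN B) v :=
    (inf_le_right.trans inf_le_left).trans ((iInf_le _ (subN A)).trans (iInf_le _ (subN B)))
  rw [subN_le_omegaN, top_himp, le_himp_iff, le_himp_iff] at h1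
  refine le_trans (le_inf (le_inf inf_le_left (inf_le_right.trans inf_le_right)) ?_) h1
  exact (inf_le_right.trans inf_le_left).trans (le_sub_subN A B)

theorem bUltra_inter (A B : ℕ → 𝔹) :
    bUltra omegaN v ⊓ (memV v A ⊓ memV v B) ≤ memV v (fun m => A m ⊓ B m) := by
  have h1 : bUltra omegaN v ≤ bmem (subN A) v ⇨ bmem (subN B) v ⇨
      (⨅ k, biff (bmem k (subN fun m => A m ⊓ B m)) (bmem k (subN A) ⊓ bmem k (subN B))) ⇨
      bmem (subN fun m => A m ⊓ B m) v :=
    (inf_le_right.trans (inf_le_right.trans inf_le_left)).trans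
      ((iInf_le _ (subN A)).trans ((iInf_le _ (subN B)).trans (iInf_le _ _)))
  have h2 : (⨅ k, biff (bmem k (subN fun m => A m ⊓ B m)) (bmem k (subN A) ⊓ bmem k (subN B))) =
      ⊤ := by
    rw [eq_top_iff]
    refine le_iInf fun k => ?_
    rw [bmem_subN_inf, Omega.biff_self]
  rw [h2, top_himp, le_himp_iff, le_himp_iff, inf_assoc] at h1
  exact h1

theorem bUltra_ultra (A : ℕ → 𝔹) :
    bUltra omegaN v ≤ memV v A ⊔ memV v (fun m => (A m)ᶜ) := by
  have h1 : bUltra omegaN v ≤ (⨅ k, bmem k (subN A) ⇨ bmem k omegaN) ⇨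
      (⨅ k, biff (bmem k (subN fun m => (A m)ᶜ)) (bmem k omegaN ⊓ (bmem k (subN A))ᶜ)) ⇨
      bmem (subN A) v ⊔ bmem (subN fun m => (A m)ᶜ) v :=
    (inf_le_right.trans (inf_le_right.trans (inf_le_right.trans inf_le_left))).trans
      ((iInf_le _ (subN A)).trans (iInf_le _ _))
  have h2 : (⨅ k, biff (bmem k (subN fun m => (A m)ᶜ)) (bmem k omegaN ⊓ (bmem k (subN A))ᶜ)) =
      ⊤ := by
    rw [eq_top_iff]
    refine le_iInf fun k => ?_
    rw [bmem_subN_compl, Omega.biff_self]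
  rw [subN_le_omegaN, top_himp, h2, top_himp] at h1
  exact h1

theorem bUltra_inf (A : ℕ → 𝔹) (n : ℕ) :
    bUltra omegaN v ⊓ memV v A ≤ ⨆ k, ⨆ _ : n ≤ k, A k := by
  have h1 : bUltra omegaN v ≤ bmem (subN A) v ⇨ (bFinite omegaN (subN A))ᶜ :=
    (inf_le_right.trans (inf_le_right.trans (inf_le_right.trans inf_le_right))).trans
      (iInf_le _ (subN A))
  rw [le_himp_iff] at h1
  refine h1.trans ?_
  have h2 : (⨅ k : ℕ, ⨅ _ : n ≤ k, (A k)ᶜ) ≤ bFinite omegaN (subN A) := by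
    refine le_trans ?_ (le_bFinite (subN A))
    rw [subN_le_omegaN, top_inf_eq]
    refine le_iSup_of_le n ?_
    simp only [bmem_num_subN]
    exact le_rfl
  refine (compl_le_compl h2).trans ?_
  simp only [compl_iInf, compl_compl]
  exact le_rfl

theorem bUltra_sub (X : BSet 𝔹) :
    bUltra omegaN v ⊓ bmem X v ≤ ⨅ k, bmem k X ⇨ bmem k omegaN := by
  rw [← le_himp_iff]
  exact inf_le_left.trans (iInf_le _ X)

end ultra

/-! ### the partition into intervals -/

/-- no element of `Y` between `i` and `j` -/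
def rhoY (Y : ℕ → 𝔹) (i j : ℕ) : 𝔹 := ⨅ y, ⨅ _ : min i j < y ∧ y ≤ max i j, (Y y)ᶜ

theorem rhoY_self (Y : ℕ → 𝔹) (i : ℕ) : rhoY Y i i = ⊤ := by
  rw [rhoY, eq_top_iff]
  refine le_iInf fun y => le_iInf fun hy => ?_
  rw [min_self, max_self] at hy
  omega

theorem rhoY_symm (Y : ℕ → 𝔹) (i j : ℕ) : rhoY Y i j = rhoY Y j i := by
  rw [rhoY, rhoY, min_comm, max_comm]

theorem rhoY_trans (Y : ℕ → 𝔹) (i j k : ℕ) : rhoY Y i j ⊓ rhoY Y j k ≤ rhoY Y i k := by
  unfold rhoY
  refine le_iInf fun y => le_iInf fun hy => ?_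
  by_cases h : min i j < y ∧ y ≤ max i j
  · exact inf_le_left.trans (iInf₂_le y h)
  · refine inf_le_right.trans (iInf₂_le y ?_)
    omega

/-- the name of the partition into the intervals determined by `Y` -/
def intN (Y : ℕ → 𝔹) : BSet 𝔹 := ⟨ℕ, fun i => subN (rhoY Y i), fun _ => ⊤⟩

theorem mem_intN (Y : ℕ → 𝔹) (i : ℕ) : bmem (subN (rhoY Y i)) (intN Y) = ⊤ := by
  rw [eq_top_iff]
  exact val_le_bmem (intN Y) i

theorem bPartition_intN (Y : ℕ → 𝔹) : bPartition omegaN (intN Y) = ⊤ := by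
  rw [bPartition, eq_top_iff]
  refine le_inf ?_ ?_
  · refine le_iInf fun p => ?_
    rw [le_himp_iff]
    refine bmem_le_of_ext (x := intN Y) (f := fun p => (⨆ k, bmem k p) ⊓
      ⨅ k, bmem k p ⇨ bmem k omegaN) ?_ (fun n => ?_) p
    · exact (Ext1.iSup fun k => ext1_bmem_right k).inf
        (Ext1.iInf fun k => (ext1_bmem_right k).himp (Ext1.const _))
    · show _ ≤ (⨆ k, bmem k (subN (rhoY Y n))) ⊓ ⨅ k, bmem k (subN (rhoY Y n)) ⇨ bmem k omegaN
      rw [subN_le_omegaN, inf_top_eq]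
      refine le_iSup_of_le (num n) ?_
      rw [bmem_num_subN, rhoY_self]
      exact le_top
  · rw [ball_omega]
    · refine le_iInf fun m => le_iSup_of_le (subN (rhoY Y m)) ?_
      refine le_inf (le_inf (mem_intN Y _).ge ?_) ?_
      · rw [bmem_num_subN, rhoY_self]
      · refine le_iInf fun q => ?_
        rw [le_himp_iff]
        refine bmem_le_of_ext (x := intN Y) (f := fun q => bmem (num m) q ⇨
          beq q (subN (rhoY Y m))) ?_ (fun n => ?_) q
        · exact (ext1_bmem_right _).himp (ext1_beq_left _)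
        · show _ ≤ bmem (num m) (subN (rhoY Y n)) ⇨ beq (subN (rhoY Y n)) (subN (rhoY Y m))
          rw [le_himp_iff, bmem_num_subN, beq_subN]
          refine inf_le_right.trans (le_iInf fun k => le_inf ?_ ?_)
          · rw [le_himp_iff, rhoY_symm Y n m]
            exact rhoY_trans Y m n k
          · rw [le_himp_iff]
            exact rhoY_trans Y n m k
    · exact Ext1.iSup fun p => ((Ext1.const _).inf (ext1_bmem_left p)).inf
        (Ext1.iInf fun q => (Ext1.const _).himp ((ext1_bmem_left q).himp (Ext1.const _)))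

theorem fin_intN (Y : ℕ → 𝔹) : (⨅ n : ℕ, ⨆ k, ⨆ _ : n ≤ k, Y k) ≤
    ⨅ p, bmem p (intN Y) ⇨ bFinite omegaN p := by
  refine le_iInf fun p => ?_
  rw [le_himp_iff]
  refine bmem_le_of_ext (x := intN Y) (f := fun p => bFinite omegaN p) ext1_bFinite
    (fun (i : ℕ) => ?_) p
  show (⨅ n : ℕ, ⨆ k, ⨆ _ : n ≤ k, Y k) ⊓ _ ≤ bFinite omegaN (subN (rhoY Y i))
  refine inf_le_left.trans ?_
  refine le_trans ?_ (le_bFinite _)
  rw [subN_le_omegaN, top_inf_eq]
  simp only [bmem_num_subN]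
  refine (iInf_le _ (i + 1)).trans ?_
  refine iSup_le fun y => iSup_le fun hy => le_iSup_of_le y ?_
  refine le_iInf fun k => le_iInf fun hk => ?_
  rw [le_compl_comm]
  unfold rhoY
  exact iInf₂_le y (by omega)

theorem selector_intN (Y A : ℕ → 𝔹) : bSelector (intN Y) (subN A) ≤
    ⨅ m, ⨅ m', ⨅ _ : m < m', (A m ⊓ A m') ⇨ ⨆ y, ⨆ _ : m < y ∧ y ≤ m', Y y := by
  refine le_iInf fun m => le_iInf fun m' => le_iInf fun hm => ?_
  have h4 : bSelector (intN Y) (subN A) ≤
      bmem (subN (rhoY Y m)) (intN Y) ⇨ ⨅ i', ⨅ j', bmem i' (subN A) ⇨ bmem j' (subN A) ⇨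
        bmem i' (subN (rhoY Y m)) ⇨ bmem j' (subN (rhoY Y m)) ⇨ beq i' j' :=
    iInf_le _ (subN (rhoY Y m))
  rw [mem_intN, top_himp] at h4
  have h5 := h4.trans ((iInf_le _ (num m)).trans (iInf_le _ (num m')))
  rw [bmem_num_subN, bmem_num_subN, bmem_num_subN, bmem_num_subN, beq_num,
    if_neg (ne_of_lt hm), rhoY_self, top_himp, himp_bot, le_himp_iff, le_himp_iff,
    inf_assoc] at h5
  rw [le_himp_iff]
  refine h5.trans ?_
  unfold rhoY
  simp only [compl_iInf, compl_compl, min_eq_left hm.le, max_eq_right hm.le]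
  exact le_rfl

theorem isQV_of_bQPoint (v : BSet 𝔹) : IsQV (memV v) (bQPoint omegaN v) where
  up A B := (inf_le_inf_right _ inf_le_left).trans (bUltra_up v A B)
  inter A B := (inf_le_inf_right _ inf_le_left).trans (bUltra_inter v A B)
  ultra A := inf_le_left.trans (bUltra_ultra v A)
  inf A n := (inf_le_inf_right _ inf_le_left).trans (bUltra_inf v A n)
  Q Y := by
    have h1 : bQPoint omegaN v ≤ bPartition omegaN (intN Y) ⇨
        (⨅ p, bmem p (intN Y) ⇨ bFinite omegaN p) ⇨ ⨆ X, bmem X v ⊓ bSelector (intN Y) X :=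
      inf_le_right.trans (iInf_le _ (intN Y))
    rw [bPartition_intN, top_himp, le_himp_iff] at h1
    have h2 : bQPoint omegaN v ⊓ (⨅ n : ℕ, ⨆ k, ⨆ _ : n ≤ k, Y k) ≤
        bUltra omegaN v ⊓ ⨆ X, bmem X v ⊓ bSelector (intN Y) X :=
      le_inf (inf_le_left.trans inf_le_left) ((inf_le_inf_left _ (fin_intN Y)).trans h1)
    refine h2.trans ?_
    rw [inf_iSup_eq]
    refine iSup_le fun X => le_iSup_of_le (fun n => bmem (num n) X) ?_
    set L : 𝔹 := bUltra omegaN v ⊓ (bmem X v ⊓ bSelector (intN Y) X) with hL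
    have a1 : L ≤ beq X (subN fun n => bmem (num n) X) :=
      (le_trans (le_inf inf_le_left (inf_le_right.trans inf_le_left)) (bUltra_sub v X)).trans
        (le_beq_subN X)
    refine le_inf ?_ ?_
    · exact (le_inf a1 (inf_le_right.trans inf_le_left)).trans (bmem_congr_left X _ v)
    · refine le_trans ?_ (selector_intN Y _)
      have hE : Ext1 (fun X => bSelector (intN Y) X) := by
        unfold bSelector
        exact Ext1.iInf fun p => (Ext1.const _).himp (Ext1.iInf fun i => Ext1.iInf fun j =>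
          (ext1_bmem_right i).himp ((ext1_bmem_right j).himp (Ext1.const _)))
      exact (le_inf a1 (inf_le_right.trans inf_le_right)).trans (hE X _)

end Pool.Agent.QPt
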