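import Pool.Agent.MP_b1d3ea_lc.Transfer
import Pool.Agent.QPt.BInternal

/-!
# Transfer: the internal statement holds in the quotient model

Every internal notion is written as a first-order formula; its satisfaction is the notion and its
Boolean value is the Boolean-valued notion, so that the theorem of Los applies.
-/

set_option autoImplicit false

namespace Pool.Agent.QPt

open Pool.Agent.BVM Pool.Agent.StarHur Pool.Agent.StarHur.Transfer Classical

namespace Tr

section Formulas

variable {n : ℕ}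

def fUltra (w u : Fin n) : Fml n :=
  fand (.all (.imp (.mem 0 u.succ) (.all (.imp (.mem 0 (Fin.succ 0)) (.mem 0 w.succ.succ)))))
  (fand (.all (.all (.imp (.mem (Fin.succ 0) u.succ.succ)
      (.imp (.all (.imp (.mem 0 (Fin.succ 0)) (.mem 0 w.succ.succ.succ)))
        (.imp (.all (.imp (.mem 0 (Fin.succ (Fin.succ 0))) (.mem 0 (Fin.succ 0))))
          (.mem 0 u.succ.succ))))))
  (fand (.all (.all (.all (.imp (.mem (Fin.succ (Fin.succ 0)) u.succ.succ.succ)
      (.imp (.mem (Fin.succ 0) u.succ.succ.succ)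
        (.imp (.all (fiff (.mem 0 (Fin.succ 0)) (fand (.mem 0 (Fin.succ (Fin.succ (Fin.succ 0))))
          (.mem 0 (Fin.succ (Fin.succ 0)))))) (.mem 0 u.succ.succ.succ)))))))
  (fand (.all (.all (.imp (.all (.imp (.mem 0 (Fin.succ (Fin.succ 0))) (.mem 0 w.succ.succ.succ)))
      (.imp (.all (fiff (.mem 0 (Fin.succ 0)) (fand (.mem 0 w.succ.succ.succ)
        (fnot (.mem 0 (Fin.succ (Fin.succ 0)))))))
        (fOr (.mem (Fin.succ 0) u.succ.succ) (.mem 0 u.succ.succ))))))
  (.all (.imp (.mem 0 u.succ) (fnot (fFinite w.succ 0)))))))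

def fPartition (w P : Fin n) : Fml n :=
  fand (.all (.imp (.mem 0 P.succ) (fand (fex (.mem 0 (Fin.succ 0)))
      (.all (.imp (.mem 0 (Fin.succ 0)) (.mem 0 w.succ.succ))))))
    (.all (.imp (.mem 0 w.succ) (fex (fand (fand (.mem 0 P.succ.succ) (.mem (Fin.succ 0) 0))
      (.all (.imp (.mem 0 P.succ.succ.succ) (.imp (.mem (Fin.succ (Fin.succ 0)) 0)
        (.eq 0 (Fin.succ 0)))))))))

def fSelector (P X : Fin n) : Fml n :=
  .all (.imp (.mem 0 P.succ) (.all (.all (.imp (.mem (Fin.succ 0) X.succ.succ.succ)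
    (.imp (.mem 0 X.succ.succ.succ) (.imp (.mem (Fin.succ 0) (Fin.succ (Fin.succ 0)))
      (.imp (.mem 0 (Fin.succ (Fin.succ 0))) (.eq (Fin.succ 0) 0))))))))

def fQPoint (w u : Fin n) : Fml n :=
  fand (fUltra w u) (.all (.imp (fPartition w.succ 0)
    (.imp (.all (.imp (.mem 0 (Fin.succ 0)) (fFinite w.succ.succ 0)))
      (fex (fand (.mem 0 u.succ.succ) (fSelector (Fin.succ 0) 0))))))

def fRamsey (w u : Fin n) : Fml n :=
  fand (fUltra w u) (.all (.imp (fPartition w.succ 0)
    (.imp (.all (.imp (.mem 0 (Fin.succ 0)) (fnot (.mem 0 u.succ.succ))))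
      (fex (fand (.mem 0 u.succ.succ) (fSelector (Fin.succ 0) 0))))))

def fBij (w f : Fin n) : Fml n :=
  fand (fFun f w w) (fand
    (.all (.all (.all (.imp (fPM (Fin.succ (Fin.succ 0)) 0 f.succ.succ.succ)
      (.imp (fPM (Fin.succ 0) 0 f.succ.succ.succ) (.eq (Fin.succ (Fin.succ 0)) (Fin.succ 0)))))))
    (.all (.imp (.mem 0 w.succ) (fex (fand (.mem 0 w.succ.succ)
      (fPM 0 (Fin.succ 0) f.succ.succ))))))

def fIso (w u v : Fin n) : Fml n :=
  fex (fand (fBij w.succ 0) (.all (fiff (.mem 0 v.succ.succ) (fex (fand (.mem 0 u.succ.succ.succ)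
    (.all (fiff (.mem 0 (Fin.succ (Fin.succ 0))) (fex (fand (.mem 0 (Fin.succ (Fin.succ 0)))
      (fPM 0 (Fin.succ 0) (Fin.succ (Fin.succ (Fin.succ (Fin.succ 0))))))))))))))

section SatNotions

variable {M : Type*} (E : M → M → Prop) (v : Fin n → M)

@[simp] lemma sat_Ultra (w u : Fin n) : Sat E (fUltra w u) v ↔ IsUltra E (v w) (v u) := by
  simp only [fUltra, IsUltra, sat_and, sat_all, sat_imp, sat_not, sat_or, sat_iff, sat_Finite,
    sat_mem, Fin.cons_zero, Fin.cons_succ]

@[simp] lemma sat_Partition (w P : Fin n) :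
    Sat E (fPartition w P) v ↔ IsPartition E (v w) (v P) := by
  simp only [fPartition, IsPartition, sat_and, sat_all, sat_ex, sat_imp, sat_eq,
    sat_mem, Fin.cons_zero, Fin.cons_succ]

@[simp] lemma sat_Selector (P X : Fin n) :
    Sat E (fSelector P X) v ↔ IsSelector E (v P) (v X) := by
  simp only [fSelector, IsSelector, sat_all, sat_imp, sat_eq, sat_mem, Fin.cons_zero,
    Fin.cons_succ]

@[simp] lemma sat_QPoint (w u : Fin n) : Sat E (fQPoint w u) v ↔ IsQPoint E (v w) (v u) := by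
  simp only [fQPoint, IsQPoint, sat_and, sat_all, sat_ex, sat_imp, sat_Ultra, sat_Partition,
    sat_Selector, sat_Finite, sat_mem, Fin.cons_zero, Fin.cons_succ]

@[simp] lemma sat_Ramsey (w u : Fin n) : Sat E (fRamsey w u) v ↔ IsRamsey E (v w) (v u) := by
  simp only [fRamsey, IsRamsey, sat_and, sat_all, sat_ex, sat_imp, sat_not, sat_Ultra,
    sat_Partition, sat_Selector, sat_mem, Fin.cons_zero, Fin.cons_succ]

@[simp] lemma sat_Bij (w f : Fin n) : Sat E (fBij w f) v ↔ IsBij E (v w) (v f) := by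
  simp only [fBij, IsBij, sat_and, sat_all, sat_ex, sat_imp, sat_Fun, sat_PM, sat_eq, sat_mem,
    Fin.cons_zero, Fin.cons_succ]

@[simp] lemma sat_Iso (w u x : Fin n) : Sat E (fIso w u x) v ↔ IsIso E (v w) (v u) (v x) := by
  simp only [fIso, IsIso, sat_and, sat_all, sat_ex, sat_iff, sat_Bij, sat_PM, sat_mem,
    Fin.cons_zero, Fin.cons_succ]

end SatNotions

section ValNotions

variable {𝔹 : Type} [CompleteBooleanAlgebra 𝔹] (v : Fin n → BSet 𝔹)

@[simp] lemma bval_Ultra (w u : Fin n) : bval (fUltra w u) v = bUltra (v w) (v u) := by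
  simp only [fUltra, bUltra, bval_and, bval_all, bval_imp, bval_not, bval_or, bval_iff,
    bval_Finite, bval_mem, Fin.cons_zero, Fin.cons_succ]

@[simp] lemma bval_Partition (w P : Fin n) :
    bval (fPartition w P) v = bPartition (v w) (v P) := by
  simp only [fPartition, bPartition, bval_and, bval_all, bval_ex, bval_imp, bval_eq,
    bval_mem, Fin.cons_zero, Fin.cons_succ]

@[simp] lemma bval_Selector (P X : Fin n) :
    bval (fSelector P X) v = bSelector (v P) (v X) := by
  simp only [fSelector, bSelector, bval_all, bval_imp, bval_eq, bval_mem, Fin.cons_zero,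
    Fin.cons_succ]

@[simp] lemma bval_QPoint (w u : Fin n) : bval (fQPoint w u) v = bQPoint (v w) (v u) := by
  simp only [fQPoint, bQPoint, bval_and, bval_all, bval_ex, bval_imp, bval_Ultra, bval_Partition,
    bval_Selector, bval_Finite, bval_mem, Fin.cons_zero, Fin.cons_succ]

@[simp] lemma bval_Ramsey (w u : Fin n) : bval (fRamsey w u) v = bRamsey (v w) (v u) := by
  simp only [fRamsey, bRamsey, bval_and, bval_all, bval_ex, bval_imp, bval_not, bval_Ultra,
    bval_Partition, bval_Selector, bval_mem, Fin.cons_zero, Fin.cons_succ]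

@[simp] lemma bval_Bij (w f : Fin n) : bval (fBij w f) v = bBij (v w) (v f) := by
  simp only [fBij, bBij, bval_and, bval_all, bval_ex, bval_imp, bval_Fun, bval_PM, bval_eq,
    bval_mem, Fin.cons_zero, Fin.cons_succ]

@[simp] lemma bval_Iso (w u x : Fin n) : bval (fIso w u x) v = bIso (v w) (v u) (v x) := by
  simp only [fIso, bIso, bval_and, bval_all, bval_ex, bval_iff, bval_Bij, bval_PM, bval_mem,
    Fin.cons_zero, Fin.cons_succ]

end ValNotions

end Formulas

end Tr

variable {𝔹 : Type} [CompleteBooleanAlgebra 𝔹]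

open Tr in
theorem transfer (U : UF 𝔹) (w u : BSet 𝔹) (h1 : bOmega w = ⊤) (h2 : bQPoint w u = ⊤)
    (h3 : bRamsey w u = ⊥) (h4 : (⨅ v, bQPoint w v ⇨ bIso w u v) = ⊤) :
    HasUniqueNonRamseyQPoint U.E := by
  have e0 : (![w, u] : Fin 2 → BSet 𝔹) 0 = w := rfl
  have e1 : (![w, u] : Fin 2 → BSet 𝔹) 1 = u := rfl
  refine ⟨Quotient.mk U.setoid w, Quotient.mk U.setoid u, ?_, ?_, ?_, ?_⟩
  · have := (los U (fOmega (0 : Fin 2)) ![w, u]).2 (by
      rw [bval_Omega, e0, h1]; exact U.top_mem)
    rw [sat_Omega] at this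
    exact this
  · have := (los U (fQPoint (0 : Fin 2) 1) ![w, u]).2 (by
      rw [bval_QPoint, e0, e1, h2]; exact U.top_mem)
    rw [sat_QPoint] at this
    exact this
  · intro hc
    have h5 := (los U (fRamsey (0 : Fin 2) 1) ![w, u]).1 (by
      rw [sat_Ramsey]
      exact hc)
    rw [bval_Ramsey, e0, e1, h3] at h5
    exact U.bot_notMem h5
  · have := (los U (.all (.imp (fQPoint (Fin.succ (0 : Fin 2)) 0)
      (fIso (Fin.succ (0 : Fin 2)) (Fin.succ 1) 0))) ![w, u]).2 (by
      simp only [bval_all, bval_imp, bval_QPoint, bval_Iso, Fin.cons_zero, Fin.cons_succ]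
      rw [e0, e1, h4]
      exact U.top_mem)
    simp only [sat_all, sat_imp, sat_QPoint, sat_Iso, Fin.cons_zero, Fin.cons_succ] at this
    exact this

end Pool.Agent.QPt
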