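import Pool.Agent.QPt.CRMain
import Pool.Agent.QPt.CondTwo

/-!
# Extension of a partial injection to a bijection
-/

set_option autoImplicit false
set_option linter.unusedSectionVars false

namespace Pool.Agent.QPt

open Set

variable {I : Type} [LinearOrder I] [WellFoundedLT I] {W : WName I}

namespace UBAux

/-- below some condition, a countable union of names is a name -/
theorem exists_union (q : Cond I) (P : ℕ → ℕ → Pt I → Prop)
    (hP : ∀ m j, LC q.body q.w (P m j)) :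
    ∃ q' ≤ q, Nm q'.body q'.w (fun x => {m | ∃ j, P m j x}) := by
  let D : ℕ → Set (Cond I) := fun m => {b | (∃ j, ∀ x ∈ b.body, P m j x) ∨
    ∀ x ∈ b.body, ∀ j, ¬ P m j x}
  have hopen : ∀ m, OpenIn univ (D m) := by
    intro m b hb b' hb' _
    rcases hb with ⟨j, hj⟩ | hb
    · exact Or.inl ⟨j, fun x hx => hj x (hb'.2 hx)⟩
    · exact Or.inr fun x hx => hb x (hb'.2 hx)
  have hdense : ∀ m, DenseIn univ (D m) q := by
    intro m b hb _
    by_cases h : ∃ x ∈ b.body, ∃ j, P m j x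
    · obtain ⟨x, hx, j, hj⟩ := h
      obtain ⟨r, hr, h1⟩ := exists_nbhd_const b hx ((hP m j).mono hb.2 hb.1)
      refine ⟨r, hr.le, subset_univ _, Or.inl ⟨j, fun y hy => ?_⟩⟩
      rw [h1 y hy]
      exact hj
    · exact ⟨b, le_rfl, subset_univ _, Or.inr fun x hx j hj => h ⟨x, hx, j, hj⟩⟩
  obtain ⟨q', hq', -, h⟩ := CR.reads_seq univ isLowerSet_univ (cr_all univ isLowerSet_univ) D q
    (subset_univ _) hopen hdense
  refine ⟨q', hq', fun m x hx => ?_⟩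
  obtain ⟨r, hr, h1, h2, -, F, hF, n, hn⟩ := h m x hx
  refine ⟨F, hF, n, fun y hy hxy => ?_⟩
  have h3 := hn y hy hxy
  rw [eq_iff_iff]
  rcases hr with ⟨j, hj⟩ | hr
  · exact ⟨fun _ => ⟨j, hj x h2⟩, fun _ => ⟨j, hj y h3⟩⟩
  · exact ⟨fun ⟨j, hj⟩ => absurd hj (hr y h3 j), fun ⟨j, hj⟩ => absurd hj (hr x h2 j)⟩

open Classical in
/-- the number of elements below `i` -/
noncomputable def cnt (A : Set ℕ) (i : ℕ) : ℕ := Nat.count (fun k => k ∈ A) i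

theorem cnt_congr {A B : Set ℕ} {i : ℕ} (h : ∀ k < i, (k ∈ A ↔ k ∈ B)) : cnt A i = cnt B i := by
  classical
  unfold cnt
  induction i with
  | zero => simp
  | succ i ih =>
    rw [Nat.count_succ, Nat.count_succ, ih fun k hk => h k (by omega)]
    have := h i (by omega)
    by_cases h1 : i ∈ A
    · simp [h1, this.1 h1]
    · have h2 : i ∉ B := fun h2 => h1 (this.2 h2)
      simp [h1, h2]

theorem LC.cnt {C : Set (Pt I)} {w : Set I} {A : Pt I → Set ℕ} (hA : Nm C w A) (i : ℕ) :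
    LC C w (fun x => cnt (A x) i) :=
  LC.of_Nm hA fun _ _ => ⟨i, fun _ _ h => cnt_congr h⟩

/-- the element with number `t` -/
noncomputable def ele (A : Set ℕ) (t : ℕ) : ℕ := Nat.nth (fun k => k ∈ A) t

theorem ele_mem {A : Set ℕ} (hA : A.Infinite) (t : ℕ) : ele A t ∈ A :=
  Nat.nth_mem_of_infinite hA t

theorem cnt_ele {A : Set ℕ} (hA : A.Infinite) (t : ℕ) : cnt A (ele A t) = t := by
  classical
  exact Nat.count_nth_of_infinite (p := fun k => k ∈ A) hA t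

theorem ele_cnt {A : Set ℕ} {i : ℕ} (hi : i ∈ A) : ele A (cnt A i) = i := by
  classical
  exact Nat.nth_count hi

theorem half_infinite {A : Set ℕ} (hA : A.Infinite) (c : ℕ) :
    {i | i ∈ A ∧ cnt A i % 2 = c % 2}.Infinite := by
  have h1 : Function.Injective fun t : ℕ => ele A (2 * t + c) := by
    intro t t' h
    have h2 := congrArg (cnt A) h
    simp only [cnt_ele hA] at h2
    omega
  refine (Set.infinite_range_of_injective h1).mono ?_
  rintro _ ⟨t, rfl⟩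
  exact ⟨ele_mem hA _, by rw [cnt_ele hA]; omega⟩

end UBAux

open UBAux in
/-- if a partial injection `Γ` maps sets in `U` to sets meeting every set in `E` then some bijection maps
`U` to `E` (names) -/
theorem exists_bij (c : Cond2 W) (Γ : Pt I → Set ℕ) (hΓ : Nm c.p.body c.p.w Γ)
    (h1 : ∀ x ∈ c.p.body, ∀ i j k, Nat.pair i j ∈ Γ x → Nat.pair i k ∈ Γ x → j = k)
    (h2 : ∀ x ∈ c.p.body, ∀ i j k, Nat.pair i k ∈ Γ x → Nat.pair j k ∈ Γ x → i = j)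
    (hD : ∀ c' ≤ c, ∀ A, Nm c'.p.body c'.p.w A → LeW W c'.p c'.Z A →
      ¬ ∀ x ∈ c'.p.body, ∀ i ∈ A x, ∀ j, Nat.pair i j ∉ Γ x) :
    ∃ c' ≤ c, ∃ (d g : Pt I → Set ℕ), Nm c'.p.body c'.p.w d ∧ LeW W c'.p c'.Z d ∧
      Nm c'.p.body c'.p.w g ∧
      ∀ x ∈ c'.p.body, (∀ i, ∃! j, Nat.pair i j ∈ g x) ∧ (∀ j, ∃! i, Nat.pair i j ∈ g x) ∧
        ∀ i ∈ d x, ∀ j, Nat.pair i j ∈ g x → Nat.pair i j ∈ Γ x := by
  classical
  -- a name of the domain
  obtain ⟨q1, hq1, hdm⟩ := exists_union c.p (fun i j x => Nat.pair i j ∈ Γ x)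
    fun i j => hΓ (Nat.pair i j)
  set dm : Pt I → Set ℕ := fun x => {i | ∃ j, Nat.pair i j ∈ Γ x} with hdmdef
  obtain ⟨c2, hc2, hU⟩ := decide_U (c.sub q1 hq1) dm hdm
  have hc2c : c2 ≤ c := hc2.trans (c.sub_le q1 hq1)
  have hdm2 : Nm c2.p.body c2.p.w dm := hdm.mono hc2.1.2 hc2.1.1
  have hU2 : LeW W c2.p c2.Z dm := by
    rcases hU with hU | hU
    · exact hU
    · refine absurd ?_ (hD c2 hc2c _ hdm2.compl hU)
      exact fun x _ i hi j hij => hi ⟨j, hij⟩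
  -- the domain is infinite
  obtain ⟨r, hr, hinf⟩ := LeW.infinite c2.fat hU2 c2.p le_rfl
  have hinf' : ∀ x ∈ r.body, (dm x).Infinite := by
    intro x hx
    rw [Set.infinite_iff_exists_gt]
    intro N
    obtain ⟨n, -, h3⟩ := hinf x hx 0
    obtain ⟨m, hm, h4, -⟩ := h3 (N + 1)
    exact ⟨m, hm, h4⟩
  have hc3 : c2.sub r hr ≤ c2 := c2.sub_le r hr
  have hdm3 : Nm r.body r.w dm := hdm2.mono hr.2 hr.1
  let hf : ℕ → Pt I → Set ℕ := fun e x => {i | i ∈ dm x ∧ cnt (dm x) i % 2 = e % 2}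
  have hhf : ∀ e, Nm r.body r.w (hf e) := by
    intro e
    refine hdm3.of_local fun x hx m => ⟨m + 1, fun y _ h => ?_⟩
    have h3 : cnt (dm y) m = cnt (dm x) m := cnt_congr fun k hk => h k (by omega)
    simp only [hf, Set.mem_ofPred_eq]
    rw [h3, h m (by omega)]
  obtain ⟨c4, hc4, hV⟩ := decide_U (c2.sub r hr) (hf 0) (hhf 0)
  have hc4p : c4.p ≤ r := hc4.1
  have hc4c2 : c4 ≤ c2 := hc4.trans hc3
  have hdU : LeW W c4.p c4.Z dm := hc4c2.2.trans (hU2.mono hc4c2.1)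
  obtain ⟨d, hd, hdsub, hdU', hrest⟩ : ∃ d : Pt I → Set ℕ, Nm c4.p.body c4.p.w d ∧
      (∀ x, d x ⊆ dm x) ∧ LeW W c4.p c4.Z d ∧ ∀ x ∈ c4.p.body, (dm x \ d x).Infinite := by
    rcases hV with hV | hV
    · refine ⟨hf 0, (hhf 0).mono hc4p.2 hc4p.1, fun x i hi => hi.1, hV, fun x hx => ?_⟩
      refine (half_infinite (hinf' x (hc4p.2 hx)) 1).mono fun i hi => ⟨hi.1, fun hi' => ?_⟩
      have := hi'.2
      have h4 := hi.2
      omega
    · refine ⟨fun x => (hf 0 x)ᶜ ∩ dm x, (((hhf 0).compl).inter hdm3).mono hc4p.2 hc4p.1,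
        fun x i hi => hi.2, hV.inter hdU, fun x hx => ?_⟩
      refine (half_infinite (hinf' x (hc4p.2 hx)) 0).mono fun i hi => ⟨hi.1, fun hi' => ?_⟩
      exact hi'.1 hi
  -- a name of the range
  have hΓ4 : Nm c4.p.body c4.p.w Γ := hΓ.mono (hc4c2.trans hc2c).1.2 (hc4c2.trans hc2c).1.1
  obtain ⟨q5, hq5, hrn⟩ := exists_union c4.p (fun j i x => i ∈ d x ∧ Nat.pair i j ∈ Γ x)
    fun j i => ((hd i).prod (hΓ4 (Nat.pair i j))).comp fun u => u.1 ∧ u.2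
  set rn : Pt I → Set ℕ := fun x => {j | ∃ i, i ∈ d x ∧ Nat.pair i j ∈ Γ x} with hrndef
  have hc5 : c4.sub q5 hq5 ≤ c4 := c4.sub_le q5 hq5
  have hc5c : c4.sub q5 hq5 ≤ c := hc5.trans (hc4c2.trans hc2c)
  have hd5 : Nm q5.body q5.w d := hd.mono hq5.2 hq5.1
  have hΓ5 : Nm q5.body q5.w Γ := hΓ4.mono hq5.2 hq5.1
  let g : Pt I → Set ℕ := fun x => {m | (m.unpair.1 ∈ d x ∧ m ∈ Γ x) ∨
    (m.unpair.1 ∉ d x ∧ m.unpair.2 ∉ rn x ∧ cnt (d x)ᶜ m.unpair.1 = cnt (rn x)ᶜ m.unpair.2)}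
  have hg : Nm q5.body q5.w g := by
    intro m
    have h3 := (((hd5 m.unpair.1).prod (hΓ5 m)).prod (hrn m.unpair.2)).prod
      ((UBAux.LC.cnt hd5.compl m.unpair.1).prod (UBAux.LC.cnt hrn.compl m.unpair.2))
    exact h3.comp fun u => (u.1.1.1 ∧ u.1.1.2) ∨ (¬ u.1.1.1 ∧ ¬ u.1.2 ∧ u.2.1 = u.2.2)
  have hgm : ∀ x i j, Nat.pair i j ∈ g x ↔ (i ∈ d x ∧ Nat.pair i j ∈ Γ x) ∨
      (i ∉ d x ∧ j ∉ rn x ∧ cnt (d x)ᶜ i = cnt (rn x)ᶜ j) := by
    intro x i j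
    simp only [g, Set.mem_ofPred_eq, Nat.unpair_pair]
  refine ⟨c4.sub q5 hq5, hc5c, d, g, hd5, hdU'.mono hq5, hg, fun x hx => ?_⟩
  have hxc : x ∈ c.p.body := hc5c.1.2 hx
  have hi1 : ((d x)ᶜ).Infinite := (hrest x (hq5.2 hx)).mono fun i hi => hi.2
  have hi2 : ((rn x)ᶜ).Infinite := by
    have h3 : ∀ i ∈ dm x \ d x, ∃ j, Nat.pair i j ∈ Γ x := fun i hi => hi.1
    choose! f hf using h3
    refine Set.infinite_of_injOn_mapsTo (f := f) (s := dm x \ d x) ?_ ?_ (hrest x (hq5.2 hx))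
    · intro i hi i' hi' h4
      have h5 := hf i hi
      rw [h4] at h5
      exact h2 x hxc _ _ _ h5 (hf i' hi')
    · rintro i hi ⟨i', hi', h5⟩
      exact hi.2 (h2 x hxc _ _ _ h5 (hf i hi) ▸ hi')
  refine ⟨fun i => ?_, fun j => ?_, fun i hi j hij => ?_⟩
  · by_cases hi : i ∈ d x
    · obtain ⟨j, hj⟩ := hdsub x hi
      refine ⟨j, (hgm x i j).2 (Or.inl ⟨hi, hj⟩), fun j' hj' => ?_⟩
      rcases (hgm x i j').1 hj' with h3 | h3
      · exact h1 x hxc i _ _ h3.2 hj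
      · exact absurd hi h3.1
    · refine ⟨ele (rn x)ᶜ (cnt (d x)ᶜ i), (hgm x i _).2 (Or.inr ⟨hi, ele_mem hi2 _, ?_⟩),
        fun j' hj' => ?_⟩
      · rw [cnt_ele hi2]
      · rcases (hgm x i j').1 hj' with h3 | h3
        · exact absurd h3.1 hi
        · rw [h3.2.2]
          exact (ele_cnt h3.2.1).symm
  · by_cases hj : j ∈ rn x
    · obtain ⟨i, hi, hij⟩ := hj
      refine ⟨i, (hgm x i j).2 (Or.inl ⟨hi, hij⟩), fun i' hi' => ?_⟩
      rcases (hgm x i' j).1 hi' with h3 | h3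
      · exact h2 x hxc _ _ j h3.2 hij
      · exact absurd ⟨i, hi, hij⟩ h3.2.1
    · refine ⟨ele (d x)ᶜ (cnt (rn x)ᶜ j), (hgm x _ j).2 (Or.inr ⟨ele_mem hi1 _, hj, ?_⟩),
        fun i' hi' => ?_⟩
      · rw [cnt_ele hi1]
      · rcases (hgm x i' j).1 hi' with h3 | h3
        · exact absurd ⟨i', h3.1, h3.2⟩ hj
        · rw [← h3.2.2]
          exact (ele_cnt h3.1).symm
  · rcases (hgm x i j).1 hij with h3 | h3
    · exact h3.2
    · exact absurd hi h3.1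

end Pool.Agent.QPt
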