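import Pool.Agent.QPt.Rep

/-!
# The generic ultrafilter: Boolean values
-/

set_option autoImplicit false
set_option linter.unusedSectionVars false
set_option linter.unusedVariables false

namespace Pool.Agent.QPt

open Set

variable {I : Type} [LinearOrder I] [WellFoundedLT I]

variable {W : WName I}

/-- separativity -/
theorem LeW.of_dense (c : Cond2 W) (a : Pt I → Set ℕ) (ha : Nm c.p.body c.p.w a)
    (h : ∀ c' ≤ c, ∃ c'' ≤ c', LeW W c''.p c''.Z a) : LeW W c.p c.Z a := by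
  refine LeW.local fun q hq => ?_
  rcases decide_aux (c.sub q hq) (fun x => (a x)ᶜ) ((ha.mono hq.2 hq.1).compl) with
    ⟨r, hr, h1⟩ | ⟨c', hc', h1⟩
  · refine ⟨r, hr, h1.congr (fun x _ => rfl) fun x _ => ?_⟩
    exact (compl_compl (a x)).symm
  · exfalso
    obtain ⟨c'', hc'', h2⟩ := h c' (hc'.trans (c.sub_le q hq))
    have h3 : LeW W c''.p c''.Z (fun x => (a x)ᶜ) := hc''.2.trans (h1.mono hc''.1)
    exact LeW.not_compl c''.fat h2 h3

section Boolean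

variable {𝔹 : Type} [CompleteBooleanAlgebra 𝔹] (D : DEmb (Cond2 W) 𝔹)

theorem Rep.UV_iff {c : Cond2 W} {a : Pt I → Set ℕ} {A : ℕ → 𝔹} (h : Rep D c a A) :
    D.e c ≤ UV D A ↔ LeW W c.p c.Z a := by
  constructor
  · intro h1
    refine LeW.of_dense c a h.1 fun c' hc' => ?_
    obtain ⟨r, hr, ⟨i, b, hb, hib⟩, hle⟩ := D.le_iSup_iff.1 h1 c' hc'
    simp only at hle
    have h2 : D.e r ⊓ D.e i ≠ ⊥ := by
      rw [inf_eq_left.2 hle]
      exact D.ne r
    obtain ⟨s, hs, hsi⟩ := D.compat _ _ h2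
    refine ⟨s, hs.trans hr, ?_⟩
    have e1 : Rep D s a A := h.mono D (hs.trans (hr.trans hc'))
    have e2 : Rep D s b A := hb.mono D hsi
    have e3 : ∀ x ∈ s.p.body, a x = b x := by
      refine (e1.bi_le D e2 le_rfl).1 ?_
      refine le_iInf fun m => ?_
      unfold bi
      rw [himp_self, inf_top_eq]
      exact le_top
    exact (hsi.2.trans (hib.mono hsi.1)).congr (fun _ _ => rfl) e3
  · intro h1
    exact le_iSup (fun c : {c : Cond2 W // ∃ a, Rep D c a A ∧ LeW W c.p c.Z a} => D.e c.1)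
      ⟨c, a, h, h1⟩

theorem UV_up (A B : ℕ → 𝔹) : (⨅ m, (A m ⇨ B m)) ⊓ UV D A ≤ UV D B := by
  refine D.le_of_exists fun c hc => ?_
  obtain ⟨c1, h1, a, ha⟩ := exists_rep D c A
  obtain ⟨c2, h2, b, hb⟩ := exists_rep D c1 B
  have ha' := ha.mono D h2
  have hc2 : D.e c2 ≤ _ := (D.mono _ _ (h2.trans h1)).trans hc
  refine ⟨c2, h2.trans h1, ?_⟩
  rw [hb.UV_iff]
  have e1 := (ha'.himp_le D hb le_rfl).1 (hc2.trans inf_le_left)
  have e2 := (ha'.UV_iff D).1 (hc2.trans inf_le_right)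
  exact e2.trans (LeW.of_subset e1)

theorem UV_inter (A B : ℕ → 𝔹) : UV D A ⊓ UV D B ≤ UV D (fun m => A m ⊓ B m) := by
  refine D.le_of_exists fun c hc => ?_
  obtain ⟨c1, h1, a, ha⟩ := exists_rep D c A
  obtain ⟨c2, h2, b, hb⟩ := exists_rep D c1 B
  have ha' := ha.mono D h2
  have hc2 : D.e c2 ≤ _ := (D.mono _ _ (h2.trans h1)).trans hc
  refine ⟨c2, h2.trans h1, ?_⟩
  rw [(ha'.inter D hb).UV_iff]
  exact ((ha'.UV_iff D).1 (hc2.trans inf_le_left)).inter ((hb.UV_iff D).1 (hc2.trans inf_le_right))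

theorem UV_ultra (A : ℕ → 𝔹) : UV D A ⊔ UV D (fun m => (A m)ᶜ) = ⊤ := by
  refine D.top_of_dense fun c => ?_
  obtain ⟨c1, h1, a, ha⟩ := exists_rep D c A
  obtain ⟨c2, h2, h⟩ := decide_U c1 a ha.1
  have ha' := ha.mono D h2
  refine ⟨c2, h2.trans h1, ?_⟩
  rcases h with h | h
  · exact ((ha'.UV_iff D).2 h).trans le_sup_left
  · exact (((ha'.compl D).UV_iff D).2 h).trans le_sup_right

theorem UV_inf (A : ℕ → 𝔹) (n : ℕ) : UV D A ≤ ⨆ k, ⨆ _ : n ≤ k, A k := by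
  refine D.le_of_exists fun c hc => ?_
  obtain ⟨c1, h1, a, ha⟩ := exists_rep D c A
  have h2 := (ha.UV_iff D).1 ((D.mono _ _ h1).trans hc)
  obtain ⟨r, hr, h3⟩ := LeW.infinite c1.fat h2 c1.p le_rfl
  obtain ⟨x, hx⟩ := r.body_nonempty
  obtain ⟨n0, -, h4⟩ := h3 x hx 0
  obtain ⟨m, hm, hnm, -⟩ := h4 n
  obtain ⟨r', hr', h5⟩ := exists_nbhd_const r hx ((ha.1 m).mono hr.2 hr.1)
  have hle : r' ≤ c1.p := hr'.le.trans hr
  refine ⟨c1.sub r' hle, (c1.sub_le r' hle).trans h1, ?_⟩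
  have h6 : D.e (c1.sub r' hle) ≤ A m := (ha.2 _ (c1.sub_le r' hle) m).1 fun y hy => by
    rw [h5 y hy]
    exact hm
  exact h6.trans (le_iSup₂_of_le m hnm le_rfl)

end Boolean

end Pool.Agent.QPt
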