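import Pool.Agent.QPt.UE
import Pool.Agent.QPt.UB
import Pool.Agent.QPt.UVal
import Pool.Agent.QPt.CoreMain

/-!
# Module UC: the Boolean-valued form of uniqueness
-/

set_option autoImplicit false
set_option linter.unusedSectionVars false
set_option linter.unusedVariables false

namespace Pool.Agent.QPt

open Set

variable {I : Type} [LinearOrder I] [WellFoundedLT I] {W : WName I}
variable {𝔹 : Type} [CompleteBooleanAlgebra 𝔹] (D : DEmb (Cond2 W) 𝔹)

namespace UC

/-- restriction to a neighbourhood of a point -/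
theorem sub_nbhd (c : Cond2 W) {x : Pt I} (hx : x ∈ c.p.body) {a : Pt I → Set ℕ}
    (ha : Nm c.p.body c.p.w a) {m : ℕ} (hm : m ∈ a x) :
    ∃ c' ≤ c, x ∈ c'.p.body ∧ ∀ y ∈ c'.p.body, m ∈ a y := by
  obtain ⟨r, hr, hrf⟩ := exists_nbhd_const c.p hx (ha m)
  refine ⟨c.sub r hr.le, c.sub_le r hr.le, hr.2.1, fun y hy => ?_⟩
  have h : (m ∈ a y) = (m ∈ a x) := hrf y hy
  rw [h]
  exact hm

variable {D}

/-- a name for the image of `a` under the bijection `g` -/
theorem nm_image {C : Set (Pt I)} {w : Set I} {g a : Pt I → Set ℕ} (hg : Nm C w g) (ha : Nm C w a)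
    (hb : ∀ x ∈ C, ∀ j, ∃! i, Nat.pair i j ∈ g x) :
    Nm C w (fun x => {j | ∃ i ∈ a x, Nat.pair i j ∈ g x}) := by
  intro m x hx
  obtain ⟨i, hi, hiu⟩ := hb x hx m
  obtain ⟨F, hF, n, hn⟩ := hg (Nat.pair i m) x hx
  obtain ⟨F', hF', n', hn'⟩ := ha i x hx
  classical
  refine ⟨F ∪ F', by rw [Finset.coe_union]; exact union_subset hF hF', max n n', fun y hy hag => ?_⟩
  have e1 : (Nat.pair i m ∈ g y) = (Nat.pair i m ∈ g x) := hn y hy (hag.mono (by rw [Finset.coe_union]; exact subset_union_left) (le_max_left _ _))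
  have e2 : (i ∈ a y) = (i ∈ a x) := hn' y hy (hag.mono (by rw [Finset.coe_union]; exact subset_union_right) (le_max_right _ _))
  have hiy : Nat.pair i m ∈ g y := by rw [e1]; exact hi
  apply propext
  constructor
  · rintro ⟨i', hi', hi'g⟩
    have : i' = i := (hb y hy m).unique hi'g hiy
    subst this
    exact ⟨i', by rw [← e2]; exact hi', hi⟩
  · rintro ⟨i', hi', hi'g⟩
    have : i' = i := hiu i' hi'g
    subst this
    exact ⟨i', by rw [e2]; exact hi', hiy⟩

end UC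

open UC in
theorem UV_uniq (hI : ∀ S : Set I, Cardinal.mk S ≤ Cardinal.continuum → ∃ β, ∀ γ ∈ S, γ < β)
    (hI' : ∀ β : I, Cardinal.mk (Iio β) ≤ Cardinal.continuum) {V : (ℕ → 𝔹) → 𝔹} {b : 𝔹}
    (hV : IsQV V b) : b ≤ ⨆ g : ℕ → ℕ → 𝔹, isoVal (UV D) V g := by
  apply D.le_of_exists
  intro c0 hc0
  by_contra hcon
  push Not at hcon
  -- an `EName` below `c0`
  obtain ⟨E, -⟩ := exists_EName D hV c0 hc0 (by
    intro c Γ hc hΓ h1 h2
    by_contra hno
    have hno' : ∀ c' ≤ c, ∀ A B : Pt I → Set ℕ, Nm c'.p.body c'.p.w A → LeW W c'.p c'.Z A →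
        VR D V c' B → ¬ ∀ x ∈ c'.p.body, ∀ i ∈ A x, ∀ j ∈ B x, Nat.pair i j ∉ Γ x :=
      fun c' hc' A B h1 h2 h3 h4 => hno ⟨c', hc', A, B, h1, h2, h3, h4⟩
    have hcb : ∀ c' ≤ c, D.e c' ≤ b := fun c' hc' => (D.mono _ _ (hc'.trans hc)).trans hc0
    -- the set of all natural numbers is in `V`
    have hnot : ∀ c' : Cond2 W, c' ≤ c → ∀ a : Pt I → Set ℕ, VR D V c' a →
        VR D V c' (fun x => (a x)ᶜ) → False := by
      rintro c' hc' a ⟨A, hA, hVA⟩ ⟨B, hB, hVB⟩
      have h3 : D.e c' ≤ V (fun m => A m ⊓ B m) :=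
        (le_inf (hcb c' hc') (le_inf hVA hVB)).trans (hV.inter A B)
      have h4 := (le_inf (hcb c' hc') h3).trans (hV.inf _ 0)
      have h5 : (⨆ k, ⨆ _ : 0 ≤ k, A k ⊓ B k) ≤ (D.e c')ᶜ := by
        refine iSup₂_le fun k _ => ?_
        have hAB := (hA.inter D hB)
        have hk : D.e c' ≤ (A k ⊓ B k)ᶜ := by
          refine (hAB.2 c' le_rfl k).2 fun x hx hk => hk.2 hk.1
        exact le_compl_comm.1 hk
      have h6 : D.e c' ≤ ⊥ := by
        have := le_inf le_rfl (h4.trans h5)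
        rwa [inf_compl_self] at this
      exact D.ne c' (le_bot_iff.1 h6)
    have hdec : ∀ c' ≤ c, ∀ a : Pt I → Set ℕ, Nm c'.p.body c'.p.w a →
        ∃ c'' ≤ c', VR D V c'' a ∨ VR D V c'' (fun x => (a x)ᶜ) := by
      intro c' hc' a ha
      have hr := rep_hat D c' a ha
      have h3 := (hcb c' hc').trans (hV.ultra (hat D c' a))
      obtain ⟨c'', hc'', h4⟩ := D.le_sup_iff.1 h3 c' le_rfl
      rcases h4 with h4 | h4
      · exact ⟨c'', hc'', Or.inl ⟨_, hr.mono D hc'', h4⟩⟩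
      · exact ⟨c'', hc'', Or.inr ⟨_, (hr.mono D hc'').compl D, h4⟩⟩
    have huniv : ∀ c' ≤ c, ∃ c'' ≤ c', VR D V c'' (fun _ => univ) := by
      intro c' hc'
      obtain ⟨c'', hc'', h | h⟩ := hdec c' hc' (fun _ => univ) (Nm.const _)
      · exact ⟨c'', hc'', h⟩
      · exfalso
        obtain ⟨A, hA, hVA⟩ := h
        have h4 := (le_inf (hcb c'' (hc''.trans hc')) hVA).trans (hV.inf _ 0)
        have h5 : (⨆ k, ⨆ _ : 0 ≤ k, A k) ≤ (D.e c'')ᶜ := by
          refine iSup₂_le fun k _ => ?_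
          have hk : D.e c'' ≤ (A k)ᶜ := by
            refine (hA.2 c'' le_rfl k).2 fun x hx hk => ?_
            exact hk (mem_univ _)
          exact le_compl_comm.1 hk
        have h6 : D.e c'' ≤ ⊥ := by
          have := le_inf le_rfl (h4.trans h5)
          rwa [inf_compl_self] at this
        exact D.ne c'' (le_bot_iff.1 h6)
    -- `dom Γ` meets every set in `U`
    have hD : ∀ c' ≤ c, ∀ A, Nm c'.p.body c'.p.w A → LeW W c'.p c'.Z A →
        ¬ ∀ x ∈ c'.p.body, ∀ i ∈ A x, ∀ j, Nat.pair i j ∉ Γ x := by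
      intro c' hc' A hA hL hall
      obtain ⟨c'', hc'', hu⟩ := huniv c' hc'
      refine hno' c'' (hc''.trans hc') A (fun _ => univ) (hA.mono hc''.1.2 hc''.1.1)
        ((hc''.2).trans (hL.mono hc''.1)) hu ?_
      exact fun x hx i hi j _ => hall x (hc''.1.2 hx) i hi j
    obtain ⟨c1, hc1, d, g, hd, hdL, hg, hgb⟩ := exists_bij c Γ hΓ h1 h2 hD
    -- images of sets in `U` are in `V`
    have himg : ∀ c' ≤ c1, ∀ a : Pt I → Set ℕ, Nm c'.p.body c'.p.w a → LeW W c'.p c'.Z a →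
        ∃ c'' ≤ c', VR D V c'' (fun x => {j | ∃ i ∈ a x, Nat.pair i j ∈ g x}) := by
      intro c' hc' a ha hL
      have hgb' : ∀ x ∈ c'.p.body, ∀ j, ∃! i, Nat.pair i j ∈ g x :=
        fun x hx => (hgb x (hc'.1.2 hx)).2.1
      have him := nm_image (hg.mono hc'.1.2 hc'.1.1) ha hgb'
      obtain ⟨c'', hc'', h | h⟩ := hdec c' (hc'.trans hc1) _ him
      · exact ⟨c'', hc'', h⟩
      · exfalso
        have hL1 : LeW W c''.p c''.Z a := hc''.2.trans (hL.mono hc''.1)
        have hL2 : LeW W c''.p c''.Z d :=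
          (hc''.trans hc').2.trans (hdL.mono (hc''.trans hc').1)
        refine hno' c'' (hc''.trans (hc'.trans hc1)) (fun x => a x ∩ d x) _
          ((ha.mono hc''.1.2 hc''.1.1).inter (hd.mono (hc''.trans hc').1.2 (hc''.trans hc').1.1))
          (hL1.inter hL2) h ?_
        rintro x hx i ⟨hia, hid⟩ j hj hij
        have hx1 : x ∈ c1.p.body := (hc''.trans hc').1.2 hx
        obtain ⟨j', hj', -⟩ := (hgb x hx1).1 i
        have hΓj' := (hgb x hx1).2.2 i hid j' hj'
        have : j = j' := h1 x (hc1.1.2 hx1) i j j' hij hΓj'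
        subst this
        exact hj ⟨i, hia, hj'⟩
    -- the name of the bijection
    have hgr := rep_hat D c1 g hg
    refine hcon c1 (hc1.trans hc) (le_trans ?_ (le_iSup _ (fun i j => hat D c1 g (Nat.pair i j))))
    refine le_inf (le_inf (le_inf ?_ ?_) (le_inf ?_ ?_)) ?_
    · refine le_iInf fun i => (D.le_iSup_iff).2 fun c' hc' => ?_
      obtain ⟨x, hx⟩ := c'.p.body_nonempty
      obtain ⟨j, hj, -⟩ := (hgb x (hc'.1.2 hx)).1 i
      obtain ⟨c'', hc'', hx', hall⟩ := sub_nbhd c' hx (hg.mono hc'.1.2 hc'.1.1) hj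
      exact ⟨c'', hc'', j, (hgr.2 c'' (hc''.trans hc') _).1 hall⟩
    · refine le_iInf fun j => (D.le_iSup_iff).2 fun c' hc' => ?_
      obtain ⟨x, hx⟩ := c'.p.body_nonempty
      obtain ⟨i, hi, -⟩ := (hgb x (hc'.1.2 hx)).2.1 j
      obtain ⟨c'', hc'', hx', hall⟩ := sub_nbhd c' hx (hg.mono hc'.1.2 hc'.1.1) hi
      exact ⟨c'', hc'', i, (hgr.2 c'' (hc''.trans hc') _).1 hall⟩
    · refine le_iInf fun i => le_iInf fun j => le_iInf fun k => le_iInf fun hjk => ?_
      rw [D.le_compl_iff]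
      intro c' hc' hle
      have e1 := (hgr.le_iff D hc' _).1 (hle.trans inf_le_left)
      have e2 := (hgr.le_iff D hc' _).1 (hle.trans inf_le_right)
      obtain ⟨x, hx⟩ := c'.p.body_nonempty
      exact hjk (((hgb x (hc'.1.2 hx)).1 i).unique (e1 x hx) (e2 x hx))
    · refine le_iInf fun i => le_iInf fun j => le_iInf fun k => le_iInf fun hij => ?_
      rw [D.le_compl_iff]
      intro c' hc' hle
      have e1 := (hgr.le_iff D hc' _).1 (hle.trans inf_le_left)
      have e2 := (hgr.le_iff D hc' _).1 (hle.trans inf_le_right)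
      obtain ⟨x, hx⟩ := c'.p.body_nonempty
      exact hij (((hgb x (hc'.1.2 hx)).2.1 k).unique (e1 x hx) (e2 x hx))
    · -- `U` is mapped to `V`
      -- representation of the image
      have hrepimg : ∀ c' ≤ c1, ∀ (a : Pt I → Set ℕ) (A : ℕ → 𝔹), Rep D c' a A →
          Rep D c' (fun x => {j | ∃ i ∈ a x, Nat.pair i j ∈ g x})
            (fun j => ⨆ i, hat D c1 g (Nat.pair i j) ⊓ A i) := by
        intro c' hc' a A hA
        have hgb' : ∀ x ∈ c'.p.body, ∀ j, ∃! i, Nat.pair i j ∈ g x :=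
          fun x hx => (hgb x (hc'.1.2 hx)).2.1
        refine ⟨nm_image (hg.mono hc'.1.2 hc'.1.1) hA.1 hgb', fun c'' hc'' m => ⟨fun hm => ?_, fun hm => ?_⟩⟩
        · refine (D.le_iSup_iff).2 fun c3 hc3 => ?_
          obtain ⟨x, hx⟩ := c3.p.body_nonempty
          obtain ⟨i, hia, hig⟩ := hm x (hc3.1.2 hx)
          have hc31 : c3 ≤ c1 := hc3.trans (hc''.trans hc')
          obtain ⟨c4, hc4, hx4, hall4⟩ := sub_nbhd c3 hx (hg.mono hc31.1.2 hc31.1.1) hig
          have hc4' : c4 ≤ c' := hc4.trans (hc3.trans hc'')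
          obtain ⟨c5, hc5, hx5, hall5⟩ := sub_nbhd c4 hx4 (hA.1.mono hc4'.1.2 hc4'.1.1) hia
          refine ⟨c5, hc5.trans hc4, i, le_inf ?_ ?_⟩
          · exact (hgr.2 c5 (hc5.trans (hc4.trans hc31)) _).1 fun y hy => hall4 y (hc5.1.2 hy)
          · exact (hA.2 c5 (hc5.trans hc4') _).1 hall5
        · rw [D.le_compl_iff]
          intro c3 hc3 hle
          obtain ⟨c4, hc4, i, hi⟩ := (D.le_iSup_iff).1 hle c3 le_rfl
          have hc41 : c4 ≤ c' := hc4.trans (hc3.trans hc'')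
          have e1 := (hgr.le_iff D (hc41.trans hc') _).1 (hi.trans inf_le_left)
          have e2 := (hA.le_iff D hc41 _).1 (hi.trans inf_le_right)
          obtain ⟨x, hx⟩ := c4.p.body_nonempty
          exact hm x ((hc4.trans hc3).1.2 hx) ⟨i, e2 x hx, e1 x hx⟩
      -- first direction, densely
      have hdir : ∀ (A : ℕ → 𝔹), ∀ c' ≤ c1, D.e c' ≤ UV D A →
          D.e c' ≤ V (fun j => ⨆ i, hat D c1 g (Nat.pair i j) ⊓ A i) := by
        intro A c' hc' hU
        apply D.le_of_dense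
        intro c2 hc2
        obtain ⟨c3, hc3, a, ha⟩ := exists_rep D c2 A
        have hL : LeW W c3.p c3.Z a :=
          (ha.UV_iff D).1 ((D.mono _ _ (hc3.trans hc2)).trans hU)
        obtain ⟨c4, hc4, h4⟩ := himg c3 (hc3.trans (hc2.trans hc')) a ha.1 hL
        refine ⟨c4, hc4.trans hc3, ?_⟩
        have hc41 : c4 ≤ c1 := hc4.trans (hc3.trans (hc2.trans hc'))
        exact (VR.iff D hV (hcb c4 (hc41.trans hc1))
          (hrepimg c4 hc41 a A (ha.mono D hc4))).1 h4
      refine le_iInf fun A => le_inf ?_ ?_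
      · rw [D.le_himp_iff]
        exact fun c' hc' hU => hdir A c' hc' hU
      · rw [D.le_himp_iff]
        intro c' hc' hVA
        apply D.le_of_dense
        intro c2 hc2
        have htop : D.e c2 ≤ UV D A ⊔ UV D (fun m => (A m)ᶜ) := by
          rw [UV_ultra D A]; exact le_top
        obtain ⟨c3, hc3, h3 | h3⟩ := (D.le_sup_iff).1 htop c2 le_rfl
        · exact ⟨c3, hc3, h3⟩
        · exfalso
          have hc31 : c3 ≤ c1 := hc3.trans (hc2.trans hc')
          have h4 := hdir _ c3 hc31 h3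
          have h5 := (D.mono _ _ (hc3.trans hc2)).trans hVA
          obtain ⟨c4, hc4, a, ha⟩ := exists_rep D c3 A
          have hc41 : c4 ≤ c1 := hc4.trans hc31
          have e1 : VR D V c4 (fun x => {j | ∃ i ∈ a x, Nat.pair i j ∈ g x}) :=
            (VR.iff D hV (hcb c4 (hc41.trans hc1)) (hrepimg c4 hc41 a A ha)).2
              ((D.mono _ _ hc4).trans h5)
          have e2 : VR D V c4 (fun x => {j | ∃ i ∈ (a x)ᶜ, Nat.pair i j ∈ g x}) :=
            (VR.iff D hV (hcb c4 (hc41.trans hc1)) (hrepimg c4 hc41 _ _ (ha.compl D))).2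
              ((D.mono _ _ hc4).trans h4)
          refine hnot c4 (hc41.trans hc1) _ e1 ?_
          obtain ⟨B, hB, hVB⟩ := e2
          refine ⟨B, ?_, hVB⟩
          have heq : ∀ x ∈ c4.p.body, {j | ∃ i ∈ a x, Nat.pair i j ∈ g x}ᶜ =
              {j | ∃ i ∈ (a x)ᶜ, Nat.pair i j ∈ g x} := by
            intro x hx
            have hbx := hgb x (hc41.1.2 hx)
            ext j
            constructor
            · intro hj
              obtain ⟨i, hi, -⟩ := hbx.2.1 j
              exact ⟨i, fun hia => hj ⟨i, hia, hi⟩, hi⟩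
            · rintro ⟨i, hia, hi⟩ ⟨i', hi'a, hi'⟩
              have : i' = i := (hbx.2.1 j).unique hi' hi
              subst this
              exact hia hi'a
          have hiff : ∀ c' ≤ c4, ∀ m, ∀ x ∈ c'.p.body,
              (m ∈ {j | ∃ i ∈ a x, Nat.pair i j ∈ g x}ᶜ ↔
                m ∈ {j | ∃ i ∈ (a x)ᶜ, Nat.pair i j ∈ g x}) := by
            intro c' hc' m x hx
            rw [heq x (hc'.1.2 hx)]
          refine ⟨hB.1.congr heq, fun c' hc' m => ⟨fun h => ?_, fun h => ?_⟩⟩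
          · exact (hB.2 c' hc' m).1 fun x hx => (hiff c' hc' m x hx).1 (h x hx)
          · exact (hB.2 c' hc' m).2 fun x hx hm => h x hx ((hiff c' hc' m x hx).2 hm))
  exact no_EName hI hI' E

end Pool.Agent.QPt
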