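import Pool.Agent.QPt.LocConst

/-!
# A lower bound for a sequence of conditions of the second forcing
-/

set_option autoImplicit false
set_option linter.unusedSectionVars false

namespace Pool.Agent.QPt

open Set

variable {I : Type} [LinearOrder I] [WellFoundedLT I] {W : WName I}

namespace PseudoInter

/-- the columns which are good up to `k` -/
def good (T : ℕ → Pt I → Set ℕ) (k : ℕ) (x : Pt I) : Set ℕ := {n | ∀ j < k, n ∈ T j x}

theorem good_R (p : Cond I) (T : ℕ → Pt I → Set ℕ) (hT : ∀ k, W.R p (T k)) (k : ℕ) :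
    W.R p (good T k) := by
  induction k with
  | zero =>
    have : good T 0 = fun _ => Ici 0 := by
      funext x
      ext n
      simp [good]
    rw [this]
    exact W.cofin p 0
  | succ k ih =>
    have : good T (k + 1) = fun x => good T k x ∩ T k x := by
      funext x
      ext n
      simp only [good, mem_ofPred_eq, mem_inter_iff]
      constructor
      · intro h
        exact ⟨fun j hj => h j (by omega), h k (Nat.lt_succ_self k)⟩
      · rintro ⟨h1, h2⟩ j hj
        rcases Nat.lt_succ_iff_lt_or_eq.1 hj with h | rfl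
        · exact h1 j h
        · exact h2
    rw [this]
    exact W.inter p _ _ ih (hT k)

end PseudoInter

open PseudoInter

/-- a lower bound for a sequence of conditions with the same first coordinate -/
theorem pseudo_inter (p : Cond I) (Z : ℕ → Pt I → Set ℕ) (hZ : ∀ k, Nm p.body p.w (Z k))
    (hF : ∀ k, ∀ x ∈ p.body, Fat (Z k x)) (T : ℕ → Pt I → Set ℕ)
    (hT : ∀ k, W.R p (T k))
    (h : ∀ k, ∀ x ∈ p.body, ∀ n ∈ T k x, {m | m ∈ Z (k + 1) x ∧ lam m = n ∧ m ∉ Z k x}.Finite) :
    ∃ Y : Pt I → Set ℕ, Nm p.body p.w Y ∧ (∀ x ∈ p.body, Fat (Y x)) ∧ ∀ k, LeW W p Y (Z k) := by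
  classical
  refine ⟨fun x => {m | ∀ k ≤ lam m, (∀ j < k, lam m ∈ T j x) → m ∈ Z k x}, ?_, ?_, ?_⟩
  · intro m x hx
    obtain ⟨F, hFw, n, hn⟩ := LC.finset (C := p.body) (w := p.w) (Finset.range (lam m + 1))
      (f := fun k x => (lam m ∈ T k x, m ∈ Z k x))
      (fun k _ => ((W.nm p _ (hT k)) (lam m)).prod (hZ k m)) x hx
    refine ⟨F, hFw, n, fun y hy hxy => ?_⟩
    have h1 := hn y hy hxy
    have h2 : ∀ k ≤ lam m, (lam m ∈ T k y ↔ lam m ∈ T k x) ∧ (m ∈ Z k y ↔ m ∈ Z k x) := by
      intro k hk
      have := h1 k (Finset.mem_range.2 (by omega))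
      simp only [Prod.mk.injEq] at this
      exact ⟨iff_of_eq this.1, iff_of_eq this.2⟩
    refine propext ?_
    change (∀ k ≤ lam m, (∀ j < k, lam m ∈ T j y) → m ∈ Z k y) ↔
      ∀ k ≤ lam m, (∀ j < k, lam m ∈ T j x) → m ∈ Z k x
    constructor
    · intro H k hk hj
      exact (h2 k hk).2.1 (H k hk fun j hjk => (h2 j (by omega)).1.2 (hj j hjk))
    · intro H k hk hj
      exact (h2 k hk).2.2 (H k hk fun j hjk => (h2 j (by omega)).1.1 (hj j hjk))
  · intro x hx n N
    -- the largest good index
    set q : ℕ → Prop := fun k => ∀ j < k, n ∈ T j x with hq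
    set M := Nat.findGreatest q n with hM
    have hqM : q M := Nat.findGreatest_spec (P := q) (Nat.zero_le n)
      (fun j hj => absurd hj (Nat.not_lt_zero j))
    have hfin : ∀ d k, k + d = M → {m | m ∈ Z M x ∧ lam m = n ∧ m ∉ Z k x}.Finite := by
      intro d
      induction d with
      | zero =>
        intro k hk
        have hk' : k = M := hk
        subst hk'
        refine Set.finite_empty.subset ?_
        rintro m ⟨h1, -, h2⟩
        exact h2 h1
      | succ d ih =>
        intro k hk
        refine ((ih (k + 1) (by omega)).union (h k x hx n (hqM k (by omega)))).subset ?_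
        rintro m ⟨h1, h2, h3⟩
        by_cases hm : m ∈ Z (k + 1) x
        · exact Or.inr ⟨hm, h2, h3⟩
        · exact Or.inl ⟨h1, h2, hm⟩
    have hfin' : (⋃ k ∈ Finset.range (M + 1), {m | m ∈ Z M x ∧ lam m = n ∧ m ∉ Z k x}).Finite := by
      refine Set.Finite.biUnion (Finset.finite_toSet _) ?_
      intro k hk
      have hk' : k ≤ M := by
        have := Finset.mem_range.1 hk
        omega
      exact hfin (M - k) k (by omega)
    obtain ⟨B, hB⟩ := hfin'.bddAbove
    obtain ⟨a, ha, hNa, hna⟩ := hF M x hx n (max N (B + 1))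
    have h1 : N ≤ a := (le_max_left _ _).trans hNa
    have h2 : B + 1 ≤ a := (le_max_right _ _).trans hNa
    refine ⟨a, ?_, h1, hna⟩
    intro k hk hj
    rw [hna] at hk hj
    have hkM : k ≤ M := Nat.le_findGreatest hk hj
    by_contra hc
    have : a ≤ B := by
      apply hB
      rw [Set.mem_iUnion₂]
      exact ⟨k, Finset.mem_range.2 (by omega), ha, hna, hc⟩
    omega
  · intro k r hr
    refine ⟨r, le_rfl, fun x => good T k x ∩ Ici k, W.inter r _ _ (W.mono p r _ (good_R p T hT k) hr)
      (W.cofin r k), ?_⟩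
    intro x hx n hn
    refine Set.finite_empty.subset ?_
    rintro m ⟨h1, h2, h3⟩
    refine h3 (h1 k ?_ ?_)
    · rw [h2]; exact hn.2
    · rw [h2]; exact hn.1

end Pool.Agent.QPt
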