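import Pool.Agent.QPt.Seq
import Pool.Agent.QPt.CRMain
import Pool.Agent.QPt.PseudoInter
import Pool.Agent.QPt.CondTwo
import Pool.Agent.QPt.Nbhd

/-!
# Reading dense sets of the second forcing
-/

set_option autoImplicit false
set_option linter.unusedSectionVars false

namespace Pool.Agent.QPt

open Set

variable {I : Type} [LinearOrder I] [WellFoundedLT I] {W : WName I}

namespace ReadTwo

/-- The state of the recursion: a name of a fat set and a name of a set of columns. -/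
abbrev St (I : Type) : Type := (Pt I → Set ℕ) × (Pt I → Set ℕ)

/-- invariant -/
def Inv (c : Cond2 W) (b : Cond I) (s : St I) : Prop :=
  b ≤ c.p ∧ Nm b.body b.w s.1 ∧ (∀ x ∈ b.body, Fat (s.1 x)) ∧ LeW W b s.1 c.Z

/-- next step -/
def Nx (D : ℕ → Set (Cond2 W)) (j : ℕ) (b : Cond I) (s s' : St I) : Prop :=
  (∃ hn hf, (⟨b, s'.1, hn, hf⟩ : Cond2 W) ∈ D j) ∧ W.R b s'.2 ∧
    ∀ x ∈ b.body, ∀ n ∈ s'.2 x, {m | m ∈ s'.1 x ∧ lam m = n ∧ m ∉ s.1 x}.Finite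

theorem Inv.mono {c : Cond2 W} {b b' : Cond I} {s : St I} (hb : b' ≤ b) (h : Inv c b s) :
    Inv c b' s :=
  ⟨hb.trans h.1, h.2.1.mono hb.2 hb.1, fun x hx => h.2.2.1 x (hb.2 hx), h.2.2.2.mono hb⟩

theorem Nx.mono {D : ℕ → Set (Cond2 W)} (hopen : ∀ k, ∀ c' ∈ D k, ∀ c'' ≤ c', c'' ∈ D k) {j : ℕ}
    {b b' : Cond I} {s s' : St I} (hb : b' ≤ b) (h : Nx D j b s s') : Nx D j b' s s' := by
  obtain ⟨⟨hn, hf, hD⟩, h2, h3⟩ := h
  refine ⟨⟨hn.mono hb.2 hb.1, fun x hx => hf x (hb.2 hx), ?_⟩, W.mono _ _ _ h2 hb,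
    fun x hx => h3 x (hb.2 hx)⟩
  exact hopen j _ hD _ (Cond2.sub_le (⟨b, s'.1, hn, hf⟩ : Cond2 W) b' hb)

/-- a name which is locally given by names -/
theorem nm_diag {b : Cond I} {a : Pt I → Set ℕ}
    (h : ∀ x ∈ b.body, ∃ r, OpenRes r b x ∧ ∃ g : Pt I → Set ℕ, Nm r.body r.w g ∧
      ∀ y ∈ r.body, a y = g y) : Nm b.body b.w a := by
  intro m
  refine LC.local ?_
  intro x hx
  obtain ⟨r, ⟨hw, hxr, -, F, hF, n, hFn⟩, g, hg, hag⟩ := h x hx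
  refine ⟨F, hF, n, fun y => m ∈ g y, ?_, ?_⟩
  · refine (hg m).mono ?_ (by rw [hw])
    rintro y ⟨hy1, hy2⟩
    exact hFn y hy1 hy2
  · intro y hy hya
    have := hag y (hFn y hy hya)
    simp only [this]

end ReadTwo

open ReadTwo in
theorem read2 (c : Cond2 W) (D : ℕ → Set (Cond2 W)) (hopen : ∀ k, ∀ c' ∈ D k, ∀ c'' ≤ c', c'' ∈ D k)
    (hd : ∀ k, ∀ c' ≤ c, ∃ c'' ≤ c', c'' ∈ D k) :
    ∃ c' ≤ c, ∀ k, ∀ x ∈ c'.p.body, ∃ d ∈ D k, OpenRes d.p c'.p x ∧ d.Z = c'.Z := by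
  have hCR : CR (univ : Set I) := cr_all univ isLowerSet_univ
  obtain ⟨b, hb, -, S, hS0, hSL, hS⟩ := seq_choice (σ := St I) univ isLowerSet_univ hCR
    (fun _ b s => Inv c b s) (fun j b s s' => Nx D j b s s')
    (fun j b b' s hb _ h => Inv.mono hb h) (fun j b b' s s' hb _ h => Nx.mono hopen hb h)
    (by
      rintro j b s - h
      obtain ⟨c'', hc'', hD⟩ := hd j ⟨b, s.1, h.2.1, h.2.2.1⟩ ⟨h.1, h.2.2.2⟩
      obtain ⟨r, hr, T, hT, hfin⟩ := hc''.2 c''.p le_rfl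
      have hrb : r ≤ b := hr.trans hc''.1
      refine ⟨r, hrb, subset_univ _, (c''.Z, T), ⟨⟨c''.nm.mono hr.2 hr.1,
        fun x hx => c''.fat x (hr.2 hx), ?_⟩, hT, hfin⟩, hrb.trans h.1, c''.nm.mono hr.2 hr.1,
        fun x hx => c''.fat x (hr.2 hx), ?_⟩
      · exact hopen j _ hD _ (Cond2.sub_le c'' r hr)
      · exact (hc''.2.mono hr).trans (h.2.2.2.mono hrb))
    c.p (subset_univ _) (c.Z, fun _ => univ)
    ⟨le_rfl, c.nm, c.fat, LeW.of_subset fun _ _ => Subset.rfl⟩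
  -- the names
  set Z : ℕ → Pt I → Set ℕ := fun j x => (S j x).1 x with hZdef
  set T : ℕ → Pt I → Set ℕ := fun j x => (S (j + 1) x).2 x with hTdef
  have hZeq : ∀ j, ∀ x ∈ b.body, ∃ r, OpenRes r b x ∧ Inv c r (S j x) ∧
      Nx D j r (S j x) (S (j + 1) x) ∧ (∀ y ∈ r.body, Z j y = (S j x).1 y) ∧
      (∀ y ∈ r.body, Z (j + 1) y = (S (j + 1) x).1 y) ∧
      ∀ y ∈ r.body, T j y = (S (j + 1) x).2 y := by
    intro j x hx
    obtain ⟨r, hr, h1, h2, h3⟩ := hS j x hx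
    refine ⟨r, hr, h1, h2, fun y hy => ?_, fun y hy => ?_, fun y hy => ?_⟩
    · simp only [hZdef, (h3 y hy).1]
    · simp only [hZdef, (h3 y hy).2]
    · simp only [hTdef, (h3 y hy).2]
  have hZnm : ∀ k, Nm b.body b.w (Z k) := by
    intro k
    refine nm_diag fun x hx => ?_
    obtain ⟨r, hr, h1, -, h3, -, -⟩ := hZeq k x hx
    exact ⟨r, hr, (S k x).1, h1.2.1, h3⟩
  have hZfat : ∀ k, ∀ x ∈ b.body, Fat (Z k x) := by
    intro k x hx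
    obtain ⟨r, hr, h1, -, h3, -, -⟩ := hZeq k x hx
    rw [h3 x hr.2.1]
    exact h1.2.2.1 x hr.2.1
  have hTnm : ∀ k, Nm b.body b.w (T k) := by
    intro k
    refine nm_diag fun x hx => ?_
    obtain ⟨r, hr, -, h2, -, -, h5⟩ := hZeq k x hx
    exact ⟨r, hr, (S (k + 1) x).2, W.nm _ _ h2.2.1, h5⟩
  have hTR : ∀ k, W.R b (T k) := by
    intro k
    refine W.loc b (T k) (hTnm k) fun q hq => ?_
    obtain ⟨x, hx⟩ := q.body_nonempty
    obtain ⟨r, hr, -, h2, -, -, h5⟩ := hZeq k x (hq.2 hx)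
    obtain ⟨r', hr', hle⟩ := OpenRes.pull hr hq hx
    refine ⟨r', hr'.le, ?_⟩
    refine W.up r' _ _ (W.mono _ _ _ h2.2.1 hle) ?_ ?_
    · have hrb : r' ≤ b := hr'.le.trans hq
      exact (hTnm k).mono hrb.2 hrb.1
    · intro y hy
      rw [h5 y (hle.2 hy)]
  obtain ⟨Y, hYn, hYf, hYle⟩ := pseudo_inter b Z hZnm hZfat T hTR (by
    intro k x hx n hn
    obtain ⟨r, hr, -, h2, h3, h4, h5⟩ := hZeq k x hx
    have hxr := hr.2.1
    have := h2.2.2 x hxr n (by rw [← h5 x hxr]; exact hn)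
    rw [h4 x hxr, h3 x hxr]
    exact this)
  refine ⟨⟨b, Y, hYn, hYf⟩, ⟨hb, ?_⟩, ?_⟩
  · refine LeW.congr (hYle 0) (fun _ _ => rfl) fun x hx => ?_
    simp only [hZdef, hS0 x hx]
  · intro k x hx
    obtain ⟨r, hr, -, h2, -, h4, -⟩ := hZeq k x hx
    obtain ⟨⟨hn, hf, hD⟩, -, -⟩ := h2
    have hrb : r ≤ b := hr.le
    refine ⟨⟨r, Y, hYn.mono hrb.2 hrb.1, fun y hy => hYf y (hrb.2 hy)⟩, ?_, hr, rfl⟩
    refine hopen k _ hD _ ⟨le_rfl, ?_⟩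
    exact LeW.congr ((hYle (k + 1)).mono hrb) (fun _ _ => rfl) fun y hy => (h4 y hy).symm

end Pool.Agent.QPt
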