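import Pool.Agent.QPt.Dense
import Pool.Agent.QPt.ReadTwo
import Pool.Agent.QPt.QCoreDefs

/-!
# Names and sequences of Boolean values
-/

set_option autoImplicit false
set_option linter.unusedSectionVars false
set_option linter.unusedVariables false

namespace Pool.Agent.QPt

open Set

variable {I : Type} [LinearOrder I] [WellFoundedLT I]

variable {W : WName I}

section Boolean

variable {𝔹 : Type} [CompleteBooleanAlgebra 𝔹] (D : DEmb (Cond2 W) 𝔹)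

namespace RepAux

/-- a neighbourhood of a point in a condition of the second forcing -/
theorem sub_le_of {c c' d : Cond2 W} (hc : c' ≤ c) {r : Cond I} (hr : r ≤ c'.p) (hrd : r ≤ d.p)
    (hZ : d.Z = c.Z) : c'.sub r hr ≤ d := by
  refine ⟨hrd, ?_⟩
  have h1 : LeW W r c'.Z c.Z := hc.2.mono hr
  rw [← hZ] at h1
  exact h1

theorem openRes_nbhd {r q : Cond I} {x : Pt I} (h : OpenRes r q x) :
    ∃ F : Finset I, (F : Set I) ⊆ q.w ∧ ∃ n, ∀ y ∈ q.body, Agree (F : Set I) n x y →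
      OpenRes r q y := by
  obtain ⟨hw, hx, hsub, F, hF, n, hn⟩ := h
  refine ⟨F, hF, n, fun y hy hxy => ⟨hw, hn y hy hxy, hsub, F, hF, n, fun z hz hyz => ?_⟩⟩
  exact hn z hz (hxy.trans hyz)

end RepAux

theorem Rep.mono {c c' : Cond2 W} {a : Pt I → Set ℕ} {A : ℕ → 𝔹} (h : Rep D c a A) (hc : c' ≤ c) :
    Rep D c' a A :=
  ⟨h.1.mono hc.1.2 hc.1.1, fun c'' hc'' m => h.2 c'' (hc''.trans hc) m⟩

theorem rep_hat (c : Cond2 W) (a : Pt I → Set ℕ) (ha : Nm c.p.body c.p.w a) :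
    Rep D c a (hat D c a) := by
  refine ⟨ha, fun c' hc' m => ⟨fun h => ?_, fun h => ?_⟩⟩
  · exact le_iSup (fun c' : {c' : Cond2 W // c' ≤ c ∧ ∀ x ∈ c'.p.body, m ∈ a x} => D.e c'.1)
      ⟨c', hc', h⟩
  · rw [D.le_compl_iff]
    intro q hq hle
    obtain ⟨r, hr, i, hi⟩ := D.le_iSup_iff.1 hle q le_rfl
    have h1 : D.e r ⊓ D.e i.1 ≠ ⊥ := by
      rw [inf_eq_left.2 hi]
      exact D.ne r
    obtain ⟨s, hs, hs'⟩ := D.compat _ _ h1
    obtain ⟨x, hx⟩ := s.p.body_nonempty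
    exact h x ((hs.trans (hr.trans hq)).1.2 hx) (i.2.2 x (hs'.1.2 hx))

theorem exists_rep (c : Cond2 W) (A : ℕ → 𝔹) : ∃ c' ≤ c, ∃ a, Rep D c' a A := by
  obtain ⟨c', hc', hread⟩ := read2 c (fun m => {d | D.e d ≤ A m ∨ D.e d ≤ (A m)ᶜ})
    (by
      intro k c1 h1 c2 h2
      rcases h1 with h1 | h1
      · exact Or.inl ((D.mono _ _ h2).trans h1)
      · exact Or.inr ((D.mono _ _ h2).trans h1))
    (by
      intro k c1 h1
      by_cases h2 : D.e c1 ⊓ A k = ⊥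
      · exact ⟨c1, le_rfl, Or.inr (disjoint_iff.2 h2).le_compl_right⟩
      · obtain ⟨q, hq, hq'⟩ := D.exists_below h2
        exact ⟨q, hq, Or.inl hq'⟩)
  set a : Pt I → Set ℕ := fun x =>
    {m | ∃ d : Cond2 W, D.e d ≤ A m ∧ OpenRes d.p c'.p x ∧ d.Z = c'.Z} with ha
  have hexcl : ∀ (m : ℕ) (x : Pt I) (d d' : Cond2 W), D.e d ≤ A m → D.e d' ≤ (A m)ᶜ →
      OpenRes d.p c'.p x → OpenRes d'.p c'.p x → d.Z = c'.Z → d'.Z = c'.Z → False := by
    intro m x d d' h1 h2 h3 h4 h5 h6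
    obtain ⟨s, hs, hs1, hs2⟩ := h3.inf h4
    have e1 : c'.sub s hs.le ≤ d := RepAux.sub_le_of le_rfl hs.le hs1 h5
    have e2 : c'.sub s hs.le ≤ d' := RepAux.sub_le_of le_rfl hs.le hs2 h6
    exact D.false_of ((D.mono _ _ e1).trans h1) ((D.mono _ _ e2).trans h2)
  refine ⟨c', hc', a, ?_, ?_⟩
  · intro m x hx
    obtain ⟨d, hd, hdo, hdZ⟩ := hread m x hx
    obtain ⟨F, hF, n, hn⟩ := RepAux.openRes_nbhd hdo
    refine ⟨F, hF, n, fun y hy hxy => ?_⟩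
    have hdy := hn y hy hxy
    rcases hd with hd | hd
    · have h1 : m ∈ a x := ⟨d, hd, hdo, hdZ⟩
      have h2 : m ∈ a y := ⟨d, hd, hdy, hdZ⟩
      exact propext ⟨fun _ => h1, fun _ => h2⟩
    · have h1 : m ∉ a x := by
        rintro ⟨d', h3, h4, h5⟩
        exact hexcl m x d' d h3 hd h4 hdo h5 hdZ
      have h2 : m ∉ a y := by
        rintro ⟨d', h3, h4, h5⟩
        exact hexcl m y d' d h3 hd h4 hdy h5 hdZ
      exact propext ⟨fun h => absurd h h2, fun h => absurd h h1⟩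
  · intro c'' hc'' m
    constructor
    · intro h
      refine D.le_of_dense fun q hq => ?_
      obtain ⟨x, hx⟩ := q.p.body_nonempty
      obtain ⟨d, hd, hdo, hdZ⟩ := h x (hq.1.2 hx)
      obtain ⟨r, hr, hrd⟩ := hdo.pull (hq.trans hc'').1 hx
      exact ⟨q.sub r hr.le, q.sub_le r _,
        (D.mono _ _ (RepAux.sub_le_of (hq.trans hc'') hr.le hrd hdZ)).trans hd⟩
    · intro h
      refine D.le_of_dense fun q hq => ?_
      obtain ⟨x, hx⟩ := q.p.body_nonempty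
      have hxc : x ∈ c'.p.body := (hq.trans hc'').1.2 hx
      obtain ⟨d, hd, hdo, hdZ⟩ := hread m x hxc
      have hd' : D.e d ≤ (A m)ᶜ := by
        rcases hd with hd | hd
        · exact absurd ⟨d, hd, hdo, hdZ⟩ (h x (hq.1.2 hx))
        · exact hd
      obtain ⟨r, hr, hrd⟩ := hdo.pull (hq.trans hc'').1 hx
      exact ⟨q.sub r hr.le, q.sub_le r _,
        (D.mono _ _ (RepAux.sub_le_of (hq.trans hc'') hr.le hrd hdZ)).trans hd'⟩

theorem Rep.le_iff {c c' : Cond2 W} {a : Pt I → Set ℕ} {A : ℕ → 𝔹} (h : Rep D c a A) (hc : c' ≤ c)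
    (m : ℕ) : D.e c' ≤ A m ↔ ∀ x ∈ c'.p.body, m ∈ a x := by
  constructor
  · intro h1 x hx
    by_contra hc1
    obtain ⟨r, hr, hr'⟩ := exists_nbhd_const c'.p hx ((h.1 m).mono hc.1.2 hc.1.1)
    have h2 : D.e (c'.sub r hr.le) ≤ (A m)ᶜ :=
      (h.2 _ ((c'.sub_le r _).trans hc) m).2 fun y hy h3 => by
        rw [hr' y hy] at h3
        exact hc1 h3
    exact D.false_of ((D.mono _ _ (c'.sub_le r hr.le)).trans h1) h2
  · exact (h.2 c' hc m).1

theorem Rep.le_compl_iff {c c' : Cond2 W} {a : Pt I → Set ℕ} {A : ℕ → 𝔹} (h : Rep D c a A)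
    (hc : c' ≤ c) (m : ℕ) : D.e c' ≤ (A m)ᶜ ↔ ∀ x ∈ c'.p.body, m ∉ a x := by
  constructor
  · intro h1 x hx hc1
    obtain ⟨r, hr, hr'⟩ := exists_nbhd_const c'.p hx ((h.1 m).mono hc.1.2 hc.1.1)
    have h2 : D.e (c'.sub r hr.le) ≤ A m :=
      (h.2 _ ((c'.sub_le r _).trans hc) m).1 fun y hy => by
        rw [hr' y hy]
        exact hc1
    exact D.false_of h2 ((D.mono _ _ (c'.sub_le r hr.le)).trans h1)
  · exact (h.2 c' hc m).2

theorem Rep.le_himp_iff {c c' : Cond2 W} {a b : Pt I → Set ℕ} {A B : ℕ → 𝔹} (h : Rep D c a A)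
    (h' : Rep D c b B) (hc : c' ≤ c) (m : ℕ) :
    D.e c' ≤ A m ⇨ B m ↔ ∀ x ∈ c'.p.body, m ∈ a x → m ∈ b x := by
  rw [D.le_himp_iff]
  constructor
  · intro h1 x hx hma
    by_contra hmb
    obtain ⟨r, hr, hr'⟩ := exists_nbhd_const c'.p hx
      (((h.1 m).mono hc.1.2 hc.1.1).prod ((h'.1 m).mono hc.1.2 hc.1.1))
    have e1 : ∀ y ∈ r.body, m ∈ a y := fun y hy => by
      have := congrArg Prod.fst (hr' y hy)
      simp only at this
      rw [this]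
      exact hma
    have e2 : ∀ y ∈ r.body, m ∉ b y := fun y hy => by
      have := congrArg Prod.snd (hr' y hy)
      simp only at this
      rw [this]
      exact hmb
    have hs := c'.sub_le r hr.le
    have h2 : D.e (c'.sub r hr.le) ≤ A m := (h.2 _ (hs.trans hc) m).1 e1
    have h3 : D.e (c'.sub r hr.le) ≤ (B m)ᶜ := (h'.2 _ (hs.trans hc) m).2 e2
    exact D.false_of (h1 _ hs h2) h3
  · intro h1 q hq h2
    rw [h.le_iff D (hq.trans hc)] at h2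
    exact (h'.2 q (hq.trans hc) m).1 fun x hx => h1 x (hq.1.2 hx) (h2 x hx)

theorem Rep.himp_le {c c' : Cond2 W} {a b : Pt I → Set ℕ} {A B : ℕ → 𝔹} (h : Rep D c a A)
    (h' : Rep D c b B) (hc : c' ≤ c) :
    D.e c' ≤ ⨅ m, (A m ⇨ B m) ↔ ∀ x ∈ c'.p.body, a x ⊆ b x := by
  rw [le_iInf_iff]
  constructor
  · intro h1 x hx m hm
    exact (h.le_himp_iff D h' hc m).1 (h1 m) x hx hm
  · intro h1 m
    exact (h.le_himp_iff D h' hc m).2 fun x hx hm => h1 x hx hm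

theorem Rep.bi_le {c c' : Cond2 W} {a b : Pt I → Set ℕ} {A B : ℕ → 𝔹} (h : Rep D c a A)
    (h' : Rep D c b B) (hc : c' ≤ c) :
    D.e c' ≤ ⨅ m, bi (A m) (B m) ↔ ∀ x ∈ c'.p.body, a x = b x := by
  have e1 : (⨅ m, bi (A m) (B m)) = (⨅ m, (A m ⇨ B m)) ⊓ ⨅ m, (B m ⇨ A m) := by
    unfold bi
    exact iInf_inf_eq
  rw [e1, le_inf_iff, h.himp_le D h' hc, h'.himp_le D h hc]
  constructor
  · rintro ⟨h1, h2⟩ x hx
    exact Subset.antisymm (h1 x hx) (h2 x hx)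
  · intro h1
    exact ⟨fun x hx => (h1 x hx).subset, fun x hx => (h1 x hx).superset⟩

theorem Rep.inter {c : Cond2 W} {a b : Pt I → Set ℕ} {A B : ℕ → 𝔹} (h : Rep D c a A)
    (h' : Rep D c b B) : Rep D c (fun x => a x ∩ b x) (fun m => A m ⊓ B m) := by
  refine ⟨h.1.inter h'.1, fun c' hc' m => ⟨fun h1 => ?_, fun h1 => ?_⟩⟩
  · exact le_inf ((h.2 c' hc' m).1 fun x hx => (h1 x hx).1)
      ((h'.2 c' hc' m).1 fun x hx => (h1 x hx).2)
  · rw [D.le_compl_iff]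
    intro q hq h2
    obtain ⟨x, hx⟩ := q.p.body_nonempty
    have h3 := (h.le_iff D (hq.trans hc') m).1 (h2.trans inf_le_left) x hx
    have h4 := (h'.le_iff D (hq.trans hc') m).1 (h2.trans inf_le_right) x hx
    exact h1 x (hq.1.2 hx) ⟨h3, h4⟩

theorem Rep.compl {c : Cond2 W} {a : Pt I → Set ℕ} {A : ℕ → 𝔹} (h : Rep D c a A) :
    Rep D c (fun x => (a x)ᶜ) (fun m => (A m)ᶜ) := by
  refine ⟨h.1.compl, fun c' hc' m => ⟨fun h1 => (h.2 c' hc' m).2 h1, fun h1 => ?_⟩⟩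
  rw [compl_compl]
  exact (h.2 c' hc' m).1 fun x hx => not_not.1 (h1 x hx)

end Boolean

end Pool.Agent.QPt
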