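import Pool.Agent.QPt.UVal
import Pool.Agent.QPt.Rep
import Pool.Agent.QPt.ReadTwo

/-!
# The generic ultrafilter is a Q-point
-/

set_option autoImplicit false
set_option linter.unusedSectionVars false

namespace Pool.Agent.QPt

open Set

variable {I : Type} [LinearOrder I] [WellFoundedLT I] {W : WName I}

namespace UQ

/-- The selector: the value and a bound for everything seen so far. -/
noncomputable def sel (Z : Set ℕ) (N : ℕ → ℕ) : ℕ → ℕ × ℕ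
  | 0 => (nxt Z 0 (lam 0), N (nxt Z 0 (lam 0)))
  | i + 1 =>
    (nxt Z (max ((sel Z N i).1 + 1) (sel Z N i).2) (lam (i + 1)),
      max (sel Z N i).2 (N (nxt Z (max ((sel Z N i).1 + 1) (sel Z N i).2) (lam (i + 1)))))

theorem sel_mem {Z : Set ℕ} (hZ : Fat Z) (N : ℕ → ℕ) (i : ℕ) :
    (sel Z N i).1 ∈ Z ∧ lam (sel Z N i).1 = lam i := by
  cases i with
  | zero => exact ⟨(nxt_spec hZ 0 (lam 0)).1, (nxt_spec hZ 0 (lam 0)).2.2⟩
  | succ i => exact ⟨(nxt_spec hZ _ (lam (i + 1))).1, (nxt_spec hZ _ (lam (i + 1))).2.2⟩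

theorem sel_lt {Z : Set ℕ} (hZ : Fat Z) (N : ℕ → ℕ) (i : ℕ) :
    (sel Z N i).1 < (sel Z N (i + 1)).1 ∧ (sel Z N i).2 ≤ (sel Z N (i + 1)).1 := by
  have h := (nxt_spec hZ (max ((sel Z N i).1 + 1) (sel Z N i).2) (lam (i + 1))).2.1
  have h1 : (sel Z N (i + 1)).1 = nxt Z (max ((sel Z N i).1 + 1) (sel Z N i).2) (lam (i + 1)) := rfl
  rw [← h1] at h
  constructor
  · have := le_max_left ((sel Z N i).1 + 1) (sel Z N i).2
    omega
  · have := le_max_right ((sel Z N i).1 + 1) (sel Z N i).2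
    omega

theorem sel_K {Z : Set ℕ} (hZ : Fat Z) (N : ℕ → ℕ) : (fun i => (sel Z N i).1) ∈ K :=
  ⟨strictMono_nat_of_lt_succ fun i => (sel_lt hZ N i).1, fun i => (sel_mem hZ N i).2⟩

theorem sel_bd_mono (Z : Set ℕ) (N : ℕ → ℕ) : Monotone fun i => (sel Z N i).2 :=
  monotone_nat_of_le_succ fun _ => le_max_left _ _

theorem sel_bd (Z : Set ℕ) (N : ℕ → ℕ) (i : ℕ) : N (sel Z N i).1 ≤ (sel Z N i).2 := by
  cases i with
  | zero => exact le_rfl
  | succ i => exact le_max_right _ _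

theorem sel_spec {Z : Set ℕ} (hZ : Fat Z) (N : ℕ → ℕ) {i j : ℕ} (hij : i < j) :
    N (sel Z N i).1 ≤ (sel Z N j).1 := by
  obtain ⟨k, rfl⟩ := Nat.exists_eq_succ_of_ne_zero (by omega : j ≠ 0)
  refine (sel_bd Z N i).trans ?_
  have h1 : (sel Z N i).2 ≤ (sel Z N k).2 := sel_bd_mono Z N (by omega : i ≤ k)
  exact h1.trans (sel_lt hZ N k).2

theorem sel_LC {C : Set (Pt I)} {w : Set I} {Z : Pt I → Set ℕ} (hZ : Nm C w Z)
    (hF : ∀ x ∈ C, Fat (Z x)) {N : Pt I → ℕ → ℕ} (hN : ∀ i, LC C w (fun x => N x i)) (i : ℕ) :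
    LC C w (fun x => sel (Z x) (N x) i) := by
  induction i with
  | zero =>
    have h1 : LC C w (fun x => nxt (Z x) 0 (lam 0)) := LC.nxt hZ hF 0 (lam 0)
    have h2 : LC C w (fun x => N x (nxt (Z x) 0 (lam 0))) :=
      LC.diag (f := fun m x => N x m) h1 fun x _ => hN _
    exact LC.prod h1 h2
  | succ i ih =>
    have h0 : LC C w (fun x => max ((sel (Z x) (N x) i).1 + 1) (sel (Z x) (N x) i).2) :=
      ih.comp (fun a => max (a.1 + 1) a.2)
    have h1 : LC C w (fun x => nxt (Z x) (max ((sel (Z x) (N x) i).1 + 1) (sel (Z x) (N x) i).2)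
        (lam (i + 1))) :=
      LC.diag (f := fun L x => nxt (Z x) L (lam (i + 1))) h0 fun x _ => LC.nxt hZ hF _ _
    have h2 : LC C w (fun x => N x (nxt (Z x)
        (max ((sel (Z x) (N x) i).1 + 1) (sel (Z x) (N x) i).2) (lam (i + 1)))) :=
      LC.diag (f := fun m x => N x m) h1 fun x _ => hN _
    have h3 : LC C w (fun x => max (sel (Z x) (N x) i).2 (N x (nxt (Z x)
        (max ((sel (Z x) (N x) i).1 + 1) (sel (Z x) (N x) i).2) (lam (i + 1))))) :=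
      (LC.prod ih h2).comp (fun a => max a.1.2 a.2)
    exact LC.prod h1 h3

end UQ

section Boolean

variable {𝔹 : Type} [CompleteBooleanAlgebra 𝔹] (D : DEmb (Cond2 W) 𝔹)

open UQ in
theorem UV_Q (ρ : ℕ → ℕ → 𝔹) : (⨅ i, ⨆ N : ℕ, ⨅ j, ⨅ _ : N ≤ j, (ρ i j)ᶜ) ≤
    ⨆ A, UV D A ⊓ ⨅ i, ⨅ j, ⨅ _ : i < j, (A i ⊓ A j ⊓ ρ i j)ᶜ := by
  refine D.le_of_exists fun c hc => ?_
  obtain ⟨c', hc', hread⟩ := read2 c (fun i => {c' | ∃ N : ℕ, D.e c' ≤ ⨅ j, ⨅ _ : N ≤ j, (ρ i j)ᶜ})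
    (fun k c' hc' c'' hle => by
      obtain ⟨N, hN⟩ := hc'
      exact ⟨N, (D.mono _ _ hle).trans hN⟩)
    (fun i c' hle => by
      have h1 : D.e c' ≤ ⨆ N : ℕ, ⨅ j, ⨅ _ : N ≤ j, (ρ i j)ᶜ :=
        (D.mono _ _ hle).trans (hc.trans (iInf_le _ i))
      obtain ⟨r, hr, N, hN⟩ := D.le_iSup_iff.1 h1 c' le_rfl
      exact ⟨r, hr, N, hN⟩)
  -- index functions
  have hidx : ∀ i, ∃ g : Pt I → ℕ, LC c'.p.body c'.p.w g ∧ ∀ x ∈ c'.p.body, ∃ r,
      OpenRes r c'.p x ∧ ∃ h : r ≤ c'.p, D.e (c'.sub r h) ≤ ⨅ j, ⨅ _ : g x ≤ j, (ρ i j)ᶜ := by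
    intro i
    obtain ⟨g, hg, h⟩ := exists_index (q := c'.p)
      (S := fun r N => ∃ h : r ≤ c'.p, D.e (c'.sub r h) ≤ ⨅ j, ⨅ _ : N ≤ j, (ρ i j)ᶜ)
      (by
        rintro r r' N ⟨h, hN⟩ hr' -
        refine ⟨hr'.trans h, le_trans (D.mono _ _ ?_) hN⟩
        exact ⟨hr', LeW.of_subset fun _ _ => Subset.rfl⟩)
      (by
        intro x hx
        obtain ⟨d, ⟨N, hN⟩, hd, hZ⟩ := hread i x hx
        refine ⟨d.p, N, hd, hd.le, le_trans (D.mono _ _ ?_) hN⟩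
        exact ⟨le_rfl, LeW.of_subset fun y _ => by rw [hZ]; exact Subset.rfl⟩)
    refine ⟨g, hg, fun x hx => ?_⟩
    obtain ⟨r, hr, h1, -⟩ := h x hx
    exact ⟨r, hr, h1⟩
  choose N hNLC hN using hidx
  -- the selector
  set Y : Pt I → ℕ → ℕ := fun x i => (sel (c'.Z x) (fun m => N m x) i).1 with hY
  have hYLC : ∀ i, LC c'.p.body c'.p.w (fun x => Y x i) := fun i =>
    (sel_LC (N := fun x m => N m x) c'.nm c'.fat (fun m => hNLC m) i).comp Prod.fst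
  have hYK : ∀ x ∈ c'.p.body, Y x ∈ K := fun x hx => sel_K (c'.fat x hx) _
  have hYn : Nm c'.p.body c'.p.w (fun x => range (Y x)) := Nm.range hYLC hYK
  set c'' : Cond2 W := ⟨c'.p, fun x => range (Y x), hYn, fun x hx => fat_range (hYK x hx)⟩ with hc''
  have hle : c'' ≤ c' := by
    refine ⟨le_rfl, LeW.of_subset ?_⟩
    rintro x hx _ ⟨i, rfl⟩
    exact (sel_mem (c'.fat x hx) _ i).1
  have hrep : Rep D c'' (fun x => range (Y x)) (hat D c'' fun x => range (Y x)) :=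
    rep_hat D c'' _ hYn
  set A := hat D c'' fun x => range (Y x) with hA
  refine ⟨c'', hle.trans hc', le_iSup_of_le A (le_inf ?_ ?_)⟩
  · exact (Rep.UV_iff D hrep).2 (LeW.of_subset fun _ _ => Subset.rfl)
  · refine le_iInf fun i => le_iInf fun j => le_iInf fun hij => ?_
    rw [D.le_compl_iff]
    intro q hq hle'
    have h1 := (Rep.le_iff D hrep hq i).1 (hle'.trans (inf_le_left.trans inf_le_left))
    have h2 := (Rep.le_iff D hrep hq j).1 (hle'.trans (inf_le_left.trans inf_le_right))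
    have h3 : D.e q ≤ ρ i j := hle'.trans inf_le_right
    obtain ⟨x, hx⟩ := q.p.body_nonempty
    have hxc : x ∈ c'.p.body := hq.1.2 hx
    obtain ⟨k, hk⟩ := h1 x hx
    obtain ⟨l, hl⟩ := h2 x hx
    have hkl : k < l := by
      by_contra hcon
      have := (hYK x hxc).1.monotone (not_lt.1 hcon)
      omega
    have hNj : N i x ≤ j := by
      have := sel_spec (c'.fat x hxc) (fun m => N m x) hkl
      simp only [hY] at hk hl
      rw [hk, hl] at this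
      exact this
    obtain ⟨r, hr, hrc, hre⟩ := hN i x hxc
    obtain ⟨r', hr', hr'r⟩ := OpenRes.pull hr hq.1 hx
    have hq' : q.sub r' hr'.le ≤ q := Cond2.sub_le _ _ _
    have hq'' : q.sub r' hr'.le ≤ c'.sub r hrc :=
      ⟨hr'r, (((hq.trans hle).2).mono hr'.le)⟩
    have h4 : D.e (q.sub r' hr'.le) ≤ (ρ i j)ᶜ :=
      (D.mono _ _ hq'').trans (hre.trans ((iInf_le _ j).trans (iInf_le _ hNj)))
    have h5 : D.e (q.sub r' hr'.le) ≤ ρ i j := (D.mono _ _ hq').trans h3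
    exact D.ne _ (le_bot_iff.1 ((le_inf h5 h4).trans (by simp)))

end Boolean

end Pool.Agent.QPt
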