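import Pool.Agent.QPt.UVal

/-!
# The generic ultrafilter is not Ramsey: Boolean values
-/

set_option autoImplicit false
set_option linter.unusedSectionVars false
set_option linter.unusedVariables false

namespace Pool.Agent.QPt

open Set

variable {I : Type} [LinearOrder I] [WellFoundedLT I]

variable {W : WName I}

section Boolean

variable {𝔹 : Type} [CompleteBooleanAlgebra 𝔹] (D : DEmb (Cond2 W) 𝔹)

theorem UV_col (n : ℕ) : UV D (fun m => if lam m = n then ⊤ else ⊥) = ⊥ := by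
  rw [eq_bot_iff]
  refine D.le_of_exists fun c hc => ?_
  exfalso
  have hrep : Rep D c (fun _ => {m | lam m = n}) (fun m => if lam m = n then ⊤ else ⊥) := by
    refine ⟨Nm.const _, fun c' hc' m => ⟨fun h => ?_, fun h => ?_⟩⟩
    · obtain ⟨x, hx⟩ := c'.p.body_nonempty
      have h1 : lam m = n := h x hx
      simp only [if_pos h1]
      exact le_top
    · obtain ⟨x, hx⟩ := c'.p.body_nonempty
      have h1 : ¬ lam m = n := h x hx
      simp only [if_neg h1, compl_bot]
      exact le_top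
  have h1 := (hrep.UV_iff D).1 hc
  obtain ⟨r, hr, h2⟩ := LeW.infinite c.fat h1 c.p le_rfl
  obtain ⟨x, hx⟩ := r.body_nonempty
  obtain ⟨n', hn', h3⟩ := h2 x hx (n + 1)
  obtain ⟨m, hm, -, hm'⟩ := h3 0
  have h4 : lam m = n := hm
  omega

theorem UV_two (A : ℕ → 𝔹) : UV D A ≤ ⨆ i, ⨆ j, ⨆ _ : i < j ∧ lam i = lam j, A i ⊓ A j := by
  refine D.le_of_exists fun c hc => ?_
  obtain ⟨c1, h1, a, ha⟩ := exists_rep D c A
  have h2 := (ha.UV_iff D).1 ((D.mono _ _ h1).trans hc)
  obtain ⟨r, hr, h3⟩ := LeW.infinite c1.fat h2 c1.p le_rfl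
  obtain ⟨x, hx⟩ := r.body_nonempty
  obtain ⟨n, -, h4⟩ := h3 x hx 0
  obtain ⟨i, hi, -, hi'⟩ := h4 0
  obtain ⟨j, hj, hij, hj'⟩ := h4 (i + 1)
  obtain ⟨r', hr', h5⟩ := exists_nbhd_const r hx
    (((ha.1 i).mono hr.2 hr.1).prod ((ha.1 j).mono hr.2 hr.1))
  have hle : r' ≤ c1.p := hr'.le.trans hr
  refine ⟨c1.sub r' hle, (c1.sub_le r' hle).trans h1, ?_⟩
  have h6 : D.e (c1.sub r' hle) ≤ A i := (ha.2 _ (c1.sub_le r' hle) i).1 fun y hy => by
    have := congrArg Prod.fst (h5 y hy)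
    simp only at this
    rw [this]
    exact hi
  have h7 : D.e (c1.sub r' hle) ≤ A j := (ha.2 _ (c1.sub_le r' hle) j).1 fun y hy => by
    have := congrArg Prod.snd (h5 y hy)
    simp only at this
    rw [this]
    exact hj
  refine (le_inf h6 h7).trans ?_
  exact le_iSup_of_le i (le_iSup_of_le j (le_iSup_of_le ⟨by omega, by rw [hi', hj']⟩ le_rfl))

end Boolean

end Pool.Agent.QPt
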