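import Pool.Agent.QPt.Points

/-!
# Existence of a name of a nonprincipal ultrafilter (module WZ)
-/

set_option autoImplicit false
set_option linter.unusedSectionVars false

namespace Pool.Agent.QPt

open Set

variable {I : Type} [LinearOrder I] [WellFoundedLT I]

namespace WEx

/-- All the requirements on the relation of a `WName` except `ultra`. -/
structure Good (R : Set (Cond I × (Pt I → Set ℕ))) : Prop where
  nm : ∀ p a, (p, a) ∈ R → Nm p.body p.w a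
  mono : ∀ p q a, (p, a) ∈ R → q ≤ p → (q, a) ∈ R
  loc : ∀ p a, Nm p.body p.w a → (∀ q ≤ p, ∃ r ≤ q, (r, a) ∈ R) → (p, a) ∈ R
  up : ∀ p a b, (p, a) ∈ R → Nm p.body p.w b → (∀ x ∈ p.body, a x ⊆ b x) → (p, b) ∈ R
  inter : ∀ p a b, (p, a) ∈ R → (p, b) ∈ R → (p, fun x => a x ∩ b x) ∈ R
  cofin : ∀ p k, (p, fun _ => Ici k) ∈ R
  proper : ∀ p, (p, fun _ => ∅) ∉ R

variable (I) in
/-- The starting relation. -/
def R0 : Set (Cond I × (Pt I → Set ℕ)) :=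
  {u | Nm u.1.body u.1.w u.2 ∧ ∀ q ≤ u.1, ∃ r ≤ q, ∃ k, ∀ x ∈ r.body, Ici k ⊆ u.2 x}

theorem nm_le {p q : Cond I} {a : Pt I → Set ℕ} (h : Nm p.body p.w a) (hq : q ≤ p) :
    Nm q.body q.w a := h.mono hq.2 hq.1

theorem good_R0 : Good (R0 I) where
  nm p a h := h.1
  mono p q a h hq := ⟨nm_le h.1 hq, fun r hr => h.2 r (hr.trans hq)⟩
  loc p a hn h := by
    refine ⟨hn, fun q hq => ?_⟩
    obtain ⟨r, hr, hR⟩ := h q hq
    obtain ⟨s, hs, k, hk⟩ := hR.2 r le_rfl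
    exact ⟨s, hs.trans hr, k, hk⟩
  up p a b h hb hab := by
    refine ⟨hb, fun q hq => ?_⟩
    obtain ⟨r, hr, k, hk⟩ := h.2 q hq
    exact ⟨r, hr, k, fun x hx => (hk x hx).trans (hab x (hq.2 (hr.2 hx)))⟩
  inter p a b h h' := by
    refine ⟨h.1.inter h'.1, fun q hq => ?_⟩
    obtain ⟨r, hr, k, hk⟩ := h.2 q hq
    obtain ⟨s, hs, k', hk'⟩ := h'.2 r (hr.trans hq)
    refine ⟨s, hs.trans hr, max k k', fun x hx m hm => ⟨?_, ?_⟩⟩
    · exact hk x (hs.2 hx) (mem_Ici.2 (le_trans (le_max_left k k') (mem_Ici.1 hm)))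
    · exact hk' x hx (mem_Ici.2 (le_trans (le_max_right k k') (mem_Ici.1 hm)))
  cofin p k := ⟨Nm.const _, fun q _ => ⟨q, le_rfl, k, fun _ _ => Subset.rfl⟩⟩
  proper p h := by
    obtain ⟨r, _, k, hk⟩ := h.2 p le_rfl
    obtain ⟨x, hx⟩ := r.body_nonempty
    exact hk x hx (show k ≤ k from le_rfl)

/-- The union of a chain. -/
def cup (c : Set (Set (Cond I × (Pt I → Set ℕ)))) : Set (Cond I × (Pt I → Set ℕ)) :=
  {u | Nm u.1.body u.1.w u.2 ∧ ∀ q ≤ u.1, ∃ r ≤ q, ∃ R ∈ c, (r, u.2) ∈ R}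

theorem good_cup {c : Set (Set (Cond I × (Pt I → Set ℕ)))} (hc : ∀ R ∈ c, Good R)
    (hch : IsChain (· ⊆ ·) c) (hne : c.Nonempty) : Good (cup c) where
  nm p a h := h.1
  mono p q a h hq := ⟨nm_le h.1 hq, fun r hr => h.2 r (hr.trans hq)⟩
  loc p a hn h := by
    refine ⟨hn, fun q hq => ?_⟩
    obtain ⟨r, hr, hR⟩ := h q hq
    obtain ⟨s, hs, R, hRc, hRs⟩ := hR.2 r le_rfl
    exact ⟨s, hs.trans hr, R, hRc, hRs⟩
  up p a b h hb hab := by
    refine ⟨hb, fun q hq => ?_⟩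
    obtain ⟨r, hr, R, hRc, hRr⟩ := h.2 q hq
    exact ⟨r, hr, R, hRc, (hc R hRc).up r a b hRr (nm_le hb (hr.trans hq))
      fun x hx => hab x (hq.2 (hr.2 hx))⟩
  inter p a b h h' := by
    refine ⟨h.1.inter h'.1, fun q hq => ?_⟩
    obtain ⟨r, hr, R, hRc, hRr⟩ := h.2 q hq
    obtain ⟨s, hs, R', hRc', hRs'⟩ := h'.2 r (hr.trans hq)
    refine ⟨s, hs.trans hr, ?_⟩
    have hRs : (s, a) ∈ R := (hc R hRc).mono r s a hRr hs
    rcases hch.total hRc hRc' with hle | hle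
    · exact ⟨R', hRc', (hc R' hRc').inter s a b (hle hRs) hRs'⟩
    · exact ⟨R, hRc, (hc R hRc).inter s a b hRs (hle hRs')⟩
  cofin p k := by
    obtain ⟨R, hR⟩ := hne
    exact ⟨Nm.const _, fun q _ => ⟨q, le_rfl, R, hR, (hc R hR).cofin q k⟩⟩
  proper p h := by
    obtain ⟨r, _, R, hR, hr⟩ := h.2 p le_rfl
    exact (hc R hR).proper r hr

theorem subset_cup {c : Set (Set (Cond I × (Pt I → Set ℕ)))} (hc : ∀ R ∈ c, Good R)
    {R : Set (Cond I × (Pt I → Set ℕ))} (hR : R ∈ c) : R ⊆ cup c := by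
  rintro ⟨p, a⟩ h
  exact ⟨(hc R hR).nm p a h, fun q hq => ⟨q, le_rfl, R, hR, (hc R hR).mono p q a h hq⟩⟩

/-- The relation obtained by adding `a` at `p`. -/
def add (R : Set (Cond I × (Pt I → Set ℕ))) (p : Cond I) (a : Pt I → Set ℕ) :
    Set (Cond I × (Pt I → Set ℕ)) :=
  {u | Nm u.1.body u.1.w u.2 ∧ ∀ r ≤ u.1, ∃ s ≤ r, (s, u.2) ∈ R ∨
    (s ≤ p ∧ (s, fun x => (a x)ᶜ ∪ u.2 x) ∈ R)}

theorem good_add {R : Set (Cond I × (Pt I → Set ℕ))} (hR : Good R) {p : Cond I}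
    {a : Pt I → Set ℕ} (ha : Nm p.body p.w a) (hno : ∀ q ≤ p, (q, fun x => (a x)ᶜ) ∉ R) :
    Good (add R p a) where
  nm q b h := h.1
  mono q q' b h hq := ⟨nm_le h.1 hq, fun r hr => h.2 r (hr.trans hq)⟩
  loc q b hn h := by
    refine ⟨hn, fun q' hq' => ?_⟩
    obtain ⟨r, hr, hR'⟩ := h q' hq'
    obtain ⟨s, hs, h'⟩ := hR'.2 r le_rfl
    exact ⟨s, hs.trans hr, h'⟩
  up q b b' h hb hbb := by
    refine ⟨hb, fun r hr => ?_⟩
    obtain ⟨s, hs, h1 | ⟨h1, h2⟩⟩ := h.2 r hr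
    · exact ⟨s, hs, Or.inl (hR.up s b b' h1 (nm_le hb (hs.trans hr))
        fun x hx => hbb x (hr.2 (hs.2 hx)))⟩
    · refine ⟨s, hs, Or.inr ⟨h1, hR.up s _ _ h2 ?_ ?_⟩⟩
      · exact (nm_le ha h1).compl.union (nm_le hb (hs.trans hr))
      · exact fun x hx => union_subset_union_right _ (hbb x (hr.2 (hs.2 hx)))
  inter q b b' h h' := by
    refine ⟨h.1.inter h'.1, fun r hr => ?_⟩
    obtain ⟨s, hs, h1⟩ := h.2 r hr
    obtain ⟨s', hs', h2⟩ := h'.2 s (hs.trans hr)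
    have hn1 : Nm s'.body s'.w b := nm_le h.1 (hs'.trans (hs.trans hr))
    have hn2 : Nm s'.body s'.w b' := nm_le h'.1 (hs'.trans (hs.trans hr))
    refine ⟨s', hs'.trans hs, ?_⟩
    have comb : s' ≤ p → (s', fun x => (a x)ᶜ ∪ b x) ∈ R → (s', fun x => (a x)ᶜ ∪ b' x) ∈ R →
        (s', fun x => (a x)ᶜ ∪ (b x ∩ b' x)) ∈ R := by
      intro hp h3 h4
      refine hR.up s' _ _ (hR.inter s' _ _ h3 h4) ((nm_le ha hp).compl.union (hn1.inter hn2)) ?_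
      intro x _ m hm
      obtain ⟨h5, h6⟩ := hm
      rcases h5 with h5 | h5
      · exact Or.inl h5
      · rcases h6 with h6 | h6
        · exact Or.inl h6
        · exact Or.inr ⟨h5, h6⟩
    have wk : s' ≤ p → ∀ d : Pt I → Set ℕ, Nm s'.body s'.w d → (s', d) ∈ R →
        (s', fun x => (a x)ᶜ ∪ d x) ∈ R := by
      intro hp d hd h3
      exact hR.up s' _ _ h3 ((nm_le ha hp).compl.union hd) fun x _ => subset_union_right
    rcases h1 with h1 | ⟨h1, h1'⟩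
    · have h1s : (s', b) ∈ R := hR.mono s s' b h1 hs'
      rcases h2 with h2 | ⟨h2, h2'⟩
      · exact Or.inl (hR.inter s' b b' h1s h2)
      · exact Or.inr ⟨h2, comb h2 (wk h2 b hn1 h1s) h2'⟩
    · have hp : s' ≤ p := hs'.trans h1
      have h1s := hR.mono s s' _ h1' hs'
      rcases h2 with h2 | ⟨h2, h2'⟩
      · exact Or.inr ⟨hp, comb hp h1s (wk hp b' hn2 h2)⟩
      · exact Or.inr ⟨hp, comb hp h1s h2'⟩
  cofin q k := ⟨Nm.const _, fun r _ => ⟨r, le_rfl, Or.inl (hR.cofin r k)⟩⟩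
  proper q h := by
    obtain ⟨s, _, h1 | ⟨h1, h2⟩⟩ := h.2 q le_rfl
    · exact hR.proper s h1
    · refine hno s h1 ?_
      simpa only [union_empty] using h2

theorem subset_add {R : Set (Cond I × (Pt I → Set ℕ))} (hR : Good R) (p : Cond I)
    (a : Pt I → Set ℕ) : R ⊆ add R p a := by
  rintro ⟨q, b⟩ h
  exact ⟨hR.nm q b h, fun r hr => ⟨r, le_rfl, Or.inl (hR.mono q r b h hr)⟩⟩

end WEx

variable (I) in
theorem exists_WName : Nonempty (WName I) := by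
  obtain ⟨R, -, hR⟩ := zorn_subset_nonempty {R : Set (Cond I × (Pt I → Set ℕ)) | WEx.Good R}
    (fun c hc hch hne => ⟨WEx.cup c, WEx.good_cup hc hch hne, fun s hs => WEx.subset_cup hc hs⟩)
    (WEx.R0 I) WEx.good_R0
  have hG : WEx.Good R := hR.prop
  refine ⟨⟨fun p a => (p, a) ∈ R, hG.nm, hG.mono, hG.loc, hG.up, hG.inter, ?_, hG.cofin,
    hG.proper⟩⟩
  intro p a ha
  by_contra hcon
  push Not at hcon
  have hadd := WEx.good_add hG ha fun q hq => (hcon q hq).2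
  have hsub : WEx.add R p a ⊆ R := hR.le_of_ge hadd (WEx.subset_add hG p a)
  refine (hcon p le_rfl).1 (hsub ⟨ha, fun r hr => ⟨r, le_rfl, Or.inr ⟨hr, ?_⟩⟩⟩)
  refine hG.up r _ _ (hG.cofin r 0) ?_ ?_
  · exact (WEx.nm_le ha hr).compl.union (WEx.nm_le ha hr)
  · intro x _ m _
    by_cases h : m ∈ a x
    · exact Or.inr h
    · exact Or.inl h

end Pool.Agent.QPt
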