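import Pool.Agent.BVM.Main
import Pool.Agent.MP_b1d3ea_lc.Omega
import Pool.Agent.QPt.IndexSet
import Pool.Agent.QPt.WExists
import Pool.Agent.QPt.UQ
import Pool.Agent.QPt.UR
import Pool.Agent.QPt.UC
import Pool.Agent.QPt.Transfer
import Pool.Agent.QPt.MQ
import Pool.Agent.QPt.MR
import Pool.Agent.QPt.MV
import Pool.Agent.QPt.MI

/-!
# Main theorem: consistency of a unique Q-point which is not Ramsey
-/

set_option autoImplicit false

namespace Pool.Agent.QPt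

open Set

/-- The Boolean-algebra core exists. -/
theorem exists_QCore : ∃ (𝔹 : Type) (_ : CompleteBooleanAlgebra 𝔹) (_ : Nontrivial 𝔹)
    (U : (ℕ → 𝔹) → 𝔹), QCore 𝔹 U := by
  obtain ⟨I, i1, i2, i3, hI, hI'⟩ := exists_index_set
  obtain ⟨W⟩ := exists_WName I
  obtain ⟨𝔹, j1, ⟨D⟩⟩ := exists_DEmb (Cond2 W)
  obtain ⟨c⟩ := nonempty_Cond2 W
  refine ⟨𝔹, j1, ⟨⟨⊥, D.e c, fun h => D.ne c h.symm⟩⟩, UV D, ?_⟩
  exact
    { up := UV_up D, inter := UV_inter D, ultra := UV_ultra D, inf := UV_inf D, Q := UV_Q D,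
      col := UV_col D, two := UV_two D,
      uniq := fun V b h => UV_uniq D hI hI' h }

open Pool.Agent.BVM Pool.Agent.StarHur

theorem uniq_top {𝔹 : Type} [CompleteBooleanAlgebra 𝔹] {U : (ℕ → 𝔹) → 𝔹} (h : QCore 𝔹 U) :
    (⨅ v, bQPoint omegaN v ⇨ bIso omegaN (ultraN U) v) = ⊤ := by
  rw [eq_top_iff]
  refine le_iInf fun v => ?_
  rw [le_himp_iff, top_inf_eq]
  have h1 := h.uniq (memV v) _ (isQV_of_bQPoint v)
  have h2 : bQPoint omegaN v ≤ bUltra omegaN v := inf_le_left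
  refine (le_inf h2 h1).trans ?_
  rw [inf_iSup_eq]
  exact iSup_le fun g => isoVal_le_bIso h v g

/-- There is a model of ZFC with exactly one Q-point up to isomorphism, and it is not Ramsey. -/
theorem consistent : ∃ (M : Type 1) (E : M → M → Prop), IsModelZFC E ∧ HasUniqueNonRamseyQPoint E := by
  obtain ⟨𝔹, i1, i2, U, hU⟩ := exists_QCore
  obtain ⟨F⟩ := exists_UF (𝔹 := 𝔹)
  exact ⟨Mod F, F.E, isModelZFC_E F, transfer F omegaN (ultraN U) bOmega_omegaN (bQPoint_top hU)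
    (bRamsey_bot hU) (uniq_top hU)⟩

end Pool.Agent.QPt
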