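import Pool.Agent.QPt.Points

/-!
# Restriction and adding a coordinate on top (module OPS)
-/

set_option autoImplicit false
set_option linter.unusedSectionVars false

namespace Pool.Agent.QPt

open Set

variable {I : Type} [LinearOrder I] [WellFoundedLT I]

theorem Cond.res_w (p : Cond I) (J : Set I) (hJ : IsLowerSet J) : (p.res J hJ).w = p.w ∩ J := rfl

theorem Cond.res_dom (p : Cond I) (J : Set I) (hJ : IsLowerSet J) (L : Set I) :
    (p.res J hJ).dom L = p.dom (J ∩ L) := by
  ext x
  exact ⟨fun h β hβ hβJ => h β ⟨hβ, hβJ.1⟩ hβJ.2, fun h β hβ hβL => h β hβ.1 ⟨hβ.2, hβL⟩⟩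

theorem Cond.res_body (p : Cond I) (J : Set I) (hJ : IsLowerSet J) :
    (p.res J hJ).body = p.dom J := by
  have := p.res_dom J hJ univ
  rw [inter_univ] at this
  exact this

theorem Cond.le_res (p : Cond I) (J : Set I) (hJ : IsLowerSet J) : p ≤ p.res J hJ := by
  refine ⟨inter_subset_left, ?_⟩
  rw [p.res_body]
  exact p.body_subset_dom J

theorem Cond.res_mono {p q : Cond I} (h : q ≤ p) (J : Set I) (hJ : IsLowerSet J) :
    q.res J hJ ≤ p.res J hJ := by
  refine ⟨inter_subset_inter_left J h.1, ?_⟩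
  rw [p.res_body, q.res_body]
  exact Cond.dom_mono h hJ

theorem Cond.res_le_res (p : Cond I) {J J' : Set I} (hJ : IsLowerSet J) (hJ' : IsLowerSet J')
    (h : J ⊆ J') : p.res J' hJ' ≤ p.res J hJ := by
  refine ⟨inter_subset_inter_right _ h, ?_⟩
  rw [p.res_body, p.res_body]
  exact p.dom_anti h

/-- to show `a ≤ p.res J`, for `a` with support in `J` -/
theorem Cond.le_res_iff (a p : Cond I) {J : Set I} (hJ : IsLowerSet J) :
    a ≤ p.res J hJ ↔ p.w ∩ J ⊆ a.w ∧ a.body ⊆ p.dom J := by
  rw [Cond.le_def, p.res_body, p.res_w]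

/-- adding a coordinate on top -/
theorem exists_top (b : Cond I) (β : I) (hb : b.w ⊆ Iio β) (s : Pt I → List ℕ) (y : Pt I → ℕ → ℕ)
    (hs : LC b.body b.w s) (hy : ∀ i, LC b.body b.w (fun x => y x i))
    (hS : ∀ x ∈ b.body, IsStem (s x)) (hK : ∀ x ∈ b.body, y x ∈ K) :
    ∃ a : Cond I, a.w = insert β b.w ∧ (∀ γ, γ ≠ β → a.s γ = b.s γ ∧ a.y γ = b.y γ) ∧
      a.s β = s ∧ a.y β = y ∧ a.body = {x | x ∈ b.body ∧ x β ∈ Fib (s x) (y x)} ∧
      a.dom (Iio β) = b.body := by
  classical
  have hβ : β ∉ b.w := fun h => lt_irrefl β (hb h)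
  have hs' : ∀ γ, γ ≠ β → Function.update b.s β s γ = b.s γ := fun γ h =>
    Function.update_of_ne h _ _
  have hy' : ∀ γ, γ ≠ β → Function.update b.y β y γ = b.y γ := fun γ h =>
    Function.update_of_ne h _ _
  let P : Pre I := ⟨insert β b.w, Function.update b.s β s, Function.update b.y β y⟩
  have hdom : ∀ γ, γ ≤ β → P.dom (Iio γ) = b.dom (Iio γ) := by
    intro γ hγ
    ext x
    constructor
    · intro h δ hδ hδγ
      have hne : δ ≠ β := fun e => hβ (e ▸ hδ)
      have := h δ (mem_insert_of_mem _ hδ) hδγ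
      simp only [P, hs' δ hne, hy' δ hne] at this
      exact this
    · intro h δ hδ hδγ
      rcases mem_insert_iff.1 hδ with rfl | hδ
      · exact absurd (lt_of_lt_of_le hδγ hγ) (lt_irrefl _)
      · have hne : δ ≠ β := fun e => hβ (e ▸ hδ)
        have := h δ hδ hδγ
        simp only [P, hs' δ hne, hy' δ hne]
        exact this
  have hbody : b.dom (Iio β) = b.body := (b.body_eq_dom hb).symm
  have hdβ : P.dom (Iio β) = b.body := (hdom β le_rfl).trans hbody
  have hsub : ∀ γ ∈ b.w, b.w ∩ Iio γ ⊆ P.w ∩ Iio γ := fun γ _ δ hδ =>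
    ⟨mem_insert_of_mem _ hδ.1, hδ.2⟩
  have hsubβ : b.w ⊆ P.w ∩ Iio β := fun δ hδ => ⟨mem_insert_of_mem _ hδ, hb hδ⟩
  have c1 : ∀ γ ∈ P.w, γ = β ∨ (γ ≠ β ∧ γ ∈ b.w ∧ γ ≤ β) := by
    intro γ hγ
    rcases mem_insert_iff.1 hγ with h | h
    · exact Or.inl h
    · exact Or.inr ⟨fun e => hβ (e ▸ h), h, le_of_lt (hb h)⟩
  let a : Cond I :=
    { P with
      ctbl := b.ctbl.insert β
      hs := by
        intro γ hγ
        rcases c1 γ hγ with rfl | ⟨hne, hγb, hle⟩
        · change LC (P.dom (Iio γ)) (P.w ∩ Iio γ) (Function.update b.s γ s γ)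
          rw [hdβ, Function.update_self]
          exact hs.mono Subset.rfl hsubβ
        · change LC (P.dom (Iio γ)) (P.w ∩ Iio γ) (Function.update b.s β s γ)
          rw [hdom γ hle, hs' γ hne]
          exact (b.hs γ hγb).mono Subset.rfl (hsub γ hγb)
      hy := by
        intro γ hγ i
        rcases c1 γ hγ with rfl | ⟨hne, hγb, hle⟩
        · change LC (P.dom (Iio γ)) (P.w ∩ Iio γ) (fun x => Function.update b.y γ y γ x i)
          rw [hdβ, Function.update_self]
          exact (hy i).mono Subset.rfl hsubβ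
        · change LC (P.dom (Iio γ)) (P.w ∩ Iio γ) (fun x => Function.update b.y β y γ x i)
          rw [hdom γ hle, hy' γ hne]
          exact (b.hy γ hγb i).mono Subset.rfl (hsub γ hγb)
      hS := by
        intro γ hγ x hx
        rcases c1 γ hγ with rfl | ⟨hne, hγb, hle⟩
        · change IsStem (Function.update b.s γ s γ x)
          rw [Function.update_self]
          exact hS x (hdβ.subset hx)
        · change IsStem (Function.update b.s β s γ x)
          rw [hs' γ hne]
          exact b.hS γ hγb x ((hdom γ hle).subset hx)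
      hK := by
        intro γ hγ x hx
        rcases c1 γ hγ with rfl | ⟨hne, hγb, hle⟩
        · change Function.update b.y γ y γ x ∈ K
          rw [Function.update_self]
          exact hK x (hdβ.subset hx)
        · change Function.update b.y β y γ x ∈ K
          rw [hy' γ hne]
          exact b.hK γ hγb x ((hdom γ hle).subset hx) }
  refine ⟨a, rfl, fun γ hγ => ⟨hs' γ hγ, hy' γ hγ⟩, Function.update_self _ _ _,
    Function.update_self _ _ _, ?_, hdβ⟩
  ext x
  constructor
  · intro h
    have hx : x ∈ b.body := by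
      rw [← hdβ]
      exact fun γ hγ _ => h γ hγ trivial
    refine ⟨hx, ?_⟩
    have := h β (mem_insert _ _) trivial
    change x β ∈ Fib (Function.update b.s β s β x) (Function.update b.y β y β x) at this
    rwa [Function.update_self, Function.update_self] at this
  · rintro ⟨hx, hxβ⟩ γ hγ _
    rcases c1 γ hγ with rfl | ⟨hne, hγb, hle⟩
    · change x γ ∈ Fib (Function.update b.s γ s γ x) (Function.update b.y γ y γ x)
      rwa [Function.update_self, Function.update_self]
    · change x γ ∈ Fib (Function.update b.s β s γ x) (Function.update b.y β y γ x)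
      rw [hs' γ hne, hy' γ hne]
      exact hx γ hγb trivial

end Pool.Agent.QPt
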