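import Pool.Agent.QPt.LocConst

/-!
# Points of conditions (module PT)
-/

set_option autoImplicit false
set_option linter.unusedSectionVars false

namespace Pool.Agent.QPt

open Set

variable {I : Type} [LinearOrder I] [WellFoundedLT I]

theorem Cond.dom_anti (p : Cond I) {J J' : Set I} (h : J ⊆ J') : p.dom J' ⊆ p.dom J :=
  fun _ hx β hβ hJ => hx β hβ (h hJ)

theorem Cond.body_subset_dom (p : Cond I) (J : Set I) : p.body ⊆ p.dom J :=
  p.dom_anti (subset_univ J)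

theorem Cond.body_eq_dom (p : Cond I) {J : Set I} (h : p.w ⊆ J) : p.body = p.dom J :=
  Subset.antisymm (p.body_subset_dom J) fun _ hx β hβ _ => hx β hβ (h hβ)

namespace PointsAux

/-- the data at `β` of two points of `dom (Iio β)` which agree below `β` -/
theorem data_eq (p : Cond I) {β : I} (hβ : β ∈ p.w) {x y : Pt I} (hx : x ∈ p.dom (Iio β))
    (hy : y ∈ p.dom (Iio β)) (h : ∀ γ ∈ p.w, γ < β → y γ = x γ) :
    p.s β y = p.s β x ∧ p.y β y = p.y β x := by
  refine ⟨(p.hs β hβ).eq_of_agree hx hy fun γ hγ => h γ hγ.1 hγ.2, ?_⟩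
  funext i
  exact (p.hy β hβ i).eq_of_agree hx hy fun γ hγ => h γ hγ.1 hγ.2

end PointsAux

theorem Cond.dom_congr (p : Cond I) {J : Set I} (hJ : IsLowerSet J) {x y : Pt I}
    (hx : x ∈ p.dom J) (h : ∀ β ∈ p.w, β ∈ J → y β = x β) : y ∈ p.dom J := by
  intro β
  induction β using (wellFounded_lt (α := I)).induction with
  | _ β ih =>
    intro hβ hβJ
    have hy : y ∈ p.dom (Iio β) := fun γ hγ hγβ => ih γ hγβ hγ (hJ (le_of_lt hγβ) hβJ)
    have hx' : x ∈ p.dom (Iio β) := fun γ hγ hγβ => hx γ hγ (hJ (le_of_lt hγβ) hβJ)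
    obtain ⟨h1, h2⟩ := PointsAux.data_eq p hβ hx' hy
      fun γ hγ hγβ => h γ hγ (hJ (le_of_lt hγβ) hβJ)
    rw [h1, h2, h β hβ hβJ]
    exact hx β hβ hβJ

/-- the data at `β` depend only on the coordinates in `p.w` below `β` -/
theorem Cond.data_congr (p : Cond I) {β : I} (hβ : β ∈ p.w) {x y : Pt I} (hx : x ∈ p.dom (Iio β))
    (h : ∀ γ ∈ p.w, γ < β → y γ = x γ) : p.s β y = p.s β x ∧ p.y β y = p.y β x :=
  PointsAux.data_eq p hβ hx (p.dom_congr (isLowerSet_Iio β) hx fun γ hγ hγβ => h γ hγ hγβ) h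

namespace PointsAux

open Classical in
/-- extension of a point by the least branches -/
noncomputable def ext (p : Cond I) (J : Set I) (x : Pt I) : Pt I :=
  (wellFounded_lt (α := I)).fix (fun β (rec : ∀ γ, γ < β → ℕ → ℕ) =>
    if β ∈ p.w ∧ β ∉ J then
      zm (p.s β (fun γ => if h : γ < β then rec γ h else x γ))
        (range (p.y β (fun γ => if h : γ < β then rec γ h else x γ)))
    else x β)

open Classical in
theorem ext_eq (p : Cond I) (J : Set I) (x : Pt I) (β : I) :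
    ext p J x β = if β ∈ p.w ∧ β ∉ J then
      zm (p.s β (fun γ => if γ < β then ext p J x γ else x γ))
        (range (p.y β (fun γ => if γ < β then ext p J x γ else x γ)))
    else x β := by
  unfold ext
  rw [WellFounded.fix_eq]
  simp only [dite_eq_ite]

end PointsAux

/-- extension of points -/
theorem Cond.exists_ext (p : Cond I) {J : Set I} (hJ : IsLowerSet J) {x : Pt I}
    (hx : x ∈ p.dom J) : ∃ y ∈ p.body, (∀ β ∈ J, y β = x β) ∧ ∀ β, β ∉ p.w → y β = x β := by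
  classical
  have hyJ : ∀ β ∈ J, PointsAux.ext p J x β = x β := by
    intro β hβ
    rw [PointsAux.ext_eq, if_neg (fun h => h.2 hβ)]
  have hyw : ∀ β, β ∉ p.w → PointsAux.ext p J x β = x β := by
    intro β hβ
    rw [PointsAux.ext_eq, if_neg (fun h => hβ h.1)]
  refine ⟨PointsAux.ext p J x, ?_, hyJ, hyw⟩
  intro β
  induction β using (wellFounded_lt (α := I)).induction with
  | _ β ih =>
    intro hβ _
    have hy : PointsAux.ext p J x ∈ p.dom (Iio β) := fun γ hγ hγβ => ih γ hγβ hγ trivial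
    by_cases hβJ : β ∈ J
    · have hx' : x ∈ p.dom (Iio β) := fun γ hγ hγβ => hx γ hγ (hJ (le_of_lt hγβ) hβJ)
      obtain ⟨h1, h2⟩ := PointsAux.data_eq p hβ hx' hy
        fun γ _ hγβ => hyJ γ (hJ (le_of_lt hγβ) hβJ)
      rw [h1, h2, hyJ β hβJ]
      exact hx β hβ hβJ
    · obtain ⟨h1, h2⟩ := p.data_congr (y := fun γ => if γ < β then PointsAux.ext p J x γ else x γ)
        hβ hy (fun γ _ hγβ => if_pos hγβ)
      rw [PointsAux.ext_eq p J x β, if_pos ⟨hβ, hβJ⟩, h1, h2]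
      exact zm_mem_Fib (p.hS β hβ _ hy) (p.hK β hβ _ hy)

theorem Cond.body_nonempty (p : Cond I) : p.body.Nonempty := by
  obtain ⟨y, hy, -⟩ := p.exists_ext (J := ∅) isLowerSet_empty (x := fun _ _ => 0)
    (fun β _ hβ => absurd hβ (notMem_empty β))
  exact ⟨y, hy⟩

theorem Cond.dom_mono {p q : Cond I} (h : q ≤ p) {J : Set I} (hJ : IsLowerSet J) :
    q.dom J ⊆ p.dom J := by
  intro x hx
  obtain ⟨y, hy, hyJ, -⟩ := q.exists_ext hJ hx
  exact p.dom_congr hJ (p.body_subset_dom J (h.2 hy)) fun β _ hβ => (hyJ β hβ).symm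

/-- a point of `dom (Iio β)` and a branch at `β` -/
theorem Cond.exists_update (p : Cond I) {β : I} (hβ : β ∈ p.w) {x : Pt I} (hx : x ∈ p.dom (Iio β))
    {z : ℕ → ℕ} (hz : z ∈ Fib (p.s β x) (p.y β x)) :
    ∃ y ∈ p.body, (∀ γ < β, y γ = x γ) ∧ y β = z ∧ ∀ γ, γ ∉ p.w → y γ = x γ := by
  classical
  have hlt : ∀ γ, γ < β → Function.update x β z γ = x γ := fun γ hγ =>
    Function.update_of_ne hγ.ne z x
  have hx1 : Function.update x β z ∈ p.dom (Iio β) :=
    p.dom_congr (isLowerSet_Iio β) hx fun γ _ hγ => hlt γ hγ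
  have hx2 : Function.update x β z ∈ p.dom (Iic β) := by
    intro γ hγ hγβ
    rcases lt_or_eq_of_le (show γ ≤ β from hγβ) with h | h
    · exact hx1 γ hγ h
    · subst h
      obtain ⟨h1, h2⟩ := p.data_congr hβ hx (fun δ _ hδ => hlt δ hδ)
      rw [h1, h2, Function.update_self]
      exact hz
  obtain ⟨y, hy, hyJ, hyw⟩ := p.exists_ext (isLowerSet_Iic β) hx2
  refine ⟨y, hy, fun γ hγ => ?_, ?_, fun γ hγ => ?_⟩
  · rw [hyJ γ (le_of_lt hγ), hlt γ hγ]
  · rw [hyJ β (show β ≤ β from le_rfl), Function.update_self]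
  · rw [hyw γ hγ, Function.update_of_ne]
    rintro rfl
    exact hγ hβ

theorem Cond.Fib_mono {p q : Cond I} (h : q ≤ p) {β : I} (hβ : β ∈ p.w) {x : Pt I}
    (hx : x ∈ q.dom (Iio β)) : Fib (q.s β x) (q.y β x) ⊆ Fib (p.s β x) (p.y β x) := by
  intro z hz
  obtain ⟨y, hy, hyx, hyz, -⟩ := q.exists_update (h.1 hβ) hx hz
  have h1 := h.2 hy β hβ trivial
  obtain ⟨h2, h3⟩ := p.data_congr hβ (Cond.dom_mono h (isLowerSet_Iio β) hx)
    (fun γ _ hγ => hyx γ hγ)
  rw [h2, h3, hyz] at h1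
  exact h1

theorem Cond.s_mono {p q : Cond I} (h : q ≤ p) {β : I} (hβ : β ∈ p.w) {x : Pt I}
    (hx : x ∈ q.dom (Iio β)) : p.s β x <+: q.s β x :=
  prefix_of_Fib_subset (q.hS β (h.1 hβ) x hx) (q.hK β (h.1 hβ) x hx) (Cond.Fib_mono h hβ hx)

/-- a criterion for `q ≤ p` -/
theorem Cond.le_of_Fib {p q : Cond I} (hw : p.w ⊆ q.w)
    (h : ∀ β ∈ p.w, ∀ x ∈ q.dom (Iio β), x ∈ p.dom (Iio β) →
      Fib (q.s β x) (q.y β x) ⊆ Fib (p.s β x) (p.y β x)) : q ≤ p := by
  refine ⟨hw, fun x hx => ?_⟩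
  intro β
  induction β using (wellFounded_lt (α := I)).induction with
  | _ β ih =>
    intro hβ _
    exact h β hβ x (q.body_subset_dom _ hx) (fun γ hγ hγβ => ih γ hγβ hγ trivial)
      (hx β (hw hβ) trivial)

theorem OpenRes.refl {q : Cond I} {x : Pt I} (hx : x ∈ q.body) : OpenRes q q x :=
  ⟨rfl, hx, Subset.rfl, ∅, by simp, 0, fun _ hy _ => hy⟩

theorem OpenRes.trans {r s q : Cond I} {x : Pt I} (h : OpenRes r s x) (h' : OpenRes s q x) :
    OpenRes r q x := by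
  classical
  obtain ⟨h1, h2, h3, F, hF, n, hn⟩ := h
  obtain ⟨h1', -, h3', F', hF', n', hn'⟩ := h'
  refine ⟨h1.trans h1', h2, h3.trans h3', F ∪ F', ?_, max n n', fun y hy ha => ?_⟩
  · rw [Finset.coe_union]
    exact union_subset (h1' ▸ hF) hF'
  · refine hn y (hn' y hy (ha.mono (by simp) (le_max_right _ _))) ?_
    exact ha.mono (by simp) (le_max_left _ _)

theorem OpenRes.le {r q : Cond I} {x : Pt I} (h : OpenRes r q x) : r ≤ q :=
  ⟨h.1 ▸ Subset.rfl, h.2.2.1⟩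

theorem Pure.trans {F F' : Set I} {n n' : ℕ} {r q p : Cond I} (h : Pure F' n' r q) (h' : Pure F n q p)
    (hF : F ⊆ F') (hn : n ≤ n') : Pure F n r p := by
  refine ⟨h.1.trans h'.1, fun β hβ x hx => ?_⟩
  obtain ⟨h1, h2⟩ := h.2 β (hF hβ) x hx
  obtain ⟨h3, h4⟩ := h'.2 β hβ x (Cond.dom_mono h.1 (isLowerSet_Iio β) hx)
  exact ⟨h1.trans h3, fun i hi => (h2 i (lt_of_lt_of_le hi hn)).trans (h4 i hi)⟩

end Pool.Agent.QPt
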