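import Pool.Agent.QPt.PureIn

set_option autoImplicit false
set_option linter.unusedSectionVars false
set_option linter.unusedVariables false

namespace Pool.Agent.QPt

open Set

variable {I : Type} [LinearOrder I] [WellFoundedLT I]

namespace Pure0

/-- a strictly increasing list contained in another strictly increasing list is a sublist -/
theorem sublist_of_sorted {u v : List ℕ} (hu : u.Pairwise (· < ·)) (hv : v.Pairwise (· < ·))
    (h : u ⊆ v) : u.Sublist v := by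
  have h1 : u.Nodup := hu.imp (fun h => ne_of_lt h)
  have h2 : u.Subperm v := List.subperm_of_subset h1 h
  exact List.sublist_of_subperm_of_pairwise h2 hu hv

theorem pairwise_pre {z : ℕ → ℕ} (hz : StrictMono z) (n : ℕ) : (pre z n).Pairwise (· < ·) := by
  unfold pre
  rw [List.pairwise_map]
  exact (List.pairwise_lt_range (n := n)).imp fun h => hz h

theorem mem_pre {z : ℕ → ℕ} {n a : ℕ} : a ∈ pre z n ↔ ∃ i < n, z i = a := by
  unfold pre
  simp

theorem pairwise_stem {s : List ℕ} (hs : IsStem s) : s.Pairwise (· < ·) := by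
  obtain ⟨z, hz, h⟩ := hs
  rw [← h]
  exact pairwise_pre hz.1 _

theorem stem_append {s : List ℕ} {e : ℕ} (h : IsStem (s ++ [e])) :
    lam e = lam s.length ∧ ∀ a ∈ s, a < e := by
  have hp := pairwise_stem h
  obtain ⟨z, hz, h⟩ := h
  rw [List.length_append, List.length_singleton, pre_succ] at h
  have h2 := List.append_inj_right' h rfl
  have h3 : z s.length = e := by simpa using h2
  refine ⟨by rw [← h3]; exact hz.2 _, fun a ha => ?_⟩
  rw [List.pairwise_append] at hp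
  exact hp.2.2 a ha e (List.mem_singleton.2 rfl)

/-- `pure_in` for finitely many stems -/
theorem pure_in_list (L : Set I) (hL : IsLowerSet L) (β : I) (hβ : β ∈ L) (hCR : CR (Iio β))
    {ι : Type} [Finite ι] (G : ι → Set (Cond I)) (hopen : ∀ c, OpenIn L (G c))
    (hloc : ∀ c q, q.w ⊆ L → Reads q (G c) → q ∈ G c) (p : Cond I) (hp : p.w ⊆ L) (hβp : β ∈ p.w)
    (U : List (List ℕ)) :
    ∀ (b : Cond I) (_ : b.w ⊆ Iio β) (A : Pt I → Set ℕ) (_ : Nm b.body b.w A)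
      (_ : ∀ x ∈ b.body, Fat (A x)) (_ : ∀ t ∈ U, IsStem t → Bad L β G p b t A),
    ∃ b' ≤ b, b'.w ⊆ Iio β ∧ ∃ A' : Pt I → Set ℕ, Nm b'.body b'.w A' ∧
      (∀ x ∈ b'.body, Fat (A' x) ∧ A' x ⊆ A x) ∧
      ∀ t ∈ U, ∀ b'' ≤ b', b''.w ⊆ Iio β → ∀ e, IsStem (t ++ [e]) →
        (∀ x ∈ b''.body, e ∈ A' x) → Bad L β G p b'' (t ++ [e]) A' := by
  induction U with
  | nil =>
    intro b hb A hA hF _
    exact ⟨b, le_rfl, hb, A, hA, fun x hx => ⟨hF x hx, Subset.rfl⟩, fun t ht => by simp at ht⟩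
  | cons t U ih =>
    intro b hb A hA hF hbad
    obtain ⟨b1, hb1, hb1w, A1, hA1, hF1, h1⟩ := ih b hb A hA hF
      (fun t ht => hbad t (List.mem_cons_of_mem _ ht))
    by_cases hst : IsStem t
    · obtain ⟨b2, hb2, hb2w, A2, hA2, hF2, h2⟩ := pure_in L hL β hβ hCR G hopen hloc p hp hβp b1 hb1w
        t hst A1 hA1 (fun x hx => (hF1 x hx).1)
        ((hbad t List.mem_cons_self hst).mono hb1 fun x hx => (hF1 x hx).2)
      refine ⟨b2, hb2.trans hb1, hb2w, A2, hA2,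
        fun x hx => ⟨(hF2 x hx).1, (hF2 x hx).2.trans (hF1 x (hb2.2 hx)).2⟩, ?_⟩
      intro t' ht' b'' hb'' hb''w e he heA
      rcases List.mem_cons.1 ht' with rfl | ht'
      · obtain ⟨k1, k2⟩ := stem_append he
        exact h2 b'' hb'' hb''w e k1 k2 heA
      · exact (h1 t' ht' b'' (hb''.trans hb2) hb''w e he
          fun x hx => (hF2 x (hb''.2 hx)).2 (heA x hx)).mono le_rfl
            fun x hx => (hF2 x (hb''.2 hx)).2
    · refine ⟨b1, hb1, hb1w, A1, hA1, hF1, ?_⟩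
      intro t' ht' b'' hb'' hb''w e he heA
      rcases List.mem_cons.1 ht' with rfl | ht'
      · exact absurd (isStem_of_append he) hst
      · exact h1 t' ht' b'' hb'' hb''w e he heA

/-- The invariant. -/
def Inv (L : Set I) (β : I) {ι : Type} (G : ι → Set (Cond I)) (p p1 : Cond I) (s0 : List ℕ) (j : ℕ)
    (b : Cond I) (s : List ℕ × (Pt I → Set ℕ)) : Prop :=
  Nm b.body b.w s.2 ∧
  (∀ x ∈ b.body, Fat (s.2 x) ∧ s.2 x ⊆ range (p1.y β x) ∧ ∀ a ∈ s.2 x, ∀ v ∈ s.1, v < a) ∧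
  s.1.length = j ∧
  ∀ u : List ℕ, u.Sublist s.1 → IsStem (s0 ++ u) → Bad L β G p b (s0 ++ u) s.2

/-- The transition relation. -/
def Nx (j : ℕ) (b : Cond I) (s s' : List ℕ × (Pt I → Set ℕ)) : Prop :=
  ∃ v, s'.1 = s.1 ++ [v] ∧ lam v = lam j ∧ ∀ x ∈ b.body, v ∈ s.2 x ∧ s'.2 x ⊆ s.2 x

section Step

variable (L : Set I) (β : I) {ι : Type} (G : ι → Set (Cond I)) (p p1 : Cond I) (s0 : List ℕ)

theorem inv_mono (j : ℕ) (b b' : Cond I) (s : List ℕ × (Pt I → Set ℕ)) (hb : b' ≤ b)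
    (h : Inv L β G p p1 s0 j b s) : Inv L β G p p1 s0 j b' s :=
  ⟨h.1.mono hb.2 hb.1, fun x hx => h.2.1 x (hb.2 hx), h.2.2.1, fun u hu hs =>
    (h.2.2.2 u hu hs).mono hb fun _ _ => Subset.rfl⟩

omit [WellFoundedLT I] in
theorem nx_mono (j : ℕ) (b b' : Cond I) (s s' : List ℕ × (Pt I → Set ℕ)) (hb : b' ≤ b)
    (h : Nx j b s s') : Nx j b' s s' := by
  obtain ⟨v, h1, h2, h3⟩ := h
  exact ⟨v, h1, h2, fun x hx => h3 x (hb.2 hx)⟩

theorem step (hL : IsLowerSet L) (hβ : β ∈ L) (hCR : CR (Iio β)) [Finite ι]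
    (hopen : ∀ c, OpenIn L (G c))
    (hloc : ∀ c q, q.w ⊆ L → Reads q (G c) → q ∈ G c) (hp : p.w ⊆ L) (hβp : β ∈ p.w)
    (j : ℕ) (b : Cond I) (s : List ℕ × (Pt I → Set ℕ)) (hb : b.w ⊆ Iio β)
    (h : Inv L β G p p1 s0 j b s) :
    ∃ b' ≤ b, b'.w ⊆ Iio β ∧ ∃ s', Nx j b' s s' ∧ Inv L β G p p1 s0 (j + 1) b' s' := by
  obtain ⟨hN, hA, hlen, hbad⟩ := h
  obtain ⟨b1, hb1, hb1w, A1, hA1, hF1, h1⟩ := pure_in_list L hL β hβ hCR G hopen hloc p hp hβp
    (s.1.sublists.map fun u => s0 ++ u) b hb s.2 hN (fun x hx => (hA x hx).1) (by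
      intro t ht hst
      obtain ⟨u, hu, rfl⟩ := List.mem_map.1 ht
      exact hbad u (List.mem_sublists.1 hu) hst)
  obtain ⟨x0, hx0⟩ := b1.body_nonempty
  obtain ⟨b2, hb2, hc2⟩ := exists_nbhd_const b1 hx0
    (LC.nxt hA1 (fun x hx => (hF1 x hx).1) 0 (lam j))
  set v := nxt (A1 x0) 0 (lam j) with hv
  have hb2' : b2 ≤ b1 := hb2.le
  have hspec : ∀ x ∈ b2.body, v ∈ A1 x ∧ lam v = lam j := by
    intro x hx
    have := nxt_spec (hF1 x (hb2'.2 hx)).1 0 (lam j)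
    rw [← hc2 x hx]
    exact ⟨this.1, this.2.2⟩
  have hb2w : b2.w ⊆ Iio β := by rw [hb2.1]; exact hb1w
  refine ⟨b2, hb2'.trans hb1, hb2w, ⟨s.1 ++ [v], fun x => {a | a ∈ A1 x ∧ v < a}⟩,
    ⟨v, rfl, (hspec x0 hb2.2.1).2, fun x hx => ⟨(hF1 x (hb2'.2 hx)).2 (hspec x hx).1,
      fun a ha => (hF1 x (hb2'.2 hx)).2 ha.1⟩⟩, ?_, fun x hx => ⟨?_, ?_, ?_⟩, ?_, ?_⟩
  · exact Nm.tail (f := fun _ => v) (hA1.mono hb2'.2 hb2'.1) (LC.const v)
  · refine ((hF1 x (hb2'.2 hx)).1.tail (v + 1)).mono ?_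
    exact fun a ha => ⟨ha.1, ha.2⟩
  · exact fun a ha => (hA x (hb1.2 (hb2'.2 hx))).2.1 ((hF1 x (hb2'.2 hx)).2 ha.1)
  · intro a ha u hu
    rcases List.mem_append.1 hu with hu | hu
    · exact (hA x (hb1.2 (hb2'.2 hx))).2.2 a ((hF1 x (hb2'.2 hx)).2 ha.1) u hu
    · rw [List.mem_singleton.1 hu]
      exact ha.2
  · simp [hlen]
  · intro u hu hst
    obtain ⟨u1, u2, rfl, hu1, hu2⟩ := List.sublist_append_iff.1 hu
    have hu2' : u2 = [] ∨ u2 = [v] := by
      rcases List.sublist_cons_iff.1 hu2 with h | ⟨r, hr, h⟩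
      · exact Or.inl (List.sublist_nil.1 h)
      · right
        rw [hr, List.sublist_nil.1 h]
    rcases hu2' with rfl | rfl
    · rw [List.append_nil] at hst ⊢
      exact (hbad u1 hu1 hst).mono (hb2'.trans hb1) fun x hx a ha =>
        (hF1 x (hb2'.2 hx)).2 ha.1
    · rw [← List.append_assoc] at hst ⊢
      exact (h1 (s0 ++ u1) (List.mem_map.2 ⟨u1, List.mem_sublists.2 hu1, rfl⟩) b2 hb2' hb2w v hst
        fun x hx => (hspec x hx).1).mono le_rfl fun x hx a ha => ha.1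

end Step

end Pure0

open Pure0 in
theorem pure0 (L : Set I) (hL : IsLowerSet L) (β : I) (hβ : β ∈ L) (hCR : CR (Iio β))
    {ι : Type} [Finite ι] (G : ι → Set (Cond I)) (hopen : ∀ c, OpenIn L (G c))
    (hloc : ∀ c q, q.w ⊆ L → Reads q (G c) → q ∈ G c) (p : Cond I) (hp : p.w ⊆ L) (hβp : β ∈ p.w)
    (hd : DenseIn L (⋃ c, G c) p) :
    ∃ q ≤ p, q.w ⊆ L ∧ (∃ c, q ∈ G c) ∧ ∀ x ∈ q.dom (Iio β), q.s β x = p.s β x := by
  classical
  have hββ : β ∉ Iio β := lt_irrefl β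
  obtain ⟨x0, hx0⟩ := p.body_nonempty
  obtain ⟨p1, hp1, hp1s, hp1c⟩ := exists_low_const p (Iio β) (isLowerSet_Iio β) hx0 (p.hs β hβp)
  set s0 := p.s β x0 with hs0
  have hs0' : IsStem s0 := p.hS β hβp x0 (p.body_subset_dom _ hx0)
  have hp1p : p1 ≤ p := hp1.le
  have hβp1 : β ∈ p1.w := hp1p.1 hβp
  have hp1L : p1.w ⊆ L := by rw [hp1.1]; exact hp
  by_cases hbad : Bad L β G p (p1.res (Iio β) (isLowerSet_Iio β)) s0 (fun x => range (p1.y β x))
  swap
  · unfold Bad at hbad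
    push Not at hbad
    obtain ⟨c, q, h1, h2, h3, h4, h5, h6⟩ := hbad
    refine ⟨q, h3, h2, ⟨c, h1⟩, fun x hx => ?_⟩
    rw [(h6 x hx).1]
    have : x ∈ (p1.res (Iio β) (isLowerSet_Iio β)).body := h4.2 (by rw [Cond.res_body]; exact hx)
    rw [Cond.res_body] at this
    exact (hp1c x this).symm
  exfalso
  have hres : (p1.res (Iio β) (isLowerSet_Iio β)).body = p1.dom (Iio β) := p1.res_body _ _
  have hK1 : ∀ x ∈ p1.dom (Iio β), p1.y β x ∈ K := p1.hK β hβp1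
  obtain ⟨b, hb, hbw, S, hS0, hSLC, hS⟩ := seq_choice (Iio β) (isLowerSet_Iio β) hCR
    (Pure0.Inv L β G p p1 s0) Pure0.Nx
    (fun j c c' s hc _ h => inv_mono L β G p p1 s0 j c c' s hc h)
    (fun j c c' s s' hc _ h => nx_mono j c c' s s' hc h)
    (fun j c s hc h => Pure0.step L β G p p1 s0 hL hβ hCR hopen hloc hp hβp j c s hc h)
    (p1.res (Iio β) (isLowerSet_Iio β)) (fun γ hγ => hγ.2) ⟨[], fun x => range (p1.y β x)⟩
    ⟨by
      refine Nm.range (fun i => ?_) (fun x hx => ?_)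
      · rw [hres]; exact p1.hy β hβp1 i
      · rw [hres] at hx; exact hK1 x hx, fun x hx => ⟨by
      rw [hres] at hx
      exact fat_range (hK1 x hx), Subset.rfl, fun _ _ v hv => by simp at hv⟩, rfl, fun u hu hst => by
      have hu' : u = [] := List.sublist_nil.1 hu
      subst hu'
      rw [List.append_nil]
      exact hbad⟩
  set Y : Pt I → ℕ → ℕ := fun x j => (S (j + 1) x).1.getD j 0 with hY
  -- facts
  have f0 : ∀ x ∈ b.body, ∀ j, (S j x).1.length = j := by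
    intro x hx j
    obtain ⟨r, hr, hi, -⟩ := hS j x hx
    exact hi.2.2.1
  have f1 : ∀ x ∈ b.body, ∀ j, (S (j + 1) x).1 = (S j x).1 ++ [Y x j] ∧ lam (Y x j) = lam j ∧
      Y x j ∈ (S j x).2 x ∧ (S (j + 1) x).2 x ⊆ (S j x).2 x := by
    intro x hx j
    obtain ⟨r, hr, hi, ⟨v, h1, h2, h3⟩, -⟩ := hS j x hx
    have hv : Y x j = v := by
      simp only [hY]
      rw [h1, List.getD_eq_getElem?_getD, List.getElem?_append_right (by rw [f0 x hx j]), f0 x hx j]
      simp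
    rw [hv]
    exact ⟨h1, h2, (h3 x hr.2.1).1, (h3 x hr.2.1).2⟩
  have f2 : ∀ x ∈ b.body, ∀ j, (S j x).1 = pre (Y x) j := by
    intro x hx j
    induction j with
    | zero => exact List.length_eq_zero_iff.1 (f0 x hx 0)
    | succ j ih => rw [(f1 x hx j).1, ih, pre_succ]
  have f3 : ∀ x ∈ b.body, ∀ j k, j ≤ k → (S k x).2 x ⊆ (S j x).2 x := by
    intro x hx j k hjk
    induction k, hjk using Nat.le_induction with
    | base => exact Subset.rfl
    | succ k _ ih => exact fun a ha => ih ((f1 x hx k).2.2.2 ha)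
  have f4 : ∀ x ∈ b.body, ∀ j, Y x j ∈ range (p1.y β x) := by
    intro x hx j
    obtain ⟨r, hr, hi, -⟩ := hS j x hx
    exact (hi.2.1 x hr.2.1).2.1 (f1 x hx j).2.2.1
  have f5 : ∀ x ∈ b.body, StrictMono (Y x) := by
    intro x hx
    refine strictMono_nat_of_lt_succ fun j => ?_
    obtain ⟨r, hr, hi, -⟩ := hS (j + 1) x hx
    refine (hi.2.1 x hr.2.1).2.2 _ (f1 x hx (j + 1)).2.2.1 _ ?_
    rw [(f1 x hx j).1]
    simp
  have f6 : ∀ x ∈ b.body, Y x ∈ K := fun x hx => ⟨f5 x hx, fun i => (f1 x hx i).2.1⟩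
  obtain ⟨a, haw, -, has, hay, habody, hadom⟩ := exists_top b β hbw (fun _ => s0) Y (LC.const s0)
    (fun i => (hSLC (i + 1)).comp fun s => s.1.getD i 0) (fun _ _ => hs0') f6
  have haIic : a.w ⊆ Iic β := by
    rw [haw]
    rintro γ (rfl | hγ)
    · exact le_rfl
    · exact (hbw hγ).le
  have hbdom : b.body ⊆ p1.dom (Iio β) := by
    rw [← hres]
    exact hb.2
  have hale : a ≤ p1.res (Iic β) (isLowerSet_Iic β) := by
    rw [Cond.le_res_iff]
    refine ⟨?_, fun x hx => ?_⟩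
    · rintro γ ⟨hγ, hγβ⟩
      rw [haw]
      rcases lt_or_eq_of_le hγβ with hlt | rfl
      · exact Or.inr (hb.1 ⟨hγ, hlt⟩)
      · exact Or.inl rfl
    · rw [habody] at hx
      intro γ hγ hγβ
      rcases lt_or_eq_of_le hγβ with hlt | rfl
      · exact hbdom hx.1 γ hγ hlt
      · have h1 : p1.s γ x = s0 := by
          rw [(hp1s γ hββ).1]
          exact hp1c x (hbdom hx.1)
        rw [h1]
        refine Fib_mono_right ?_ hx.2
        rintro _ ⟨j, rfl⟩
        exact f4 x hx.1 j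
  obtain ⟨q, hqw, hqJ, -, hqa, hqp1, hqdom, -⟩ := exists_amal (Iic β) (isLowerSet_Iic β) p1 a haIic hale
  have hqL : q.w ⊆ L := by
    rw [hqw]
    rintro γ (hγ | hγ)
    · exact hL (haIic hγ) hβ
    · exact hp1L hγ.1
  obtain ⟨q1, hq1, hq1L, hq1G⟩ := hd q (hqp1.trans hp1p) hqL
  obtain ⟨c, hc⟩ := mem_iUnion.1 hq1G
  obtain ⟨x, hx⟩ := q1.body_nonempty
  have hβa : β ∈ a.w := by rw [haw]; exact mem_insert _ _
  have hβq : β ∈ q.w := hqa.1 hβa
  have hβq1 : β ∈ q1.w := hq1.1 hβq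
  have hqs : q.s β = fun _ => s0 := by rw [(hqJ β (mem_Iic.2 le_rfl)).1, has]
  have hqy : q.y β = Y := by rw [(hqJ β (mem_Iic.2 le_rfl)).2, hay]
  have hq1b : q1.dom (Iio β) ⊆ b.body := by
    rw [← hadom]
    exact (Cond.dom_mono hq1 (isLowerSet_Iio β)).trans (Cond.dom_mono hqa (isLowerSet_Iio β))
  have hxd : x ∈ q1.dom (Iio β) := q1.body_subset_dom _ hx
  have hxb : x ∈ b.body := hq1b hxd
  -- the stem at `x`
  have hpref : s0 <+: q1.s β x := by
    have := Cond.s_mono hq1 hβq hxd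
    rw [hqs] at this
    exact this
  obtain ⟨u, hu⟩ := hpref
  have hust : IsStem (s0 ++ u) := by
    rw [hu]
    exact q1.hS β hβq1 x hxd
  -- branches of `q1` at `β`
  have hFib : ∀ y ∈ q1.dom (Iio β), Fib (q1.s β y) (q1.y β y) ⊆ Fib s0 (Y y) := by
    intro y hy
    have := Cond.Fib_mono hq1 hβq hy
    rw [hqs, hqy] at this
    exact this
  have hxβ : x β ∈ Fib (q1.s β x) (q1.y β x) := hx β hβq1 (mem_univ _)
  have huY : ∀ v ∈ u, v ∈ range (Y x) := by
    intro v hv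
    obtain ⟨i, hi, rfl⟩ := List.getElem_of_mem hv
    have h1 := hxβ.2.1
    rw [← hu] at h1
    have h2 : x β (s0.length + i) = u[i] := by
      have h3 := pre_getD (x β) (s0 ++ u).length (s0.length + i)
        (by rw [List.length_append]; omega)
      rw [h1] at h3
      rw [← h3, List.getD_eq_getElem?_getD, List.getElem?_append_right (by omega)]
      simp [hi]
    rw [← h2]
    exact (hFib x hxd hxβ).2.2 _ (by omega)
  have hupw : u.Pairwise (· < ·) := by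
    have := pairwise_stem hust
    rw [List.pairwise_append] at this
    exact this.2.1
  -- the index
  obtain ⟨N, hN1, hN2⟩ : ∃ N, (∀ v ∈ u, v ∈ pre (Y x) N) ∧
      ∀ y ∈ b.body, pre (Y y) N = pre (Y x) N → ∀ k, (∀ v ∈ u, v < Y y k) → N ≤ k := by
    rcases List.eq_nil_or_concat u with rfl | ⟨u', v, rfl⟩
    · exact ⟨0, fun v hv => by simp at hv, fun _ _ _ _ _ => Nat.zero_le _⟩
    · obtain ⟨k0, hk0⟩ := huY v (by simp)
      refine ⟨k0 + 1, fun a ha => ?_, fun y hy hpre k hk => ?_⟩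
      · obtain ⟨i, hi⟩ := huY a ha
        refine mem_pre.2 ⟨i, ?_, hi⟩
        have hle : a ≤ v := by
          rw [List.concat_eq_append] at ha hupw
          simp only [List.mem_append, List.mem_singleton] at ha
          rcases ha with ha | ha
          · rw [List.pairwise_append] at hupw
            exact (hupw.2.2 a ha v (List.mem_singleton.2 rfl)).le
          · exact ha.le
        rw [← hi, ← hk0] at hle
        exact Nat.lt_succ_of_le ((f5 x hxb).le_iff_le.1 hle)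
      · have h1 : Y y k0 = Y x k0 := (pre_eq_iff _ _ _).1 hpre k0 (Nat.lt_succ_self _)
        have h2 := hk v (by simp)
        rw [← hk0, ← h1] at h2
        exact (f5 y hy).lt_iff_lt.1 h2
  obtain ⟨r, hr, hi, -, hconst⟩ := hS N x hxb
  have hsub : u.Sublist (S N x).1 := by
    rw [f2 x hxb N]
    exact sublist_of_sorted hupw (pairwise_pre (f5 x hxb) N) fun v hv => hN1 v hv
  have hbad' := hi.2.2.2 u hsub hust
  -- shrink
  obtain ⟨q2, hq2, hq2s, hq2c⟩ := exists_low_const q1 (Iio β) (isLowerSet_Iio β) hx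
    (q1.hs β hβq1)
  have hq2b : q2.res (Iio β) (isLowerSet_Iio β) ≤ b := by
    refine ⟨fun γ hγ => ⟨hq2.le.1 (hq1.1 (hqa.1 ?_)), hbw hγ⟩, ?_⟩
    · rw [haw]; exact Or.inr hγ
    · rw [Cond.res_body]
      exact (Cond.dom_mono hq2.le (isLowerSet_Iio β)).trans hq1b
  obtain ⟨q3, hq3, hq3r, hq3s⟩ := OpenRes.pull_low (Iio β) (isLowerSet_Iio β) hr hq2b hq2.2.1
  have hq31 : q3 ≤ q1 := hq3.le.trans hq2.le
  have hq3L : q3.w ⊆ L := by rw [hq3.1, hq2.1]; exact hq1L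
  refine hbad' c q3 ⟨hopen c q1 hc q3 hq31 hq3L, hq3L, hq31.trans (hq1.trans (hqp1.trans hp1p)), hq3r,
    hq31.1 hβq1, fun y hy => ?_⟩
  have hy2 : y ∈ q2.dom (Iio β) := Cond.dom_mono hq3.le (isLowerSet_Iio β) hy
  have hy1 : y ∈ q1.dom (Iio β) := Cond.dom_mono hq2.le (isLowerSet_Iio β) hy2
  have hyb : y ∈ b.body := hq1b hy1
  have hyr : y ∈ r.body := hq3r.2 (by rw [Cond.res_body]; exact hy)
  have hst : q1.s β y = s0 ++ u := by rw [hq2c y hy2, hu]
  refine ⟨by rw [(hq3s β hββ).1, (hq2s β hββ).1]; exact hst, fun z hz i hi' => ?_⟩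
  rw [(hq3s β hββ).2, (hq2s β hββ).2, ← hst] at hz
  have hz' := hFib y hy1 hz
  have hlen : s0.length ≤ i := by
    rw [List.length_append] at hi'
    omega
  obtain ⟨k, hk⟩ := hz'.2.2 i hlen
  rw [← hk]
  have hNk : N ≤ k := by
    refine hN2 y hyb ?_ k fun v hv => ?_
    · rw [← f2 y hyb, ← f2 x hxb, (hconst y hyr).1]
    · rw [hk]
      have hvm : v ∈ pre z (s0 ++ u).length := by
        have := hz.2.1
        rw [hst] at this
        rw [this]
        exact List.mem_append_right _ hv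
      obtain ⟨i', hi'', rfl⟩ := mem_pre.1 hvm
      exact hz.1.1 (lt_of_lt_of_le hi'' hi')
  have := f3 y hyb N k hNk (f1 y hyb k).2.2.1
  rw [(hconst y hyr).1] at this
  exact this

end Pool.Agent.QPt
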