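import Pool.Agent.QPt.Glue
import Pool.Agent.QPt.Inf

set_option autoImplicit false
set_option linter.unusedSectionVars false
set_option linter.unusedVariables false

namespace Pool.Agent.QPt

open Set

variable {I : Type} [LinearOrder I] [WellFoundedLT I]

theorem Bad.mono {L : Set I} {β : I} {ι : Type} {G : ι → Set (Cond I)} {p b b' : Cond I} {t : List ℕ}
    {A A' : Pt I → Set ℕ} (h : Bad L β G p b t A) (hb : b' ≤ b) (hA : ∀ x ∈ b'.body, A' x ⊆ A x) :
    Bad L β G p b' t A' := by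
  rintro c q ⟨h1, h2, h3, h4, h5, h6⟩
  refine h c q ⟨h1, h2, h3, h4.trans hb, h5, fun x hx => ⟨(h6 x hx).1, fun z hz i hi => ?_⟩⟩
  refine hA x (h4.2 ?_) ((h6 x hx).2 z hz i hi)
  rw [Cond.res_body]
  exact hx

namespace PureIn

omit [LinearOrder I] [WellFoundedLT I] in
/-- a function determined by finitely many terms of a sequence of locally constant functions -/
theorem of_seq {γ σ : Type*} {C : Set (Pt I)} {w : Set I} {S : ℕ → Pt I → σ}
    (hS : ∀ j, LC C w (S j)) {f : Pt I → γ}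
    (h : ∀ x ∈ C, ∃ N, ∀ y ∈ C, (∀ j < N, S j y = S j x) → f y = f x) : LC C w f := by
  intro x hx
  obtain ⟨N, hN⟩ := h x hx
  obtain ⟨F, hF, n, hn⟩ := LC.finset (Finset.range N) (f := S) (fun i _ => hS i) x hx
  exact ⟨F, hF, n, fun y hy hxy => hN y hy fun j hj => hn y hy hxy j (Finset.mem_range.2 hj)⟩

variable (I) in
/-- The states. -/
structure St (ι : Type) where
  A : Pt I → Set ℕ
  e : ℕ
  m : Option ι
  q : Cond I

/-- The invariant. -/
def Inv {ι : Type} (A0 : Pt I → Set ℕ) (_j : ℕ) (b : Cond I) (s : St I ι) : Prop :=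
  Nm b.body b.w s.A ∧ ∀ x ∈ b.body, Fat (s.A x) ∧ s.A x ⊆ A0 x

/-- The transition relation. -/
def Nx (L : Set I) (β : I) {ι : Type} (G : ι → Set (Cond I)) (p : Cond I) (t : List ℕ)
    (j : ℕ) (b : Cond I) (s s' : St I ι) : Prop :=
  (∀ x ∈ b.body, s'.e ∈ s.A x ∧ ∀ a ∈ s'.A x, a ∈ s.A x ∧ s'.e < a) ∧ lam s'.e = lam j ∧
  (∀ c, s'.m = some c → s'.q ∈ G c ∧ s'.q.w ⊆ L ∧ s'.q ≤ p ∧ AtStem s'.q β (t ++ [s'.e]) s.A ∧
    b ≤ s'.q.res (Iio β) (isLowerSet_Iio β) ∧ ∀ x ∈ b.body, s'.A x ⊆ range (s'.q.y β x)) ∧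
  (s'.m = none → lam j = lam t.length → Bad L β G p b (t ++ [s'.e]) s.A)

section Step

variable (L : Set I) (β : I) {ι : Type} (G : ι → Set (Cond I)) (p : Cond I) (t : List ℕ)
  (A0 : Pt I → Set ℕ)

omit [WellFoundedLT I] in
theorem inv_mono (j : ℕ) (b b' : Cond I) (s : St I ι) (hb : b' ≤ b) (h : Inv A0 j b s) :
    Inv A0 j b' s :=
  ⟨h.1.mono hb.2 hb.1, fun x hx => h.2 x (hb.2 hx)⟩

theorem nx_mono (j : ℕ) (b b' : Cond I) (s s' : St I ι) (hb : b' ≤ b) (h : Nx L β G p t j b s s') :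
    Nx L β G p t j b' s s' := by
  obtain ⟨h1, h2, h3, h4⟩ := h
  refine ⟨fun x hx => h1 x (hb.2 hx), h2, fun c hc => ?_, fun hm hj => ?_⟩
  · obtain ⟨k1, k2, k3, k4, k5, k6⟩ := h3 c hc
    exact ⟨k1, k2, k3, k4, hb.trans k5, fun x hx => k6 x (hb.2 hx)⟩
  · exact (h4 hm hj).mono hb fun x _ => Subset.rfl

theorem step (j : ℕ) (b : Cond I) (s : St I ι) (hb : b.w ⊆ Iio β) (h : Inv A0 j b s) :
    ∃ b' ≤ b, b'.w ⊆ Iio β ∧ ∃ s', Nx L β G p t j b' s s' ∧ Inv A0 (j + 1) b' s' := by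
  obtain ⟨hN, hA⟩ := h
  obtain ⟨x0, hx0⟩ := b.body_nonempty
  obtain ⟨b1, hb1, hc1⟩ := exists_nbhd_const b hx0
    (LC.nxt hN (fun x hx => (hA x hx).1) 0 (lam j))
  have hb1' : b1 ≤ b := hb1.le
  set e := nxt (s.A x0) 0 (lam j) with he
  have hspec : ∀ x ∈ b1.body, e ∈ s.A x ∧ lam e = lam j := by
    intro x hx
    have := nxt_spec (hA x (hb1'.2 hx)).1 0 (lam j)
    rw [← hc1 x hx]
    exact ⟨this.1, this.2.2⟩
  have hlam : lam e = lam j := (hspec x0 hb1.2.1).2
  have hN1 : Nm b1.body b1.w s.A := hN.mono hb1'.2 hb1'.1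
  by_cases hw : ∃ c q', lam j = lam t.length ∧ Wit L β G p b1 (t ++ [e]) s.A c q'
  · obtain ⟨c, q', hj, h1, h2, h3, h4, h5, h6⟩ := hw
    have hb' : q'.res (Iio β) (isLowerSet_Iio β) ≤ b := h4.trans hb1'
    have hbody : (q'.res (Iio β) (isLowerSet_Iio β)).body = q'.dom (Iio β) := q'.res_body _ _
    refine ⟨q'.res (Iio β) (isLowerSet_Iio β), hb', fun γ hγ => hγ.2,
      ⟨fun x => {a | a ∈ range (q'.y β x) ∩ s.A x ∧ e < a}, e, some c, q'⟩,
      ⟨fun x hx => ⟨(hspec x (h4.2 hx)).1, fun a ha => ⟨ha.1.2, ha.2⟩⟩, hlam, fun c' hc' => ?_,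
        fun hm => by simp at hm⟩, ?_, fun x hx => ⟨?_, ?_⟩⟩
    · obtain rfl : c = c' := by simpa using hc'
      exact ⟨h1, h2, h3, ⟨h5, h6⟩, le_rfl, fun x hx a ha => ha.1.1⟩
    · refine Nm.tail (f := fun _ => e) ?_ (LC.const e)
      refine Nm.inter (Nm.range ?_ ?_) (hN.mono hb'.2 hb'.1)
      · intro i
        rw [hbody]
        exact q'.hy β h5 i
      · intro x hx
        rw [hbody] at hx
        exact q'.hK β h5 x hx
    · rw [hbody] at hx
      have hS := q'.hS β h5 x hx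
      have hK := q'.hK β h5 x hx
      rw [(h6 x hx).1] at hS
      have hf : Fat (range (q'.y β x) ∩ s.A x) := fat_reach hS hK (h6 x hx).2
      refine (hf.tail (e + 1)).mono ?_
      exact fun a ha => ⟨ha.1, ha.2⟩
    · exact fun a ha => (hA x (hb'.2 hx)).2 ha.1.2
  · refine ⟨b1, hb1', by rw [hb1.1]; exact hb,
      ⟨fun x => {a | a ∈ s.A x ∧ e < a}, e, none, p⟩,
      ⟨fun x hx => ⟨(hspec x hx).1, fun a ha => ha⟩, hlam, fun c' hc' => by simp at hc',
        fun _ hj => ?_⟩, ?_, fun x hx => ⟨?_, ?_⟩⟩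
    · intro c q' hq'
      exact hw ⟨c, q', hj, hq'⟩
    · exact Nm.tail (f := fun _ => e) hN1 (LC.const e)
    · refine ((hA x (hb1'.2 hx)).1.tail (e + 1)).mono ?_
      exact fun a ha => ⟨ha.1, ha.2⟩
    · exact fun a ha => (hA x (hb1'.2 hx)).2 ha.1

end Step

end PureIn

open PureIn in
theorem pure_in (L : Set I) (hL : IsLowerSet L) (β : I) (hβ : β ∈ L) (hCR : CR (Iio β))
    {ι : Type} [Finite ι] (G : ι → Set (Cond I)) (hopen : ∀ c, OpenIn L (G c))
    (hloc : ∀ c q, q.w ⊆ L → Reads q (G c) → q ∈ G c) (p : Cond I) (hp : p.w ⊆ L) (hβp : β ∈ p.w)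
    (b : Cond I) (hb : b.w ⊆ Iio β) (t : List ℕ) (ht : IsStem t) (A : Pt I → Set ℕ)
    (hA : Nm b.body b.w A) (hF : ∀ x ∈ b.body, Fat (A x)) (hbad : Bad L β G p b t A) :
    ∃ b' ≤ b, b'.w ⊆ Iio β ∧ ∃ A' : Pt I → Set ℕ, Nm b'.body b'.w A' ∧
      (∀ x ∈ b'.body, Fat (A' x) ∧ A' x ⊆ A x) ∧
      ∀ b'' ≤ b', b''.w ⊆ Iio β → ∀ e, lam e = lam t.length → (∀ a ∈ t, a < e) →
        (∀ x ∈ b''.body, e ∈ A' x) → Bad L β G p b'' (t ++ [e]) A' := by
  classical
  obtain ⟨b₁, hb₁, hb₁w, S, hS0, hSLC, hS⟩ := seq_choice (Iio β) (isLowerSet_Iio β) hCR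
    (PureIn.Inv (ι := ι) A) (PureIn.Nx L β G p t)
    (fun j c c' s hc _ h => inv_mono A j c c' s hc h)
    (fun j c c' s s' hc _ h => nx_mono L β G p t j c c' s s' hc h)
    (fun j c s hc h => PureIn.step L β G p t A j c s hc h) b hb ⟨A, 0, none, p⟩
    ⟨hA, fun x hx => ⟨hF x hx, Subset.rfl⟩⟩
  -- the sequences at a point
  set e : ℕ → Pt I → ℕ := fun j x => (S (j + 1) x).e with he
  set m : ℕ → Pt I → Option ι := fun j x => (S (j + 1) x).m with hm
  have f1 : ∀ x ∈ b₁.body, ∀ j, e j x ∈ (S j x).A x ∧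
      (∀ a ∈ (S (j + 1) x).A x, a ∈ (S j x).A x ∧ e j x < a) ∧ lam (e j x) = lam j := by
    intro x hx j
    obtain ⟨r, hr, hi, hn, -⟩ := hS j x hx
    exact ⟨(hn.1 x hr.2.1).1, (hn.1 x hr.2.1).2, hn.2.1⟩
  have f2 : ∀ x ∈ b₁.body, ∀ j k, j ≤ k → (S k x).A x ⊆ (S j x).A x := by
    intro x hx j k hjk
    induction k, hjk using Nat.le_induction with
    | base => exact Subset.rfl
    | succ k _ ih => exact fun a ha => ih ((f1 x hx k).2.1 a ha).1
  have f3 : ∀ x ∈ b₁.body, ∀ j k, j < k → e k x ∈ (S (j + 1) x).A x := fun x hx j k hjk =>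
    f2 x hx (j + 1) k hjk (f1 x hx k).1
  have f4 : ∀ x ∈ b₁.body, StrictMono (fun j => e j x) := fun x hx =>
    strictMono_nat_of_lt_succ fun j => ((f1 x hx j).2.1 _ (f3 x hx j (j + 1) (Nat.lt_succ_self j))).2
  have f5 : ∀ x ∈ b₁.body, ∀ j, e j x ∈ A x := by
    intro x hx j
    obtain ⟨r, hr, hi, hn, -⟩ := hS 0 x hx
    exact (hi.2 x hr.2.1).2 (f2 x hx 0 j (Nat.zero_le j) (f1 x hx j).1)
  have f6 : ∀ x ∈ b₁.body, ∀ j, j ≤ e j x := fun x hx j => (f4 x hx).le_apply
  -- the colour classes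
  set N : Option ι → Pt I → Set ℕ := fun o x =>
    {a | ∃ j, e j x = a ∧ lam j = lam t.length ∧ m j x = o} with hNdef
  have hSLC' : ∀ j, LC b₁.body b₁.w (S (j + 1)) := fun j => hSLC (j + 1)
  have hNm : ∀ o, Nm b₁.body b₁.w (N o) := by
    intro o a
    refine of_seq hSLC' fun x hx => ⟨a + 1, fun y hy hxy => ?_⟩
    apply propext
    constructor
    · rintro ⟨j, h1, h2, h3⟩
      have hj : j < a + 1 := Nat.lt_succ_of_le (h1 ▸ f6 y hy j)
      have := hxy j hj
      exact ⟨j, by simp only [he, ← this]; exact h1, h2, by simp only [hm, ← this]; exact h3⟩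
    · rintro ⟨j, h1, h2, h3⟩
      have hj : j < a + 1 := Nat.lt_succ_of_le (h1 ▸ f6 x hx j)
      have := hxy j hj
      exact ⟨j, by simp only [he, this]; exact h1, h2, by simp only [hm, this]; exact h3⟩
  obtain ⟨b', hb', hb'w, o, ho⟩ := inf_color (Iio β) (isLowerSet_Iio β) hCR b₁ hb₁w N hNm (by
    intro x hx
    refine Set.infinite_of_forall_exists_gt fun a => ?_
    obtain ⟨k, hk, hlk⟩ := exists_lam (lam t.length) (a + 1)
    exact ⟨e k x, mem_iUnion.2 ⟨m k x, k, rfl, hlk, rfl⟩, lt_of_lt_of_le hk (f6 x hx k)⟩)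
  set A' : Pt I → Set ℕ := fun x =>
    {a | ∃ j, e j x = a ∧ (lam j = lam t.length → m j x = o)} with hA'def
  have hb'1 : ∀ x ∈ b'.body, x ∈ b₁.body := fun x hx => hb'.2 hx
  have hNmA' : Nm b'.body b'.w A' := by
    intro a
    refine of_seq (fun j => (hSLC' j).mono hb'.2 hb'.1) fun x hx => ⟨a + 1, fun y hy hxy => ?_⟩
    apply propext
    constructor
    · rintro ⟨j, h1, h2⟩
      have hj : j < a + 1 := Nat.lt_succ_of_le (h1 ▸ f6 y (hb'1 y hy) j)
      have := hxy j hj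
      exact ⟨j, by simp only [he, ← this]; exact h1, by simp only [hm, ← this]; exact h2⟩
    · rintro ⟨j, h1, h2⟩
      have hj : j < a + 1 := Nat.lt_succ_of_le (h1 ▸ f6 x (hb'1 x hx) j)
      have := hxy j hj
      exact ⟨j, by simp only [he, this]; exact h1, by simp only [hm, this]; exact h2⟩
  have hA'A : ∀ x ∈ b'.body, A' x ⊆ A x := by
    rintro x hx _ ⟨j, rfl, -⟩
    exact f5 x (hb'1 x hx) j
  have hfat : ∀ x ∈ b'.body, Fat (A' x) := by
    intro x hx n M
    by_cases hn : n = lam t.length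
    · obtain ⟨a, ⟨j, h1, h2, h3⟩, haM⟩ := (ho x hx).exists_gt M
      refine ⟨a, ⟨j, h1, fun _ => h3⟩, haM.le, ?_⟩
      rw [← h1, (f1 x (hb'1 x hx) j).2.2, h2, hn]
    · obtain ⟨k, hk, hlk⟩ := exists_lam n M
      refine ⟨e k x, ⟨k, rfl, fun h => (hn (hlk.symm.trans h)).elim⟩,
        hk.trans (f6 x (hb'1 x hx) k), ?_⟩
      rw [(f1 x (hb'1 x hx) k).2.2, hlk]
  refine ⟨b', hb'.trans hb₁, hb'w, A', hNmA', fun x hx => ⟨hfat x hx, hA'A x hx⟩, ?_⟩
  rcases hoc : o with _ | c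
  rotate_left
  · exfalso
    obtain ⟨a, haw, haγ, has, hay, habody, hadom⟩ := exists_top b' β hb'w (fun _ => t)
      (fun x => zm [] (A' x)) (LC.const t)
      (fun i => LC.zm (LC.const []) hNmA' (fun _ _ => isStem_nil) hfat i) (fun _ _ => ht)
      (fun x hx => zm_mem_K isStem_nil (hfat x hx))
    -- facts at a point of `a.body`
    have g1 : ∀ x ∈ a.body, x ∈ b'.body ∧ x β ∈ K ∧ pre (x β) t.length = t ∧
        ∀ i, t.length ≤ i → x β i ∈ A' x := by
      intro x hx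
      rw [habody] at hx
      exact ⟨hx.1, hx.2.1, hx.2.2.1, fun i hi => range_zm_nil (hfat x hx.1) (hx.2.2.2 i hi)⟩
    set J : Pt I → ℕ := fun x => sInf {j | e j x = x β t.length} with hJ
    have g2 : ∀ x ∈ a.body, e (J x) x = x β t.length ∧ m (J x) x = some c := by
      intro x hx
      obtain ⟨h1, h2, h3, h4⟩ := g1 x hx
      obtain ⟨j, hj, hj'⟩ := h4 t.length le_rfl
      have hmem : e (J x) x = x β t.length := Nat.sInf_mem (s := {j | e j x = x β t.length}) ⟨j, hj⟩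
      have hJj : J x = j := (f4 x (hb'1 x h1)).injective (hmem.trans hj.symm)
      refine ⟨hmem, ?_⟩
      rw [hJj, ← hoc]
      apply hj'
      rw [← (f1 x (hb'1 x h1) j).2.2, hj]
      exact h2.2 _
    set P : Pt I → Cond I := fun x => (S (J x + 1) x).q with hPdef
    have ha1 : a.body ⊆ b₁.body := fun x hx => hb'1 x (g1 x hx).1
    have hw1 : b₁.w ⊆ a.w := by
      rw [haw]
      exact hb'.1.trans (subset_insert _ _)
    have hβa : β ∈ a.w := by rw [haw]; exact mem_insert _ _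
    have hPLC : LC a.body a.w P := by
      refine of_seq (S := fun j x => (S (j + 1) x, x β t.length))
        (fun j => ((hSLC' j).mono ha1 hw1).prod (LC.coord hβa _)) fun x hx =>
          ⟨x β t.length + 1, fun y hy hxy => ?_⟩
      have h0 : y β t.length = x β t.length := by
        have := hxy 0 (Nat.succ_pos _)
        simp only [Prod.mk.injEq] at this
        exact this.2
      have h1 : ∀ j < x β t.length + 1, S (j + 1) y = S (j + 1) x := by
        intro j hj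
        have := hxy j hj
        simp only [Prod.mk.injEq] at this
        exact this.1
      have hJx : J x < x β t.length + 1 := by
        refine Nat.lt_succ_of_le ?_
        rw [← (g2 x hx).1]
        exact f6 x (ha1 hx) _
      have hJJ : J y = J x := by
        apply (f4 y (ha1 hy)).injective
        show e (J y) y = e (J x) y
        rw [(g2 y hy).1, h0, ← (g2 x hx).1]
        simp only [he]
        rw [h1 _ hJx]
      show (S (J y + 1) y).q = (S (J x + 1) x).q
      rw [hJJ, h1 _ hJx]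
    -- the witness at a point
    have g3 : ∀ x ∈ a.body, P x ∈ G c ∧ (P x).w ⊆ L ∧ P x ≤ p ∧ (P x).w ∩ Iio β ⊆ a.w ∧
        x ∈ (P x).dom (Iic β) := by
      intro x hx
      obtain ⟨h1, h2, h3, h4⟩ := g1 x hx
      obtain ⟨r, hr, hi, hn, -⟩ := hS (J x) x (ha1 hx)
      obtain ⟨k1, k2, k3, k4, k5, k6⟩ := hn.2.2.1 c (g2 x hx).2
      refine ⟨k1, k2, k3, ?_, ?_⟩
      · exact (k5.1.trans hr.1.subset).trans hw1
      · have hxd : x ∈ (P x).dom (Iio β) := by
          have := k5.2 hr.2.1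
          rw [Cond.res_body] at this
          exact this
        intro γ hγ hγβ
        rcases lt_or_eq_of_le hγβ with hlt | rfl
        · exact hxd γ hγ hlt
        · have hst := (k4.2 x hxd).1
          have hst' : (P x).s γ x = t ++ [x γ t.length] := by
            show (S (J x + 1) x).q.s γ x = _
            rw [hst]
            congr 2
            exact (g2 x hx).1
          rw [hst']
          refine ⟨h2, ?_, ?_⟩
          · rw [List.length_append, List.length_singleton, pre_succ, h3]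
          · intro i hi
            rw [List.length_append, List.length_singleton] at hi
            obtain ⟨k, hk, -⟩ := h4 i (by omega)
            have hlt : x γ t.length < x γ i := h2.1 (by omega)
            rw [← hk, ← (g2 x hx).1] at hlt
            have hJk : J x < k := (f4 x (ha1 hx)).lt_iff_lt.1 hlt
            rw [← hk]
            exact k6 x hr.2.1 (f3 x (ha1 hx) (J x) k hJk)
    have haIic : a.w ⊆ Iic β := by
      rw [haw]
      rintro γ (rfl | hγ)
      · exact le_rfl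
      · exact (hb'w hγ).le
    have hPw : ∀ x ∈ a.body, (P x).w ∩ Iic β ⊆ a.w := by
      rintro x hx γ ⟨hγ, hγβ⟩
      rcases lt_or_eq_of_le hγβ with hlt | rfl
      · exact (g3 x hx).2.2.2.1 ⟨hγ, hlt⟩
      · exact hβa
    obtain ⟨q, hqw, hqJ, -, -, hqa, hqdom, hqbody⟩ := exists_glue (Iic β) (isLowerSet_Iic β) a haIic P
      hPLC (fun x hx => ⟨hPw x hx, (g3 x hx).2.2.2.2⟩)
    have hPq : ∀ x ∈ a.body, (P x).w ⊆ q.w := by
      intro x hx γ hγ
      rw [hqw]
      by_cases h : γ ≤ β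
      · exact Or.inl (hPw x hx ⟨hγ, h⟩)
      · exact Or.inr (mem_iUnion₂.2 ⟨x, hx, hγ, h⟩)
    have hqL : q.w ⊆ L := by
      rw [hqw]
      rintro γ (hγ | hγ)
      · exact hL (haIic hγ) hβ
      · obtain ⟨x, hx, hγ', -⟩ := mem_iUnion₂.1 hγ
        exact (g3 x hx).2.1 hγ'
    have hreads : Reads q (G c) := by
      intro x hx
      obtain ⟨r, hr, hr'⟩ := exists_nbhd_const q hx (hPLC.mono hqa.2 hqa.1)
      refine ⟨r, ?_, hr⟩
      refine hopen c (P x) (g3 x (hqbody x hx).1).1 r ⟨?_, ?_⟩ ?_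
      · rw [hr.1]
        exact hPq x (hqbody x hx).1
      · intro y hy
        have := (hqbody y (hr.2.2.1 hy)).2
        rw [hr' y hy] at this
        exact this
      · rw [hr.1]
        exact hqL
    have hqG : q ∈ G c := hloc c q hqL hreads
    have hqp : q ≤ p := by
      obtain ⟨x, hx⟩ := a.body_nonempty
      refine ⟨(g3 x hx).2.2.1.1.trans (hPq x hx), fun y hy => ?_⟩
      exact (g3 y (hqbody y hy).1).2.2.1.2 (hqbody y hy).2
    have hqd : q.dom (Iio β) ⊆ b'.body := by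
      rw [← hadom]
      exact Cond.dom_mono hqa (isLowerSet_Iio β)
    refine hbad c q ⟨hqG, hqL, hqp, ⟨?_, ?_⟩, ?_, fun x hx => ⟨?_, ?_⟩⟩
    · intro γ hγ
      exact ⟨hqa.1 (hw1 (hb₁.1 hγ)), hb hγ⟩
    · rw [Cond.res_body]
      exact (hqd.trans hb'.2).trans hb₁.2
    · exact hqa.1 hβa
    · rw [(hqJ β (mem_Iic.2 le_rfl)).1, has]
    · intro z hz i hi
      rw [(hqJ β (mem_Iic.2 le_rfl)).2, hay] at hz
      exact hA'A x (hqd hx) (range_zm_nil (hfat x (hqd hx)) (hz.2.2 i hi))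
  · intro b'' hb'' hb''w v hv htv hvA c q ⟨h1, h2, h3, h4, h5, h6⟩
    obtain ⟨x, hx⟩ := q.body_nonempty
    have hxb'' : x ∈ b''.body := h4.2 (by rw [Cond.res_body]; exact q.body_subset_dom _ hx)
    obtain ⟨j, hj, hj'⟩ := hvA x hxb''
    have hx1 : x ∈ b₁.body := hb'1 x (hb''.2 hxb'')
    have hlj : lam j = lam t.length := by
      rw [← (f1 x hx1 j).2.2, hj, hv]
    obtain ⟨r, hr, hi, hn, hconst⟩ := hS j x hx1
    have hqb : q.res (Iio β) (isLowerSet_Iio β) ≤ b₁ := h4.trans (hb''.trans hb')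
    obtain ⟨q', hq', hq'r, hq's⟩ := OpenRes.pull_low (Iio β) (isLowerSet_Iio β) hr hqb hx
    have hbad' := hn.2.2.2 ((hj' hlj).trans hoc) hlj
    have hvj : (S (j + 1) x).e = v := hj
    rw [hvj] at hbad'
    have hq'L : q'.w ⊆ L := by rw [hq'.1]; exact h2
    refine hbad' c q' ⟨hopen c q h1 q' hq'.le hq'L, hq'L, hq'.le.trans h3, hq'r, ?_, fun y hy => ?_⟩
    · rw [hq'.1]
      exact h5
    · have hyr : y ∈ r.body := hq'r.2 (by rw [Cond.res_body]; exact hy)
      have hyq : y ∈ q.dom (Iio β) := Cond.dom_mono hq'.le (isLowerSet_Iio β) hy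
      have hy1 : y ∈ b₁.body := hr.2.2.1 hyr
      have hββ : β ∉ Iio β := lt_irrefl β
      refine ⟨by rw [(hq's β hββ).1]; exact (h6 y hyq).1, fun z hz i hi => ?_⟩
      rw [(hq's β hββ).2] at hz
      obtain ⟨k, hk, -⟩ := (h6 y hyq).2 z hz i hi
      have hzt : z t.length = v := by
        have := hz.2.1
        rw [List.length_append, List.length_singleton, pre_succ] at this
        have := List.append_inj_right' this rfl
        simpa using this
      have hlt : v < z i := by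
        rw [← hzt]
        rw [List.length_append, List.length_singleton] at hi
        exact hz.1.1 (by omega)
      have hvy : e j y = v := by
        simp only [he]
        rw [(hconst y hyr).2]
        exact hj
      rw [← hk, ← hvy] at hlt
      have hjk : j < k := (f4 y hy1).lt_iff_lt.1 hlt
      rw [← hk]
      have := f2 y hy1 j k hjk.le (f1 y hy1 k).1
      rw [(hconst y hyr).1] at this
      exact this

end Pool.Agent.QPt
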