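import Pool.Agent.QPt.Nbhd
import Pool.Agent.QPt.Reads
import Pool.Agent.QPt.FusionSeq

/-!
# Sequences of dependent choices
-/

set_option autoImplicit false
set_option linter.unusedSectionVars false

namespace Pool.Agent.QPt

open Set

variable {I : Type} [LinearOrder I] [WellFoundedLT I]

theorem seq_choice {σ : Type} (J : Set I) (hJ : IsLowerSet J) (hCR : CR J)
    (Inv : ℕ → Cond I → σ → Prop) (Nx : ℕ → Cond I → σ → σ → Prop)
    (hInv : ∀ j b b' s, b' ≤ b → b'.w ⊆ J → Inv j b s → Inv j b' s)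
    (hNx : ∀ j b b' s s', b' ≤ b → b'.w ⊆ J → Nx j b s s' → Nx j b' s s')
    (hstep : ∀ j b s, b.w ⊆ J → Inv j b s →
      ∃ b' ≤ b, b'.w ⊆ J ∧ ∃ s', Nx j b' s s' ∧ Inv (j + 1) b' s')
    (b0 : Cond I) (hb0 : b0.w ⊆ J) (s0 : σ) (h0 : Inv 0 b0 s0) :
    ∃ b ≤ b0, b.w ⊆ J ∧ ∃ S : ℕ → Pt I → σ, (∀ x ∈ b.body, S 0 x = s0) ∧
      (∀ j, LC b.body b.w (S j)) ∧
      ∀ j, ∀ x ∈ b.body, ∃ r, OpenRes r b x ∧ Inv j r (S j x) ∧ Nx j r (S j x) (S (j + 1) x) ∧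
        ∀ y ∈ r.body, S j y = S j x ∧ S (j + 1) y = S (j + 1) x := by
  classical
  have : Nonempty σ := ⟨s0⟩
  let Inv' : ℕ → Cond I → (Pt I → σ) → Prop := fun j p a =>
    LC p.body p.w a ∧ ∀ x ∈ p.body, ∃ r, OpenRes r p x ∧ (∀ y ∈ r.body, a y = a x) ∧ Inv j r (a x)
  let Rel' : ℕ → Cond I → (Pt I → σ) → Cond I → (Pt I → σ) → Prop := fun j p a p' a' =>
    ∀ x ∈ p'.body, ∃ r, OpenRes r p' x ∧ Inv j r (a x) ∧ Nx j r (a x) (a' x) ∧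
      ∀ y ∈ r.body, a y = a x ∧ a' y = a' x
  have hstep' : ∀ (j : ℕ) (p : Cond I) (a : Pt I → σ) (F : Finset I) (n : ℕ), p.w ⊆ J →
      (F : Set I) ⊆ p.w → Inv' j p a → ∃ (p' : Cond I) (a' : Pt I → σ), p'.w ⊆ J ∧
        Pure (F : Set I) n p' p ∧ Inv' (j + 1) p' a' ∧ Rel' j p a p' a' := by
    intro j p a F n hpJ hF hinv
    let S : Cond I → σ → Prop := fun r s' =>
      r.w ⊆ J ∧ ∃ s, (∀ y ∈ r.body, a y = s) ∧ Nx j r s s' ∧ Inv j r s ∧ Inv (j + 1) r s'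
    have hSmono : ∀ r r' i, S r i → r' ≤ r → r'.w ⊆ J → S r' i := by
      rintro r r' i ⟨_, s, h1, h2, h3, h4⟩ hr hw
      exact ⟨hw, s, fun y hy => h1 y (hr.2 hy), hNx j r r' s i hr hw h2, hInv j r r' s hr hw h3,
        hInv (j + 1) r r' i hr hw h4⟩
    let D : Set (Cond I) := {b' | ∃ s', S b' s'}
    have hopen : OpenIn J D := by
      rintro b ⟨s', hs'⟩ q hq hw
      exact ⟨s', hSmono b q s' hs' hq hw⟩
    have hdense : DenseIn J D p := by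
      intro q hq hw
      obtain ⟨x, hx⟩ := q.body_nonempty
      obtain ⟨r, hr, hc, hi⟩ := hinv.2 x (hq.2 hx)
      obtain ⟨r', hr', hle⟩ := hr.pull hq hx
      have hw' : r'.w ⊆ J := by rw [hr'.1]; exact hw
      obtain ⟨b', hb', hbw, s', hn, hi'⟩ := hstep j r' (a x) hw' (hInv j r r' (a x) hle hw' hi)
      refine ⟨b', hb'.trans hr'.le, hbw, s', hbw, a x, ?_, hn, ?_, hi'⟩
      · exact fun y hy => hc y (hle.2 (hb'.2 hy))
      · exact hInv j r b' (a x) (hb'.trans hle) hbw hi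
    obtain ⟨q, hqJ, hpure, hreads⟩ := hCR D p F n hpJ hopen hdense hF
    obtain ⟨g, hg, hgS⟩ := exists_index (q := q) (S := S)
      (fun r r' i h1 h2 h3 => hSmono r r' i h1 h2 (by rw [h3]; exact hqJ))
      (fun x hx => by
        obtain ⟨r, ⟨s', hs'⟩, hr⟩ := hreads x hx
        exact ⟨r, s', hr, hs'⟩)
    refine ⟨q, g, hqJ, hpure, ⟨hg, fun x hx => ?_⟩, fun x hx => ?_⟩
    · obtain ⟨r, hr, ⟨_, s, _, _, _, h4⟩, hc⟩ := hgS x hx
      exact ⟨r, hr, hc, h4⟩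
    · obtain ⟨r, hr, ⟨_, s, h1, h2, h3, _⟩, hc⟩ := hgS x hx
      have hax : a x = s := h1 x hr.2.1
      refine ⟨r, hr, ?_, ?_, fun y hy => ⟨?_, hc y hy⟩⟩
      · rw [hax]; exact h3
      · rw [hax]; exact h2
      · rw [hax]; exact h1 y hy
  obtain ⟨P, A, F, q, hP0, hA0, _, _, hqJ, hall⟩ := fusion_seq J Inv' Rel' hstep' b0
    (fun _ => s0) hb0 ⟨LC.const s0, fun x hx => ⟨b0, OpenRes.refl hx, fun _ _ => rfl, h0⟩⟩ ∅
    (by simp) 0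
  have hqle : ∀ j, q ≤ P j := fun j => (hall j).2.2.2.2.2.1
  refine ⟨q, hP0 ▸ hqle 0, hqJ, A, fun x _ => by rw [hA0], fun j => ?_, fun j x hx => ?_⟩
  · exact (hall j).2.2.1.1.mono (hqle j).2 (hqle j).1
  · obtain ⟨r, hr, h1, h2, h3⟩ := (hall j).2.2.2.1 x ((hqle (j + 1)).2 hx)
    obtain ⟨r', hr', hle⟩ := hr.pull (hqle (j + 1)) hx
    have hw' : r'.w ⊆ J := by rw [hr'.1]; exact hqJ
    exact ⟨r', hr', hInv j r r' _ hle hw' h1, hNx j r r' _ _ hle hw' h2,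
      fun y hy => h3 y (hle.2 hy)⟩

/-- reading countably many dense open sets -/
theorem CR.reads_seq (J : Set I) (hJ : IsLowerSet J) (hCR : CR J) (D : ℕ → Set (Cond I)) (p : Cond I)
    (hp : p.w ⊆ J) (hD : ∀ k, OpenIn J (D k)) (hd : ∀ k, DenseIn J (D k) p) :
    ∃ q ≤ p, q.w ⊆ J ∧ ∀ k, Reads q (D k) := by
  obtain ⟨b, hb, hbJ, S, _, _, hS⟩ := seq_choice (σ := Unit) J hJ hCR (fun _ b _ => b ≤ p)
    (fun j b _ _ => b ∈ D j) (fun j b b' _ h _ h' => h.trans h')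
    (fun j b b' _ _ h hw h' => hD j b h' b' h hw)
    (fun j b _ hw hb => by
      obtain ⟨r, hr, hrw, hrD⟩ := hd j b hb hw
      exact ⟨r, hr, hrw, (), hrD, hr.trans hb⟩)
    p hp () le_rfl
  refine ⟨b, hb, hbJ, fun k x hx => ?_⟩
  obtain ⟨r, hr, _, h2, _⟩ := hS k x hx
  exact ⟨r, h2, hr⟩

end Pool.Agent.QPt
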