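import Pool.Agent.QPt.Step0
import Pool.Agent.QPt.Lift

/-!
# MP_04bc06_lc, module ST: one coordinate, with names below
-/

set_option autoImplicit false
set_option linter.unusedSectionVars false

namespace Pool.Agent.QPt

open Set

variable {I : Type} [LinearOrder I] [WellFoundedLT I]

namespace Step

/-- a condition with support in `J` is its own restriction -/
theorem res_self_le (a : Cond I) {J : Set I} (hJ : IsLowerSet J) (ha : a.w ⊆ J) :
    a.res J hJ ≤ a := by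
  refine ⟨?_, ?_⟩
  · rw [Cond.res_w]
    exact fun γ hγ => ⟨hγ, ha hγ⟩
  · rw [Cond.res_body, Cond.body_eq_dom a ha]

theorem res_le_of_le {q a : Cond I} (h : q ≤ a) {J : Set I} (hJ : IsLowerSet J) (ha : a.w ⊆ J) :
    q.res J hJ ≤ a := (Cond.res_mono h J hJ).trans (res_self_le a hJ ha)

/-- the trace depends only on the branch -/
theorem tr_congr {p q : Cond I} {β : I} {x : Pt I} (n : ℕ) (h : p.y β x = q.y β x) :
    tr p β n x = tr q β n x := by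
  unfold tr
  rw [h]

end Step

open Step

theorem step (L : Set I) (hL : IsLowerSet L) (β : I) (hβ : β ∈ L) (hCR : CR (Iio β))
    {ι : Type} (G : ι → Set (Cond I)) (hopen : ∀ c, OpenIn L (G c))
    (hloc : ∀ c q, q.w ⊆ L → Reads q (G c) → q ∈ G c) (p : Cond I) (hp : p.w ⊆ L) (hβp : β ∈ p.w)
    (hd : ∀ q ≤ p, q.w ⊆ L → ∃ q' ≤ q, q'.w ⊆ L ∧ (∀ γ, β ≤ γ → q'.s γ = q.s γ ∧ q'.y γ = q.y γ) ∧
      ∃ B : Finset ι, DenseIn L (⋃ c ∈ B, G c) q')
    (F : Finset I) (hF : (F : Set I) ⊆ p.w) (hFβ : ∀ γ ∈ F, γ ≤ β) (n : ℕ) :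
    ∃ q : Cond I, q.w ⊆ L ∧ Pure (insert β (F : Set I)) n q p ∧ ∃ col : Finset ℕ → Pt I → ι,
      (∀ t, LC (q.dom (Iio β)) (q.w ∩ Iio β) (col t)) ∧
      ∀ x ∈ q.body, ∃ r ∈ G (col (tr q β n x) x), OpenRes r q x := by
  classical
  set D : Set (Cond I) := {d | d.w ⊆ L ∧ Pure {β} n d p ∧ ∃ col : Finset ℕ → ι,
    ∀ x ∈ d.body, ∃ r ∈ G (col (tr d β n x)), OpenRes r d x} with hD
  have hden : ∀ a : Cond I, a.w ⊆ Iio β → a ≤ p.res (Iio β) (isLowerSet_Iio β) →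
      ∃ q ∈ D, q.w ⊆ L ∧ q ≤ p ∧ q.res (Iio β) (isLowerSet_Iio β) ≤ a := by
    intro a ha hap
    obtain ⟨pa, hw, h1, h2, h3, h4, -, -⟩ := exists_amal (Iio β) (isLowerSet_Iio β) p a ha hap
    have hpaL : pa.w ⊆ L := by
      rw [hw]
      rintro γ (hγ | hγ)
      · exact hL (le_of_lt (ha hγ)) hβ
      · exact hp hγ.1
    obtain ⟨q', hq', hq'L, hq'd, B, hB⟩ := hd pa h4 hpaL
    have hβq' : β ∈ q'.w := hq'.1 (h4.1 hβp)
    obtain ⟨q0, hq0L, hq0, col, hcol⟩ := step0 L hL β hβ hCR B G hopen hloc q' hq'L hβq' hB n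
    have hle : q0 ≤ pa := hq0.1.trans hq'
    refine ⟨q0, ⟨hq0L, ⟨hle.trans h4, ?_⟩, col, hcol⟩, hq0L, hle.trans h4,
      res_le_of_le (hle.trans h3) _ ha⟩
    rintro γ hγ x hx
    rw [mem_singleton_iff] at hγ
    subst hγ
    obtain ⟨e1, e2⟩ := hq0.2 γ rfl x hx
    obtain ⟨e3, e4⟩ := hq'd γ le_rfl
    obtain ⟨e5, e6⟩ := h2 γ (lt_irrefl γ)
    refine ⟨by rw [e1, e3, e5], fun i hi => by rw [e2 i hi, e4, e6]⟩
  set F' : Finset I := F.filter (· < β) with hF'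
  have hF'1 : (F' : Set I) ⊆ p.w := fun γ hγ => hF (by
    have := Finset.mem_filter.1 (Finset.mem_coe.1 hγ)
    exact this.1)
  have hF'2 : (F' : Set I) ⊆ Iio β := fun γ hγ => by
    have := Finset.mem_filter.1 (Finset.mem_coe.1 hγ)
    exact this.2
  obtain ⟨q, P, hqL, hq, hP, hP1, hP2, hP3⟩ := lift (Iio β) L (isLowerSet_Iio β)
    (fun γ hγ => hL (le_of_lt hγ) hβ) hCR p hp D hden F' hF'1 hF'2 n
  have hPβ : ∀ x ∈ q.dom (Iio β), q.s β x = (P x).s β x ∧ q.y β x = (P x).y β x := fun x hx =>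
    hP2 x hx β ((hP1 x hx).2.1.1 hβp) (lt_irrefl β)
  set cf : Cond I → Finset ℕ → ι := fun d => if h : ∃ col : Finset ℕ → ι,
    ∀ x ∈ d.body, ∃ r ∈ G (col (tr d β n x)), OpenRes r d x then h.choose
      else (hden (p.res (Iio β) (isLowerSet_Iio β)) (by
        rw [Cond.res_w]; exact inter_subset_right) le_rfl).choose_spec.1.2.2.choose with hcf
  have hcf' : ∀ d ∈ D, ∀ x ∈ d.body, ∃ r ∈ G (cf d (tr d β n x)), OpenRes r d x := by
    intro d hd x hx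
    rw [hcf]
    simp only
    rw [dif_pos hd.2.2]
    exact hd.2.2.choose_spec x hx
  refine ⟨q, hqL, ⟨hq.1, ?_⟩, fun t x => cf (P x) t, fun t => hP.comp fun d => cf d t, ?_⟩
  · have hβ' : ∀ x ∈ q.dom (Iio β), q.s β x = p.s β x ∧ ∀ i < n, q.y β x i = p.y β x i := by
      intro x hx
      obtain ⟨e1, e2⟩ := hPβ x hx
      obtain ⟨e3, e4⟩ := (hP1 x hx).1.2.1.2 β rfl x (hP1 x hx).2.2
      exact ⟨by rw [e1, e3], fun i hi => by rw [e2, e4 i hi]⟩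
    intro γ hγ x hx
    rcases hγ with rfl | hγ
    · exact hβ' x hx
    · rcases (hFβ γ hγ).lt_or_eq with h | rfl
      · exact hq.2 γ (Finset.mem_coe.2 (Finset.mem_filter.2 ⟨hγ, h⟩)) x hx
      · exact hβ' x hx
  · intro x hx
    have hxd := q.body_subset_dom (Iio β) hx
    obtain ⟨hxP, r0, hr0, hr0P⟩ := hP3 x hx
    obtain ⟨r1, hr1, hr1o⟩ := hcf' (P x) (hP1 x hxd).1 x hxP
    obtain ⟨r', hr', hr'le⟩ := hr1o.pull hr0P hr0.2.1
    have htr : tr q β n x = tr (P x) β n x := tr_congr n (hPβ x hxd).2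
    refine ⟨r', ?_, hr'.trans hr0⟩
    rw [htr]
    exact hopen _ r1 hr1 r' hr'le (by rw [hr'.1, hr0.1]; exact hqL)

end Pool.Agent.QPt
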