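import Pool.Agent.QPt.Glue
import Pool.Agent.QPt.Nbhd
import Pool.Agent.QPt.Pure0

/-!
# MP_04bc06_lc, module ST0: one coordinate
-/

set_option autoImplicit false
set_option linter.unusedSectionVars false

namespace Pool.Agent.QPt

open Set

namespace Step0

/-! ### Branches with a given trace -/

open Classical in
/-- the trace of a branch: the indices `k < n` such that `c k` is a value -/
noncomputable def trc (c : ℕ → ℕ) (n : ℕ) (z : ℕ → ℕ) : Finset ℕ :=
  (Finset.range n).filter (fun k => c k ∈ range z)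

theorem mem_trc {c : ℕ → ℕ} {n : ℕ} {z : ℕ → ℕ} {k : ℕ} :
    k ∈ trc c n z ↔ k < n ∧ c k ∈ range z := by
  classical
  unfold trc
  rw [Finset.mem_filter, Finset.mem_range]

theorem trc_subset (c : ℕ → ℕ) (n : ℕ) (z : ℕ → ℕ) : trc c n z ⊆ Finset.range n := by
  intro k hk
  exact Finset.mem_range.2 (mem_trc.1 hk).1

theorem le_sum (c : ℕ → ℕ) {n k : ℕ} (hk : k < n) : c k ≤ ∑ i ∈ Finset.range n, c i :=
  Finset.single_le_sum (f := c) (fun _ _ => Nat.zero_le _) (Finset.mem_range.2 hk)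

theorem trc_congr {z z' : ℕ → ℕ} (hz : z ∈ K) (hz' : z' ∈ K) {c : ℕ → ℕ} {n : ℕ}
    (h : ∀ i < (∑ i ∈ Finset.range n, c i) + 1, z i = z' i) : trc c n z = trc c n z' := by
  ext k
  rw [mem_trc, mem_trc]
  constructor
  · rintro ⟨hk, i, hi⟩
    refine ⟨hk, i, ?_⟩
    rw [← h i ?_, hi]
    have h1 := K_le hz i
    have h2 := le_sum c hk
    omega
  · rintro ⟨hk, i, hi⟩
    refine ⟨hk, i, ?_⟩
    rw [h i ?_, hi]
    have h1 := K_le hz' i
    have h2 := le_sum c hk
    omega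

theorem exists_m {s : List ℕ} {y z c : ℕ → ℕ} {n : ℕ} (hy : y ∈ K) (hc : ∀ k < n, y k = c k)
    (hz : z ∈ Fib s y) : ∃ m, s.length ≤ m ∧
      (∀ i, s.length ≤ i → i < m → ∃ k < n, z i = c k) ∧ ∀ i, m ≤ i → ∀ k < n, z i ≠ c k := by
  classical
  have hex : ∃ i, s.length ≤ i ∧ ∀ k < n, z i ≠ c k := by
    refine ⟨s.length + ((∑ i ∈ Finset.range n, c i) + 1), by omega, fun k hk h => ?_⟩
    have h1 := K_le hz.1 (s.length + ((∑ i ∈ Finset.range n, c i) + 1))
    have h2 := le_sum c hk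
    omega
  refine ⟨Nat.find hex, (Nat.find_spec hex).1, ?_, ?_⟩
  · intro i hi him
    by_contra hcon
    push Not at hcon
    exact Nat.find_min hex him ⟨hi, hcon⟩
  · intro i hi k hk h
    obtain ⟨l, hl⟩ := hz.2.2 _ (Nat.find_spec hex).1
    have h1 : n ≤ l := by
      by_contra hcon
      push Not at hcon
      exact (Nat.find_spec hex).2 l hcon (by rw [← hl, hc l hcon])
    have h2 : y k < y l := hy.1 (by omega)
    have h3 : z (Nat.find hex) ≤ z i := hz.1.1.monotone hi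
    rw [hc k hk, hl] at h2
    omega

theorem trace_stem {s : List ℕ} {y y1 z z1 : ℕ → ℕ} {c : ℕ → ℕ} {n m : ℕ} (hy : y ∈ K)
    (hc : ∀ k < n, y k = c k) (hz : z ∈ Fib s y) (hz1 : z1 ∈ Fib s y1)
    (htr : trc c n z = trc c n z1)
    (h1 : ∀ i, s.length ≤ i → i < m → ∃ k < n, z1 i = c k)
    (h2 : ∀ i, m ≤ i → ∀ k < n, z1 i ≠ c k) :
    (∀ i < m, z i = z1 i) ∧ ∀ i, m ≤ i → ∀ k < n, z i ≠ c k := by
  have hmem : ∀ k < n, (c k ∈ range z ↔ c k ∈ range z1) := by
    intro k hk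
    have h3 := Finset.ext_iff.1 htr k
    rw [mem_trc, mem_trc] at h3
    constructor
    · intro h; exact (h3.1 ⟨hk, h⟩).2
    · intro h; exact (h3.2 ⟨hk, h⟩).2
  have hfirst : ∀ i < m, z i = z1 i := by
    intro i
    induction i using Nat.strong_induction_on with
    | _ i ih =>
      intro him
      by_cases hi : i < s.length
      · have h3 : pre z s.length = pre z1 s.length := by rw [hz.2.1, hz1.2.1]
        exact (pre_eq_iff z z1 s.length).1 h3 i hi
      · push Not at hi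
        obtain ⟨k, hk, hk1⟩ := h1 i hi him
        obtain ⟨j, hj⟩ := (hmem k hk).2 ⟨i, hk1⟩
        have hij : i ≤ j := by
          by_contra hcon
          push Not at hcon
          have h3 := ih j hcon (by omega)
          have h4 : z1 j = z1 i := by rw [← h3, hj, hk1]
          exact absurd (hz1.1.1.injective h4) (by omega)
        have h5 : z i ≤ c k := by rw [← hj]; exact hz.1.1.monotone hij
        obtain ⟨l, hl⟩ := hz.2.2 i hi
        have h6 : l ≤ k := by
          rw [← hy.1.le_iff_le, hl, hc k hk]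
          exact h5
        have h7 : z i = c l := by rw [← hl, hc l (by omega)]
        obtain ⟨j', hj'⟩ := (hmem l (by omega)).1 ⟨i, h7⟩
        have hij' : i ≤ j' := by
          by_contra hcon
          push Not at hcon
          have h3 := ih j' hcon (by omega)
          have h4 : z j' = z i := by rw [h3, hj', h7]
          exact absurd (hz.1.1.injective h4) (by omega)
        have h8 : z1 i ≤ z i := by
          rw [h7, ← hj']
          exact hz1.1.1.monotone hij'
        rw [hk1] at h8 ⊢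
        omega
  refine ⟨hfirst, ?_⟩
  intro i hi k hk h
  obtain ⟨j, hj⟩ := (hmem k hk).1 ⟨i, h⟩
  have hjm : j < m := by
    by_contra hcon
    push Not at hcon
    exact h2 j hcon k hk hj
  have h3 : z j = z i := by rw [hfirst j hjm, hj, h]
  exact absurd (hz.1.1.injective h3) (by omega)

/-! ### Treating one trace -/

variable {I : Type} [LinearOrder I] [WellFoundedLT I]

theorem treat (L : Set I) (hL : IsLowerSet L) (β : I) (hβ : β ∈ L) (hCR : CR (Iio β))
    {ι : Type} (B : Finset ι) (G : ι → Set (Cond I)) (hopen : ∀ c, OpenIn L (G c))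
    (hloc : ∀ c q, q.w ⊆ L → Reads q (G c) → q ∈ G c) (s0 : List ℕ) (c : ℕ → ℕ) (n : ℕ)
    (p : Cond I) (hp : p.w ⊆ L) (hβp : β ∈ p.w)
    (hs : ∀ x ∈ p.dom (Iio β), p.s β x = s0 ∧ ∀ i < n, p.y β x i = c i)
    (hd : DenseIn L (⋃ c ∈ B, G c) p) (τ : Finset ℕ) :
    ∃ q ≤ p, q.w ⊆ L ∧ (∀ x ∈ q.dom (Iio β), q.s β x = s0 ∧ ∀ i < n, q.y β x i = c i) ∧
      ∃ v, ∀ x ∈ q.body, trc c n (x β) = τ → ∃ r ∈ G v, OpenRes r q x := by
  classical
  by_cases hex : ∃ x1 ∈ p.body, trc c n (x1 β) = τ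
  swap
  · obtain ⟨r, -, -, hr⟩ := hd p le_rfl hp
    rw [mem_iUnion₂] at hr
    obtain ⟨v, -, -⟩ := hr
    exact ⟨p, le_rfl, hp, hs, v, fun x hx h => absurd ⟨x, hx, h⟩ hex⟩
  obtain ⟨x1, hx1, hx1τ⟩ := hex
  have hx1d : x1 ∈ p.dom (Iio β) := p.body_subset_dom _ hx1
  have hz1 : x1 β ∈ Fib s0 (p.y β x1) := by
    have := hx1 β hβp (mem_univ β)
    rwa [(hs x1 hx1d).1] at this
  have hs0 : IsStem s0 := by
    have := p.hS β hβp x1 hx1d
    rwa [(hs x1 hx1d).1] at this
  obtain ⟨m, hm, hm1, hm2⟩ := exists_m (p.hK β hβp x1 hx1d) (hs x1 hx1d).2 hz1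
  set t : List ℕ := pre (x1 β) m with ht
  have htS : IsStem t := isStem_pre hz1.1 m
  have htl : t.length = m := length_pre _ _
  have hpret : ∀ z : ℕ → ℕ, pre z t.length = t ↔ ∀ i < m, z i = x1 β i := by
    intro z
    rw [htl, ht, pre_eq_iff]
  -- the part of the branch beyond the first `n` values
  set A : Pt I → Set ℕ := fun x => range (p.y β x) ∩ {a | ∀ k < n, a ≠ c k} with hA
  have hAfat : ∀ x ∈ p.dom (Iio β), Fat (A x) := by
    intro x hx
    refine ((fat_range (p.hK β hβp x hx)).tail ((∑ i ∈ Finset.range n, c i) + 1)).mono ?_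
    rintro a ⟨ha1, ha2⟩
    refine ⟨ha1, fun k hk h => ?_⟩
    have := le_sum c hk
    omega
  have hANm : Nm (p.dom (Iio β)) (p.w ∩ Iio β) A :=
    (Nm.range (p.hy β hβp) (p.hK β hβp)).inter (Nm.const _)
  have hb0 : (p.res (Iio β) (isLowerSet_Iio β)).body = p.dom (Iio β) := Cond.res_body _ _ _
  obtain ⟨a', ha'w, ha'1, ha's, ha'y, ha'b, ha'd⟩ := exists_top
    (p.res (Iio β) (isLowerSet_Iio β)) β inter_subset_right (fun _ => t) (fun x => zm [] (A x))
    (LC.const t)
    (fun i => by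
      rw [hb0]
      exact LC.zm (LC.const []) hANm (fun _ _ => isStem_nil) hAfat i)
    (fun _ _ => htS)
    (fun x hx => by
      rw [hb0] at hx
      exact zm_mem_K isStem_nil (hAfat x hx))
  rw [hb0] at ha'b ha'd
  have ha'J : a'.w ⊆ Iic β := by
    rw [ha'w]
    rintro γ (rfl | hγ)
    · exact le_refl γ
    · exact le_of_lt hγ.2
  -- branches through `t`
  have hFibt : ∀ x ∈ p.dom (Iio β), ∀ Y : ℕ → ℕ, range Y ⊆ range (p.y β x) →
      Fib t Y ⊆ Fib s0 (p.y β x) := by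
    intro x hx Y hY z hz
    have h1 := (hpret z).1 hz.2.1
    refine ⟨hz.1, ?_, ?_⟩
    · have h2 : pre z s0.length = pre (x1 β) s0.length :=
        (pre_eq_iff _ _ _).2 fun i hi => h1 i (by omega)
      exact h2.trans hz1.2.1
    · intro i hi
      by_cases him : i < m
      · obtain ⟨k, hk, hk1⟩ := hm1 i hi him
        rw [h1 i him, hk1, ← (hs x hx).2 k hk]
        exact mem_range_self k
      · exact hY (hz.2.2 i (by rw [htl]; omega))
  have hzmr : ∀ x ∈ p.dom (Iio β), range (zm [] (A x)) ⊆ range (p.y β x) := fun x hx =>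
    (range_zm_nil (hAfat x hx)).trans inter_subset_left
  have hle : a' ≤ p.res (Iic β) (isLowerSet_Iic β) := by
    rw [Cond.le_res_iff]
    constructor
    · rintro γ ⟨h1, h2⟩
      rw [ha'w]
      rcases (show γ ≤ β from h2).lt_or_eq with h | rfl
      · exact Or.inr ⟨h1, h⟩
      · exact Or.inl rfl
    · intro x hx
      rw [ha'b] at hx
      intro γ hγ hγβ
      rcases (show γ ≤ β from hγβ).lt_or_eq with h | rfl
      · exact hx.1 γ hγ h
      · rw [(hs x hx.1).1]
        exact hFibt x hx.1 _ (hzmr x hx.1) hx.2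
  obtain ⟨p', hp'w, hp'1, -, hp'a, hp'p, -, -⟩ := exists_amal (Iic β) (isLowerSet_Iic β) p a' ha'J hle
  have hp'L : p'.w ⊆ L := by
    rw [hp'w]
    rintro γ (hγ | hγ)
    · exact hL (ha'J hγ) hβ
    · exact hp hγ.1
  have hβp' : β ∈ p'.w := hp'p.1 hβp
  have hp's : p'.s β = fun _ => t := by rw [(hp'1 β (mem_Iic.2 le_rfl)).1, ha's]
  have hp'y : p'.y β = fun x => zm [] (A x) := by rw [(hp'1 β (mem_Iic.2 le_rfl)).2, ha'y]
  obtain ⟨q', hq'p', hq'L, ⟨v, hv⟩, hq's⟩ := pure0 L hL β hβ hCR (ι := ↥B) (fun e => G e.1)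
    (fun e => hopen e.1) (fun e => hloc e.1) p' hp'L hβp' (by
      intro q hq hqL
      obtain ⟨r, hr, hrL, hrG⟩ := hd q (hq.trans hp'p) hqL
      refine ⟨r, hr, hrL, ?_⟩
      rw [mem_iUnion₂] at hrG
      obtain ⟨e, he, hre⟩ := hrG
      exact mem_iUnion.2 ⟨⟨e, he⟩, hre⟩)
  have hq'p : q' ≤ p := hq'p'.trans hp'p
  have hβq' : β ∈ q'.w := hq'p'.1 hβp'
  have hq'd : ∀ x ∈ q'.dom (Iio β), x ∈ p.dom (Iio β) := fun x hx =>
    Cond.dom_mono hq'p (isLowerSet_Iio β) hx
  have hq's' : ∀ x ∈ q'.dom (Iio β), q'.s β x = t := fun x hx => by rw [hq's x hx, hp's]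
  have hFibq : ∀ x ∈ q'.dom (Iio β), Fib t (q'.y β x) ⊆ Fib t (zm [] (A x)) := by
    intro x hx
    have h1 := Cond.Fib_mono hq'p' hβp' hx
    rw [hq's' x hx, hp's, hp'y] at h1
    exact h1
  -- the new branch
  set A2 : Pt I → Set ℕ := fun x => range (q'.y β x) ∩ A x with hA2
  have hA2fat : ∀ x ∈ q'.dom (Iio β), Fat (A2 x) := fun x hx =>
    fat_reach htS (q'.hK β hβq' x hx) fun z hz i hi =>
      range_zm_nil (hAfat x (hq'd x hx)) ((hFibq x hx hz).2.2 i hi)
  have hA2Nm : Nm (q'.dom (Iio β)) (q'.w ∩ Iio β) A2 :=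
    (Nm.range (q'.hy β hβq') (q'.hK β hβq')).inter
      (hANm.mono hq'd (inter_subset_inter_left _ hq'p.1))
  have hs1 : IsStem (pre c n) := by
    have h1 : pre c n = pre (p.y β x1) n :=
      (pre_eq_iff _ _ _).2 fun i hi => ((hs x1 hx1d).2 i hi).symm
    rw [h1]
    exact isStem_pre (p.hK β hβp x1 hx1d) n
  set Y : Pt I → ℕ → ℕ := fun x => zm (pre c n) (A2 x) with hY
  have hYK : ∀ x ∈ q'.dom (Iio β), Y x ∈ K := fun x hx => zm_mem_K hs1 (hA2fat x hx)
  have hYc : ∀ x ∈ q'.dom (Iio β), ∀ i < n, Y x i = c i := by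
    intro x hx
    have h1 := zm_pre hs1 (hA2fat x hx)
    rw [length_pre] at h1
    exact (pre_eq_iff _ _ _).1 h1
  have hYA : ∀ x ∈ q'.dom (Iio β), ∀ i, n ≤ i → Y x i ∈ A2 x := fun x hx i hi =>
    zm_mem hs1 (hA2fat x hx) i (by rw [length_pre]; exact hi)
  have hYr : ∀ x ∈ q'.dom (Iio β), range (Y x) ⊆ range (p.y β x) := by
    rintro x hx _ ⟨i, rfl⟩
    by_cases hi : i < n
    · rw [hYc x hx i hi, ← (hs x (hq'd x hx)).2 i hi]
      exact mem_range_self i
    · exact (hYA x hx i (by omega)).2.1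
  have hb : (q'.res (Iio β) (isLowerSet_Iio β)).body = q'.dom (Iio β) := Cond.res_body _ _ _
  obtain ⟨a, haw, ha1, has, hay, hab, had⟩ := exists_top
    (q'.res (Iio β) (isLowerSet_Iio β)) β inter_subset_right (fun _ => s0) Y (LC.const s0)
    (fun i => by
      rw [hb]
      exact LC.zm (LC.const _) hA2Nm (fun _ _ => hs1) hA2fat i)
    (fun _ _ => hs0)
    (fun x hx => by
      rw [hb] at hx
      exact hYK x hx)
  rw [hb] at hab had
  have haJ : a.w ⊆ Iic β := by
    rw [haw]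
    rintro γ (rfl | hγ)
    · exact le_refl γ
    · exact le_of_lt hγ.2
  have hβa : β ∈ a.w := by rw [haw]; exact Or.inl rfl
  have hkey : ∀ x ∈ a.body, trc c n (x β) = τ → x β ∈ Fib t (q'.y β x) := by
    intro x hx hxτ
    rw [hab] at hx
    obtain ⟨h1, h2⟩ := trace_stem (hYK x hx.1) (hYc x hx.1) hx.2 hz1 (hxτ.trans hx1τ.symm) hm1 hm2
    refine ⟨hx.2.1, (hpret _).2 h1, ?_⟩
    intro i hi
    rw [htl] at hi
    obtain ⟨j, hj⟩ := hx.2.2.2 i (by omega)
    have hjn : n ≤ j := by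
      by_contra hcon
      push Not at hcon
      exact h2 i hi j hcon (by rw [← hj, hYc x hx.1 j hcon])
    rw [← hj]
    exact (hYA x hx.1 j hjn).1
  set P : Pt I → Cond I := fun x => if trc c n (x β) = τ then q' else p with hP
  have haK : ∀ x ∈ a.body, x β ∈ K := fun x hx => by
    rw [hab] at hx
    exact hx.2.1
  have hPLC : LC a.body a.w P := by
    intro x hx
    refine ⟨{β}, by simpa using hβa, (∑ i ∈ Finset.range n, c i) + 1, ?_⟩
    intro y hy hxy
    have h1 : trc c n (y β) = trc c n (x β) :=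
      trc_congr (haK y hy) (haK x hx) fun i hi => (hxy β (by simp) i hi).symm
    rw [hP]
    simp only
    rw [h1]
  have hPw : ∀ x, p.w ⊆ (P x).w := by
    intro x
    rw [hP]
    simp only
    split_ifs
    · exact hq'p.1
    · exact Subset.rfl
  have hPL : ∀ x, (P x).w ⊆ L := by
    intro x
    rw [hP]
    simp only
    split_ifs
    · exact hq'L
    · exact hp
  have hPp : ∀ x, P x ≤ p := by
    intro x
    rw [hP]
    simp only
    split_ifs
    · exact hq'p
    · exact le_rfl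
  obtain ⟨q, hqw, hqJ, -, -, hqa, hqdom, hqbody⟩ := exists_glue (Iic β) (isLowerSet_Iic β) a haJ P
    hPLC (by
      intro x hx
      have hxa := hx
      rw [hab] at hx
      have hwsub : ∀ γ ∈ q'.w, γ ≤ β → γ ∈ a.w := by
        intro γ hγ hγβ
        rw [haw]
        rcases hγβ.lt_or_eq with h | rfl
        · exact Or.inr ⟨hγ, h⟩
        · exact Or.inl rfl
      by_cases hτ : trc c n (x β) = τ
      · have hPx : P x = q' := by rw [hP]; simp only; rw [if_pos hτ]
        rw [hPx]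
        refine ⟨fun γ hγ => hwsub γ hγ.1 hγ.2, ?_⟩
        intro γ hγ hγβ
        rcases (show γ ≤ β from hγβ).lt_or_eq with h | rfl
        · exact hx.1 γ hγ h
        · rw [hq's' x hx.1]
          exact hkey x hxa hτ
      · have hPx : P x = p := by rw [hP]; simp only; rw [if_neg hτ]
        rw [hPx]
        refine ⟨fun γ hγ => hwsub γ (hq'p.1 hγ.1) hγ.2, ?_⟩
        intro γ hγ hγβ
        rcases (show γ ≤ β from hγβ).lt_or_eq with h | rfl
        · exact hq'd x hx.1 γ hγ h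
        · rw [(hs x (hq'd x hx.1)).1]
          exact Fib_mono_right (hYr x hx.1) hx.2)
  have hqL : q.w ⊆ L := by
    rw [hqw]
    rintro γ (hγ | hγ)
    · exact hL (haJ hγ) hβ
    · rw [mem_iUnion₂] at hγ
      obtain ⟨x, -, hγ⟩ := hγ
      exact hPL x hγ.1
  have hPq : ∀ x ∈ a.body, (P x).w ⊆ q.w := by
    intro x hx γ hγ
    rw [hqw]
    by_cases h : γ ≤ β
    · left
      rw [haw]
      have h1 : γ ∈ q'.w := by
        rw [hP] at hγ
        simp only at hγ
        split_ifs at hγ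
        · exact hγ
        · exact hq'p.1 hγ
      rcases h.lt_or_eq with h | rfl
      · exact Or.inr ⟨h1, h⟩
      · exact Or.inl rfl
    · right
      rw [mem_iUnion₂]
      exact ⟨x, hx, hγ, h⟩
  obtain ⟨x2, hx2⟩ := a.body_nonempty
  have hqp : q ≤ p := ⟨(hPw x2).trans (hPq x2 hx2), fun x hx => (hPp x).2 (hqbody x hx).2⟩
  have hqβ : q.s β = (fun _ => s0) ∧ q.y β = Y := by
    obtain ⟨e1, e2⟩ := hqJ β (mem_Iic.2 le_rfl)
    rw [e1, e2]
    exact ⟨has, hay⟩
  refine ⟨q, hqp, hqL, ?_, v.1, ?_⟩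
  · intro x hx
    have h1 : x ∈ q'.dom (Iio β) := by
      rw [← had]
      exact Cond.dom_mono hqa (isLowerSet_Iio β) hx
    rw [hqβ.1, hqβ.2]
    exact ⟨rfl, hYc x h1⟩
  · intro x hx hxτ
    obtain ⟨r, hr, hr'⟩ := exists_nbhd q hx {β}
      (by simpa using hqa.1 hβa) ((∑ i ∈ Finset.range n, c i) + 1)
    have hPx : ∀ y ∈ r.body, P y = q' := by
      intro y hy
      have hyq := hr.2.2.1 hy
      have h1 : trc c n (y β) = trc c n (x β) :=
        trc_congr (haK y (hqbody y hyq).1) (haK x (hqbody x hx).1)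
          fun i hi => (hr' y hy β (by simp) i hi).symm
      rw [hP]
      simp only
      rw [if_pos (h1.trans hxτ)]
    refine ⟨r, hopen v.1 q' hv r ⟨?_, ?_⟩ (by rw [hr.1]; exact hqL), hr⟩
    · rw [hr.1, ← hPx x hr.2.1]
      exact hPq x (hqbody x hx).1
    · intro y hy
      have h1 := (hqbody y (hr.2.2.1 hy)).2
      rwa [hPx y hy] at h1

end Step0

open Step0

variable {I : Type} [LinearOrder I] [WellFoundedLT I]

theorem step0 (L : Set I) (hL : IsLowerSet L) (β : I) (hβ : β ∈ L) (hCR : CR (Iio β))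
    {ι : Type} (B : Finset ι) (G : ι → Set (Cond I)) (hopen : ∀ c, OpenIn L (G c))
    (hloc : ∀ c q, q.w ⊆ L → Reads q (G c) → q ∈ G c) (p : Cond I) (hp : p.w ⊆ L) (hβp : β ∈ p.w)
    (hd : DenseIn L (⋃ c ∈ B, G c) p) (n : ℕ) :
    ∃ q : Cond I, q.w ⊆ L ∧ Pure {β} n q p ∧ ∃ col : Finset ℕ → ι,
      ∀ x ∈ q.body, ∃ r ∈ G (col (tr q β n x)), OpenRes r q x := by
  classical
  obtain ⟨x0, hx0⟩ := p.body_nonempty
  have hfLC : LC (p.dom (Iio β)) (p.w ∩ Iio β) (fun x => (p.s β x, pre (p.y β x) n)) := by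
    refine (p.hs β hβp).prod ?_
    intro x hx
    obtain ⟨F, hF, N, h⟩ := LC.finset (Finset.range n)
      (fun i (_ : i ∈ Finset.range n) => p.hy β hβp i) x hx
    exact ⟨F, hF, N, fun y hy hxy => (pre_eq_iff _ _ _).2 fun i hi =>
      h y hy hxy i (Finset.mem_range.2 hi)⟩
  obtain ⟨p1, hp1, hp1d, hp1c⟩ := exists_low_const p (Iio β) (isLowerSet_Iio β) hx0 hfLC
  set c : ℕ → ℕ := p.y β x0 with hc
  set s0 : List ℕ := p.s β x0 with hs0
  have hcs : ∀ x ∈ p1.dom (Iio β), p.s β x = s0 ∧ ∀ i < n, p.y β x i = c i := by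
    intro x hx
    have h1 := hp1c x hx
    rw [Prod.mk.injEq] at h1
    exact ⟨h1.1, (pre_eq_iff _ _ _).1 h1.2⟩
  have hp1β := hp1d β (lt_irrefl β)
  have key : ∀ T : Finset (Finset ℕ), ∃ q ≤ p1, q.w ⊆ L ∧
      (∀ x ∈ q.dom (Iio β), q.s β x = s0 ∧ ∀ i < n, q.y β x i = c i) ∧
      ∃ col : Finset ℕ → ι, ∀ x ∈ q.body, trc c n (x β) ∈ T →
        ∃ r ∈ G (col (trc c n (x β))), OpenRes r q x := by
    intro T
    induction T using Finset.induction_on with
    | empty =>
      obtain ⟨r, -, -, hr⟩ := hd p le_rfl hp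
      rw [mem_iUnion₂] at hr
      obtain ⟨v, -, -⟩ := hr
      refine ⟨p1, le_rfl, by rw [hp1.1]; exact hp, ?_, fun _ => v, fun x _ h => ?_⟩
      · intro x hx
        rw [hp1β.1, hp1β.2]
        exact hcs x hx
      · exact absurd h (Finset.notMem_empty _)
    | insert τ T hτ ih =>
      obtain ⟨q, hq, hqL, hqs, col, hcol⟩ := ih
      obtain ⟨q2, hq2, hq2L, hq2s, v, hv⟩ := treat L hL β hβ hCR B G hopen hloc s0 c n q hqL
        (hq.1 (by rw [hp1.1]; exact hβp)) hqs
        (fun a ha haL => hd a (ha.trans (hq.trans hp1.le)) haL) τ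
      refine ⟨q2, hq2.trans hq, hq2L, hq2s, Function.update col τ v, ?_⟩
      intro x hx hxT
      by_cases hxτ : trc c n (x β) = τ
      · rw [hxτ, Function.update_self]
        exact hv x hx hxτ
      · rw [Function.update_of_ne hxτ]
        obtain ⟨r, hr, hr'⟩ := hcol x (hq2.2 hx) (Finset.mem_of_mem_insert_of_ne hxT hxτ)
        obtain ⟨r', hr1, hr2⟩ := hr'.pull hq2 hx
        exact ⟨r', hopen _ r hr r' hr2 (by rw [hr1.1]; exact hq2L), hr1⟩
  obtain ⟨q, hq, hqL, hqs, col, hcol⟩ := key (Finset.range n).powerset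
  refine ⟨q, hqL, ⟨hq.trans hp1.le, ?_⟩, col, ?_⟩
  · intro γ hγ x hx
    rw [mem_singleton_iff] at hγ
    subst hγ
    obtain ⟨e1, e2⟩ := hqs x hx
    obtain ⟨e3, e4⟩ := hcs x (Cond.dom_mono hq (isLowerSet_Iio γ) hx)
    exact ⟨by rw [e1, e3], fun i hi => by rw [e2 i hi, e4 i hi]⟩
  · intro x hx
    have h1 : tr q β n x = trc c n (x β) := by
      ext k
      rw [mem_trc]
      unfold tr
      rw [Finset.mem_filter, Finset.mem_range]
      constructor
      · rintro ⟨h1, h2⟩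
        rw [(hqs x (q.body_subset_dom _ hx)).2 k h1] at h2
        exact ⟨h1, h2⟩
      · rintro ⟨h1, h2⟩
        refine ⟨h1, ?_⟩
        rw [(hqs x (q.body_subset_dom _ hx)).2 k h1]
        exact h2
    rw [h1]
    exact hcol x hx (Finset.mem_powerset.2 (trc_subset _ _ _))

end Pool.Agent.QPt
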