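import Pool.Agent.QPt.BInternal
import Pool.Agent.BVM.Extens
import Pool.Agent.MP_b1d3ea_lc.Omega

/-! # Names of sets of natural numbers and of families of such sets -/

set_option autoImplicit false

namespace Pool.Agent.QPt

open Pool.Agent.BVM Pool.Agent.StarHur

variable {𝔹 : Type} [CompleteBooleanAlgebra 𝔹]

theorem bmem_subN (A : ℕ → 𝔹) (x : BSet 𝔹) : bmem x (subN A) = ⨆ i : ℕ, A i ⊓ beq x (num i) := by
  rw [subN, bmem]

theorem bmem_num_subN (A : ℕ → 𝔹) (n : ℕ) : bmem (num n) (subN A) = A n := by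
  rw [bmem_subN]
  apply le_antisymm
  · refine iSup_le fun j => ?_
    rw [beq_num]
    split_ifs with h
    · rw [h, inf_top_eq]
    · rw [inf_bot_eq]; exact bot_le
  · refine le_iSup_of_le n ?_
    rw [beq_refl, inf_top_eq]

theorem bmem_subN_le_omegaN (A : ℕ → 𝔹) (k : BSet 𝔹) : bmem k (subN A) ≤ bmem k omegaN := by
  rw [bmem_subN, bmem_omegaN]
  exact iSup_mono fun i => inf_le_right

theorem subN_le_omegaN (A : ℕ → 𝔹) : (⨅ k, bmem k (subN A) ⇨ bmem k omegaN) = ⊤ := by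
  rw [eq_top_iff]
  refine le_iInf fun k => ?_
  rw [le_himp_iff, top_inf_eq]
  exact bmem_subN_le_omegaN A k

theorem beq_subN (A B : ℕ → 𝔹) : beq (subN A) (subN B) = ⨅ m, bi (A m) (B m) := by
  rw [beq_def]
  change (⨅ i : ℕ, A i ⇨ bmem (num i) (subN B)) ⊓ (⨅ j : ℕ, B j ⇨ bmem (num j) (subN A)) = _
  simp only [bmem_num_subN, bi]
  rw [iInf_inf_eq]

/-- a subset of omega is the name given by its values -/
theorem le_beq_subN (x : BSet 𝔹) : (⨅ k, bmem k x ⇨ bmem k omegaN) ≤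
    beq x (subN fun n => bmem (num n) x) := by
  rw [beq_eq_iInf]
  refine le_iInf fun z => le_inf ?_ ?_
  · rw [le_himp_iff]
    have h1 : (⨅ k, bmem k x ⇨ bmem k omegaN) ⊓ bmem z x ≤ bmem z omegaN := by
      rw [← le_himp_iff]
      exact iInf_le _ z
    have h2 : (⨅ k, bmem k x ⇨ bmem k omegaN) ⊓ bmem z x ≤ bmem z omegaN ⊓ bmem z x :=
      le_inf h1 inf_le_right
    refine h2.trans ?_
    rw [bmem_omegaN, iSup_inf_eq, bmem_subN]
    refine iSup_mono fun n => ?_
    exact le_inf (bmem_congr_left z (num n) x) inf_le_left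
  · rw [le_himp_iff]
    refine inf_le_right.trans ?_
    rw [bmem_subN]
    refine iSup_le fun n => ?_
    refine le_trans ?_ (bmem_congr_left (num n) z x)
    rw [inf_comm, beq_symm]

/-- quantifiers over subsets of omega -/
theorem ball_sub {f : BSet 𝔹 → 𝔹} (hf : Ext1 f) :
    (⨅ x, (⨅ k, bmem k x ⇨ bmem k omegaN) ⇨ f x) = ⨅ A : ℕ → 𝔹, f (subN A) := by
  apply le_antisymm
  · refine le_iInf fun A => (iInf_le _ (subN A)).trans ?_
    rw [subN_le_omegaN, top_himp]
  · refine le_iInf fun x => ?_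
    rw [le_himp_iff]
    refine le_trans ?_ (hf (subN fun n => bmem (num n) x) x)
    rw [inf_comm, beq_symm]
    exact inf_le_inf (le_beq_subN x) (iInf_le _ _)

theorem bex_sub {f : BSet 𝔹 → 𝔹} (hf : Ext1 f) :
    (⨆ x, (⨅ k, bmem k x ⇨ bmem k omegaN) ⊓ f x) = ⨆ A : ℕ → 𝔹, f (subN A) := by
  apply le_antisymm
  · refine iSup_le fun x => ?_
    refine le_trans ?_ (le_iSup _ (fun n => bmem (num n) x))
    refine le_trans ?_ (hf x (subN fun n => bmem (num n) x))
    exact inf_le_inf_right _ (le_beq_subN x)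
  · refine iSup_le fun A => ?_
    refine le_trans ?_ (le_iSup _ (subN A))
    rw [subN_le_omegaN, top_inf_eq]

theorem bmem_ultraN_def (U : (ℕ → 𝔹) → 𝔹) (x : BSet 𝔹) :
    bmem x (ultraN U) = ⨆ A : ℕ → 𝔹, U A ⊓ beq x (subN A) := by
  rw [ultraN, bmem]

theorem bmem_ultraN {U : (ℕ → 𝔹) → 𝔹} (hU : ∀ A B : ℕ → 𝔹, (⨅ m, (A m ⇨ B m)) ⊓ U A ≤ U B)
    (A : ℕ → 𝔹) : bmem (subN A) (ultraN U) = U A := by
  rw [bmem_ultraN_def]
  apply le_antisymm
  · refine iSup_le fun B => ?_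
    refine le_trans ?_ (hU B A)
    rw [inf_comm, beq_subN]
    refine inf_le_inf_right _ (iInf_mono fun m => ?_)
    exact inf_le_right
  · refine le_iSup_of_le A ?_
    rw [beq_refl, inf_top_eq]

theorem bmem_ultraN_le (U : (ℕ → 𝔹) → 𝔹) (x : BSet 𝔹) :
    bmem x (ultraN U) ≤ ⨅ k, bmem k x ⇨ bmem k omegaN := by
  rw [bmem_ultraN_def]
  refine iSup_le fun B => le_iInf fun k => ?_
  rw [le_himp_iff]
  refine le_trans ?_ (bmem_subN_le_omegaN B k)
  refine le_trans ?_ (bmem_congr_right k x (subN B))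
  exact inf_le_inf_right _ inf_le_right

/-- a set of subsets of omega is determined by the values of `memV` -/
theorem le_beq_ultraN (v : BSet 𝔹) : (⨅ a, bmem a v ⇨ ⨅ k, bmem k a ⇨ bmem k omegaN) ≤
    beq v (ultraN (memV v)) := by
  rw [beq_eq_iInf]
  refine le_iInf fun z => le_inf ?_ ?_
  · rw [le_himp_iff]
    have h1 : (⨅ a, bmem a v ⇨ ⨅ k, bmem k a ⇨ bmem k omegaN) ⊓ bmem z v ≤
        ⨅ k, bmem k z ⇨ bmem k omegaN := by
      rw [← le_himp_iff]
      exact iInf_le _ z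
    have h2 := le_inf (h1.trans (le_beq_subN z)) (inf_le_right : (⨅ a, bmem a v ⇨ ⨅ k, bmem k a ⇨
      bmem k omegaN) ⊓ bmem z v ≤ bmem z v)
    refine h2.trans ?_
    rw [bmem_ultraN_def]
    refine le_iSup_of_le (fun n => bmem (num n) z) ?_
    exact le_inf (bmem_congr_left z _ v) inf_le_left
  · rw [le_himp_iff]
    refine inf_le_right.trans ?_
    rw [bmem_ultraN_def]
    refine iSup_le fun A => ?_
    refine le_trans ?_ (bmem_congr_left (subN A) z v)
    rw [inf_comm, beq_symm]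
    exact le_rfl

/-! ### further lemmas -/

/-- a bounded universal statement from its instances -/
theorem bmem_le_of_ext {f : BSet 𝔹 → 𝔹} (hf : Ext1 f) {x : BSet 𝔹} {q : 𝔹}
    (h : ∀ i, q ⊓ x.val i ≤ f (x.fam i)) (z : BSet 𝔹) : q ⊓ bmem z x ≤ f z := by
  rw [bmem_def, inf_iSup_eq]
  refine iSup_le fun i => ?_
  refine le_trans ?_ (hf (x.fam i) z)
  rw [beq_symm]
  refine le_inf (inf_le_right.trans inf_le_right) ?_
  exact (inf_le_inf_left _ inf_le_left).trans (h i)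

/-- members of `ultraN U` may be taken of the form `subN A` -/
theorem ultraN_le_of_ext {U : (ℕ → 𝔹) → 𝔹} {f : BSet 𝔹 → 𝔹} (hf : Ext1 f) {q : 𝔹}
    (h : ∀ A, q ⊓ U A ≤ f (subN A)) (z : BSet 𝔹) : q ⊓ bmem z (ultraN U) ≤ f z :=
  bmem_le_of_ext (x := ultraN U) hf h z

/-- subsets of omega may be taken of the form `subN A` -/
theorem sub_le_of_ext {f : BSet 𝔹 → 𝔹} (hf : Ext1 f) {q : 𝔹}
    (h : ∀ A, q ≤ f (subN A)) (z : BSet 𝔹) : q ⊓ (⨅ k, bmem k z ⇨ bmem k omegaN) ≤ f z := by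
  rw [← le_himp_iff]
  have h1 : q ≤ ⨅ x, (⨅ k, bmem k x ⇨ bmem k omegaN) ⇨ f x := by
    rw [ball_sub hf]
    exact le_iInf h
  exact h1.trans (iInf_le _ z)

theorem beq_num_inf_le_bot (z : BSet 𝔹) {i j : ℕ} (h : i ≠ j) :
    beq z (num i) ⊓ beq z (num j) = ⊥ := by
  rw [eq_bot_iff]
  have h1 := beq_trans (num i : BSet 𝔹) z (num j)
  rw [beq_num, if_neg h, beq_symm (num i)] at h1
  exact h1

theorem bmem_subN_inf (A B : ℕ → 𝔹) (z : BSet 𝔹) :
    bmem z (subN fun m => A m ⊓ B m) = bmem z (subN A) ⊓ bmem z (subN B) := by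
  simp only [bmem_subN]
  apply le_antisymm
  · refine iSup_le fun i => le_inf (le_iSup_of_le i ?_) (le_iSup_of_le i ?_)
    · exact inf_le_inf_right _ inf_le_left
    · exact inf_le_inf_right _ inf_le_right
  · rw [iSup_inf_eq]
    refine iSup_le fun i => ?_
    rw [inf_iSup_eq]
    refine iSup_le fun j => ?_
    by_cases h : i = j
    · subst h
      refine le_iSup_of_le i ?_
      exact le_inf (le_inf (inf_le_left.trans inf_le_left) (inf_le_right.trans inf_le_left))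
        (inf_le_left.trans inf_le_right)
    · have h1 : A i ⊓ beq z (num i) ⊓ (B j ⊓ beq z (num j)) ≤ beq z (num i) ⊓ beq z (num j) :=
        inf_le_inf inf_le_right inf_le_right
      rw [beq_num_inf_le_bot z h] at h1
      exact h1.trans bot_le

theorem bmem_subN_compl (A : ℕ → 𝔹) (z : BSet 𝔹) :
    bmem z (subN fun m => (A m)ᶜ) = bmem z omegaN ⊓ (bmem z (subN A))ᶜ := by
  apply le_antisymm
  · refine le_inf (bmem_subN_le_omegaN _ z) ?_
    rw [le_compl_iff_disjoint_right, disjoint_iff, ← bmem_subN_inf, bmem_subN, eq_bot_iff]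
    refine iSup_le fun i => ?_
    rw [compl_inf_self, bot_inf_eq]
  · rw [bmem_omegaN, iSup_inf_eq, bmem_subN]
    refine iSup_le fun i => le_iSup_of_le i (le_inf ?_ inf_le_left)
    rw [le_compl_iff_disjoint_right, disjoint_iff, eq_bot_iff]
    have h1 : beq z (num i) ⊓ A i ≤ bmem z (subN A) := by
      rw [bmem_subN, inf_comm]
      exact le_iSup_of_le i le_rfl
    have h2 : beq z (num i) ⊓ (bmem z (subN A))ᶜ ⊓ A i ≤
        bmem z (subN A) ⊓ (bmem z (subN A))ᶜ :=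
      le_inf (le_trans (le_inf (inf_le_left.trans inf_le_left) inf_le_right) h1)
        (inf_le_left.trans inf_le_right)
    rwa [inf_compl_self] at h2

/-- two names with the same members -/
theorem le_beq_of_biff {x y : BSet 𝔹} {q : 𝔹} (h : ∀ z, q ≤ biff (bmem z x) (bmem z y)) :
    q ≤ beq x y := by
  rw [beq_eq_iInf]
  exact le_iInf fun z => h z

theorem ext1_biff {f g : BSet 𝔹 → 𝔹} (hf : Ext1 f) (hg : Ext1 g) :
    Ext1 (fun x => biff (f x) (g x)) :=
  (hf.himp hg).inf (hg.himp hf)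

end Pool.Agent.QPt
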