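import Pool.Agent.QPt.CRMain
import Pool.Agent.QPt.Pure0
import Pool.Agent.QPt.Seq
import Pool.Agent.QPt.Inf

set_option autoImplicit false
set_option linter.unusedSectionVars false

/-!
# Module TI: a name of a finite set is constant on an initial part, along a fat set of extensions
-/

namespace Pool.Agent.QPt

open Set

variable {I : Type} [LinearOrder I] [WellFoundedLT I]

theorem Forces.mono {α : I} {b b' : Cond I} {u : List ℕ} {A A' : Pt I → Set ℕ} {φ : Pt I → Prop}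
    (h : Forces α b u A φ) (hb : b' ≤ b) (hA : ∀ x ∈ b'.body, A' x ⊆ A x) : Forces α b' u A' φ :=
  fun x hx hK hu hi => h x (hb.2 hx) hK hu fun i hiu => hA x hx (hi i hiu)

namespace TiedIn

theorem mem_body_of (q : Cond I) {α : I} (hw : q.w ⊆ Iic α) {x : Pt I}
    (hx : x ∈ q.dom (Iio α)) (hz : x α ∈ Fib (q.s α x) (q.y α x)) : x ∈ q.body := by
  intro β hβ _
  rcases lt_or_eq_of_le (hw hβ) with h | h
  · exact hx β hβ h
  · subst h; exact hz

/-- Decide `C ∩ M` purely. -/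
theorem decide_step (α : I) (b : Cond I) (hb : b.w ⊆ Iio α) (u : List ℕ) (hu : IsStem u)
    (A : Pt I → Set ℕ) (hA : Nm b.body b.w A) (hF : ∀ x ∈ b.body, Fat (A x))
    (C : Pt I → Finset ℕ)
    (hC : LC {x | x ∈ b.body ∧ x α ∈ K ∧ pre (x α) u.length = u ∧ ∀ i, u.length ≤ i → x α i ∈ A x}
      (insert α b.w) C) (M : ℕ) :
    ∃ b' ≤ b, b'.w ⊆ Iio α ∧ ∃ (A' : Pt I → Set ℕ) (F : Finset ℕ),
      Nm b'.body b'.w A' ∧ (∀ x ∈ b'.body, Fat (A' x) ∧ A' x ⊆ A x) ∧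
      Forces α b' u A' (fun x => (C x).filter (· < M) = F) := by
  obtain ⟨p, hpw, hpd, hps, hpy, hpb, hpdom⟩ := exists_top b α hb (fun _ => u)
    (fun x => zm [] (A x)) (LC.const u)
    (fun i => LC.zm (LC.const []) hA (fun _ _ => isStem_nil) hF i) (fun _ _ => hu)
    (fun x hx => zm_mem_K isStem_nil (hF x hx))
  have hpL : p.w ⊆ Iic α := by
    rw [hpw]
    rintro γ (h | h)
    · exact le_of_eq h
    · exact le_of_lt (hb h)
  have hαp : α ∈ p.w := by rw [hpw]; exact mem_insert _ _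
  have hsub : p.body ⊆ {x | x ∈ b.body ∧ x α ∈ K ∧ pre (x α) u.length = u ∧
      ∀ i, u.length ≤ i → x α i ∈ A x} := by
    intro x hx
    rw [hpb] at hx
    obtain ⟨h1, h2, h3, h4⟩ := hx
    exact ⟨h1, h2, h3, fun i hi => range_zm_nil (hF x h1) (h4 i hi)⟩
  have hCp : LC p.body p.w C := hC.mono hsub (by rw [hpw])
  let ι : Type := ((Finset.range M).powerset : Finset (Finset ℕ))
  let G : ι → Set (Cond I) := fun c => {r | r.w ⊆ Iic α ∧ ∀ x ∈ r.body, (C x).filter (· < M) = c.1}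
  obtain ⟨q, hqp, hqL, ⟨c, hc⟩, hqs⟩ := pure0 (Iic α) (isLowerSet_Iic α) α (mem_Iic.2 le_rfl)
    (cr_all (Iio α) (isLowerSet_Iio α)) G
    (fun c r hr r' hr' hw => ⟨hw, fun x hx => hr.2 x (hr'.2 hx)⟩)
    (fun c q hq hR => ⟨hq, fun x hx => by
      obtain ⟨r, hr, hrx⟩ := hR x hx
      exact hr.2 x hrx.2.1⟩) p hpL hαp (by
      intro q hq hqw
      obtain ⟨x, hx⟩ := q.body_nonempty
      obtain ⟨r, hr, hrc⟩ := exists_nbhd_const q hx (hCp.mono hq.2 hq.1)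
      have hm : (C x).filter (· < M) ∈ (Finset.range M).powerset := by
        rw [Finset.mem_powerset]
        intro m hm
        rw [Finset.mem_filter] at hm
        exact Finset.mem_range.2 hm.2
      refine ⟨r, hr.le, by rw [hr.1]; exact hqw, mem_iUnion.2 ⟨⟨_, hm⟩, ?_, ?_⟩⟩
      · rw [hr.1]; exact hqw
      · intro y hy
        show (C y).filter (· < M) = (C x).filter (· < M)
        rw [hrc y hy])
  have hαq : α ∈ q.w := hqp.1 hαp
  have hbb : (q.res (Iio α) (isLowerSet_Iio α)).body = q.dom (Iio α) := Cond.res_body _ _ _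
  have hqdom : q.dom (Iio α) ⊆ b.body := by
    rw [← hpdom]
    exact Cond.dom_mono hqp (isLowerSet_Iio α)
  have hsx : ∀ x ∈ q.dom (Iio α), q.s α x = u := by
    intro x hx
    rw [hqs x hx, hps]
  refine ⟨q.res (Iio α) (isLowerSet_Iio α), ⟨?_, ?_⟩, inter_subset_right,
    fun x => range (q.y α x) ∩ A x, c.1, ?_, ?_, ?_⟩
  · intro γ hγ
    refine ⟨hqp.1 ?_, hb hγ⟩
    rw [hpw]
    exact mem_insert_of_mem _ hγ
  · rw [hbb]; exact hqdom
  · refine Nm.inter (Nm.range (fun i => ?_) ?_) (hA.mono ?_ ?_)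
    · rw [hbb]; exact q.hy α hαq i
    · rw [hbb]; exact q.hK α hαq
    · rw [hbb]; exact hqdom
    · intro γ hγ
      refine ⟨hqp.1 ?_, hb hγ⟩
      rw [hpw]
      exact mem_insert_of_mem _ hγ
  · intro x hx
    rw [hbb] at hx
    refine ⟨?_, inter_subset_right⟩
    refine fat_reach hu (q.hK α hαq x hx) ?_
    intro z hz i hi
    rw [← hsx x hx] at hz hi
    have := Cond.Fib_mono hqp hαp hx hz
    rw [hps, hpy] at this
    rw [hsx x hx] at hi
    exact range_zm_nil (hF x (hqdom hx)) (this.2.2 i hi)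
  · intro x hx hK hux hi
    rw [hbb] at hx
    refine hc.2 x (mem_body_of q hqL hx ?_)
    rw [hsx x hx]
    exact ⟨hK, hux, fun i hiu => (hi i hiu).1⟩

/-- the state of the recursion -/
abbrev St (I : Type) : Type := (Pt I → Set ℕ) × Finset ℕ × ℕ

def Inv (α : I) (b0 : Cond I) (A : Pt I → Set ℕ) (u : List ℕ) (C : Pt I → Finset ℕ) (j : ℕ)
    (b : Cond I) (s : St I) : Prop :=
  b ≤ b0 ∧ Nm b.body b.w s.1 ∧ (∀ x ∈ b.body, Fat (s.1 x) ∧ s.1 x ⊆ A x) ∧
    Forces α b u s.1 (fun x => (C x).filter (· < j) = s.2.1)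

def Nx (j : ℕ) (b : Cond I) (s s' : St I) : Prop :=
  lam s'.2.2 = lam j ∧ ∀ x ∈ b.body, s'.2.2 ∈ s.1 x ∧ s'.1 x ⊆ s.1 x ∧ ∀ a ∈ s'.1 x, s'.2.2 < a

theorem step_all (α : I) (b0 : Cond I) (u : List ℕ) (hu : IsStem u)
    (A : Pt I → Set ℕ) (C : Pt I → Finset ℕ)
    (hC : LC {x | x ∈ b0.body ∧ x α ∈ K ∧ pre (x α) u.length = u ∧
      ∀ i, u.length ≤ i → x α i ∈ A x} (insert α b0.w) C) (j : ℕ) (b : Cond I) (s : St I)
    (hb : b.w ⊆ Iio α) (h : Inv α b0 A u C j b s) :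
    ∃ b' ≤ b, b'.w ⊆ Iio α ∧ ∃ s', Nx j b' s s' ∧ Inv α b0 A u C (j + 1) b' s' := by
  obtain ⟨hle, hnm, hfat, -⟩ := h
  obtain ⟨b', hb', hb'w, A', F, hA', hFA', hfor⟩ := decide_step α b hb u hu s.1 hnm
    (fun x hx => (hfat x hx).1) C (hC.mono (by
      rintro x ⟨h1, h2, h3, h4⟩
      exact ⟨hle.2 h1, h2, h3, fun i hi => (hfat x h1).2 (h4 i hi)⟩)
      (insert_subset_insert hle.1)) (j + 1)
  obtain ⟨x0, hx0⟩ := b'.body_nonempty
  obtain ⟨r, hr, hrc⟩ := exists_nbhd_const b' hx0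
    (LC.nxt hA' (fun x hx => (hFA' x hx).1) 0 (lam j))
  have hspec := nxt_spec (hFA' x0 hx0).1 0 (lam j)
  set e := nxt (A' x0) 0 (lam j) with he
  refine ⟨r, hr.le.trans hb', by rw [hr.1]; exact hb'w, (fun x => {m | m ∈ A' x ∧ e < m}, F, e),
    ⟨hspec.2.2, ?_⟩, ?_⟩
  · intro x hx
    have hx' : x ∈ b'.body := hr.le.2 hx
    have h1 := nxt_spec (hFA' x hx').1 0 (lam j)
    rw [hrc x hx] at h1
    exact ⟨(hFA' x hx').2 h1.1, fun a ha => (hFA' x hx').2 ha.1, fun a ha => ha.2⟩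
  · refine ⟨(hr.le.trans hb').trans hle, Nm.tail (hA'.mono hr.le.2 hr.le.1) (LC.const e), ?_, ?_⟩
    · intro x hx
      have hx' : x ∈ b'.body := hr.le.2 hx
      exact ⟨(hFA' x hx').1.tail (e + 1), fun a ha =>
        (hfat x (hb'.2 hx')).2 ((hFA' x hx').2 ha.1)⟩
    · exact hfor.mono hr.le fun x _ a ha => ha.1

end TiedIn

open TiedIn in
theorem tied_in (α : I) (b : Cond I) (hb : b.w ⊆ Iio α) (u : List ℕ) (hu : IsStem u)
    (A : Pt I → Set ℕ) (hA : Nm b.body b.w A) (hF : ∀ x ∈ b.body, Fat (A x)) (h : ℕ)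
    (C : Pt I → Finset ℕ)
    (hC : LC {x | x ∈ b.body ∧ x α ∈ K ∧ pre (x α) u.length = u ∧ ∀ i, u.length ≤ i → x α i ∈ A x}
      (insert α b.w) C)
    (hc : Forces α b u A (fun x => (C x).card ≤ h)) :
    ∃ b' ≤ b, b'.w ⊆ Iio α ∧ ∃ (A' : Pt I → Set ℕ) (F0 : Finset ℕ) (e : ℕ → Pt I → ℕ),
      Nm b'.body b'.w A' ∧ (∀ x ∈ b'.body, Fat (A' x) ∧ A' x ⊆ A x) ∧
      (∀ M, LC b'.body b'.w (e M)) ∧
      ∀ M, Forces α b' u (fun x => {a | a ∈ A' x ∧ e M x ≤ a})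
        (fun x => (C x).filter (· < M) = F0.filter (· < M)) := by
  have hCR := cr_all (Iio α) (isLowerSet_Iio α)
  obtain ⟨b1, hb1, hb1w, S, hS0, hSL, hS⟩ := seq_choice (Iio α) (isLowerSet_Iio α) hCR
    (Inv α b A u C) Nx
    (by
      rintro j b b' s hb _ ⟨h1, h2, h3, h4⟩
      exact ⟨hb.trans h1, h2.mono hb.2 hb.1, fun x hx => h3 x (hb.2 hx),
        h4.mono hb fun _ _ => Subset.rfl⟩)
    (by
      rintro j b b' s s' hb _ ⟨h1, h2⟩
      exact ⟨h1, fun x hx => h2 x (hb.2 hx)⟩)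
    (fun j b' s hb' h' => step_all α b u hu A C hC j b' s hb' h') b hb (A, ∅, 0)
    ⟨le_rfl, hA, fun x hx => ⟨hF x hx, Subset.rfl⟩, fun x _ _ _ _ => by
      show (C _).filter (· < 0) = ∅
      rw [Finset.filter_eq_empty_iff]
      intro m _
      exact Nat.not_lt_zero m⟩
  -- facts at a point
  have hanti : ∀ x ∈ b1.body, ∀ i j, i ≤ j → (S j x).1 x ⊆ (S i x).1 x := by
    intro x hx i j hij
    induction j, hij using Nat.le_induction with
    | base => exact Subset.rfl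
    | succ j hij ih =>
      obtain ⟨r, hr, -, hN, -⟩ := hS j x hx
      exact (hN.2 x hr.2.1).2.1.trans ih
  have hsubA : ∀ x ∈ b1.body, ∀ j, Fat ((S j x).1 x) ∧ (S j x).1 x ⊆ A x := by
    intro x hx j
    obtain ⟨r, hr, hI, -, -⟩ := hS j x hx
    exact hI.2.2.1 x hr.2.1
  have hforce : ∀ x ∈ b1.body, ∀ j, x α ∈ K → pre (x α) u.length = u →
      (∀ i, u.length ≤ i → x α i ∈ (S j x).1 x) → (C x).filter (· < j) = (S j x).2.1 := by
    intro x hx j h1 h2 h3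
    obtain ⟨r, hr, hI, -, -⟩ := hS j x hx
    exact hI.2.2.2 x hr.2.1 h1 h2 h3
  -- coherence
  have hcoh : ∀ x ∈ b1.body, ∀ j, ∃ c : Finset ℕ, c.card ≤ h ∧ ∀ i ≤ j,
      (S i x).2.1 = c.filter (· < i) := by
    intro x hx j
    obtain ⟨x', hx'⟩ : ∃ x' : Pt I, x' = Function.update x α (zm u ((S j x).1 x)) := ⟨_, rfl⟩
    have hxa : x' α = zm u ((S j x).1 x) := by rw [hx']; exact Function.update_self _ _ _
    have hxb : ∀ β, β ≠ α → x' β = x β := by
      intro β hβ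
      rw [hx']
      exact Function.update_of_ne hβ _ _
    have hx'w : ∀ w : Set I, w ⊆ Iio α → ∀ β ∈ w, x' β = x β := fun w hw β hβ =>
      hxb β (ne_of_lt (hw hβ))
    have hx'b : ∀ r : Cond I, r.w ⊆ Iio α → x ∈ r.body → x' ∈ r.body := by
      intro r hrw hxr
      rw [r.body_eq_dom hrw] at hxr ⊢
      exact r.dom_congr (isLowerSet_Iio α) hxr fun β hβ _ => hx'w r.w hrw β hβ
    have hfat := (hsubA x hx j).1
    refine ⟨C x', ?_, fun i hi => ?_⟩
    · refine hc x' (hb1.2 (hx'b b1 hb1w hx)) ?_ ?_ ?_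
      · rw [hxa]; exact zm_mem_K hu hfat
      · rw [hxa]; exact zm_pre hu hfat
      · intro k hk
        have e1 : A x' = A x := by
          ext m
          have := (hA m).eq_of_agree (hb1.2 hx) (hb1.2 (hx'b b1 hb1w hx))
            (fun β hβ => hx'w b.w hb β hβ)
          exact iff_of_eq this
        rw [hxa, e1]
        exact (hsubA x hx j).2 (zm_mem hu hfat k hk)
    · obtain ⟨r, hr, hI, -, -⟩ := hS i x hx
      have hrw : r.w ⊆ Iio α := by rw [hr.1]; exact hb1w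
      refine (hI.2.2.2 x' (hx'b r hrw hr.2.1) ?_ ?_ ?_).symm
      · rw [hxa]; exact zm_mem_K hu hfat
      · rw [hxa]; exact zm_pre hu hfat
      · intro k hk
        have e1 : (S i x).1 x' = (S i x).1 x := by
          ext m
          have := (hI.2.1 m).eq_of_agree hr.2.1 (hx'b r hrw hr.2.1)
            (fun β hβ => hx'w r.w hrw β hβ)
          exact iff_of_eq this
        rw [hxa, e1]
        exact hanti x hx i j hi (zm_mem hu hfat k hk)
  -- the name of the union of the `F_j`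
  obtain ⟨N, hN⟩ : ∃ N : Pt I → Set ℕ, N = fun x => {m | m ∈ (S (m + 1) x).2.1} := ⟨_, rfl⟩
  have hNF : ∀ x ∈ b1.body, ∀ j m, m ∈ (S j x).2.1 ↔ m < j ∧ m ∈ N x := by
    intro x hx j m
    obtain ⟨c, -, hcj⟩ := hcoh x hx (max j (m + 1))
    rw [hN]
    show m ∈ (S j x).2.1 ↔ m < j ∧ m ∈ (S (m + 1) x).2.1
    rw [hcj j (le_max_left _ _), hcj (m + 1) (le_max_right _ _), Finset.mem_filter,
      Finset.mem_filter]
    constructor
    · rintro ⟨h1, h2⟩; exact ⟨h2, h1, Nat.lt_succ_self m⟩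
    · rintro ⟨h1, h2, _⟩; exact ⟨h2, h1⟩
  have hNfin : ∀ x ∈ b1.body, ¬ (N x).Infinite := by
    intro x hx hinf
    obtain ⟨T, hT, hTc⟩ := hinf.exists_subset_card_eq (h + 1)
    obtain ⟨c, hcc, hcj⟩ := hcoh x hx (T.sup id + 1)
    have : T ⊆ c := by
      intro m hm
      have h1 : m ≤ T.sup id := Finset.le_sup (f := id) hm
      have h2 : m ∈ (S (m + 1) x).2.1 := by
        have := hT hm
        rw [hN] at this
        exact this
      rw [hcj (m + 1) (by omega)] at h2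
      exact (Finset.mem_filter.1 h2).1
    have := Finset.card_le_card this
    omega
  have hNnm : Nm b1.body b1.w N := by
    intro m
    rw [hN]
    exact (hSL (m + 1)).comp (fun s => m ∈ s.2.1)
  obtain ⟨b2, hb2, hb2w, hb2N⟩ := inf_or_bdd (Iio α) (isLowerSet_Iio α) hCR b1 hb1w N hNnm
  obtain ⟨k, hk⟩ : ∃ k, ∀ x ∈ b2.body, ∀ m ∈ N x, m < k := by
    rcases hb2N with h1 | h1
    · obtain ⟨x, hx⟩ := b2.body_nonempty
      exact absurd (h1 x hx) (hNfin x (hb2.2 hx))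
    · exact h1
  obtain ⟨x0, hx0⟩ := b2.body_nonempty
  obtain ⟨r, hr, hrc⟩ := exists_nbhd_const b2 hx0
    (((hSL k).mono hb2.2 hb2.1).comp (fun s => s.2.1))
  have hrb1 : r ≤ b1 := hr.le.trans hb2
  have hYstep : ∀ x ∈ b1.body, ∀ j, lam (S (j + 1) x).2.2 = lam j ∧ (S (j + 1) x).2.2 ∈ (S j x).1 x ∧
      ∀ a ∈ (S (j + 1) x).1 x, (S (j + 1) x).2.2 < a := by
    intro x hx j
    obtain ⟨r, hr, -, hN, -⟩ := hS j x hx
    exact ⟨hN.1, (hN.2 x hr.2.1).1, (hN.2 x hr.2.1).2.2⟩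
  have hYK : ∀ x ∈ b1.body, (fun j => (S (j + 1) x).2.2) ∈ K := by
    intro x hx
    refine ⟨strictMono_nat_of_lt_succ fun j => ?_, fun j => (hYstep x hx j).1⟩
    exact (hYstep x hx j).2.2 _ (hYstep x hx (j + 1)).2.1
  have hYL : ∀ j, LC r.body r.w (fun x => (S (j + 1) x).2.2) := fun j =>
    ((hSL (j + 1)).mono hrb1.2 hrb1.1).comp (fun s => s.2.2)
  refine ⟨r, hrb1.trans hb1, by rw [hr.1]; exact hb2w,
    fun x => range (fun j => (S (j + 1) x).2.2), (S k x0).2.1, fun M x => (S (M + 1) x).2.2, ?_, ?_,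
    hYL, ?_⟩
  · exact Nm.range (Y := fun x j => (S (j + 1) x).2.2) hYL fun x hx => hYK x (hrb1.2 hx)
  · intro x hx
    refine ⟨fat_range (hYK x (hrb1.2 hx)), ?_⟩
    rintro _ ⟨j, rfl⟩
    exact (hsubA x (hrb1.2 hx) j).2 (hYstep x (hrb1.2 hx) j).2.1
  · intro M x hx hxK hxu hxi
    have hx1 := hrb1.2 hx
    have h1 : (C x).filter (· < M) = (S M x).2.1 := by
      refine hforce x hx1 M hxK hxu fun i hi => ?_
      obtain ⟨⟨j, hj⟩, hle⟩ := hxi i hi
      have hjM : M ≤ j := by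
        by_contra hlt
        have := (hYK x hx1).1 (not_le.1 hlt)
        simp only at this hj hle
        omega
      rw [← hj]
      exact hanti x hx1 M j hjM (hYstep x hx1 j).2.1
    rw [h1]
    ext m
    have h2 : (S k x).2.1 = (S k x0).2.1 := hrc x hx
    rw [Finset.mem_filter, ← h2, hNF x hx1, hNF x hx1]
    constructor
    · rintro ⟨h3, h4⟩
      exact ⟨⟨hk x (hr.le.2 hx) m h4, h4⟩, h3⟩
    · rintro ⟨⟨_, h4⟩, h3⟩
      exact ⟨h3, h4⟩

end Pool.Agent.QPt
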