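import Pool.Agent.QPt.Rep
import Pool.Agent.QPt.Nbhd

/-!
# The name of an ultrafilter given by a Boolean-valued `V` (module UE)
-/

set_option autoImplicit false
set_option linter.unusedSectionVars false

namespace Pool.Agent.QPt

open Set

variable {I : Type} [LinearOrder I] [WellFoundedLT I] {W : WName I}

section Boolean

variable {𝔹 : Type} [CompleteBooleanAlgebra 𝔹] (D : DEmb (Cond2 W) 𝔹)

theorem VR.iff {V : (ℕ → 𝔹) → 𝔹} {b : 𝔹} (hV : IsQV V b) {c : Cond2 W} (hc : D.e c ≤ b)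
    {a : Pt I → Set ℕ} {A : ℕ → 𝔹} (h : Rep D c a A) : VR D V c a ↔ D.e c ≤ V A := by
  constructor
  · rintro ⟨A', h', hA'⟩
    have h1 : D.e c ≤ ⨅ m, (A' m ⇨ A m) :=
      (Rep.himp_le D h' h (le_refl c)).2 fun x _ => Subset.rfl
    exact (le_inf hc (le_inf h1 hA')).trans (hV.up A' A)
  · intro h1
    exact ⟨A, h, h1⟩

namespace UEAux

/-- a condition forcing that a name contains `k` -/
theorem exists_sub (c : Cond2 W) {x : Pt I} (hx : x ∈ c.p.body) {γ : Type} {f : Pt I → γ}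
    (hf : LC c.p.body c.p.w f) : ∃ c' ≤ c, ∃ _ : x ∈ c'.p.body, ∀ y ∈ c'.p.body, f y = f x := by
  obtain ⟨r, hr, hrf⟩ := exists_nbhd_const c.p hx hf
  exact ⟨c.sub r hr.le, c.sub_le r hr.le, hr.2.1, hrf⟩

theorem up {V : (ℕ → 𝔹) → 𝔹} {b : 𝔹} (hV : IsQV V b) {c : Cond2 W} (hc : D.e c ≤ b)
    {a a' : Pt I → Set ℕ} {A A' : ℕ → 𝔹} (h : Rep D c a A) (h' : Rep D c a' A')
    (hsub : ∀ x ∈ c.p.body, a x ⊆ a' x) (hA : D.e c ≤ V A) : D.e c ≤ V A' :=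
  (le_inf hc (le_inf ((Rep.himp_le D h h' (le_refl c)).2 hsub) hA)).trans (hV.up A A')

/-- a sequence of values with a value in `V` has large members -/
theorem exists_large {V : (ℕ → 𝔹) → 𝔹} {b : 𝔹} (hV : IsQV V b) {c : Cond2 W} (hc : D.e c ≤ b)
    {A : ℕ → 𝔹} (hA : D.e c ≤ V A) (n : ℕ) : ∃ c' ≤ c, ∃ k, n ≤ k ∧ D.e c' ≤ A k := by
  have h1 : D.e c ≤ ⨆ k, ⨆ _ : n ≤ k, A k := (le_inf hc hA).trans (hV.inf A n)
  obtain ⟨r, hr, k, hk⟩ := (D.le_iSup_iff).1 h1 c le_rfl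
  obtain ⟨s, hs, hnk, hk'⟩ := (D.le_iSup_iff).1 hk r le_rfl
  exact ⟨s, hs.trans hr, k, hnk, hk'⟩

theorem cofin {V : (ℕ → 𝔹) → 𝔹} {b : 𝔹} (hV : IsQV V b) {c : Cond2 W} (hc : D.e c ≤ b)
    {A : ℕ → 𝔹} {k : ℕ} (h : Rep D c (fun _ => Ici k) A) : D.e c ≤ V A := by
  refine D.le_of_dense fun q hq => ?_
  have h1 : D.e q ≤ V A ⊔ V (fun m => (A m)ᶜ) := ((D.mono _ _ hq).trans hc).trans (hV.ultra A)
  obtain ⟨r, hr, h2⟩ := (D.le_sup_iff).1 h1 q le_rfl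
  rcases h2 with h2 | h2
  · exact ⟨r, hr, h2⟩
  · exfalso
    have hrb : D.e r ≤ b := (D.mono _ _ (hr.trans hq)).trans hc
    obtain ⟨s, hs, j, hj, hsj⟩ := exists_large D hV hrb h2 k
    have h3 : D.e s ≤ A j := (Rep.le_iff D h (hs.trans (hr.trans hq)) j).2 fun x _ => hj
    refine D.ne s (le_bot_iff.1 ?_)
    rw [← inf_compl_eq_bot (a := A j)]
    exact le_inf h3 hsj

theorem proper {V : (ℕ → 𝔹) → 𝔹} {b : 𝔹} (hV : IsQV V b) {c : Cond2 W} (hc : D.e c ≤ b) :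
    ¬ VR D V c (fun _ => ∅) := by
  rintro ⟨A, h, hA⟩
  obtain ⟨s, hs, k, -, hk⟩ := exists_large D hV hc hA 0
  obtain ⟨x, hx⟩ := s.p.body_nonempty
  exact (Rep.le_iff D h hs k).1 hk x hx

theorem ultra {V : (ℕ → 𝔹) → 𝔹} {b : 𝔹} (hV : IsQV V b) {c : Cond2 W} (hc : D.e c ≤ b)
    {a : Pt I → Set ℕ} (ha : Nm c.p.body c.p.w a) :
    ∃ c' ≤ c, VR D V c' a ∨ VR D V c' (fun x => (a x)ᶜ) := by
  have hrep := rep_hat D c a ha
  have h1 : D.e c ≤ V (hat D c a) ⊔ V (fun m => (hat D c a m)ᶜ) := hc.trans (hV.ultra _)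
  obtain ⟨r, hr, h2⟩ := (D.le_sup_iff).1 h1 c le_rfl
  refine ⟨r, hr, ?_⟩
  rcases h2 with h2 | h2
  · exact Or.inl ⟨_, Rep.mono D hrep hr, h2⟩
  · exact Or.inr ⟨_, Rep.compl D (Rep.mono D hrep hr), h2⟩

theorem Q {V : (ℕ → 𝔹) → 𝔹} {b : 𝔹} (hV : IsQV V b) {c : Cond2 W} (hc : D.e c ≤ b)
    {Y : Pt I → Set ℕ} (hY : Nm c.p.body c.p.w Y) (hinf : ∀ x ∈ c.p.body, (Y x).Infinite) :
    ∃ c' ≤ c, ∃ e, VR D V c' e ∧ ∀ x ∈ c'.p.body, ∀ m ∈ e x, ∀ m' ∈ e x, m < m' →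
      ∃ y ∈ Y x, m < y ∧ y ≤ m' := by
  have hrep := rep_hat D c Y hY
  have h1 : D.e c ≤ ⨅ n : ℕ, ⨆ k, ⨆ _ : n ≤ k, hat D c Y k := by
    refine le_iInf fun n => ?_
    refine D.le_of_dense fun q hq => ?_
    obtain ⟨x, hx⟩ := q.p.body_nonempty
    obtain ⟨k, hk, hnk⟩ := (hinf x (hq.1.2 hx)).exists_gt n
    obtain ⟨r, hr, hxr, hrf⟩ := exists_sub q hx (f := fun x => k ∈ Y x)
      ((hY.mono hq.1.2 hq.1.1) k)
    refine ⟨r, hr, ?_⟩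
    have h2 : D.e r ≤ hat D c Y k := (Rep.le_iff D hrep (hr.trans hq) k).2 fun y hy =>
      (iff_of_eq (hrf y hy)).2 hk
    exact h2.trans (le_iSup_of_le k (le_iSup_of_le hnk.le le_rfl))
  have h2 := (le_inf hc h1).trans (hV.Q (hat D c Y))
  obtain ⟨r, hr, A, hA⟩ := (D.le_iSup_iff).1 h2 c le_rfl
  obtain ⟨c', hc', a, ha⟩ := exists_rep D r A
  refine ⟨c', hc'.trans hr, a, ⟨A, ha, (D.mono _ _ hc').trans (hA.trans inf_le_left)⟩, ?_⟩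
  intro x hx m hm m' hm' hlt
  by_contra hcon
  push Not at hcon
  -- shrink to a neighbourhood where everything relevant is constant
  have hLC : LC c'.p.body c'.p.w
      (fun x => (m ∈ a x ∧ m' ∈ a x) ∧ ∀ y ∈ Finset.range (m' + 1), y ∈ Y x → ¬ (m < y ∧ y ≤ m')) := by
    refine ((((ha.1 m).prod (ha.1 m')).comp fun q : Prop × Prop => q.1 ∧ q.2).prod
      (?_ : LC c'.p.body c'.p.w (fun x => ∀ y ∈ Finset.range (m' + 1), y ∈ Y x →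
        ¬ (m < y ∧ y ≤ m')))).comp (fun q : Prop × Prop => q.1 ∧ q.2)
    have hYc : Nm c'.p.body c'.p.w Y := hY.mono (hc'.trans hr).1.2 (hc'.trans hr).1.1
    refine LC.of_Nm hYc fun z _ => ⟨m' + 1, fun y _ hk => propext ?_⟩
    constructor
    · intro h i hi hiY
      exact h i hi ((hk i (Finset.mem_range.1 hi)).2 hiY)
    · intro h i hi hiY
      exact h i hi ((hk i (Finset.mem_range.1 hi)).1 hiY)
  obtain ⟨c'', hc'', hxc, hconst⟩ := exists_sub c' hx hLC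
  have htrue : ∀ y ∈ c''.p.body, (m ∈ a y ∧ m' ∈ a y) ∧
      ∀ i ∈ Finset.range (m' + 1), i ∈ Y y → ¬ (m < i ∧ i ≤ m') := fun y hy =>
    (iff_of_eq (hconst y hy)).2 ⟨⟨hm, hm'⟩, fun i _ hiY hi => not_lt.2 hi.2 (hcon i hiY hi.1)⟩
  have e1 : D.e c'' ≤ A m := (Rep.le_iff D ha hc'' m).2 fun y hy => (htrue y hy).1.1
  have e2 : D.e c'' ≤ A m' := (Rep.le_iff D ha hc'' m').2 fun y hy => (htrue y hy).1.2
  have e3 : D.e c'' ≤ (A m ⊓ A m') ⇨ ⨆ y, ⨆ _ : m < y ∧ y ≤ m', hat D c Y y := by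
    refine (D.mono _ _ (hc''.trans hc')).trans (hA.trans (inf_le_right.trans ?_))
    exact iInf_le_of_le m (iInf_le_of_le m' (iInf_le_of_le hlt le_rfl))
  have e4 : D.e c'' ≤ ⨆ y, ⨆ _ : m < y ∧ y ≤ m', hat D c Y y :=
    (le_inf e3 (le_inf e1 e2)).trans himp_inf_le
  obtain ⟨s, hs, y, hy⟩ := (D.le_iSup_iff).1 e4 c'' le_rfl
  obtain ⟨s', hs', hmy, hy'⟩ := (D.le_iSup_iff).1 hy s le_rfl
  obtain ⟨z, hz⟩ := s'.p.body_nonempty
  have h3 : y ∈ Y z := (Rep.le_iff D hrep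
    (hs'.trans (hs.trans (hc''.trans (hc'.trans hr)))) y).1 hy' z hz
  exact (htrue z ((hs'.trans hs).1.2 hz)).2 y (Finset.mem_range.2 (Nat.lt_succ_of_le hmy.2)) h3 hmy

end UEAux

/-- all fields of `EName` except `N` -/
theorem exists_EName {V : (ℕ → 𝔹) → 𝔹} {b : 𝔹} (hV : IsQV V b) (c0 : Cond2 W) (hc0 : D.e c0 ≤ b)
    (hN : ∀ c Γ, c ≤ c0 → Nm c.p.body c.p.w Γ →
      (∀ x ∈ c.p.body, ∀ i j k, Nat.pair i j ∈ Γ x → Nat.pair i k ∈ Γ x → j = k) →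
      (∀ x ∈ c.p.body, ∀ i j k, Nat.pair i k ∈ Γ x → Nat.pair j k ∈ Γ x → i = j) →
      ∃ c' ≤ c, ∃ A B, Nm c'.p.body c'.p.w A ∧ LeW W c'.p c'.Z A ∧ VR D V c' B ∧
        ∀ x ∈ c'.p.body, ∀ i ∈ A x, ∀ j ∈ B x, Nat.pair i j ∉ Γ x) :
    ∃ E : EName W c0, E.R = VR D V := by
  have hb : ∀ {c : Cond2 W}, c ≤ c0 → D.e c ≤ b := fun hc => (D.mono _ _ hc).trans hc0
  refine ⟨{ R := VR D V
            nm := fun c a h => ?_
            mono := fun c c' a h hc => ?_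
            up := fun c a a' hc h ha' hsub => ?_
            inter := fun c a a' hc h h' => ?_
            ultra := fun c a hc ha => UEAux.ultra D hV (hb hc) ha
            cofin := fun c k hc => ?_
            proper := fun c hc => UEAux.proper D hV (hb hc)
            Q := fun c Y hc hY hinf => UEAux.Q D hV (hb hc) hY hinf
            N := hN }, rfl⟩
  · obtain ⟨A, hA, -⟩ := h
    exact hA.1
  · obtain ⟨A, hA, hA'⟩ := h
    exact ⟨A, Rep.mono D hA hc, (D.mono _ _ hc).trans hA'⟩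
  · obtain ⟨A, hA, hA'⟩ := h
    have hrep := rep_hat D c a' ha'
    exact ⟨_, hrep, UEAux.up D hV (hb hc) hA hrep hsub hA'⟩
  · obtain ⟨A, hA, hA1⟩ := h
    obtain ⟨A', hA', hA1'⟩ := h'
    exact ⟨_, Rep.inter D hA hA', (le_inf (hb hc) (le_inf hA1 hA1')).trans (hV.inter A A')⟩
  · have hrep := rep_hat D c (fun _ => Ici k) (Nm.const _)
    exact ⟨_, hrep, UEAux.cofin D hV (hb hc) hrep⟩

end Boolean

end Pool.Agent.QPt
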